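import Pool.Agent.Lib.Psd.Defs

set_option autoImplicit false

/-!
# Linear algebra of the components of two-forms on `ℝ⁴`

PROOFS. Everything is a polynomial (in)equality: expand with `Fin.sum_univ_four`, substitute the skew symmetry (`T 1 0 = - T 0 1`, `T i i = 0`), `ring` / `nlinarith`. For the estimates: every entry of `tr a d m₁ m₂ τ` is a sum of
at most 16 terms, each at most `|τ k l|` (entries of `Rm` are at most `1`); `tr_near`: `|tr a d m₁ m₂ τ i j - τ i j| ≤ 48 ε * max |τ|` because the entries of `Rm - 1` are at most `ε` and those of `Rm` at most `1`;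
`asd` is linear and `nrm2 (asd S) ≤ nrm2 S` for skew `S`. `lin`: `Pf t = (nrm2 (sd t) - nrm2 (asd t)) / 4`, `sd t`, `asd t` are within `C η sqrt (nrm2 c)` of `sd c`, `asd c`.
`nd_of_Pf`: for skew `t`, `∑_j (st t) i j * t j k = - Pf t * δ_ik` (check the 16 entries), so `x` with `∑_i x i * t i j = 0` satisfies `Pf t * x = 0`.
-/

open MeasureTheory Set Metric
open scoped ContDiff

namespace Pool.Agent.Lib.Psd

open Pool.Agent.P28b04d

namespace AlgAux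

theorem sk {τ : Fin 4 → Fin 4 → ℝ} (h : Skew τ) :
    (τ 0 0 = 0 ∧ τ 1 1 = 0 ∧ τ 2 2 = 0 ∧ τ 3 3 = 0) ∧
    (τ 1 0 = -τ 0 1 ∧ τ 2 0 = -τ 0 2 ∧ τ 3 0 = -τ 0 3) ∧
    (τ 2 1 = -τ 1 2 ∧ τ 3 1 = -τ 1 3 ∧ τ 3 2 = -τ 2 3) := by
  refine ⟨⟨?_, ?_, ?_, ?_⟩, ⟨h 1 0, h 2 0, h 3 0⟩, ⟨h 2 1, h 3 1, h 3 2⟩⟩
  · have := h 0 0; linarith
  · have := h 1 1; linarith
  · have := h 2 2; linarith
  · have := h 3 3; linarith

theorem sq_sum_le {c τ : Fin 4 → Fin 4 → ℝ} {B : ℝ} (hc : ∀ k l, |c k l| ≤ B) :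
    (∑ k, ∑ l, c k l * τ k l) ^ 2 ≤ 16 * B ^ 2 * nrm2 τ := by
  have h1 : (∑ p : Fin 4 × Fin 4, c p.1 p.2 * τ p.1 p.2) ^ 2 ≤
      (∑ p : Fin 4 × Fin 4, c p.1 p.2 ^ 2) * ∑ p : Fin 4 × Fin 4, τ p.1 p.2 ^ 2 :=
    Finset.sum_mul_sq_le_sq_mul_sq _ _ _
  rw [Fintype.sum_prod_type, Fintype.sum_prod_type, Fintype.sum_prod_type] at h1
  have hB : ∀ k l, c k l ^ 2 ≤ B ^ 2 := fun k l => by
    rw [← sq_abs]
    exact pow_le_pow_left₀ (abs_nonneg _) (hc k l) 2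
  have h2 : ∑ k : Fin 4, ∑ l : Fin 4, c k l ^ 2 ≤ ∑ _k : Fin 4, ∑ _l : Fin 4, B ^ 2 :=
    Finset.sum_le_sum fun k _ => Finset.sum_le_sum fun l _ => hB k l
  have h3 : ∑ _k : Fin 4, ∑ _l : Fin 4, B ^ 2 = 16 * B ^ 2 := by
    simp only [Finset.sum_const, Finset.card_univ, Fintype.card_fin, nsmul_eq_mul]
    push_cast
    ring
  have h4 : 0 ≤ nrm2 τ := Finset.sum_nonneg fun i _ => Finset.sum_nonneg fun j _ => sq_nonneg _
  calc _ ≤ _ := h1
    _ ≤ 16 * B ^ 2 * nrm2 τ := by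
      rw [← h3]
      exact mul_le_mul_of_nonneg_right h2 h4

theorem Rm_le {a d m₁ m₂ : ℝ} (ha : |a| ≤ 1) (hd : |d| ≤ 1) (h1 : |m₁| ≤ 1) (h2 : |m₂| ≤ 1)
    (k i : Fin 4) : |Rm a d m₁ m₂ k i| ≤ 1 := by
  fin_cases k <;> fin_cases i <;> simp [Rm, ha, hd, h1, h2]

theorem Rm_sub_le {a d m₁ m₂ ε : ℝ} (ha : |1 - a| ≤ ε) (hd : |1 - d| ≤ ε) (h1 : |m₁| ≤ ε)
    (h2 : |m₂| ≤ ε) (k i : Fin 4) : |Rm a d m₁ m₂ k i - if k = i then 1 else 0| ≤ ε := by
  have hε : 0 ≤ ε := (abs_nonneg _).trans h1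
  rw [abs_sub_comm] at ha hd
  fin_cases k <;> fin_cases i <;> simp [Rm, ha, hd, h1, h2, hε]

theorem st_add (S T : Fin 4 → Fin 4 → ℝ) (i j : Fin 4) :
    st (fun i j => S i j + T i j) i j = st S i j + st T i j := by
  fin_cases i <;> fin_cases j <;> simp [st]

theorem st_smul (c : ℝ) (T : Fin 4 → Fin 4 → ℝ) (i j : Fin 4) :
    st (fun i j => c * T i j) i j = c * st T i j := by
  fin_cases i <;> fin_cases j <;> simp [st]

end AlgAux

open AlgAux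

theorem skew_tr {a d m₁ m₂ : ℝ} {τ : Fin 4 → Fin 4 → ℝ} (h : Skew τ) : Skew (tr a d m₁ m₂ τ) := by
  intro i j
  unfold tr
  rw [Finset.sum_comm, ← Finset.sum_neg_distrib]
  refine Finset.sum_congr rfl fun k _ => ?_
  rw [← Finset.sum_neg_distrib]
  refine Finset.sum_congr rfl fun l _ => ?_
  rw [h l k]
  ring

theorem Pf_tr {a d m₁ m₂ : ℝ} {τ : Fin 4 → Fin 4 → ℝ} (h : Skew τ) :
    Pf (tr a d m₁ m₂ τ) = (a * d) ^ 2 * Pf τ := by
  obtain ⟨⟨e1, e2, e3, e4⟩, ⟨e5, e6, e7⟩, ⟨e8, e9, e10⟩⟩ := sk h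
  simp only [Pf, tr, Fin.sum_univ_four, Rm, Matrix.cons_val_zero, Matrix.cons_val_one,
    Matrix.cons_val, e1, e2, e3, e4, e5, e6, e7, e8, e9, e10]
  ring

theorem nrm2_split {τ : Fin 4 → Fin 4 → ℝ} (h : Skew τ) : nrm2 τ = nrm2 (sd τ) + nrm2 (asd τ) := by
  obtain ⟨⟨e1, e2, e3, e4⟩, ⟨e5, e6, e7⟩, ⟨e8, e9, e10⟩⟩ := sk h
  simp only [nrm2, sd, asd, st, Fin.sum_univ_four, Matrix.cons_val_zero, Matrix.cons_val_one,
    Matrix.cons_val, e1, e2, e3, e4, e5, e6, e7, e8, e9, e10]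
  ring

theorem Pf_split {τ : Fin 4 → Fin 4 → ℝ} (h : Skew τ) : 4 * Pf τ = nrm2 (sd τ) - nrm2 (asd τ) := by
  obtain ⟨⟨e1, e2, e3, e4⟩, ⟨e5, e6, e7⟩, ⟨e8, e9, e10⟩⟩ := sk h
  simp only [Pf, nrm2, sd, asd, st, Fin.sum_univ_four, Matrix.cons_val_zero, Matrix.cons_val_one,
    Matrix.cons_val, e1, e2, e3, e4, e5, e6, e7, e8, e9, e10]
  ring

theorem nrm2_nonneg (τ : Fin 4 → Fin 4 → ℝ) : 0 ≤ nrm2 τ :=
  Finset.sum_nonneg fun _ _ => Finset.sum_nonneg fun _ _ => sq_nonneg _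

theorem nrm2_add (S T : Fin 4 → Fin 4 → ℝ) : nrm2 (fun i j => S i j + T i j) ≤ 2 * nrm2 S + 2 * nrm2 T := by
  unfold nrm2
  rw [Finset.mul_sum, Finset.mul_sum, ← Finset.sum_add_distrib]
  refine Finset.sum_le_sum fun i _ => ?_
  rw [Finset.mul_sum, Finset.mul_sum, ← Finset.sum_add_distrib]
  refine Finset.sum_le_sum fun j _ => ?_
  nlinarith [sq_nonneg (S i j - T i j)]

theorem asd_add (S T : Fin 4 → Fin 4 → ℝ) (i j : Fin 4) : asd (fun i j => S i j + T i j) i j = asd S i j + asd T i j := by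
  unfold asd
  rw [st_add]
  ring

theorem sd_add (S T : Fin 4 → Fin 4 → ℝ) (i j : Fin 4) : sd (fun i j => S i j + T i j) i j = sd S i j + sd T i j := by
  unfold sd
  rw [st_add]
  ring

theorem asd_smul (c : ℝ) (T : Fin 4 → Fin 4 → ℝ) (i j : Fin 4) : asd (fun i j => c * T i j) i j = c * asd T i j := by
  unfold asd
  rw [st_smul]
  ring

theorem sd_smul (c : ℝ) (T : Fin 4 → Fin 4 → ℝ) (i j : Fin 4) : sd (fun i j => c * T i j) i j = c * sd T i j := by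
  unfold sd
  rw [st_smul]
  ring

theorem c0_facts : Skew c0 ∧ nrm2 c0 = 16 ∧ asd c0 = (fun _ _ => 0) ∧ sd c0 = c0 ∧ Pf c0 = 4 := by
  refine ⟨?_, ?_, ?_, ?_, ?_⟩
  · intro i j
    fin_cases i <;> fin_cases j <;> simp [c0]
  · simp only [nrm2, c0, Fin.sum_univ_four, Matrix.cons_val_zero, Matrix.cons_val_one,
      Matrix.cons_val]
    norm_num
  · funext i j
    fin_cases i <;> fin_cases j <;> simp [asd, st, c0]
  · funext i j
    fin_cases i <;> fin_cases j <;> simp [sd, st, c0]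
  · simp only [Pf, c0, Matrix.cons_val_zero, Matrix.cons_val_one, Matrix.cons_val]
    norm_num

theorem tr_le : ∃ C : ℝ, 1 ≤ C ∧ ∀ a d m₁ m₂ : ℝ, |a| ≤ 1 → |d| ≤ 1 → |m₁| ≤ 1 → |m₂| ≤ 1 →
    ∀ τ : Fin 4 → Fin 4 → ℝ, nrm2 (tr a d m₁ m₂ τ) ≤ C * nrm2 τ := by
  refine ⟨256, by norm_num, fun a d m₁ m₂ ha hd h1 h2 τ => ?_⟩
  have key : ∀ i j, tr a d m₁ m₂ τ i j ^ 2 ≤ 16 * nrm2 τ := by
    intro i j
    have := sq_sum_le (c := fun k l => Rm a d m₁ m₂ k i * Rm a d m₁ m₂ l j) (τ := τ) (B := 1)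
      (fun k l => by
        rw [abs_mul]
        exact mul_le_one₀ (Rm_le ha hd h1 h2 k i) (abs_nonneg _) (Rm_le ha hd h1 h2 l j))
    simpa [tr] using this
  calc nrm2 (tr a d m₁ m₂ τ) ≤ ∑ _i : Fin 4, ∑ _j : Fin 4, 16 * nrm2 τ :=
        Finset.sum_le_sum fun i _ => Finset.sum_le_sum fun j _ => key i j
    _ = 256 * nrm2 τ := by
      simp only [Finset.sum_const, Finset.card_univ, Fintype.card_fin, nsmul_eq_mul]
      push_cast
      ring

theorem tr_near : ∃ C : ℝ, 1 ≤ C ∧ ∀ a d m₁ m₂ ε : ℝ, |1 - a| ≤ ε → |1 - d| ≤ ε → |m₁| ≤ ε → |m₂| ≤ ε → ε ≤ 1 →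
    ∀ τ : Fin 4 → Fin 4 → ℝ, nrm2 (fun i j => tr a d m₁ m₂ τ i j - τ i j) ≤ C * ε ^ 2 * nrm2 τ := by
  refine ⟨2304, by norm_num, fun a d m₁ m₂ ε ha hd h1 h2 hε1 τ => ?_⟩
  have hε : 0 ≤ ε := (abs_nonneg _).trans h1
  have key : ∀ i j, (tr a d m₁ m₂ τ i j - τ i j) ^ 2 ≤ 16 * (3 * ε) ^ 2 * nrm2 τ := by
    intro i j
    have h := sq_sum_le (c := fun k l => Rm a d m₁ m₂ k i * Rm a d m₁ m₂ l j -
      (if k = i then 1 else 0) * (if l = j then 1 else 0)) (τ := τ) (B := 3 * ε)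
      (fun k l => by
        set x : ℝ := Rm a d m₁ m₂ k i with hx
        set y : ℝ := Rm a d m₁ m₂ l j with hy
        set p : ℝ := (if k = i then 1 else 0) with hp
        set q : ℝ := (if l = j then 1 else 0) with hq
        have hxp : |x - p| ≤ ε := Rm_sub_le ha hd h1 h2 k i
        have hyq : |y - q| ≤ ε := Rm_sub_le ha hd h1 h2 l j
        have hp1 : |p| ≤ 1 := by
          rw [hp]
          split_ifs <;> simp
        have hq1 : |q| ≤ 1 := by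
          rw [hq]
          split_ifs <;> simp
        have e : x * y - p * q = (x - p) * (y - q) + (x - p) * q + p * (y - q) := by ring
        have b1 : |(x - p) * (y - q)| ≤ ε * 1 := by
          rw [abs_mul]
          exact mul_le_mul hxp (hyq.trans hε1) (abs_nonneg _) hε
        have b2 : |(x - p) * q| ≤ ε * 1 := by
          rw [abs_mul]
          exact mul_le_mul hxp hq1 (abs_nonneg _) hε
        have b3 : |p * (y - q)| ≤ 1 * ε := by
          rw [abs_mul]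
          exact mul_le_mul hp1 hyq (abs_nonneg _) zero_le_one
        rw [e]
        have t1 := abs_add_le ((x - p) * (y - q) + (x - p) * q) (p * (y - q))
        have t2 := abs_add_le ((x - p) * (y - q)) ((x - p) * q)
        linarith)
    have e2 : tr a d m₁ m₂ τ i j - τ i j = ∑ k, ∑ l, (Rm a d m₁ m₂ k i * Rm a d m₁ m₂ l j -
        (if k = i then 1 else 0) * (if l = j then 1 else 0)) * τ k l := by
      simp only [sub_mul, Finset.sum_sub_distrib, tr]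
      congr 1
      simp
    rw [e2]
    exact h
  calc nrm2 (fun i j => tr a d m₁ m₂ τ i j - τ i j)
      ≤ ∑ _i : Fin 4, ∑ _j : Fin 4, 16 * (3 * ε) ^ 2 * nrm2 τ :=
        Finset.sum_le_sum fun i _ => Finset.sum_le_sum fun j _ => key i j
    _ = 2304 * ε ^ 2 * nrm2 τ := by
      simp only [Finset.sum_const, Finset.card_univ, Fintype.card_fin, nsmul_eq_mul]
      push_cast
      ring

theorem nrm2_asd_le {τ : Fin 4 → Fin 4 → ℝ} (h : Skew τ) : nrm2 (asd τ) ≤ nrm2 τ := by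
  have h1 := nrm2_split h
  have h2 := nrm2_nonneg (sd τ)
  linarith

/-- a two-form close to a non-zero almost self-dual one has positive Pfaffian -/
theorem lin : ∃ η : ℝ, 0 < η ∧ ∀ c t : Fin 4 → Fin 4 → ℝ, Skew c → Skew t → 0 < nrm2 c →
    nrm2 (asd c) ≤ η ^ 2 * nrm2 c → (∀ i j, |t i j - c i j| ≤ η * Real.sqrt (nrm2 c)) → 0 < Pf t := by
  refine ⟨1 / 50, by norm_num, fun c t hc ht hpos ha hd => ?_⟩
  set n : ℝ := Real.sqrt (nrm2 c) with hn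
  have hn0 : 0 < n := Real.sqrt_pos.2 hpos
  have hn2 : n ^ 2 = nrm2 c := Real.sq_sqrt hpos.le
  have hcn : ∀ i j, |c i j| ≤ n := by
    intro i j
    refine Real.le_sqrt_of_sq_le ?_
    rw [sq_abs]
    calc c i j ^ 2 ≤ ∑ j, c i j ^ 2 :=
          Finset.single_le_sum (f := fun j => c i j ^ 2) (fun _ _ => sq_nonneg _)
            (Finset.mem_univ j)
      _ ≤ nrm2 c := Finset.single_le_sum (f := fun i => ∑ j, c i j ^ 2)
            (fun _ _ => Finset.sum_nonneg fun _ _ => sq_nonneg _) (Finset.mem_univ i)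
  have h1 := nrm2_split hc
  have h2 := Pf_split hc
  have hPc : (1 - 2 * (1 / 50) ^ 2) * n ^ 2 ≤ 4 * Pf c := by
    rw [hn2]
    linarith
  have pr : ∀ i j k l, |t i j * t k l - c i j * c k l| ≤ (1 / 25 + 1 / 2500) * n ^ 2 := by
    intro i j k l
    have e : t i j * t k l - c i j * c k l =
        (t i j - c i j) * (t k l - c k l) + (t i j - c i j) * c k l + c i j * (t k l - c k l) := by
      ring
    have b1 : |(t i j - c i j) * (t k l - c k l)| ≤ (1 / 50 * n) * (1 / 50 * n) := by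
      rw [abs_mul]
      exact mul_le_mul (hd i j) (hd k l) (abs_nonneg _) (by positivity)
    have b2 : |(t i j - c i j) * c k l| ≤ (1 / 50 * n) * n := by
      rw [abs_mul]
      exact mul_le_mul (hd i j) (hcn k l) (abs_nonneg _) (by positivity)
    have b3 : |c i j * (t k l - c k l)| ≤ n * (1 / 50 * n) := by
      rw [abs_mul]
      exact mul_le_mul (hcn i j) (hd k l) (abs_nonneg _) hn0.le
    rw [e]
    have t1 := abs_add_le ((t i j - c i j) * (t k l - c k l) + (t i j - c i j) * c k l)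
      (c i j * (t k l - c k l))
    have t2 := abs_add_le ((t i j - c i j) * (t k l - c k l)) ((t i j - c i j) * c k l)
    nlinarith
  have p1 := (abs_le.1 (pr 0 1 2 3)).1
  have p2 := (abs_le.1 (pr 0 2 1 3)).2
  have p3 := (abs_le.1 (pr 0 3 1 2)).1
  have hn2' : 0 < n ^ 2 := by positivity
  have e1 : Pf t = t 0 1 * t 2 3 - t 0 2 * t 1 3 + t 0 3 * t 1 2 := rfl
  have e2 : Pf c = c 0 1 * c 2 3 - c 0 2 * c 1 3 + c 0 3 * c 1 2 := rfl
  rw [e2] at hPc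
  rw [e1]
  nlinarith

theorem nd_of_Pf {t : Fin 4 → Fin 4 → ℝ} (h : Skew t) (hP : Pf t ≠ 0) {x : Fin 4 → ℝ}
    (hx : ∀ j, ∑ i, x i * t i j = 0) : x = 0 := by
  obtain ⟨⟨e1, e2, e3, e4⟩, ⟨e5, e6, e7⟩, ⟨e8, e9, e10⟩⟩ := sk h
  have j0 := hx 0
  have j1 := hx 1
  have j2 := hx 2
  have j3 := hx 3
  simp only [Fin.sum_univ_four, e1, e2, e3, e4, e5, e6, e7, e8, e9, e10] at j0 j1 j2 j3
  have hP' : t 0 1 * t 2 3 - t 0 2 * t 1 3 + t 0 3 * t 1 2 ≠ 0 := hP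
  have k0 : (t 0 1 * t 2 3 - t 0 2 * t 1 3 + t 0 3 * t 1 2) * x 0 = 0 := by
    linear_combination t 2 3 * j1 - t 1 3 * j2 + t 1 2 * j3
  have k1 : (t 0 1 * t 2 3 - t 0 2 * t 1 3 + t 0 3 * t 1 2) * x 1 = 0 := by
    linear_combination -t 2 3 * j0 + t 0 3 * j2 - t 0 2 * j3
  have k2 : (t 0 1 * t 2 3 - t 0 2 * t 1 3 + t 0 3 * t 1 2) * x 2 = 0 := by
    linear_combination t 1 3 * j0 - t 0 3 * j1 + t 0 1 * j3
  have k3 : (t 0 1 * t 2 3 - t 0 2 * t 1 3 + t 0 3 * t 1 2) * x 3 = 0 := by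
    linear_combination -t 1 2 * j0 + t 0 2 * j1 - t 0 1 * j2
  funext i
  fin_cases i
  · exact (mul_eq_zero.1 k0).resolve_left hP'
  · exact (mul_eq_zero.1 k1).resolve_left hP'
  · exact (mul_eq_zero.1 k2).resolve_left hP'
  · exact (mul_eq_zero.1 k3).resolve_left hP'

end Pool.Agent.Lib.Psd
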