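import Pool.Agent.Lib.Psd.AmbA

set_option autoImplicit false

/-!
# Ambient extension of basic one-forms; tangent vectors

PROOFS. `ext1_smooth`: as `contDiff_ext` in `Pool.Agent.Lib.P28b04d.Ext` (for `(q.2 j j).re > 0` the column is non-zero; near `(q.2 j j).re ≤ 0` the cut-off `chi` vanishes). `ext1_apply`: for `P = pt z`, `|z| = 1`, `Y = tv z v`, `v ⟂ z`:
`col P j = conj (z j) • z`, `colL j Y = conj (z j) • v + conj (v j) • z`; for `z j ≠ 0`: `Γ(t, conj(z j) z)(conj (z j) v + conj (v j) z) = Γ(t, z) v` (homogeneity; basic forms kill complex multiples of the point), for `z j = 0` the cut-off vanishes (`chi_zero`, `pt_diag`).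
`∑ chi = Ssum = Sden` (`Sden_pt`). `pb_ext1`: `pb (ext1 Γ(t,·)) z v = Γ (t, z) v` for `z ≠ 0`: both sides are basic, reduce to unit `z` and `v ⟂ z` (`fderiv_pt`). `exists_unit`: `exists_pt` and `pt_smul`. `tan_eq`: a tangent vector `Y` at `P = z z*` is `tv z (Y z)`, `(Y z) ⟂ z`:
`P Y + Y P = Y` gives `P Y P = 0`, i.e. `z* Y z = 0`, and `Y = P Y + Y P = z (Y z)* + (Y z) z*`. `tv_mem`: direct. `tv_zero`: `tv z v = 0`, `v ⟂ z` implies `v = (tv z v) z = 0`.
-/

open MeasureTheory Set Metric
open scoped ContDiff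

namespace Pool.Agent.Lib.Psd

open Pool.Agent.P28b04d

namespace AmbBAux

theorem sum_one {z : W} (hz : nsq z = 1) : star (z 0) * z 0 + star (z 1) * z 1 + star (z 2) * z 2 = 1 := by
  have h := nsq_eq' z
  rw [hz, Fin.sum_univ_three, Complex.ofReal_one] at h
  exact h.symm

theorem sum_zero {z v : W} (hv : hp z v = 0) :
    star (z 0) * v 0 + star (z 1) * v 1 + star (z 2) * v 2 = 0 := by
  unfold hp at hv
  rw [Fin.sum_univ_three] at hv
  exact hv

theorem sum_zero' {z v : W} (hv : hp z v = 0) :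
    star (v 0) * z 0 + star (v 1) * z 1 + star (v 2) * z 2 = 0 := by
  have h := congrArg star (sum_zero hv)
  simp only [star_add, star_mul', star_star, star_zero] at h
  rw [← h]
  ring

theorem ne_zero_of_unit {z : W} (hz : nsq z = 1) : z ≠ 0 := by
  intro h
  rw [h] at hz
  simp [nsq] at hz

theorem pt_unit {z : W} (hz : nsq z = 1) (i j : Fin 3) : pt z i j = z i * star (z j) := by
  unfold pt
  rw [hz]
  simp

/-- basic forms kill the complex multiples of the point -/
theorem basic_smul {γ : W → W →L[ℝ] ℝ} (h : Basic γ) {z : W} (hz : z ≠ 0) (c : ℂ) :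
    γ z (c • z) = 0 := by
  have e : c • z = c.re • z + c.im • (Complex.I • z) := by
    funext k
    simp only [Pi.add_apply, Pi.smul_apply, smul_eq_mul, Complex.real_smul]
    conv_lhs => rw [← Complex.re_add_im c]
    ring
  rw [e, map_add, map_smul, map_smul, h.rad z hz, h.rot z hz]
  simp

theorem exists_scale {w : W} (hw : w ≠ 0) : ∃ c : ℂ, c ≠ 0 ∧ nsq (c • w) = 1 := by
  have hp := nsq_pos hw
  refine ⟨((Real.sqrt (nsq w))⁻¹ : ℝ), ?_, ?_⟩
  · rw [Complex.ofReal_ne_zero]
    exact inv_ne_zero (Real.sqrt_pos.2 hp).ne'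
  · rw [nsq_smul, Complex.normSq_ofReal, ← mul_inv, Real.mul_self_sqrt hp.le,
      inv_mul_cancel₀ hp.ne']

end AmbBAux

open AmbBAux

theorem ext1_smooth {Γ : ℝ × W → W →L[ℝ] ℝ} (hs : ContDiffOn ℝ ∞ Γ (univ ×ˢ {0}ᶜ)) :
    ContDiff ℝ ∞ (ext1 Γ) := by
  unfold ext1
  apply ContDiff.fun_smul
  · exact (contDiff_Sden.comp contDiff_snd).inv fun q => (Sden_pos q.2).ne'
  · refine ContDiff.sum fun j _ => ?_
    rw [contDiff_iff_contDiffAt]
    intro q
    rcases lt_or_ge 0 (q.2 j j).re with hq | hq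
    · have hcol : col q.2 j ≠ 0 := by
        intro h
        have := congrFun h j
        simp only [col, Pi.zero_apply] at this
        rw [this] at hq
        simp at hq
      have h1 : ContDiffAt ℝ ∞ (fun q : ℝ × Mat => chi 2 (q.2 j j).re) q :=
        ((contDiff_chi.comp (contDiff_diag j)).comp contDiff_snd).contDiffAt
      refine h1.fun_smul ?_
      have h2 : ContDiffAt ℝ ∞ (fun q : ℝ × Mat => (q.1, col q.2 j)) q :=
        (contDiff_fst.prodMk ((contDiff_col j).comp contDiff_snd)).contDiffAt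
      have h3 : ContDiffAt ℝ ∞ Γ (q.1, col q.2 j) :=
        hs.contDiffAt ((isOpen_univ.prod isOpen_compl_singleton).mem_nhds ⟨mem_univ _, hcol⟩)
      exact (h3.comp q h2).clm_comp contDiffAt_const
    · have h1 : ∀ᶠ q' : ℝ × Mat in nhds q,
          chi 2 (q'.2 j j).re • (Γ (q'.1, col q'.2 j)).comp (colL j) = 0 := by
        have hc : ContinuousAt (fun q : ℝ × Mat => (q.2 j j).re) q :=
          ((contDiff_diag j).continuous.comp continuous_snd).continuousAt
        have : (q.2 j j).re < 1 / (2 * (((2 : ℕ) : ℝ) + 1)) := lt_of_le_of_lt hq (by positivity)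
        filter_upwards [hc.eventually_lt continuousAt_const this] with q' hq'
        rw [chi_zero hq'.le, zero_smul]
      exact (contDiffAt_const (c := 0)).congr_of_eventuallyEq h1

theorem ext1_apply {Γ : ℝ × W → W →L[ℝ] ℝ} (hb : ∀ t, Basic (fun z => Γ (t, z))) (t : ℝ) {z v : W}
    (hz : nsq z = 1) (hv : hp z v = 0) : ext1 Γ (t, pt z) (tv z v) = Γ (t, z) v := by
  have hz0 := ne_zero_of_unit hz
  have hterm : ∀ j : Fin 3, (chi 2 (pt z j j).re • (Γ (t, col (pt z) j)).comp (colL j)) (tv z v) =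
      chi 2 (pt z j j).re * Γ (t, z) v := by
    intro j
    by_cases hj : z j = 0
    · have h0 : chi 2 (pt z j j).re = 0 := by
        apply chi_zero
        rw [pt_diag, hj]
        simp
        positivity
      rw [h0, zero_smul, zero_mul]
      rfl
    · have hc : star (z j) ≠ 0 := by simpa using hj
      have e1 : col (pt z) j = star (z j) • z := by
        rw [col_pt, hz]
        simp
      have e2 : colL j (tv z v) = star (z j) • (v + (star (v j) / star (z j)) • z) := by
        funext i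
        have h3 : colL j (tv z v) i = tv z v i j := rfl
        rw [h3]
        simp only [tv, Pi.smul_apply, Pi.add_apply, smul_eq_mul]
        field_simp
      have h4 : Γ (t, star (z j) • z) (star (z j) • (v + (star (v j) / star (z j)) • z)) =
          Γ (t, z) (v + (star (v j) / star (z j)) • z) := (hb t).hom _ hc z hz0 _
      have h5 : Γ (t, z) ((star (v j) / star (z j)) • z) = 0 := basic_smul (hb t) hz0 _
      show chi 2 (pt z j j).re * (Γ (t, col (pt z) j) (colL j (tv z v))) = _
      rw [e1, e2, h4, map_add, h5, add_zero]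
  have h1 : ext1 Γ (t, pt z) (tv z v) = (Sden (pt z))⁻¹ *
      ∑ j, (chi 2 (pt z j j).re • (Γ (t, col (pt z) j)).comp (colL j)) (tv z v) := by
    unfold ext1
    rw [_root_.smul_apply, _root_.sum_apply, smul_eq_mul]
  rw [h1, Finset.sum_congr rfl fun j _ => hterm j, ← Finset.sum_mul, Sden_pt hz0, ← mul_assoc]
  have h2 : (Ssum (pt z))⁻¹ * ∑ j, chi 2 (pt z j j).re = 1 :=
    inv_mul_cancel₀ (lt_of_lt_of_le one_pos (one_le_Ssum hz0)).ne'
  rw [h2, one_mul]

theorem pb_ext1 {Γ : ℝ × W → W →L[ℝ] ℝ} (hb : ∀ t, Basic (fun z => Γ (t, z))) (t : ℝ) {z : W} (hz : z ≠ 0) :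
    pb (fun P => ext1 Γ (t, P)) z = Γ (t, z) := by
  have key : ∀ z : W, nsq z = 1 → ∀ v : W, pb (fun P => ext1 Γ (t, P)) z v = Γ (t, z) v := by
    intro z hz1 v
    have hz0 := ne_zero_of_unit hz1
    set v' : W := v - hp z v • z with hv'
    have h1 : hp z v' = 0 := by
      have e1 : hp z v' = hp z v - hp z v * (∑ k, star (z k) * z k) := by
        rw [hv']
        unfold hp
        rw [Finset.mul_sum, ← Finset.sum_sub_distrib]
        refine Finset.sum_congr rfl fun k _ => ?_
        simp only [Pi.sub_apply, Pi.smul_apply, smul_eq_mul]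
        ring
      rw [e1, ← nsq_eq', hz1]
      simp
    have h2 : v = v' + hp z v • z := by rw [hv']; abel
    have h3 : Γ (t, z) (hp z v • z) = 0 := basic_smul (hb t) hz0 _
    have h4 : fderiv ℝ (pt : W → Mat) z v = tv z v' := by
      conv_lhs => rw [h2]
      rw [map_add, fderiv_pt_self hz0, add_zero, fderiv_pt hz1 h1]
    show ext1 Γ (t, pt z) (fderiv ℝ (pt : W → Mat) z v) = _
    rw [h4, ext1_apply hb t hz1 h1]
    conv_rhs => rw [h2]
    rw [map_add, h3, add_zero]
  obtain ⟨c, hc, hc1⟩ := exists_scale hz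
  ext v
  have h1 := key (c • z) hc1 (c • v)
  have h2 : Γ (t, c • z) (c • v) = Γ (t, z) v := (hb t).hom c hc z hz v
  rw [h2] at h1
  rw [← h1]
  show ext1 Γ (t, pt z) (fderiv ℝ (pt : W → Mat) z v) =
    ext1 Γ (t, pt (c • z)) (fderiv ℝ (pt : W → Mat) (c • z) (c • v))
  rw [fderiv_pt_hom hc hz, pt_smul hc]

theorem exists_unit {P : Mat} (hP : P ∈ CP 2) : ∃ z : W, nsq z = 1 ∧ P = pt z := by
  obtain ⟨w, hw, rfl⟩ := exists_pt hP
  obtain ⟨c, hc, hc1⟩ := exists_scale hw
  exact ⟨c • w, hc1, (pt_smul hc w).symm⟩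

theorem tan_eq {z : W} (hz : nsq z = 1) {Y : Mat} (hY : Y ∈ Tan (pt z)) : ∃ v : W, hp z v = 0 ∧ Y = tv z v := by
  obtain ⟨hH, hT⟩ := hY
  have h1 := sum_one hz
  set v : W := fun i => ∑ k, Y i k * z k with hv
  have hYv : Y = tv z v := by
    funext i j
    rw [← hT i j]
    simp only [pt_unit hz]
    have e1 : ∑ k, z i * star (z k) * Y k j = z i * star (v j) := by
      simp only [hv, star_sum, Finset.mul_sum, star_mul']
      refine Finset.sum_congr rfl fun k _ => ?_
      rw [hH j k]
      ring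
    have e2 : ∑ k, Y i k * (z k * star (z j)) = v i * star (z j) := by
      simp only [hv, Finset.sum_mul]
      refine Finset.sum_congr rfl fun k _ => ?_
      ring
    rw [e1, e2]
    unfold tv
    ring
  refine ⟨v, ?_, hYv⟩
  have e3 : ∀ i, z i * (star (v 0) * z 0 + star (v 1) * z 1 + star (v 2) * z 2) = 0 := by
    intro i
    have h2 : v i = ∑ k, Y i k * z k := rfl
    have h3 : ∀ k, Y i k = v i * star (z k) + z i * star (v k) := fun k => by
      conv_lhs => rw [hYv]
      rfl
    rw [Fin.sum_univ_three, h3, h3, h3] at h2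
    linear_combination -h2 - v i * h1
  have hm : star (v 0) * z 0 + star (v 1) * z 1 + star (v 2) * z 2 = 0 := by
    obtain ⟨i, hi⟩ := Function.ne_iff.1 (ne_zero_of_unit hz)
    exact (mul_eq_zero.1 (e3 i)).resolve_left hi
  have h4 := congrArg star hm
  simp only [star_add, star_mul', star_star, star_zero] at h4
  unfold hp
  rw [Fin.sum_univ_three, ← h4]
  ring

theorem tv_mem {z v : W} (hz : nsq z = 1) (hv : hp z v = 0) : tv z v ∈ Tan (pt z) := by
  have h1 := sum_one hz
  have h2 := sum_zero hv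
  have h3 := sum_zero' hv
  refine ⟨fun i j => ?_, fun i j => ?_⟩
  · simp only [tv, star_add, star_mul', star_star]
    ring
  · simp only [pt_unit hz, tv, Fin.sum_univ_three]
    linear_combination (z i * star (v j) + v i * star (z j)) * h1 + z i * star (z j) * h2 +
      z i * star (z j) * h3

theorem tv_zero {z v : W} (hz : nsq z = 1) (hv : hp z v = 0) (h : tv z v = 0) : v = 0 := by
  have h1 := sum_one hz
  have h3 := sum_zero' hv
  funext i
  have h4 : ∀ k, v i * star (z k) + z i * star (v k) = 0 := fun k => congrFun (congrFun h i) k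
  rw [Pi.zero_apply]
  linear_combination z 0 * h4 0 + z 1 * h4 1 + z 2 * h4 2 - v i * h1 - z i * h3

end Pool.Agent.Lib.Psd
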