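import Pool.Agent.Lib.Psd.ChartA
import Pool.Agent.Lib.Psd.Alg

set_option autoImplicit false

/-!
# Non-degeneracy from the Pfaffians

PROOF. Let `z ≠ 0`, `dd α z v w = 0` for all `w`. Scale: `c = 1 / sqrt (nsq z)` (complex number), `ẑ = c • z`, `nsq ẑ = 1`, `dd α ẑ (c v) (c w) = dd α z v w` (`Conn.dd_hom`); so we may assume `nsq z = 1`. `exists_ON3` gives `u, v'`; write
`v = c z + ∑_k x k • fr u v' k` with real `x k` (unitary basis). Then `0 = dd α z v (fr u v' j) = ∑_k x k * cmp (dd α z) u v' k j` (`Conn.dd_left`), so `x = 0` by `nd_of_Pf` (the components are skew by `dd_skew`) and `v = c z`.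
`decomp`: the coefficients are `hp z v`, `hp u v`, `hp v' v`.
-/

open MeasureTheory Set Metric
open scoped ContDiff

namespace Pool.Agent.Lib.Psd

open Pool.Agent.P28b04d

namespace NdPAux

theorem expand {z u v : W} (h : ON3 z u v) (y : W) :
    y = hp z y • z + hp u y • u + hp v y • v := by
  set Q : Matrix (Fin 3) (Fin 3) ℂ := Matrix.of ![z, u, v] with hQ
  have hp_star' : ∀ a b : W, star (hp a b) = hp b a := hp_star
  have huz : hp u z = 0 := by rw [← hp_star', h.zu, star_zero]
  have hvz : hp v z = 0 := by rw [← hp_star', h.zv, star_zero]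
  have hvu : hp v u = 0 := by rw [← hp_star', h.uv, star_zero]
  have h1 : (Q.map star) * Q.transpose = 1 := by
    ext i j
    rw [Matrix.mul_apply, Matrix.one_apply]
    have e : ∑ k, (Q.map star) i k * Q.transpose k j = hp (Q i) (Q j) := rfl
    rw [e]
    fin_cases i <;> fin_cases j
    exacts [h.zz, h.zu, h.zv, huz, h.uu, h.uv, hvz, hvu, h.vv]
  have h2 : Q.transpose * (Q.map star) = 1 := mul_eq_one_comm.1 h1
  funext k
  have h3 : y k = ∑ l, (Q.transpose * (Q.map star)) k l * y l := by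
    rw [h2]
    simp [Matrix.one_apply]
  rw [h3]
  simp only [Matrix.mul_apply, Fin.sum_univ_three, Matrix.transpose_apply, Matrix.map_apply,
    Pi.add_apply, Pi.smul_apply, smul_eq_mul, hp, hQ, Matrix.of_apply, Matrix.cons_val_zero,
    Matrix.cons_val_one, Matrix.cons_val]
  ring

end NdPAux

open NdPAux

theorem decomp {z u v : W} (h : ON3 z u v) (y : W) : ∃ (c : ℂ) (x : E), y = c • z + Lf u v x := by
  refine ⟨hp z y, !₂[(hp u y).re, (hp u y).im, (hp v y).re, (hp v y).im], ?_⟩
  rw [Lf_apply]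
  conv_lhs => rw [expand h y]
  have hsm : ∀ (c : ℂ) (w : W), c • w = c.re • w + c.im • (Complex.I • w) := by
    intro c w
    funext k
    simp only [Pi.smul_apply, Pi.add_apply, smul_eq_mul, Complex.real_smul]
    conv_lhs => rw [← Complex.re_add_im c]
    ring
  rw [hsm (hp u y) u, hsm (hp v y) v, Fin.sum_univ_four]
  simp only [fr]
  simp only [Matrix.cons_val_zero, Matrix.cons_val_one, Matrix.cons_val]
  abel

theorem cmp_skew (α : W → W →L[ℝ] ℝ) (z u v : W) : Skew (cmp (dd α z) u v) := by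
  intro i j
  unfold cmp
  exact dd_skew α z _ _

theorem nondeg_of_Pf {α : W → W →L[ℝ] ℝ} (h : Conn α)
    (hP : ∀ z u v : W, ON3 z u v → Pf (cmp (dd α z) u v) ≠ 0) : Nondeg α := by
  -- unit vectors first
  have key : ∀ z : W, nsq z = 1 → z ≠ 0 → ∀ v : W, (∀ w : W, dd α z v w = 0) →
      ∃ c : ℂ, v = c • z := by
    intro z hz hz0 v hv
    obtain ⟨p, q, hpq⟩ := exists_ON3 hz
    obtain ⟨c, x, hx⟩ := decomp hpq v
    have hx0 : (fun i => x i) = (0 : Fin 4 → ℝ) := by
      refine nd_of_Pf (cmp_skew α z p q) (hP z p q hpq) fun j => ?_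
      have h1 := hv (fr p q j)
      rw [hx, dd_add_left, h.dd_left hz0, zero_add, Lf_apply] at h1
      have h2 : dd α z (∑ i, x i • fr p q i) (fr p q j) = ∑ i, x i * cmp (dd α z) p q i j := by
        rw [Fin.sum_univ_four, Fin.sum_univ_four, dd_add_left, dd_add_left, dd_add_left,
          dd_smul_left, dd_smul_left, dd_smul_left, dd_smul_left]
        rfl
      rw [h2] at h1
      exact h1
    refine ⟨c, ?_⟩
    rw [hx, Lf_apply]
    have : ∑ i, x i • fr p q i = 0 := by
      refine Finset.sum_eq_zero fun i _ => ?_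
      have := congrFun hx0 i
      simp only [Pi.zero_apply] at this
      rw [this, zero_smul]
    rw [this, add_zero]
  intro z hz v hv
  set c : ℂ := (((Real.sqrt (nsq z))⁻¹ : ℝ) : ℂ) with hc
  have hpos := nsq_pos hz
  have hsq : 0 < Real.sqrt (nsq z) := Real.sqrt_pos.2 hpos
  have hc0 : c ≠ 0 := by
    rw [hc]
    exact_mod_cast (inv_pos.2 hsq).ne'
  have h1 : nsq (c • z) = 1 := by
    rw [nsq_smul, hc, Complex.normSq_ofReal]
    rw [← mul_inv, Real.mul_self_sqrt hpos.le]
    exact inv_mul_cancel₀ hpos.ne'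
  have h2 : c • z ≠ 0 := smul_ne_zero hc0 hz
  obtain ⟨e, he⟩ := key (c • z) h1 h2 (c • v) (fun w => by
    have : w = c • (c⁻¹ • w) := by rw [smul_smul, mul_inv_cancel₀ hc0, one_smul]
    rw [this, h.dd_hom hc0 hz]
    exact hv _)
  refine ⟨e, ?_⟩
  have h3 : c • v = c • (e • z) := by rw [he, smul_comm]
  have h4 := congrArg (fun y => c⁻¹ • y) h3
  simp only [smul_smul, inv_mul_cancel₀ hc0, one_smul] at h4
  rw [h4, ← mul_assoc, inv_mul_cancel₀ hc0, one_mul]

end Pool.Agent.Lib.Psd
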