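import Pool.Agent.Lib.Psd.ActX

set_option autoImplicit false

/-!
# The density of the chart coordinate

PROOF. `wX ≤ M` and `wX = 0` off the unit cube `‖X‖ < 1/8`. Let `U` be the unitary matrix with columns `z, u, v`. The linear map `X ↦ X U` (`(X U)_j = ∑_i U_{ij} X_i = mx X (j-th column of U)`) of `XX = ℂ^{3×3}` preserves the volume
(it is an isometry for the Euclidean norm: `LinearIsometry` on `EuclideanSpace` via `volume_preserving_toLp`, or `|det| = 1`: `MeasureTheory.Measure.addHaar_preimage_linearMap`, or Tonelli row by row: a unitary map acts on each of the three rows), its first column is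
`mx X z`. After this substitution the variables are `Y = (mx X z, mx X u, mx X v)`, `‖Y j‖ ≤ 3/8`. Write `mx X z = y₀ z + y₁ u + y₂ v` - a second unitary change of variables in `ℂ³` - so that `∫ wX X * h(zet) ≤ M C ∫_{‖y‖ ≤ 9/8} h(zet(y)) dy`, `y ∈ ℂ³`,
`zet(y) = s (y₁, y₂)/(1 + s y₀)`. For fixed `y₀` (`|1 + s y₀| ≥ 7/16` as `s ≤ 1/2`) substitute `(y₁, y₂) = (1 + s y₀)/s * ζ`: the Jacobian is `(|1 + s y₀|/s)^4 ≤ C s^-4` and `‖ζ‖ ≤ C s`.
(All integrands are non-negative and continuous; use `lintegral` and Tonelli. Any constant `C` is fine.)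
-/

open MeasureTheory Set Metric
open scoped ContDiff

namespace Pool.Agent.Lib.Psd

open Pool.Agent.P28b04d

namespace DensAux

theorem lint_le {V V' : Type} [NormedAddCommGroup V] [NormedSpace ℝ V] [MeasurableSpace V]
    [BorelSpace V] [FiniteDimensional ℝ V] [NormedAddCommGroup V'] [NormedSpace ℝ V']
    [MeasurableSpace V'] [BorelSpace V'] [FiniteDimensional ℝ V'] (μ : Measure V)
    [μ.IsAddHaarMeasure] (μ' : Measure V') [μ'.IsAddHaarMeasure] (f : V ≃L[ℝ] V') {K : ℝ}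
    (hK : 0 < K) (hf : ∀ y, ‖f.symm y‖ ≤ K * ‖y‖) {φ : V' → ENNReal} (hφ : Measurable φ) :
    ∫⁻ x, φ (f x) ∂μ ≤ ENNReal.ofReal (K ^ Module.finrank ℝ V) *
      (μ (ball 0 1) / μ' (ball 0 1)) * ∫⁻ y, φ y ∂μ' := by
  have hmap : Measure.map f μ = (Measure.map f μ).addHaarScalarFactor μ' • μ' :=
    Measure.isAddLeftInvariant_eq_smul _ _
  set c := (Measure.map f μ).addHaarScalarFactor μ' with hc
  have h1 : ∫⁻ x, φ (f x) ∂μ = ∫⁻ y, φ y ∂(Measure.map f μ) :=
    (lintegral_map hφ f.continuous.measurable).symm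
  have h2 : (c : ENNReal) ≤ ENNReal.ofReal (K ^ Module.finrank ℝ V) *
      (μ (ball 0 1) / μ' (ball 0 1)) := by
    have h3 : (c : ENNReal) * μ' (ball 0 1) = μ (f ⁻¹' ball 0 1) := by
      rw [← Measure.map_apply f.continuous.measurable measurableSet_ball, hmap]
      rfl
    have h4 : f ⁻¹' ball 0 1 ⊆ ball 0 K := by
      intro x hx
      rw [mem_preimage, mem_ball_zero_iff] at hx
      rw [mem_ball_zero_iff]
      have h5 := hf (f x)
      rw [f.symm_apply_apply] at h5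
      calc ‖x‖ ≤ K * ‖f x‖ := h5
        _ < K * 1 := by gcongr
        _ = K := mul_one K
    have h6 : (c : ENNReal) * μ' (ball 0 1) ≤
        ENNReal.ofReal (K ^ Module.finrank ℝ V) * μ (ball 0 1) := by
      rw [h3, ← Measure.addHaar_ball_of_pos μ 0 hK]
      exact measure_mono h4
    rw [← mul_div_assoc]
    exact (ENNReal.le_div_iff_mul_le (Or.inl (measure_ball_pos μ' 0 one_pos).ne')
      (Or.inl measure_ball_lt_top.ne)).mpr h6
  rw [h1, hmap, lintegral_smul_measure]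
  exact mul_le_mul_left h2 _

theorem lint_cons {α : Type} [MeasureSpace α] [SigmaFinite (volume : Measure α)] {n : ℕ}
    {φ : (Fin (n + 1) → α) → ENNReal} (hφ : Measurable φ) :
    ∫⁻ x, φ x = ∫⁻ a, ∫⁻ b : Fin n → α, φ (Fin.cons a b) := by
  have h1 := (volume_preserving_piFinSuccAbove (fun _ : Fin (n + 1) => α) 0).symm
  have h2 := h1.lintegral_comp hφ
  rw [← h2]
  have h3 : (volume : Measure (α × (Fin n → α))) = (volume : Measure α).prod volume := rfl
  erw [lintegral_prod]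
  · refine lintegral_congr fun a => lintegral_congr fun b => ?_
    congr 1
    have : (MeasurableEquiv.piFinSuccAbove (fun _ : Fin (n + 1) => α) 0).symm (a, b) =
        Fin.insertNth 0 a b := rfl
    rw [this, Fin.insertNth_zero]
    rfl
  · exact (hφ.comp h1.measurable).aemeasurable

/-- `ℂ² → ℝ⁴`, multiplication by `c`. -/
noncomputable def lam4 (c : ℂ) (hc : c ≠ 0) : (Fin 2 → ℂ) ≃ₗ[ℝ] E where
  toFun τ := !₂[(c * τ 0).re, (c * τ 0).im, (c * τ 1).re, (c * τ 1).im]
  map_add' τ τ' := by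
    ext i
    fin_cases i <;> simp [mul_add]
  map_smul' r τ := by
    ext i
    fin_cases i <;> simp <;> ring
  invFun x := ![c⁻¹ * (x 0 + x 1 * Complex.I), c⁻¹ * (x 2 + x 3 * Complex.I)]
  left_inv τ := by
    have h : ∀ w : ℂ, c⁻¹ * (((c * w).re : ℂ) + ((c * w).im : ℂ) * Complex.I) = w := by
      intro w
      rw [Complex.re_add_im, inv_mul_cancel_left₀ hc]
    ext i
    fin_cases i
    · exact h (τ 0)
    · exact h (τ 1)
  right_inv x := by
    have h : ∀ a b : ℝ, c * (c⁻¹ * ((a : ℂ) + b * Complex.I)) = (a : ℂ) + b * Complex.I := by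
      intro a b
      rw [mul_inv_cancel_left₀ hc]
    ext i
    fin_cases i <;> simp [h, -mul_inv_cancel_left₀]

theorem lam4_norm (c : ℂ) (hc : c ≠ 0) (τ : Fin 2 → ℂ) : ‖lam4 c hc τ‖ ≤ 2 * (‖c‖ * ‖τ‖) := by
  have h0 : ‖lam4 c hc τ‖ ^ 2 = ‖c * τ 0‖ ^ 2 + ‖c * τ 1‖ ^ 2 := by
    rw [EuclideanSpace.norm_sq_eq, Fin.sum_univ_four, ← Complex.normSq_eq_norm_sq,
      ← Complex.normSq_eq_norm_sq, Complex.normSq_apply, Complex.normSq_apply]
    simp only [Real.norm_eq_abs, sq_abs]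
    change (c * τ 0).re ^ 2 + (c * τ 0).im ^ 2 + (c * τ 1).re ^ 2 + (c * τ 1).im ^ 2 = _
    ring
  have h1 : ∀ i, ‖c * τ i‖ ^ 2 ≤ (‖c‖ * ‖τ‖) ^ 2 := by
    intro i
    rw [norm_mul]
    have := norm_le_pi_norm τ i
    gcongr
  have h2 : ‖lam4 c hc τ‖ ^ 2 ≤ (2 * (‖c‖ * ‖τ‖)) ^ 2 := by
    rw [h0]
    have h3 := h1 0
    have h4 := h1 1
    have h5 : (2 * (‖c‖ * ‖τ‖)) ^ 2 = 4 * (‖c‖ * ‖τ‖) ^ 2 := by ring
    have h6 := sq_nonneg (‖c‖ * ‖τ‖)
    rw [h5]
    linarith
  exact le_of_sq_le_sq h2 (by positivity)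

theorem lam4_symm_norm (c : ℂ) (hc : c ≠ 0) (x : E) :
    ‖(lam4 c hc).symm x‖ ≤ ‖c‖⁻¹ * ‖x‖ := by
  have hx : ‖x‖ ^ 2 = x 0 ^ 2 + x 1 ^ 2 + x 2 ^ 2 + x 3 ^ 2 := by
    rw [EuclideanSpace.norm_sq_eq, Fin.sum_univ_four]
    simp only [Real.norm_eq_abs, sq_abs]
  have hab : ∀ a b : ℝ, a ^ 2 + b ^ 2 ≤ ‖x‖ ^ 2 →
      ‖c⁻¹ * ((a : ℂ) + b * Complex.I)‖ ≤ ‖c‖⁻¹ * ‖x‖ := by
    intro a b h
    rw [norm_mul, norm_inv]
    refine mul_le_mul_of_nonneg_left ?_ (by positivity)
    refine le_of_sq_le_sq ?_ (norm_nonneg _)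
    rw [← Complex.normSq_eq_norm_sq, Complex.normSq_add_mul_I]
    exact h
  rw [pi_norm_le_iff_of_nonneg (by positivity)]
  intro i
  fin_cases i
  · exact hab (x 0) (x 1) (by rw [hx]; nlinarith [sq_nonneg (x 2), sq_nonneg (x 3)])
  · exact hab (x 2) (x 3) (by rw [hx]; nlinarith [sq_nonneg (x 0), sq_nonneg (x 1)])

/-- the change of variables on triples of vectors -/
noncomputable def FF (z u v : W) : XX →ₗ[ℝ] XX where
  toFun X := ![![hp z (mx X z), hp u (mx X z), hp v (mx X z)], mx X u, mx X v]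
  map_add' X Y := by
    ext i j
    fin_cases i <;> fin_cases j <;>
      simp [mx, hp, Fin.sum_univ_three] <;> ring
  map_smul' r X := by
    ext i j
    fin_cases i <;> fin_cases j <;>
      simp [mx, hp, Fin.sum_univ_three] <;> ring

/-- its inverse -/
noncomputable def GG (z u v : W) : XX →ₗ[ℝ] XX where
  toFun Y := fun j => star (z j) • (Y 0 0 • z + Y 0 1 • u + Y 0 2 • v) + star (u j) • Y 1 +
    star (v j) • Y 2
  map_add' X Y := by
    ext j i
    simp
    ring
  map_smul' r X := by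
    ext j i
    simp
    ring

theorem FF_GG {z u v : W} (h : ON3 z u v) (Y : XX) : FF z u v (GG z u v Y) = Y := by
  have hs : ∀ a b : W, hp b a = star (hp a b) := by
    intro a b
    simp only [hp, star_sum, star_mul', star_star]
    exact Finset.sum_congr rfl fun k _ => mul_comm _ _
  have h1 := h.zz
  have h2 := h.uu
  have h3 := h.vv
  have h4 := h.zu
  have h5 := h.zv
  have h6 := h.uv
  have h7 : hp u z = 0 := by rw [hs, h4, star_zero]
  have h8 : hp v z = 0 := by rw [hs, h5, star_zero]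
  have h9 : hp v u = 0 := by rw [hs, h6, star_zero]
  have hmx : ∀ a : W, mx (GG z u v Y) a = hp z a • (Y 0 0 • z + Y 0 1 • u + Y 0 2 • v) +
      hp u a • Y 1 + hp v a • Y 2 := by
    intro a
    ext i
    simp [mx, GG, hp, Fin.sum_univ_three]
    ring
  have hz : mx (GG z u v Y) z = Y 0 0 • z + Y 0 1 • u + Y 0 2 • v := by
    rw [hmx, h1, h7, h8]
    simp
  have hu : mx (GG z u v Y) u = Y 1 := by
    rw [hmx, h4, h2, h9]
    simp
  have hv : mx (GG z u v Y) v = Y 2 := by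
    rw [hmx, h5, h6, h3]
    simp
  have hlin : ∀ a : W, hp a (Y 0 0 • z + Y 0 1 • u + Y 0 2 • v) =
      Y 0 0 * hp a z + Y 0 1 * hp a u + Y 0 2 * hp a v := by
    intro a
    simp [hp, Fin.sum_univ_three]
    ring
  change ![![hp z (mx (GG z u v Y) z), hp u (mx (GG z u v Y) z), hp v (mx (GG z u v Y) z)],
    mx (GG z u v Y) u, mx (GG z u v Y) v] = Y
  rw [hz, hu, hv, hlin, hlin, hlin, h1, h2, h3, h4, h5, h6, h7, h8, h9]
  ext i j
  fin_cases i <;> fin_cases j <;> simp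

theorem GG_FF {z u v : W} (h : ON3 z u v) (X : XX) : GG z u v (FF z u v X) = X := by
  have h1 : (FF z u v) * (GG z u v) = 1 := LinearMap.ext fun Y => FF_GG h Y
  have h2 : (GG z u v) * (FF z u v) = 1 := mul_eq_one_comm.mp h1
  exact LinearMap.congr_fun h2 X

theorem GG_norm {z u v : W} (h : ON3 z u v) (Y : XX) : ‖GG z u v Y‖ ≤ 5 * ‖Y‖ := by
  obtain ⟨hz, hu, hv⟩ := norm_le_one h
  have hb : ∀ (a : W) (j : Fin 3), ‖a‖ ≤ 1 → ‖star (a j)‖ ≤ 1 := by
    intro a j ha
    rw [norm_star]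
    exact (norm_le_pi_norm a j).trans ha
  have hY : ∀ i j, ‖Y i j‖ ≤ ‖Y‖ := fun i j =>
    (norm_le_pi_norm (Y i) j).trans (norm_le_pi_norm Y i)
  have hYi : ∀ i, ‖Y i‖ ≤ ‖Y‖ := fun i => norm_le_pi_norm Y i
  rw [pi_norm_le_iff_of_nonneg (by positivity)]
  intro j
  have hsm : ∀ (c : ℂ) (w : W) (a b : ℝ), ‖c‖ ≤ a → ‖w‖ ≤ b → ‖c • w‖ ≤ a * b := by
    intro c w a b hc hw
    rw [norm_smul]
    exact mul_le_mul hc hw (norm_nonneg _) ((norm_nonneg _).trans hc)
  have h1 : ‖Y 0 0 • z + Y 0 1 • u + Y 0 2 • v‖ ≤ 3 * ‖Y‖ := by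
    refine (norm_add_le _ _).trans ?_
    refine (add_le_add (norm_add_le _ _) le_rfl).trans ?_
    have e1 := hsm (Y 0 0) z ‖Y‖ 1 (hY 0 0) hz
    have e2 := hsm (Y 0 1) u ‖Y‖ 1 (hY 0 1) hu
    have e3 := hsm (Y 0 2) v ‖Y‖ 1 (hY 0 2) hv
    linarith
  change ‖star (z j) • (Y 0 0 • z + Y 0 1 • u + Y 0 2 • v) + star (u j) • Y 1 +
    star (v j) • Y 2‖ ≤ _
  refine (norm_add_le _ _).trans ?_
  refine (add_le_add (norm_add_le _ _) le_rfl).trans ?_
  have e1 := hsm _ _ 1 _ (hb z j hz) h1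
  have e2 := hsm _ _ 1 _ (hb u j hu) (hYi 1)
  have e3 := hsm _ _ 1 _ (hb v j hv) (hYi 2)
  linarith

/-- the change of variables as a continuous linear equivalence -/
noncomputable def FE {z u v : W} (h : ON3 z u v) : XX ≃L[ℝ] XX :=
  (LinearEquiv.ofLinearMap (FF z u v) (GG z u v) (LinearMap.ext fun Y => FF_GG h Y)
    (LinearMap.ext fun X => GG_FF h X)).toContinuousLinearEquiv

/-- the chart coordinate as a function of the first column -/
noncomputable def zf (s : ℝ) (t : W) : E :=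
  !₂[(s * t 1 / (1 + s * t 0)).re, (s * t 1 / (1 + s * t 0)).im,
    (s * t 2 / (1 + s * t 0)).re, (s * t 2 / (1 + s * t 0)).im]

theorem zet_eq (s : ℝ) (X : XX) (z u v : W) : zet s X z u v = zf s (FF z u v X 0) := rfl

theorem zf_meas (s : ℝ) : Measurable (zf s) := by
  have h1 : Measurable fun t : W => (s * t 1 / (1 + s * t 0) : ℂ) := by fun_prop
  have h2 : Measurable fun t : W => (s * t 2 / (1 + s * t 0) : ℂ) := by fun_prop
  refine (WithLp.measurable_toLp 2 _).comp (measurable_pi_lambda _ fun i => ?_)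
  fin_cases i
  · exact Complex.measurable_re.comp h1
  · exact Complex.measurable_im.comp h1
  · exact Complex.measurable_re.comp h2
  · exact Complex.measurable_im.comp h2

theorem finrank_two : Module.finrank ℝ (Fin 2 → ℂ) = 4 := by
  rw [Module.finrank_pi_fintype]
  simp [Complex.finrank_real_complex]

theorem one_add_norm {s : ℝ} (hs : 0 < s) (hs' : s ≤ 1 / 2) {a : ℂ} (ha : ‖a‖ ≤ 9 / 8) :
    7 / 16 ≤ ‖1 + (s : ℂ) * a‖ ∧ ‖1 + (s : ℂ) * a‖ ≤ 2 := by
  have h1 : ‖(s : ℂ) * a‖ ≤ 9 / 16 := by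
    rw [norm_mul, Complex.norm_real, Real.norm_eq_abs, abs_of_pos hs]
    calc s * ‖a‖ ≤ 1 / 2 * (9 / 8) := by gcongr
      _ = 9 / 16 := by norm_num
  constructor
  · have h2 := norm_sub_le (1 + (s : ℂ) * a) ((s : ℂ) * a)
    rw [add_sub_cancel_right, norm_one] at h2
    linarith
  · have h2 := norm_add_le (1 : ℂ) ((s : ℂ) * a)
    rw [norm_one] at h2
    linarith

theorem inner {s : ℝ} (hs : 0 < s) (hs' : s ≤ 1 / 2) {a : ℂ} (ha : ‖a‖ ≤ 9 / 8)
    {g : E → ENNReal} (hg : Measurable g) :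
    ∫⁻ τ : Fin 2 → ℂ, (closedBall (0 : Fin 2 → ℂ) (9 / 8)).indicator
      (fun τ => g (zf s (Fin.cons a τ))) τ ≤
    ENNReal.ofReal ((2 / s) ^ 4) *
      (volume (ball (0 : Fin 2 → ℂ) 1) / volume (ball (0 : E) 1)) *
      ∫⁻ x in ball (0 : E) (6 * s), g x := by
  obtain ⟨hn1, hn2⟩ := one_add_norm hs hs' ha
  have hne : 1 + (s : ℂ) * a ≠ 0 := by
    intro h0
    rw [h0, norm_zero] at hn1
    norm_num at hn1
  have hsne : (s : ℂ) ≠ 0 := by exact_mod_cast hs.ne'
  set c : ℂ := (s : ℂ) / (1 + (s : ℂ) * a) with hc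
  have hc0 : c ≠ 0 := div_ne_zero hsne hne
  have hcn : ‖c‖ ≤ 16 / 7 * s := by
    rw [hc, norm_div, Complex.norm_real, Real.norm_eq_abs, abs_of_pos hs,
      div_le_iff₀ (by linarith)]
    nlinarith
  have hcn' : ‖c‖⁻¹ ≤ 2 / s := by
    rw [hc, norm_div, inv_div, Complex.norm_real, Real.norm_eq_abs, abs_of_pos hs]
    gcongr
  have hzf : ∀ τ : Fin 2 → ℂ, zf s (Fin.cons a τ) = lam4 c hc0 τ := by
    intro τ
    have e : ∀ w : ℂ, (s : ℂ) * w / (1 + (s : ℂ) * a) = c * w := by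
      intro w
      rw [hc]
      ring
    change (!₂[(s * τ 0 / (1 + s * a)).re, (s * τ 0 / (1 + s * a)).im,
      (s * τ 1 / (1 + s * a)).re, (s * τ 1 / (1 + s * a)).im] : E) = _
    rw [e, e]
    rfl
  set f : (Fin 2 → ℂ) ≃L[ℝ] E := (lam4 c hc0).toContinuousLinearEquiv with hf
  have hfK : ∀ y, ‖f.symm y‖ ≤ 2 / s * ‖y‖ := by
    intro y
    refine (lam4_symm_norm c hc0 y).trans ?_
    gcongr
  have hφ : Measurable ((ball (0 : E) (6 * s)).indicator g) := hg.indicator measurableSet_ball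
  have h1 := lint_le (volume : Measure (Fin 2 → ℂ)) (volume : Measure E) f
    (div_pos two_pos hs) hfK hφ
  rw [finrank_two, lintegral_indicator measurableSet_ball] at h1
  refine le_trans (lintegral_mono fun τ => ?_) h1
  by_cases hτ : τ ∈ closedBall (0 : Fin 2 → ℂ) (9 / 8)
  · rw [indicator_of_mem hτ, hzf τ]
    have hmem : f τ ∈ ball (0 : E) (6 * s) := by
      rw [mem_ball_zero_iff]
      rw [mem_closedBall_zero_iff] at hτ
      have h2 := lam4_norm c hc0 τ
      change ‖lam4 c hc0 τ‖ < _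
      have h3 : ‖c‖ * ‖τ‖ ≤ 16 / 7 * s * (9 / 8) := by gcongr
      linarith
    rw [indicator_of_mem hmem]
    exact le_rfl
  · rw [indicator_of_notMem hτ]
    exact zero_le

theorem mid {s : ℝ} (hs : 0 < s) (hs' : s ≤ 1 / 2) {g : E → ENNReal} (hg : Measurable g) :
    ∫⁻ t : W, (closedBall (0 : W) (9 / 8)).indicator (fun t => g (zf s t)) t ≤
    (ENNReal.ofReal ((2 / s) ^ 4) *
      (volume (ball (0 : Fin 2 → ℂ) 1) / volume (ball (0 : E) 1)) *
      ∫⁻ x in ball (0 : E) (6 * s), g x) * volume (closedBall (0 : ℂ) (9 / 8)) := by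
  have hm : Measurable ((closedBall (0 : W) (9 / 8)).indicator (fun t => g (zf s t))) :=
    (hg.comp (zf_meas s)).indicator measurableSet_closedBall
  rw [lint_cons hm]
  set B := ENNReal.ofReal ((2 / s) ^ 4) *
      (volume (ball (0 : Fin 2 → ℂ) 1) / volume (ball (0 : E) 1)) *
      ∫⁻ x in ball (0 : E) (6 * s), g x with hB
  have h1 : ∀ a : ℂ, ∫⁻ b : Fin 2 → ℂ, (closedBall (0 : W) (9 / 8)).indicator
      (fun t => g (zf s t)) (Fin.cons a b) ≤
      (closedBall (0 : ℂ) (9 / 8)).indicator (fun _ => B) a := by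
    intro a
    by_cases ha : a ∈ closedBall (0 : ℂ) (9 / 8)
    · rw [indicator_of_mem ha]
      rw [mem_closedBall_zero_iff] at ha
      refine le_trans (lintegral_mono fun τ => ?_) (inner hs hs' ha hg)
      by_cases hτ : τ ∈ closedBall (0 : Fin 2 → ℂ) (9 / 8)
      · rw [indicator_of_mem hτ]
        exact indicator_le_self' (fun _ _ => zero_le) _
      · rw [indicator_of_notMem hτ]
        have hτ' : (Fin.cons a τ : W) ∉ closedBall (0 : W) (9 / 8) := by
          intro hcon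
          apply hτ
          rw [mem_closedBall_zero_iff] at hcon ⊢
          rw [pi_norm_le_iff_of_nonneg (by norm_num)] at hcon ⊢
          intro i
          have := hcon i.succ
          rwa [Fin.cons_succ] at this
        rw [indicator_of_notMem hτ']
    · rw [indicator_of_notMem ha]
      refine le_of_eq ?_
      rw [lintegral_eq_zero_of_ae_eq_zero]
      refine Filter.Eventually.of_forall fun τ => ?_
      have hτ' : (Fin.cons a τ : W) ∉ closedBall (0 : W) (9 / 8) := by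
        intro hcon
        apply ha
        rw [mem_closedBall_zero_iff] at hcon ⊢
        rw [pi_norm_le_iff_of_nonneg (by norm_num)] at hcon
        have := hcon 0
        rwa [Fin.cons_zero] at this
      exact indicator_of_notMem hτ' _
  refine (lintegral_mono h1).trans ?_
  rw [lintegral_indicator measurableSet_closedBall, setLIntegral_const]

theorem outer {s : ℝ} (hs : 0 < s) (hs' : s ≤ 1 / 2) {g : E → ENNReal} (hg : Measurable g) :
    ∫⁻ Y : XX, (closedBall (0 : XX) (9 / 8)).indicator (fun Y => g (zf s (Y 0))) Y ≤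
    (ENNReal.ofReal ((2 / s) ^ 4) *
      (volume (ball (0 : Fin 2 → ℂ) 1) / volume (ball (0 : E) 1)) *
      ∫⁻ x in ball (0 : E) (6 * s), g x) * volume (closedBall (0 : ℂ) (9 / 8)) *
      volume (closedBall (0 : Fin 2 → W) (9 / 8)) := by
  have hm : Measurable ((closedBall (0 : XX) (9 / 8)).indicator (fun Y : XX => g (zf s (Y 0)))) :=
    ((hg.comp (zf_meas s)).comp (measurable_pi_apply 0)).indicator measurableSet_closedBall
  have hm1 : Measurable ((closedBall (0 : W) (9 / 8)).indicator (fun t => g (zf s t))) :=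
    (hg.comp (zf_meas s)).indicator measurableSet_closedBall
  rw [lint_cons hm]
  have h1 : ∀ a : W, ∫⁻ b : Fin 2 → W, (closedBall (0 : XX) (9 / 8)).indicator
      (fun Y : XX => g (zf s (Y 0))) (Fin.cons a b) ≤
      (closedBall (0 : W) (9 / 8)).indicator (fun t => g (zf s t)) a *
        volume (closedBall (0 : Fin 2 → W) (9 / 8)) := by
    intro a
    rw [← setLIntegral_const, ← lintegral_indicator measurableSet_closedBall]
    refine lintegral_mono fun b => ?_
    by_cases hY : (Fin.cons a b : XX) ∈ closedBall (0 : XX) (9 / 8)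
    · rw [indicator_of_mem hY]
      rw [mem_closedBall_zero_iff, pi_norm_le_iff_of_nonneg (by norm_num)] at hY
      have ha : a ∈ closedBall (0 : W) (9 / 8) := by
        rw [mem_closedBall_zero_iff]
        have := hY 0
        rwa [Fin.cons_zero] at this
      have hb : b ∈ closedBall (0 : Fin 2 → W) (9 / 8) := by
        rw [mem_closedBall_zero_iff, pi_norm_le_iff_of_nonneg (by norm_num)]
        intro i
        have := hY i.succ
        rwa [Fin.cons_succ] at this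
      rw [indicator_of_mem ha, indicator_of_mem hb, Fin.cons_zero]
    · rw [indicator_of_notMem hY]
      exact zero_le
  refine (lintegral_mono h1).trans ?_
  rw [lintegral_mul_const _ hm1]
  gcongr
  exact mid hs hs' hg

theorem FE_apply {z u v : W} (h : ON3 z u v) (X : XX) : FE h X = FF z u v X := rfl

theorem zet_FE {z u v : W} (h : ON3 z u v) (s : ℝ) (X : XX) :
    zet s X z u v = zf s ((FE h X) 0) := by
  rw [FE_apply, zet_eq]

theorem haar_XX : (volume : Measure XX).IsAddHaarMeasure := by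
  have : (volume : Measure W).IsAddHaarMeasure := inferInstance
  exact MeasureTheory.Measure.pi.isAddHaarMeasure _

theorem wbound : ∃ M : ℝ, 0 ≤ M ∧ ∀ X, wX X ≤ M := by
  obtain ⟨hw1, hw2, hw3, hw4⟩ := wX_spec
  obtain ⟨M, hM⟩ := (isCompact_closedBall (0 : XX) (1 / 8)).exists_bound_of_continuousOn
    hw1.continuous.continuousOn
  refine ⟨max M 0, le_max_right _ _, fun X => ?_⟩
  by_cases hX : ‖X‖ ≤ 1 / 8
  · have := hM X (by rwa [mem_closedBall_zero_iff])
    exact (le_abs_self _).trans (this.trans (le_max_left _ _))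
  · rw [hw3 X (not_le.mp hX).le]
    exact le_max_right _ _

theorem FE_mem {z u v : W} (hON : ON3 z u v) {X : XX} (hX : ‖X‖ ≤ 1 / 8) :
    FE hON X ∈ closedBall (0 : XX) (9 / 8) := by
  rw [mem_closedBall_zero_iff, pi_norm_le_iff_of_nonneg (by norm_num)]
  obtain ⟨n1, n2, n3⟩ := norm_hp_le hON X hX
  obtain ⟨l1, l2, l3⟩ := norm_le_one hON
  have hmx : ∀ w : W, ‖w‖ ≤ 1 → ‖mx X w‖ ≤ 9 / 8 := by
    intro w hw
    refine (norm_mx_le X w).trans ?_
    calc 3 * ‖X‖ * ‖w‖ ≤ 3 * (1 / 8) * 1 := by gcongr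
      _ ≤ 9 / 8 := by norm_num
  intro i
  fin_cases i
  · change ‖(![hp z (mx X z), hp u (mx X z), hp v (mx X z)] : W)‖ ≤ 9 / 8
    rw [pi_norm_le_iff_of_nonneg (by norm_num)]
    intro j
    fin_cases j
    · exact n1
    · exact n2
    · exact n3
  · exact hmx u l2
  · exact hmx v l3

theorem lower {M : ℝ} (hM0 : 0 ≤ M) (hM : ∀ X, wX X ≤ M) : ∃ C0 : ENNReal, C0 ≠ ⊤ ∧
    ∀ z u v : W, ON3 z u v → ∀ s : ℝ, 0 < s → s ≤ 1 / 2 →
    ∀ h : E → ℝ, Continuous h → (∀ x, 0 ≤ h x) →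
    ∫⁻ X, ENNReal.ofReal (wX X * h (zet s X z u v)) ≤
      C0 * (ENNReal.ofReal ((s ^ 4)⁻¹) * ∫⁻ x in ball (0 : E) (6 * s), ENNReal.ofReal (h x)) := by
  obtain ⟨hw1, hw2, hw3, hw4⟩ := wX_spec
  obtain ⟨R0, hR0⟩ : ∃ R0 : ENNReal, R0 = ENNReal.ofReal (5 ^ Module.finrank ℝ XX) *
    (volume (ball (0 : XX) 1) / volume (ball (0 : XX) 1)) := ⟨_, rfl⟩
  obtain ⟨R1, hR1⟩ : ∃ R1 : ENNReal, R1 = volume (ball (0 : Fin 2 → ℂ) 1) /
    volume (ball (0 : E) 1) := ⟨_, rfl⟩
  obtain ⟨V1, hV1⟩ : ∃ V1 : ENNReal, V1 = volume (closedBall (0 : ℂ) (9 / 8)) := ⟨_, rfl⟩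
  obtain ⟨V2, hV2⟩ : ∃ V2 : ENNReal, V2 = volume (closedBall (0 : Fin 2 → W) (9 / 8)) := ⟨_, rfl⟩
  have hR0f : R0 ≠ ⊤ := hR0 ▸ ENNReal.mul_ne_top ENNReal.ofReal_ne_top
    (ENNReal.div_ne_top measure_ball_lt_top.ne (measure_ball_pos _ _ one_pos).ne')
  have hR1f : R1 ≠ ⊤ :=
    hR1 ▸ ENNReal.div_ne_top measure_ball_lt_top.ne (measure_ball_pos _ _ one_pos).ne'
  have hV1f : V1 ≠ ⊤ := hV1 ▸ measure_closedBall_lt_top.ne
  have hV2f : V2 ≠ ⊤ := hV2 ▸ measure_closedBall_lt_top.ne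
  refine ⟨ENNReal.ofReal M * R0 * (16 * R1 * V1 * V2), ?_, ?_⟩
  · refine ENNReal.mul_ne_top (ENNReal.mul_ne_top ENNReal.ofReal_ne_top hR0f) ?_
    exact ENNReal.mul_ne_top (ENNReal.mul_ne_top (ENNReal.mul_ne_top (by norm_num) hR1f) hV1f) hV2f
  intro z u v hON s hs hs' h hh hh0
  have hg : Measurable fun x : E => ENNReal.ofReal (h x) := hh.measurable.ennreal_ofReal
  have hΦm : Measurable ((closedBall (0 : XX) (9 / 8)).indicator
      (fun Y : XX => ENNReal.ofReal (h (zf s (Y 0))))) :=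
    ((hg.comp (zf_meas s)).comp (measurable_pi_apply 0)).indicator measurableSet_closedBall
  have h1 : ∀ X : XX, ENNReal.ofReal (wX X * h (zet s X z u v)) ≤
      ENNReal.ofReal M * (closedBall (0 : XX) (9 / 8)).indicator
      (fun Y : XX => ENNReal.ofReal (h (zf s (Y 0)))) (FE hON X) := by
    intro X
    by_cases hX : ‖X‖ ≤ 1 / 8
    · rw [indicator_of_mem (FE_mem hON hX), ← ENNReal.ofReal_mul hM0, zet_FE hON]
      exact ENNReal.ofReal_le_ofReal (mul_le_mul_of_nonneg_right (hM X) (hh0 _))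
    · rw [hw3 X (not_le.mp hX).le, zero_mul, ENNReal.ofReal_zero]
      exact zero_le
  have hK : ∀ y, ‖(FE hON).symm y‖ ≤ 5 * ‖y‖ := fun y => GG_norm hON y
  have := haar_XX
  have h2 := lint_le (volume : Measure XX) (volume : Measure XX) (FE hON)
    (by norm_num : (0 : ℝ) < 5) hK hΦm
  have h3 := outer hs hs' hg
  rw [← hR0] at h2
  rw [← hR1, ← hV1, ← hV2] at h3
  refine (lintegral_mono h1).trans ?_
  have h4 : ∫⁻ X : XX, ENNReal.ofReal M * (closedBall (0 : XX) (9 / 8)).indicator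
      (fun Y : XX => ENNReal.ofReal (h (zf s (Y 0)))) (FE hON X) =
      ENNReal.ofReal M * ∫⁻ X : XX, (closedBall (0 : XX) (9 / 8)).indicator
      (fun Y : XX => ENNReal.ofReal (h (zf s (Y 0)))) (FE hON X) :=
    lintegral_const_mul _ (hΦm.comp (FE hON).continuous.measurable)
  rw [h4]
  refine (mul_le_mul_right (h2.trans (mul_le_mul_right h3 _)) _).trans (le_of_eq ?_)
  have e : ENNReal.ofReal ((2 / s) ^ 4) = 16 * ENNReal.ofReal ((s ^ 4)⁻¹) := by
    have : (2 / s) ^ 4 = 16 * (s ^ 4)⁻¹ := by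
      rw [div_pow, div_eq_mul_inv]
      norm_num
    rw [this, ENNReal.ofReal_mul (by norm_num)]
    norm_num
  rw [e]
  ring

theorem zet_meas {z u v : W} (hON : ON3 z u v) (s : ℝ) :
    Measurable fun X : XX => zet s X z u v := by
  have h1 : Measurable fun X : XX => FE hON X 0 :=
    (measurable_pi_apply 0).comp (FE hON).continuous.measurable
  have h2 : (fun X : XX => zet s X z u v) = fun X : XX => zf s (FE hON X 0) :=
    funext fun X => zet_FE hON s X
  rw [h2]
  exact (zf_meas s).comp h1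

end DensAux

open DensAux in
theorem dens : ∃ C : ℝ, 1 ≤ C ∧ ∀ z u v : W, ON3 z u v → ∀ s : ℝ, 0 < s → s ≤ 1 / 2 →
    ∀ h : E → ℝ, Continuous h → (∀ x, 0 ≤ h x) →
      ∫ X, wX X * h (zet s X z u v) ≤ C * ((s ^ 4)⁻¹ * ∫ x in ball (0 : E) (C * s), h x) := by
  obtain ⟨hw1, hw2, hw3, hw4⟩ := wX_spec
  obtain ⟨M, hM0, hM⟩ := wbound
  obtain ⟨C0, hC0f, hC0⟩ := lower hM0 hM
  obtain ⟨C, hC⟩ : ∃ C : ℝ, C = max C0.toReal 6 := ⟨_, rfl⟩
  have hC6 : 6 ≤ C := hC ▸ le_max_right _ _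
  refine ⟨C, le_trans (by norm_num) hC6, ?_⟩
  intro z u v hON s hs hs' h hh hh0
  have hL := hC0 z u v hON s hs hs' h hh hh0
  have hm : Measurable fun X : XX => wX X * h (zet s X z u v) :=
    hw1.continuous.measurable.mul (hh.measurable.comp (zet_meas hON s))
  have hint : IntegrableOn h (ball (0 : E) (C * s)) :=
    (hh.continuousOn.integrableOn_compact (isCompact_closedBall (0 : E) (C * s))).mono_set
      ball_subset_closedBall
  have hR : ∫⁻ x in ball (0 : E) (6 * s), ENNReal.ofReal (h x) ≤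
      ENNReal.ofReal (∫ x in ball (0 : E) (C * s), h x) := by
    rw [ofReal_integral_eq_lintegral_ofReal hint (Filter.Eventually.of_forall hh0)]
    refine lintegral_mono_set (ball_subset_ball ?_)
    gcongr
  have hI0 : 0 ≤ ∫ x in ball (0 : E) (C * s), h x := integral_nonneg hh0
  rw [integral_eq_lintegral_of_nonneg_ae
    (Filter.Eventually.of_forall fun X => mul_nonneg (hw2 X) (hh0 _)) hm.aestronglyMeasurable]
  have hCnn : 0 ≤ C := le_trans (by norm_num) hC6
  have hfin : ∫⁻ X, ENNReal.ofReal (wX X * h (zet s X z u v)) ≤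
      ENNReal.ofReal (C * ((s ^ 4)⁻¹ * ∫ x in ball (0 : E) (C * s), h x)) := by
    refine hL.trans ?_
    have hC0' : C0 ≤ ENNReal.ofReal C := by
      rw [← ENNReal.ofReal_toReal hC0f]
      exact ENNReal.ofReal_le_ofReal (hC ▸ le_max_left _ _)
    rw [ENNReal.ofReal_mul hCnn, ENNReal.ofReal_mul (by positivity)]
    gcongr
  exact ENNReal.toReal_le_of_le_ofReal (mul_nonneg hCnn (mul_nonneg (by positivity) hI0)) hfin

theorem zet_continuous {z u v : W} (h : ON3 z u v) {s : ℝ} (hs : |s| ≤ 1 / 2) :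
    ContinuousOn (fun X : XX => zet s X z u v) (closedBall 0 (1 / 8)) := by
  have hmx : ∀ w : W, Continuous fun X : XX => mx X w := by
    intro w
    unfold mx
    fun_prop
  have hhp : ∀ a w : W, Continuous fun X : XX => hp a (mx X w) := by
    intro a w
    unfold hp
    have := hmx w
    fun_prop
  have hden : ∀ X ∈ closedBall (0 : XX) (1 / 8), 1 + (s : ℂ) * hp z (mx X z) ≠ 0 := by
    intro X hX
    rw [mem_closedBall_zero_iff] at hX
    exact (act_sig h hs hX).1
  have hq : ∀ a : W, ContinuousOn (fun X : XX => (s : ℂ) * hp a (mx X z) /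
      (1 + (s : ℂ) * hp z (mx X z))) (closedBall 0 (1 / 8)) := by
    intro a
    refine ContinuousOn.div ?_ ?_ hden
    · exact (continuous_const.mul (hhp a z)).continuousOn
    · exact (continuous_const.add (continuous_const.mul (hhp z z))).continuousOn
  refine (PiLp.continuous_toLp 2 _).comp_continuousOn (continuousOn_pi.mpr fun i => ?_)
  fin_cases i
  · exact Complex.continuous_re.comp_continuousOn (hq u)
  · exact Complex.continuous_im.comp_continuousOn (hq u)
  · exact Complex.continuous_re.comp_continuousOn (hq v)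
  · exact Complex.continuous_im.comp_continuousOn (hq v)


end Pool.Agent.Lib.Psd
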