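import Pool.Agent.Lib.Psd.AvC
import Pool.Agent.Lib.Psd.Dens

set_option autoImplicit false

/-!
# The average is close to a constant form if the form is

PROOF. `dd_Av`: `dd (Av s α) z a b = ∫ wX X * dd α (act z) (act a) (act b)`, `a = fr u v i`, `b = fr u v j`. Fix `X`, `‖X‖ ≤ 1/8`, `0 < s ≤ 1/2`. By `act_sig` `act z = k y`, `k = 1 + s hp z (mx X z)`, `y = sig z u v ζ`, `ζ = zet s X z u v`; by `Conn.dd_hom`
`dd α (k y) (act a) (act b) = dd α y (k⁻¹ act a) (k⁻¹ act b)`. Decompose `k⁻¹ act a = c y + Lf ã` with `ã ∈ E` (`hp z` of both sides gives `c = hp z (k⁻¹ act a)`, then `k⁻¹ act a - c y ∈ span(u, v)`), `‖ã - ev i‖ ≤ C s` (`‖ζ‖ ≤ C s`, `|c| ≤ C s`, `|k - 1| ≤ C s`).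
`Conn.dd_left` and `dd_skew` kill the multiples of `y`: `dd α y (k⁻¹ act a) (k⁻¹ act b) = dd α y (Lf ã) (Lf b̃) = ∑ ã_k b̃_l co (ch α z u v) k l ζ`. Hence the difference to `c i j` is at most
`∑ |ã_k b̃_l| |co .. k l ζ - c k l| + |∑ ã_k b̃_l c k l - c i j| ≤ C ∑ |co .. k l ζ - c k l| + C s ∑ |c k l|`. Integrate against `wX` (`∫ wX = 1`) and use `dens` with `h x = ∑ k, ∑ l, |co (ch α z u v) k l x - c k l|`.
-/

open MeasureTheory Set Metric
open scoped ContDiff

namespace Pool.Agent.Lib.Psd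

open Pool.Agent.P28b04d

namespace AvNearAux

theorem expand {z u v : W} (h : ON3 z u v) (y : W) :
    y = hp z y • z + (hp u y • u + hp v y • v) := by
  have huz : hp u z = 0 := by rw [← hp_star, h.zu, star_zero]
  have hvz : hp v z = 0 := by rw [← hp_star, h.zv, star_zero]
  have hvu : hp v u = 0 := by rw [← hp_star, h.uv, star_zero]
  set M : Matrix (Fin 3) (Fin 3) ℂ := Matrix.of fun k j => (![z, u, v] j) k with hM
  have h1 : M.conjTranspose * M = 1 := by
    ext i j
    have h2 : (M.conjTranspose * M) i j = hp (![z, u, v] i) (![z, u, v] j) := by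
      rw [Matrix.mul_apply]
      rfl
    rw [h2]
    fin_cases i <;> fin_cases j <;> simp [h.zz, h.uu, h.vv, h.zu, h.zv, h.uv, huz, hvz, hvu]
  have h2 : M * M.conjTranspose = 1 := mul_eq_one_comm.1 h1
  have h3 : M.mulVec (M.conjTranspose.mulVec y) = y := by
    rw [Matrix.mulVec_mulVec, h2, Matrix.one_mulVec]
  have h4 : ∀ j, M.conjTranspose.mulVec y j = hp (![z, u, v] j) y := fun j => rfl
  funext k
  have h5 := congrFun h3 k
  rw [Matrix.mulVec, dotProduct, Fin.sum_univ_three, h4, h4, h4] at h5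
  refine h5.symm.trans ?_
  simp only [hM, Matrix.of_apply, Pi.add_apply, Pi.smul_apply, smul_eq_mul]
  simp only [Matrix.cons_val_zero, Matrix.cons_val_one, Matrix.cons_val]
  ring

/-- coordinates with respect to `u, v` -/
noncomputable def crd (u v D : W) : E :=
  !₂[(hp u D).re, (hp u D).im, (hp v D).re, (hp v D).im]

theorem Lf_crd (u v D : W) : Lf u v (crd u v D) = hp u D • u + hp v D • v := by
  rw [Lf_apply, Fin.sum_univ_four]
  funext k
  simp only [crd, fr, Pi.add_apply, Pi.smul_apply, smul_eq_mul, Complex.real_smul]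
  simp only [Matrix.cons_val_zero, Matrix.cons_val_one, Matrix.cons_val,
    Pi.smul_apply, smul_eq_mul]
  apply Complex.ext <;> simp <;> ring

theorem hp_norm_le (a b : W) : ‖hp a b‖ ≤ 3 * ‖a‖ * ‖b‖ := by
  unfold hp
  refine (norm_sum_le _ _).trans ?_
  have h : ∀ k ∈ (Finset.univ : Finset (Fin 3)), ‖star (a k) * b k‖ ≤ ‖a‖ * ‖b‖ := by
    intro k _
    rw [norm_mul, norm_star]
    exact mul_le_mul (norm_le_pi_norm a k) (norm_le_pi_norm b k) (norm_nonneg _) (norm_nonneg _)
  refine (Finset.sum_le_card_nsmul _ _ _ h).trans ?_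
  simp
  linarith

theorem hp_sub_right (a b c : W) : hp a (b - c) = hp a b - hp a c := by
  have h := hp_add_right a (b - c) c
  rw [sub_add_cancel] at h
  rw [h]
  ring

theorem crd_add (u v D D' : W) (k : Fin 4) : crd u v (D + D') k = crd u v D k + crd u v D' k := by
  unfold crd
  fin_cases k <;> simp [hp_add_right]

theorem abs_crd_le {u v : W} (hu : ‖u‖ ≤ 1) (hv : ‖v‖ ≤ 1) (D : W) (k : Fin 4) :
    |crd u v D k| ≤ 3 * ‖D‖ := by
  have h1 : ‖hp u D‖ ≤ 3 * ‖D‖ := by
    refine (hp_norm_le u D).trans ?_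
    nlinarith [norm_nonneg D]
  have h2 : ‖hp v D‖ ≤ 3 * ‖D‖ := by
    refine (hp_norm_le v D).trans ?_
    nlinarith [norm_nonneg D]
  unfold crd
  fin_cases k
  · exact (Complex.abs_re_le_norm _).trans h1
  · exact (Complex.abs_im_le_norm _).trans h1
  · exact (Complex.abs_re_le_norm _).trans h2
  · exact (Complex.abs_im_le_norm _).trans h2

theorem hp_fr {z u v : W} (h : ON3 z u v) (i : Fin 4) : hp z (fr u v i) = 0 := by
  fin_cases i <;> simp [fr, hp_smul_right, h.zu, h.zv]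

theorem norm_fr {z u v : W} (h : ON3 z u v) (i : Fin 4) : ‖fr u v i‖ ≤ 1 := by
  obtain ⟨-, hu, hv⟩ := norm_le_one h
  fin_cases i <;> simp [fr, norm_smul, hu, hv]

theorem crd_fr {z u v : W} (h : ON3 z u v) (i k : Fin 4) : crd u v (fr u v i) k = ev i k := by
  have hvu : hp v u = 0 := by rw [← hp_star, h.uv, star_zero]
  unfold crd ev
  fin_cases i <;> fin_cases k <;>
    simp [fr, hp_smul_right, h.uu, h.vv, h.uv, hvu]

theorem dd_expand (lam : E → E →L[ℝ] ℝ) (x a b : E) :
    dd lam x a b = ∑ k, ∑ l, a k * b l * co lam k l x := by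
  have ha : ∀ a : E, a = ∑ k, a k • ev k := by
    intro a
    ext i
    simp [ev, Fin.sum_univ_four]
    fin_cases i <;> simp
  have h1 : ∀ a b : E, fderiv ℝ lam x a b = ∑ k, ∑ l, a k * b l * fderiv ℝ lam x (ev k) (ev l) := by
    intro a b
    conv_lhs => rw [ha a, ha b]
    simp only [map_sum, map_smul, _root_.sum_apply, _root_.smul_apply,
      smul_eq_mul, Finset.mul_sum]
    rw [Finset.sum_comm]
    refine Finset.sum_congr rfl fun k _ => Finset.sum_congr rfl fun l _ => ?_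
    ring
  unfold dd co dd
  rw [h1 a b, h1 b a, Finset.sum_comm (f := fun k l => b k * a l * fderiv ℝ lam x (ev k) (ev l)),
    ← Finset.sum_sub_distrib]
  refine Finset.sum_congr rfl fun k _ => ?_
  rw [← Finset.sum_sub_distrib]
  refine Finset.sum_congr rfl fun l _ => ?_
  ring

theorem tilde {z u v : W} (h : ON3 z u v) {s : ℝ} (hs0 : 0 ≤ s) (hs : s ≤ 1 / 2) {X : XX}
    (hX : ‖X‖ ≤ 1 / 8) (i : Fin 4) :
    ∃ (c : ℂ) (a : E), (1 + (s : ℂ) * hp z (mx X z))⁻¹ • act s X (fr u v i) =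
      c • sig z u v (zet s X z u v) + Lf u v a ∧ ∀ k, |a k - ev i k| ≤ 39 * s := by
  have hsa : |s| ≤ 1 / 2 := by rw [abs_of_nonneg hs0]; exact hs
  obtain ⟨hκ, hact⟩ := act_sig h hsa hX
  obtain ⟨hz1, hu1, hv1⟩ := norm_le_one h
  set κ : ℂ := 1 + (s : ℂ) * hp z (mx X z) with hκdef
  set y := sig z u v (zet s X z u v) with hy
  set D : W := κ⁻¹ • act s X (fr u v i) with hD
  have hzy : hp z y = 1 := hp_sig h _
  have hns : ‖(s : ℂ)‖ = s := by rw [Complex.norm_real, Real.norm_of_nonneg hs0]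
  have hkm : ‖κ - 1‖ ≤ 9 / 8 * s := by
    have e : κ - 1 = (s : ℂ) * hp z (mx X z) := by rw [hκdef]; ring
    rw [e, norm_mul, hns]
    have := (norm_hp_le h X hX).1
    nlinarith
  have hkl : 7 / 16 ≤ ‖κ‖ := by
    have h1 : ‖(1 : ℂ)‖ ≤ ‖κ‖ + ‖κ - 1‖ := by
      have : (1 : ℂ) = κ - (κ - 1) := by ring
      conv_lhs => rw [this]
      exact norm_sub_le _ _
    rw [norm_one] at h1
    linarith
  have hki : ‖κ⁻¹‖ ≤ 16 / 7 := by
    rw [norm_inv]
    have : (‖κ‖)⁻¹ ≤ (7 / 16 : ℝ)⁻¹ := inv_anti₀ (by norm_num) hkl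
    refine this.trans (by norm_num)
  have hki0 : 0 ≤ ‖κ⁻¹‖ := norm_nonneg _
  have hmX : ‖mx X (fr u v i)‖ ≤ 3 / 8 := by
    refine (norm_mx_le X _).trans ?_
    have h1 := norm_fr h i
    have h0 : 0 ≤ ‖fr u v i‖ := norm_nonneg _
    have h2 : 0 ≤ ‖X‖ := norm_nonneg _
    nlinarith
  have hmz : ‖mx X z‖ ≤ 3 / 8 := by
    refine (norm_mx_le X _).trans ?_
    have h0 : 0 ≤ ‖z‖ := norm_nonneg _
    have h2 : 0 ≤ ‖X‖ := norm_nonneg _
    nlinarith
  have hDe : D = κ⁻¹ • fr u v i + (κ⁻¹ * s) • mx X (fr u v i) := by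
    rw [hD]
    unfold act
    rw [smul_add, smul_smul]
  have hc : hp z D = κ⁻¹ * s * hp z (mx X (fr u v i)) := by
    rw [hDe, hp_add_right, hp_smul_right, hp_smul_right, hp_fr h, mul_zero, zero_add]
  have hcn : ‖hp z D‖ ≤ 3 * s := by
    rw [hc, norm_mul, norm_mul, hns]
    have h1 : ‖hp z (mx X (fr u v i))‖ ≤ 9 / 8 := by
      refine (hp_norm_le _ _).trans ?_
      have h0 : 0 ≤ ‖z‖ := norm_nonneg _
      have h2 : 0 ≤ ‖mx X (fr u v i)‖ := norm_nonneg _
      nlinarith
    have h0 : 0 ≤ ‖hp z (mx X (fr u v i))‖ := norm_nonneg _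
    calc ‖κ⁻¹‖ * s * ‖hp z (mx X (fr u v i))‖ ≤ 16 / 7 * s * (9 / 8) := by
          refine mul_le_mul (mul_le_mul_of_nonneg_right hki hs0) h1 h0 (by positivity)
      _ ≤ 3 * s := by linarith
  have hyn : ‖y‖ ≤ 3 := by
    have e : y = κ⁻¹ • act s X z := by
      rw [hact, smul_smul, inv_mul_cancel₀ hκ, one_smul]
    rw [e, norm_smul]
    have h1 : ‖act s X z‖ ≤ 19 / 16 := by
      unfold act
      refine (norm_add_le _ _).trans ?_
      rw [norm_smul, hns]
      have h0 : 0 ≤ ‖mx X z‖ := norm_nonneg _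
      nlinarith
    calc ‖κ⁻¹‖ * ‖act s X z‖ ≤ 16 / 7 * (19 / 16) :=
          mul_le_mul hki h1 (norm_nonneg _) (by norm_num)
      _ ≤ 3 := by norm_num
  refine ⟨hp z D, crd u v (D - hp z D • y), ?_, ?_⟩
  · have h1 := expand h (D - hp z D • y)
    have h2 : hp z (D - hp z D • y) = 0 := by
      rw [hp_sub_right z D, hp_smul_right z y (hp z D), hzy]
      ring
    rw [h2, zero_smul, zero_add, ← Lf_crd] at h1
    rw [← h1]
    abel
  · intro k
    set e : W := D - hp z D • y - fr u v i with he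
    have h1 : D - hp z D • y = e + fr u v i := by rw [he]; abel
    rw [h1, crd_add, crd_fr h, add_sub_cancel_right]
    refine (abs_crd_le hu1 hv1 e k).trans ?_
    have h2 : e = (κ⁻¹ - 1) • fr u v i + (κ⁻¹ * s) • mx X (fr u v i) - hp z D • y := by
      have h7 : e = (κ⁻¹ • fr u v i + (κ⁻¹ * s) • mx X (fr u v i)) - hp z D • y - fr u v i := by
        rw [he, ← hDe]
      rw [h7, sub_smul, one_smul]
      abel
    have h3 : ‖(κ⁻¹ - 1) • fr u v i‖ ≤ 3 * s := by
      have e1 : κ⁻¹ - 1 = -(κ⁻¹ * (κ - 1)) := by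
        rw [mul_sub, inv_mul_cancel₀ hκ]
        ring
      rw [norm_smul, e1, norm_neg, norm_mul]
      have h4 := norm_fr h i
      calc ‖κ⁻¹‖ * ‖κ - 1‖ * ‖fr u v i‖ ≤ 16 / 7 * (9 / 8 * s) * 1 := by
            refine mul_le_mul (mul_le_mul hki hkm (norm_nonneg _) (by norm_num)) h4
              (norm_nonneg _) (by positivity)
        _ ≤ 3 * s := by linarith
    have h4 : ‖(κ⁻¹ * s) • mx X (fr u v i)‖ ≤ s := by
      rw [norm_smul, norm_mul, hns]
      calc ‖κ⁻¹‖ * s * ‖mx X (fr u v i)‖ ≤ 16 / 7 * s * (3 / 8) := by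
            refine mul_le_mul (mul_le_mul_of_nonneg_right hki hs0) hmX (norm_nonneg _)
              (by positivity)
        _ ≤ s := by linarith
    have h5 : ‖hp z D • y‖ ≤ 9 * s := by
      rw [norm_smul]
      calc ‖hp z D‖ * ‖y‖ ≤ 3 * s * 3 :=
            mul_le_mul hcn hyn (norm_nonneg _) (by positivity)
        _ = 9 * s := by ring
    have h6 : ‖e‖ ≤ 13 * s := by
      rw [h2]
      refine (norm_sub_le _ _).trans ?_
      have := norm_add_le ((κ⁻¹ - 1) • fr u v i) ((κ⁻¹ * s) • mx X (fr u v i))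
      linarith
    linarith

theorem fin_est {s : ℝ} (hs0 : 0 ≤ s) (hs : s ≤ 1 / 2) {a b : E} {i j : Fin 4}
    (ha : ∀ k, |a k - ev i k| ≤ 39 * s) (hb : ∀ k, |b k - ev j k| ≤ 39 * s)
    (t c : Fin 4 → Fin 4 → ℝ) :
    |∑ k, ∑ l, a k * b l * t k l - c i j| ≤
      441 * (∑ k, ∑ l, |t k l - c k l|) + 858 * s * ∑ k, ∑ l, |c k l| := by
  have he : ∀ i k : Fin 4, |ev i k| ≤ 1 := by
    intro i k
    unfold ev
    rw [PiLp.single_apply]
    split_ifs <;> simp
  have e1 : c i j = ∑ k, ∑ l, ev i k * ev j l * c k l := by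
    unfold ev
    simp only [PiLp.single_apply]
    rw [Finset.sum_eq_single i, Finset.sum_eq_single j]
    · simp
    · intro l _ hl
      simp [hl]
    · simp
    · intro k _ hk
      simp [hk]
    · simp
  have e2 : ∑ k, ∑ l, a k * b l * t k l - c i j = ∑ k, ∑ l, (a k * b l * (t k l - c k l) +
      (a k * b l - ev i k * ev j l) * c k l) := by
    rw [e1, ← Finset.sum_sub_distrib]
    refine Finset.sum_congr rfl fun k _ => ?_
    rw [← Finset.sum_sub_distrib]
    refine Finset.sum_congr rfl fun l _ => ?_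
    ring
  have ha1 : ∀ k, |a k| ≤ 21 := by
    intro k
    have h1 : |a k| ≤ |a k - ev i k| + |ev i k| := by
      have : a k = (a k - ev i k) + ev i k := by ring
      conv_lhs => rw [this]
      exact abs_add_le _ _
    have := ha k
    have := he i k
    linarith
  have hb1 : ∀ k, |b k| ≤ 21 := by
    intro k
    have h1 : |b k| ≤ |b k - ev j k| + |ev j k| := by
      have : b k = (b k - ev j k) + ev j k := by ring
      conv_lhs => rw [this]
      exact abs_add_le _ _
    have := hb k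
    have := he j k
    linarith
  have h3 : ∀ k l, |a k * b l * (t k l - c k l) + (a k * b l - ev i k * ev j l) * c k l| ≤
      441 * |t k l - c k l| + 858 * s * |c k l| := by
    intro k l
    refine (abs_add_le _ _).trans ?_
    refine add_le_add ?_ ?_
    · rw [abs_mul, abs_mul]
      refine mul_le_mul_of_nonneg_right ?_ (abs_nonneg _)
      calc |a k| * |b l| ≤ 21 * 21 := mul_le_mul (ha1 k) (hb1 l) (abs_nonneg _) (by norm_num)
        _ = 441 := by norm_num
    · rw [abs_mul]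
      refine mul_le_mul_of_nonneg_right ?_ (abs_nonneg _)
      have e3 : a k * b l - ev i k * ev j l = (a k - ev i k) * b l + ev i k * (b l - ev j l) := by
        ring
      rw [e3]
      refine (abs_add_le _ _).trans ?_
      rw [abs_mul, abs_mul]
      have h4 : |a k - ev i k| * |b l| ≤ 39 * s * 21 :=
        mul_le_mul (ha k) (hb1 l) (abs_nonneg _) (by positivity)
      have h5 : |ev i k| * |b l - ev j l| ≤ 1 * (39 * s) :=
        mul_le_mul (he i k) (hb l) (abs_nonneg _) (by norm_num)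
      linarith
  rw [e2]
  calc |∑ k, ∑ l, (a k * b l * (t k l - c k l) + (a k * b l - ev i k * ev j l) * c k l)|
      ≤ ∑ k, ∑ l, (441 * |t k l - c k l| + 858 * s * |c k l|) := by
        refine (Finset.abs_sum_le_sum_abs _ _).trans (Finset.sum_le_sum fun k _ => ?_)
        exact (Finset.abs_sum_le_sum_abs _ _).trans (Finset.sum_le_sum fun l _ => h3 k l)
    _ = _ := by
        simp only [Finset.sum_add_distrib, Finset.mul_sum]

theorem pt_est {α : W → W →L[ℝ] ℝ} (hα : Conn α) {z u v : W} (h : ON3 z u v) {s : ℝ}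
    (hs0 : 0 ≤ s) (hs : s ≤ 1 / 2) {X : XX} (hX : ‖X‖ ≤ 1 / 8) (c : Fin 4 → Fin 4 → ℝ)
    (i j : Fin 4) :
    |dd α (act s X z) (act s X (fr u v i)) (act s X (fr u v j)) - c i j| ≤
      441 * (∑ k, ∑ l, |co (ch α z u v) k l (zet s X z u v) - c k l|) +
        858 * s * ∑ k, ∑ l, |c k l| := by
  have hsa : |s| ≤ 1 / 2 := by rw [abs_of_nonneg hs0]; exact hs
  obtain ⟨hκ, hact⟩ := act_sig h hsa hX
  obtain ⟨ca, a, hca, ha⟩ := tilde h hs0 hs hX i
  obtain ⟨cb, b, hcb, hb⟩ := tilde h hs0 hs hX j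
  set κ : ℂ := 1 + (s : ℂ) * hp z (mx X z) with hκdef
  set ζ := zet s X z u v with hζ
  have hy : sig z u v ζ ≠ 0 := sig_ne h ζ
  have h1 : ∀ w : W, w = κ • (κ⁻¹ • w) := fun w => by
    rw [smul_smul, mul_inv_cancel₀ hκ, one_smul]
  have h2 : dd α (act s X z) (act s X (fr u v i)) (act s X (fr u v j)) =
      dd α (sig z u v ζ) (κ⁻¹ • act s X (fr u v i)) (κ⁻¹ • act s X (fr u v j)) := by
    conv_lhs => rw [hact, h1 (act s X (fr u v i)), h1 (act s X (fr u v j))]
    exact hα.dd_hom hκ hy _ _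
  have h3 : ∀ w, dd α (sig z u v ζ) (ca • sig z u v ζ) w = 0 := fun w => hα.dd_left hy ca w
  have h4 : ∀ w, dd α (sig z u v ζ) w (cb • sig z u v ζ) = 0 := fun w => by
    rw [dd_skew, hα.dd_left hy cb w, neg_zero]
  rw [h2, hca, hcb, dd_add_left, h3, zero_add, dd_add_right, h4, zero_add,
    ← dd_ch h hα.smooth, dd_expand]
  exact fin_est hs0 hs ha hb _ c

end AvNearAux

open AvNearAux

theorem avnear : ∃ C : ℝ, 1 ≤ C ∧ ∀ α : W → W →L[ℝ] ℝ, Conn α → ∀ z u v : W, ON3 z u v →
    ∀ s : ℝ, 0 < s → s ≤ 1 / 2 → ∀ (c : Fin 4 → Fin 4 → ℝ) (i j : Fin 4),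
      |cmp (dd (Av s α) z) u v i j - c i j| ≤
        C * ((s ^ 4)⁻¹ * (∫ x in ball (0 : E) (C * s), ∑ k, ∑ l, |co (ch α z u v) k l x - c k l|) +
          s * ∑ k, ∑ l, |c k l|) := by
  obtain ⟨C₁, hC₁, hdens⟩ := dens
  refine ⟨1000 * C₁, by linarith, ?_⟩
  intro α hα z u v h s hs0 hs c i j
  obtain ⟨hwc, hw0, hwz, hw1⟩ := wX_spec
  have hsa : |s| ≤ 1 / 2 := by rw [abs_of_nonneg hs0.le]; exact hs
  have hs2 : |s| < 2 := by linarith
  have hz : z ≠ 0 := by
    intro h0
    have := h.zz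
    rw [h0] at this
    simp [hp] at this
  have hcoc : ∀ k l, Continuous (co (ch α z u v) k l) := by
    intro k l
    have h1 : ContDiff ℝ ∞ (ch α z u v) := ch_smooth h hα.smooth
    have h2 : Continuous (fderiv ℝ (ch α z u v)) := h1.continuous_fderiv (by simp)
    unfold co dd
    exact ((h2.clm_apply continuous_const).clm_apply continuous_const).sub
      ((h2.clm_apply continuous_const).clm_apply continuous_const)
  set hh : E → ℝ := fun x => ∑ k, ∑ l, |co (ch α z u v) k l x - c k l| with hhdef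
  have hhc : Continuous hh := by
    refine continuous_finsetSum _ fun k _ => continuous_finsetSum _ fun l _ => ?_
    exact ((hcoc k l).sub continuous_const).abs
  have hh0 : ∀ x, 0 ≤ hh x := fun x =>
    Finset.sum_nonneg fun k _ => Finset.sum_nonneg fun l _ => abs_nonneg _
  set S : ℝ := ∑ k, ∑ l, |c k l| with hS
  have hS0 : 0 ≤ S := Finset.sum_nonneg fun k _ => Finset.sum_nonneg fun l _ => abs_nonneg _
  have hwcpt : HasCompactSupport wX := by
    refine HasCompactSupport.intro (isCompact_closedBall (0 : XX) (1 / 8)) fun x hx => hwz x ?_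
    rw [mem_closedBall, dist_zero_right, not_le] at hx
    exact hx.le
  have hwint : Integrable wX := hwc.continuous.integrable_of_hasCompactSupport hwcpt
  have hintd := integrable_dd hα hs2 hz (fr u v i) (fr u v j)
  have hinth : Integrable fun X => wX X * hh (zet s X z u v) := by
    have h1 : ContinuousOn (fun X => wX X * hh (zet s X z u v)) (closedBall 0 (1 / 8)) :=
      hwc.continuous.continuousOn.mul (hhc.comp_continuousOn (zet_continuous h hsa))
    have h2 : IntegrableOn (fun X => wX X * hh (zet s X z u v)) (closedBall 0 (1 / 8)) :=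
      h1.integrableOn_compact (isCompact_closedBall _ _)
    refine (integrableOn_iff_integrable_of_support_subset ?_).1 h2
    intro X hX
    rw [mem_closedBall, dist_zero_right]
    by_contra hcon
    rw [not_le] at hcon
    exact hX (by simp only [hwz X hcon.le, zero_mul])
  have e1 : cmp (dd (Av s α) z) u v i j - c i j =
      ∫ X, (wX X * dd α (act s X z) (act s X (fr u v i)) (act s X (fr u v j)) -
        wX X * c i j) := by
    rw [integral_sub hintd (hwint.mul_const _), integral_mul_const, hw1, one_mul]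
    unfold cmp
    rw [dd_Av hα hs2 hz]
  have e2 : |cmp (dd (Av s α) z) u v i j - c i j| ≤
      ∫ X, (441 * (wX X * hh (zet s X z u v)) + 858 * s * S * wX X) := by
    rw [e1, ← Real.norm_eq_abs]
    refine norm_integral_le_of_norm_le
      ((hinth.const_mul 441).add (hwint.const_mul (858 * s * S))) (ae_of_all _ fun X => ?_)
    rw [← mul_sub, norm_mul, Real.norm_of_nonneg (hw0 X), Real.norm_eq_abs]
    by_cases hX : ‖X‖ ≤ 1 / 8
    · have h1 := mul_le_mul_of_nonneg_left (pt_est hα h hs0.le hs hX c i j) (hw0 X)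
      refine h1.trans (le_of_eq ?_)
      simp only [hhdef, hS]
      ring
    · rw [hwz X (not_le.1 hX).le]
      simp
  have e3 : ∫ X, (441 * (wX X * hh (zet s X z u v)) + 858 * s * S * wX X) =
      441 * (∫ X, wX X * hh (zet s X z u v)) + 858 * s * S := by
    rw [integral_add (hinth.const_mul 441) (hwint.const_mul (858 * s * S)),
      integral_const_mul, integral_const_mul, hw1, mul_one]
  have e4 := hdens z u v h s hs0 hs hh hhc hh0
  have e5 : ∫ x in ball (0 : E) (C₁ * s), hh x ≤ ∫ x in ball (0 : E) (1000 * C₁ * s), hh x := by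
    refine setIntegral_mono_set ?_ (ae_of_all _ fun x => hh0 x) ?_
    · exact (hhc.continuousOn.integrableOn_compact
        (isCompact_closedBall (0 : E) (1000 * C₁ * s))).mono_set ball_subset_closedBall
    · refine (ball_subset_ball ?_).eventuallyLE
      nlinarith
  have hI0 : 0 ≤ ∫ x in ball (0 : E) (1000 * C₁ * s), hh x :=
    integral_nonneg fun x => hh0 x
  have hs4 : 0 ≤ (s ^ 4)⁻¹ := by positivity
  have hP : 0 ≤ (s ^ 4)⁻¹ * ∫ x in ball (0 : E) (1000 * C₁ * s), hh x := mul_nonneg hs4 hI0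
  calc |cmp (dd (Av s α) z) u v i j - c i j|
      ≤ 441 * (∫ X, wX X * hh (zet s X z u v)) + 858 * s * S := by rw [← e3]; exact e2
    _ ≤ 441 * (C₁ * ((s ^ 4)⁻¹ * ∫ x in ball (0 : E) (1000 * C₁ * s), hh x)) +
        858 * s * S := by
        have h1 : C₁ * ((s ^ 4)⁻¹ * ∫ x in ball (0 : E) (C₁ * s), hh x) ≤
            C₁ * ((s ^ 4)⁻¹ * ∫ x in ball (0 : E) (1000 * C₁ * s), hh x) :=
          mul_le_mul_of_nonneg_left (mul_le_mul_of_nonneg_left e5 hs4) (by linarith)
        linarith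
    _ ≤ 1000 * C₁ * ((s ^ 4)⁻¹ * (∫ x in ball (0 : E) (1000 * C₁ * s), hh x) + s * S) := by
        have h1 : 858 * s * S ≤ 1000 * C₁ * (s * S) := by
          have : 0 ≤ s * S := mul_nonneg hs0.le hS0
          nlinarith
        nlinarith

end Pool.Agent.Lib.Psd
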