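import Pool.Agent.Lib.Psd.FlatC
import Pool.Agent.Lib.Psd.AvNear
import Pool.Agent.Lib.Psd.NdP

/-!
# Pinched forms are symplectic and isotopic to the Fubini-Study form (connection forms)

PROOF. Let `η₁` be the constant of `lin`, `C` the constant of `avnear`. Choose `s₁ ≤ 1/2` and `η` small with `C (C^4 5 * 16 η + 4 s₁) ≤ η₁ / 2` or so. `flatc η` gives `r₀, κ₀`; put `s₀ ≤ s₁` with `C s₀ ≤ r₀`, then decrease `κ₀` so that `topc` gives closeness of
the averages at scale `s₀` to `c0`. (i) `s = 0`: `flatc` gives a non-zero component at `0`, `co_ch_zero`, pinching and `Pf_split` give `Pf > 0`. (ii) `0 < s ≤ s₀`: `flatc` at `r = C s`, Cauchy-Schwarz `∫_{B(0,r)} |T - c| ≤ C r^2 (∫ (T-c)^2)^{1/2}`, `avnear`, `lin`. (iii) the segment from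
`Av s₀ α` to `a0`: components `(1 - t) cmp (dd (Av s₀ α)) + t c0` are within `η₁ * 4` of `c0`. Path: `K (t, z) = (1 - χ (2 t - 1)) • Av (s₀ χ (2 t)) α z + χ (2 t - 1) • a0 z`, `χ = Real.smoothTransition`.
-/

set_option autoImplicit false

open MeasureTheory Set Metric
open scoped ContDiff

namespace Pool.Agent.Lib.Psd

open Pool.Agent.P28b04d

namespace MainAAux

theorem sum_abs_le (c : Fin 4 → Fin 4 → ℝ) : ∑ k, ∑ l, |c k l| ≤ 4 * Real.sqrt (nrm2 c) := by
  have h1 : (∑ k, ∑ l, |c k l|) ^ 2 ≤ 16 * nrm2 c := by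
    have h := sq_sum_le_card_mul_sum_sq (s := (Finset.univ : Finset (Fin 4 × Fin 4)))
      (f := fun p => |c p.1 p.2|)
    rw [Fintype.sum_prod_type, Fintype.sum_prod_type] at h
    simp only [sq_abs, Finset.card_univ, Fintype.card_prod, Fintype.card_fin] at h
    unfold nrm2
    push_cast at h
    linarith
  have h0 : 0 ≤ nrm2 c := nrm2_nonneg c
  have h2 : 4 * Real.sqrt (nrm2 c) = Real.sqrt (16 * nrm2 c) := by
    rw [Real.sqrt_mul (by norm_num), show (16 : ℝ) = 4 ^ 2 by norm_num, Real.sqrt_sq (by norm_num)]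
  rw [h2]
  exact Real.le_sqrt_of_sq_le h1

theorem vol_ball (r : ℝ) (hr : 0 ≤ r) : volume.real (ball (0 : E) r) ≤ 5 * r ^ 4 := by
  have hπ : Real.pi ^ 2 ≤ 10 := by
    have h1 := Real.pi_lt_d2
    have h2 := Real.pi_pos
    nlinarith
  rw [Measure.real, EuclideanSpace.volume_ball, Fintype.card_fin]
  have hG : Real.Gamma ((4 : ℕ) / 2 + 1) = 2 := by
    have := Real.Gamma_nat_eq_factorial 2
    norm_num at this ⊢
  rw [hG]
  have hs : Real.sqrt Real.pi ^ 4 = Real.pi ^ 2 := by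
    rw [show (4 : ℕ) = 2 * 2 by norm_num, pow_mul, Real.sq_sqrt Real.pi_pos.le]
  rw [hs, ENNReal.toReal_mul, ENNReal.toReal_pow, ENNReal.toReal_ofReal hr,
    ENNReal.toReal_ofReal (by positivity)]
  have h4 : 0 ≤ r ^ 4 := by positivity
  nlinarith

/-- Cauchy-Schwarz on a ball -/
theorem cs_ball {f : E → ℝ} (hf : Continuous f) {r A : ℝ} (hr : 0 ≤ r)
    (h : ∫ x in ball (0 : E) r, f x ^ 2 ≤ A) :
    ∫ x in ball (0 : E) r, |f x| ≤ 3 * r ^ 2 * Real.sqrt A := by
  have hfin : volume (ball (0 : E) r) < ⊤ := measure_ball_lt_top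
  have : IsFiniteMeasure (volume.restrict (ball (0 : E) r)) := ⟨by
    rw [Measure.restrict_apply_univ]
    exact hfin⟩
  have hi2 : IntegrableOn (fun x => f x ^ 2) (ball (0 : E) r) :=
    ((hf.pow 2).continuousOn.integrableOn_compact (isCompact_closedBall 0 r)).mono_set ball_subset_closedBall
  have hi1 : IntegrableOn (fun x => |f x|) (ball (0 : E) r) :=
    (hf.abs.continuousOn.integrableOn_compact (isCompact_closedBall 0 r)).mono_set ball_subset_closedBall
  have hA : 0 ≤ A := le_trans (integral_nonneg fun x => sq_nonneg _) h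
  set V := volume.real (ball (0 : E) r) with hV
  have hVle := vol_ball r hr
  have hV0 : 0 ≤ V := measureReal_nonneg
  set m := ∫ x in ball (0 : E) r, |f x| with hm
  have hm0 : 0 ≤ m := integral_nonneg fun x => abs_nonneg _
  -- m^2 ≤ V * A
  have key : m ^ 2 ≤ V * A := by
    -- ∫ (V|f| - m)^2 ≥ 0
    have h1 : 0 ≤ ∫ x in ball (0 : E) r, (V * |f x| - m) ^ 2 := integral_nonneg fun x => sq_nonneg _
    have h2 : ∫ x in ball (0 : E) r, (V * |f x| - m) ^ 2 =
        V ^ 2 * (∫ x in ball (0 : E) r, f x ^ 2) - 2 * V * m * m + m ^ 2 * V := by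
      have e : ∀ x, (V * |f x| - m) ^ 2 = V ^ 2 * f x ^ 2 - 2 * V * m * |f x| + m ^ 2 := by
        intro x
        rw [← sq_abs (f x)]
        ring
      simp_rw [e]
      have i1 : Integrable (fun x => V ^ 2 * f x ^ 2) (volume.restrict (ball (0 : E) r)) := hi2.const_mul _
      have i2 : Integrable (fun x => 2 * V * m * |f x|) (volume.restrict (ball (0 : E) r)) := hi1.const_mul _
      have i3 : Integrable (fun x => V ^ 2 * f x ^ 2 - 2 * V * m * |f x|) (volume.restrict (ball (0 : E) r)) :=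
        i1.sub i2
      rw [integral_add i3 (integrable_const _), integral_sub i1 i2, integral_const_mul, integral_const_mul,
        setIntegral_const, smul_eq_mul, ← hm, ← hV]
      ring
    rw [h2] at h1
    by_cases hVz : V = 0
    · have : m = 0 := by
        have hz : volume (ball (0 : E) r) = 0 := by
          have := (measureReal_eq_zero_iff hfin.ne).1 hVz
          exact this
        rw [hm, Measure.restrict_eq_zero.2 hz, integral_zero_measure]
      rw [this, hVz]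
      simp
    · have hVp : 0 < V := lt_of_le_of_ne hV0 (Ne.symm hVz)
      have h3 : 0 ≤ V * (V * (∫ x in ball (0 : E) r, f x ^ 2) - m ^ 2) := by nlinarith
      have h4 : 0 ≤ V * (∫ x in ball (0 : E) r, f x ^ 2) - m ^ 2 := by
        by_contra hneg
        push Not at hneg
        nlinarith
      nlinarith
  have h5 : m ^ 2 ≤ (3 * r ^ 2 * Real.sqrt A) ^ 2 := by
    have : (3 * r ^ 2 * Real.sqrt A) ^ 2 = 9 * r ^ 4 * A := by
      rw [mul_pow, Real.sq_sqrt hA]
      ring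
    rw [this]
    have h4 : 0 ≤ r ^ 4 := by positivity
    nlinarith [mul_nonneg h4 hA]
  exact le_of_sq_le_sq h5 (by positivity)


theorem Pinched.mono {κ κ' : ℝ} (h0 : 0 ≤ κ) (h : κ ≤ κ') {α : W → W →L[ℝ] ℝ} (hα : Pinched κ α) :
    Pinched κ' α := fun z u v hz => (hα z u v hz).trans (by
      have := nrm2_nonneg (sd (cmp (dd α z) u v))
      gcongr)

theorem nsq_one {z u v : W} (h : ON3 z u v) : nsq z = 1 := by
  have := nsq_eq_hp z
  rw [h.zz] at this
  exact_mod_cast this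

theorem ne_zero {z u v : W} (h : ON3 z u v) : z ≠ 0 := by
  intro h0
  have h1 := nsq_one h
  have h2 : nsq z = 0 := by
    rw [h0]
    simp [nsq]
  rw [h2] at h1
  exact zero_ne_one h1

/-- components of the Fubini-Study form at a unit vector -/
theorem cmp_a0 {z u v : W} (h : ON3 z u v) (i j : Fin 4) : cmp (dd a0 z) u v i j = c0 i j := by
  have hz := ne_zero h
  have hu : ∀ k, hp z (fr u v k) = 0 := by
    intro k
    fin_cases k
    · exact h.zu
    · change hp z (Complex.I • u) = 0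
      rw [hp_smul_right, h.zu, mul_zero]
    · exact h.zv
    · change hp z (Complex.I • v) = 0
      rw [hp_smul_right, h.zv, mul_zero]
  have hleft : ∀ (a b : W) (c : ℂ), hp (c • a) b = star c * hp a b := by
    intro a b c
    rw [← hp_star b (c • a), hp_smul_right, star_mul', hp_star]
  have huv : hp v u = 0 := by
    rw [← hp_star u v, h.uv, star_zero]
  unfold cmp
  rw [dd_a0 hz (hu i) (hu j), nsq_one h, div_one]
  fin_cases i <;> fin_cases j <;>
    simp [fr, c0, hp_smul_right, hleft, h.uu, h.vv, h.uv, huv]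

theorem pf_pos_of_ne {κ : ℝ} (h0 : 0 ≤ κ) (h1 : κ < 1) {τ : Fin 4 → Fin 4 → ℝ} (hs : Skew τ)
    (hp : nrm2 (asd τ) ≤ κ ^ 2 * nrm2 (sd τ)) {i j : Fin 4} (hne : τ i j ≠ 0) : 0 < Pf τ := by
  have hpos : 0 < nrm2 τ := by
    have h2 : 0 < τ i j ^ 2 := by positivity
    have h3 : τ i j ^ 2 ≤ nrm2 τ := by
      unfold nrm2
      calc τ i j ^ 2 ≤ ∑ l, τ i l ^ 2 :=
            Finset.single_le_sum (f := fun l => τ i l ^ 2) (fun _ _ => sq_nonneg _) (Finset.mem_univ j)
        _ ≤ ∑ k, ∑ l, τ k l ^ 2 :=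
            Finset.single_le_sum (f := fun k => ∑ l, τ k l ^ 2)
              (fun _ _ => Finset.sum_nonneg fun _ _ => sq_nonneg _) (Finset.mem_univ i)
    linarith
  rw [nrm2_split hs] at hpos
  have h4 := Pf_split hs
  have hsn := nrm2_nonneg (sd τ)
  have hκ : κ ^ 2 < 1 := by nlinarith
  have h5 : 0 < nrm2 (sd τ) := by
    by_contra hneg
    have : nrm2 (sd τ) = 0 := le_antisymm (not_lt.1 hneg) hsn
    rw [this] at hpos hp
    linarith
  nlinarith [mul_pos (sub_pos.2 hκ) h5]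

theorem c0_sqrt : Real.sqrt (nrm2 c0) = 4 := by
  rw [c0_facts.2.1, show (16 : ℝ) = 4 ^ 2 by norm_num, Real.sqrt_sq (by norm_num)]

theorem sum_abs_ball {f : Fin 4 → Fin 4 → E → ℝ} (hf : ∀ i j, Continuous (f i j)) {r B : ℝ} (hr : 0 ≤ r)
    (h : ∀ i j, ∫ x in ball (0 : E) r, |f i j x| ≤ B) :
    ∫ x in ball (0 : E) r, ∑ i, ∑ j, |f i j x| ≤ 16 * B := by
  have hi : ∀ i j, IntegrableOn (fun x => |f i j x|) (ball (0 : E) r) := fun i j =>
    ((hf i j).abs.continuousOn.integrableOn_compact (isCompact_closedBall 0 r)).mono_set ball_subset_closedBall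
  rw [integral_finset_sum _ fun i _ => integrable_finset_sum _ fun j _ => hi i j]
  calc ∑ i, ∫ x in ball (0 : E) r, ∑ j, |f i j x| = ∑ i, ∑ j, ∫ x in ball (0 : E) r, |f i j x| :=
        Finset.sum_congr rfl fun i _ => integral_finset_sum _ fun j _ => hi i j
    _ ≤ ∑ _i : Fin 4, ∑ _j : Fin 4, B := Finset.sum_le_sum fun i _ => Finset.sum_le_sum fun j _ => h i j
    _ = 16 * B := by
        simp only [Finset.sum_const, Finset.card_univ, Fintype.card_fin, nsmul_eq_mul]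
        push_cast
        ring

end MainAAux

open MainAAux

theorem mainA : ∃ κ : ℝ, 0 < κ ∧ ∀ α : W → W →L[ℝ] ℝ, Conn α → Pinched κ α → Nondeg α ∧
    ∃ K : ℝ × W → W →L[ℝ] ℝ, ContDiffOn ℝ ∞ K (univ ×ˢ {0}ᶜ) ∧ (∀ z : W, z ≠ 0 → K (0, z) = α z) ∧
      (∀ z : W, z ≠ 0 → K (1, z) = a0 z) ∧
      ∀ t : ℝ, Conn (fun z => K (t, z)) ∧ Nondeg (fun z => K (t, z)) := by
  obtain ⟨η₁, hη₁, hlin⟩ := lin
  obtain ⟨Ca, hCa, hav⟩ := avnear
  obtain ⟨Ct, hCt, htop⟩ := topc
  have hCa0 : 0 < Ca := by linarith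
  have hCt0 : 0 < Ct := by linarith
  set η : ℝ := min η₁ (η₁ / (96 * Ca ^ 5)) with hη
  have hη0 : 0 < η := lt_min hη₁ (by positivity)
  obtain ⟨r₀, κ₀, hr₀, hr₀1, hκ₀, hκ₀4, hflat⟩ := flatc η hη0
  -- the final scale
  set s₀ : ℝ := min (min (1 / 2) (r₀ / Ca)) (min (η₁ / (16 * Ca)) (η₁ / (48 * Real.sqrt Ct * Ca ^ 6))) with hs₀
  have hsC : 0 < Real.sqrt Ct := Real.sqrt_pos.2 hCt0
  have hs₀0 : 0 < s₀ := lt_min (lt_min (by norm_num) (by positivity)) (lt_min (by positivity) (by positivity))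
  have hs₀1 : s₀ ≤ 1 / 2 := (min_le_left _ _).trans (min_le_left _ _)
  have hs₀2 : Ca * s₀ ≤ r₀ := by
    have : s₀ ≤ r₀ / Ca := (min_le_left _ _).trans (min_le_right _ _)
    rw [le_div_iff₀ hCa0] at this
    linarith
  have hs₀3 : 16 * Ca * s₀ ≤ η₁ := by
    have : s₀ ≤ η₁ / (16 * Ca) := (min_le_right _ _).trans (min_le_left _ _)
    rw [le_div_iff₀ (by positivity)] at this
    linarith
  have hs₀4 : 48 * Real.sqrt Ct * Ca ^ 6 * s₀ ≤ η₁ := by
    have : s₀ ≤ η₁ / (48 * Real.sqrt Ct * Ca ^ 6) := (min_le_right _ _).trans (min_le_right _ _)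
    rw [le_div_iff₀ (by positivity)] at this
    linarith
  set κ : ℝ := min κ₀ (η₁ * s₀ ^ 2 / (48 * Real.sqrt Ct * Ca ^ 3)) with hκ
  have hκpos : 0 < κ := lt_min hκ₀ (by positivity)
  have hκle : κ ≤ κ₀ := min_le_left _ _
  have hκ4 : κ ≤ 1 / 4 := hκle.trans hκ₀4
  have hκ2 : 48 * Real.sqrt Ct * Ca ^ 3 * κ ≤ η₁ * s₀ ^ 2 := by
    have : κ ≤ η₁ * s₀ ^ 2 / (48 * Real.sqrt Ct * Ca ^ 3) := min_le_right _ _
    rw [le_div_iff₀ (by positivity)] at this
    linarith
  refine ⟨κ, hκpos, fun α hα hP => ?_⟩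
  have hP₀ : Pinched κ₀ α := Pinched.mono hκpos.le hκle hP
  -- step 0: the form itself
  have hA0 : ∀ z u v : W, ON3 z u v → 0 < Pf (cmp (dd α z) u v) := by
    intro z u v hz
    obtain ⟨i, j, hij⟩ := (hflat α hα hP₀ z u v hz).2
    rw [co_ch_zero hz hα.smooth] at hij
    exact pf_pos_of_ne hκpos.le (by linarith) (cmp_skew α z u v) (hP z u v hz) hij
  -- continuity of the components in the chart
  have hcont : ∀ z u v : W, ON3 z u v → ∀ (c : Fin 4 → Fin 4 → ℝ) (i j : Fin 4),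
      Continuous fun x => co (ch α z u v) i j x - c i j := fun z u v hz c i j =>
    ((co_contDiff (ch_smooth hz hα.smooth) i j).continuous.sub continuous_const)
  -- step 1: the averages
  have hA1 : ∀ s : ℝ, 0 < s → s ≤ s₀ → ∀ z u v : W, ON3 z u v → 0 < Pf (cmp (dd (Av s α) z) u v) := by
    intro s hs hss z u v hz
    have hr : 0 < Ca * s := by positivity
    have hrle : Ca * s ≤ r₀ := (mul_le_mul_of_nonneg_left hss hCa0.le).trans hs₀2
    obtain ⟨c, hcs, hc0, hcasd, hcint⟩ := (hflat α hα hP₀ z u v hz).1 (Ca * s) hr hrle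
    have hN0 : 0 ≤ Real.sqrt (nrm2 c) := Real.sqrt_nonneg _
    refine hlin c _ hcs (cmp_skew _ z u v) hc0 (hcasd.trans ?_) fun i j => ?_
    · have : η ≤ η₁ := min_le_left _ _
      gcongr
    · refine (hav α hα z u v hz s hs (by linarith) c i j).trans ?_
      have hB : ∀ k l, ∫ x in ball (0 : E) (Ca * s), |co (ch α z u v) k l x - c k l| ≤
          3 * η * (Ca * s) ^ 4 * Real.sqrt (nrm2 c) := by
        intro k l
        refine (cs_ball (hcont z u v hz c k l) hr.le (hcint k l)).trans (le_of_eq ?_)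
        have : Real.sqrt (η ^ 2 * nrm2 c * (Ca * s) ^ 4) = η * Real.sqrt (nrm2 c) * (Ca * s) ^ 2 := by
          rw [show η ^ 2 * nrm2 c * (Ca * s) ^ 4 = (η * (Ca * s) ^ 2) ^ 2 * nrm2 c by ring,
            Real.sqrt_mul (by positivity), Real.sqrt_sq (by positivity)]
          ring
        rw [this]
        ring
      have hsum := sum_abs_ball (f := fun k l x => co (ch α z u v) k l x - c k l)
        (hcont z u v hz c) hr.le hB
      have hsa := sum_abs_le c
      have hs4 : 0 < s ^ 4 := by positivity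
      have h1 : (s ^ 4)⁻¹ * (∫ x in ball (0 : E) (Ca * s), ∑ k, ∑ l, |co (ch α z u v) k l x - c k l|) ≤
          48 * η * Ca ^ 4 * Real.sqrt (nrm2 c) := by
        rw [inv_mul_le_iff₀ hs4]
        refine hsum.trans (le_of_eq ?_)
        ring
      have h2 : s * ∑ k, ∑ l, |c k l| ≤ s * (4 * Real.sqrt (nrm2 c)) := mul_le_mul_of_nonneg_left hsa hs.le
      have h3 : 96 * Ca ^ 5 * η ≤ η₁ := by
        have : η ≤ η₁ / (96 * Ca ^ 5) := min_le_right _ _
        rw [le_div_iff₀ (by positivity)] at this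
        linarith
      have h4 : 8 * Ca * s ≤ η₁ := by nlinarith
      calc Ca * ((s ^ 4)⁻¹ * (∫ x in ball (0 : E) (Ca * s), ∑ k, ∑ l, |co (ch α z u v) k l x - c k l|) +
            s * ∑ k, ∑ l, |c k l|)
          ≤ Ca * (48 * η * Ca ^ 4 * Real.sqrt (nrm2 c) + s * (4 * Real.sqrt (nrm2 c))) := by gcongr
        _ = (96 * Ca ^ 5 * η + 8 * Ca * s) / 2 * Real.sqrt (nrm2 c) := by ring
        _ ≤ (η₁ + η₁) / 2 * Real.sqrt (nrm2 c) := by gcongr
        _ = η₁ * Real.sqrt (nrm2 c) := by ring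
  -- step 2: closeness to the standard form at the final scale
  have hA2 : ∀ z u v : W, ON3 z u v → ∀ i j, |cmp (dd (Av s₀ α) z) u v i j - c0 i j| ≤ η₁ * 4 := by
    intro z u v hz i j
    have hr : 0 < Ca * s₀ := by positivity
    have hr1 : Ca * s₀ ≤ 1 := hs₀2.trans hr₀1
    refine (hav α hα z u v hz s₀ hs₀0 hs₀1 c0 i j).trans ?_
    have hB : ∀ k l, ∫ x in ball (0 : E) (Ca * s₀), |co (ch α z u v) k l x - c0 k l| ≤
        3 * (Ca * s₀) ^ 2 * (Real.sqrt Ct * (κ + (Ca * s₀) ^ 3)) := by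
      intro k l
      refine (cs_ball (hcont z u v hz c0 k l) hr.le (htop κ hκpos.le hκ4 α hα hP z u v hz k l _ hr hr1)).trans ?_
      have : Real.sqrt (Ct * (κ ^ 2 + (Ca * s₀) ^ 6)) ≤ Real.sqrt Ct * (κ + (Ca * s₀) ^ 3) := by
        rw [Real.sqrt_mul hCt0.le]
        gcongr
        refine Real.sqrt_le_iff.2 ⟨by positivity, ?_⟩
        have h1 : 0 ≤ κ * (Ca * s₀) ^ 3 := by positivity
        nlinarith
      gcongr
    have hsum := sum_abs_ball (f := fun k l x => co (ch α z u v) k l x - c0 k l)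
      (hcont z u v hz c0) hr.le hB
    have hsa := sum_abs_le c0
    rw [c0_sqrt] at hsa
    have hs4 : 0 < s₀ ^ 4 := by positivity
    have hs2 : 0 < s₀ ^ 2 := by positivity
    have h1 : Ca * ((s₀ ^ 4)⁻¹ * (∫ x in ball (0 : E) (Ca * s₀), ∑ k, ∑ l, |co (ch α z u v) k l x - c0 k l|)) ≤
        48 * Real.sqrt Ct * Ca ^ 3 * κ / s₀ ^ 2 + 48 * Real.sqrt Ct * Ca ^ 6 * s₀ := by
      calc Ca * ((s₀ ^ 4)⁻¹ * (∫ x in ball (0 : E) (Ca * s₀), ∑ k, ∑ l, |co (ch α z u v) k l x - c0 k l|))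
          ≤ Ca * ((s₀ ^ 4)⁻¹ * (16 * (3 * (Ca * s₀) ^ 2 * (Real.sqrt Ct * (κ + (Ca * s₀) ^ 3))))) := by gcongr
        _ = 48 * Real.sqrt Ct * Ca ^ 3 * κ / s₀ ^ 2 + 48 * Real.sqrt Ct * Ca ^ 6 * s₀ := by
            field_simp
            ring
    have h2 : 48 * Real.sqrt Ct * Ca ^ 3 * κ / s₀ ^ 2 ≤ η₁ := by
      rw [div_le_iff₀ hs2]
      exact hκ2
    have h3 : Ca * (s₀ * ∑ k, ∑ l, |c0 k l|) ≤ η₁ := by
      calc Ca * (s₀ * ∑ k, ∑ l, |c0 k l|) ≤ Ca * (s₀ * (4 * 4)) := by gcongr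
        _ = 16 * Ca * s₀ := by ring
        _ ≤ η₁ := hs₀3
    rw [mul_add]
    linarith
  -- the path
  set χ : ℝ → ℝ := Real.smoothTransition with hχ
  have hχc : ContDiff ℝ ∞ χ := Real.smoothTransition.contDiff
  have hχ0 : ∀ x, 0 ≤ χ x := fun x => Real.smoothTransition.nonneg x
  have hχ1 : ∀ x, χ x ≤ 1 := fun x => Real.smoothTransition.le_one x
  have hsa : ∀ t, |s₀ * χ (2 * t)| < 2 := fun t => by
    rw [abs_of_nonneg (mul_nonneg hs₀0.le (hχ0 _))]
    nlinarith [hχ0 (2 * t), hχ1 (2 * t)]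
  refine ⟨nondeg_of_Pf hα fun z u v hz => (hA0 z u v hz).ne',
    fun p => (1 - χ (2 * p.1 - 1)) • Av (s₀ * χ (2 * p.1)) α p.2 + χ (2 * p.1 - 1) • a0 p.2, ?_, ?_, ?_, ?_⟩
  · have h1 : ContDiffOn ℝ ∞ (fun p : ℝ × W => Av (s₀ * χ (2 * p.1)) α p.2) (univ ×ˢ {0}ᶜ) := by
      have hmap : ContDiffOn ℝ ∞ (fun p : ℝ × W => (s₀ * χ (2 * p.1), p.2)) (univ ×ˢ {0}ᶜ) := by
        apply ContDiff.contDiffOn
        exact (contDiff_const.mul (hχc.comp (contDiff_const.mul contDiff_fst))).prodMk contDiff_snd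
      refine (Av_smooth hα).comp hmap ?_
      rintro ⟨t, z⟩ ⟨-, hz⟩
      exact ⟨abs_lt.1 (hsa t), hz⟩
    have h2 : ContDiffOn ℝ ∞ (fun p : ℝ × W => a0 p.2) (univ ×ˢ {0}ᶜ) :=
      a0_conn.smooth.comp contDiff_snd.contDiffOn fun p hp => hp.2
    have h3 : ContDiff ℝ ∞ (fun p : ℝ × W => χ (2 * p.1 - 1)) :=
      hχc.comp ((contDiff_const.mul contDiff_fst).sub contDiff_const)
    exact ((contDiff_const.sub h3).contDiffOn.smul h1).add (h3.contDiffOn.smul h2)
  · intro z hz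
    have e1 : χ (2 * 0 - 1) = 0 := Real.smoothTransition.zero_of_nonpos (by norm_num)
    have e2 : χ (2 * 0) = 0 := Real.smoothTransition.zero_of_nonpos (by norm_num)
    simp only
    rw [e1, e2, mul_zero, sub_zero, one_smul, zero_smul, add_zero]
    exact Av_zero hα z hz
  · intro z hz
    have e1 : χ (2 * 1 - 1) = 1 := Real.smoothTransition.one_of_one_le (by norm_num)
    simp only
    rw [e1, sub_self, zero_smul, one_smul, zero_add]
  · intro t
    have hcA : Conn (Av (s₀ * χ (2 * t)) α) := Av_conn hα (hsa t)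
    have hK : Conn (fun z => (1 - χ (2 * t - 1)) • Av (s₀ * χ (2 * t)) α z + χ (2 * t - 1) • a0 z) :=
      hcA.lin a0_conn _
    refine ⟨hK, nondeg_of_Pf hK fun z u v hz => ne_of_gt ?_⟩
    simp only
    have hzz := ne_zero hz
    have hcmp : ∀ i j, cmp (dd (fun z => (1 - χ (2 * t - 1)) • Av (s₀ * χ (2 * t)) α z + χ (2 * t - 1) • a0 z) z) u v i j =
        (1 - χ (2 * t - 1)) * cmp (dd (Av (s₀ * χ (2 * t)) α) z) u v i j + χ (2 * t - 1) * c0 i j := by
      intro i j
      rw [← cmp_a0 hz]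
      exact dd_lin hcA.smooth a0_conn.smooth _ hzz _ _
    by_cases ht : 2 * t - 1 ≤ 0
    · have e1 : χ (2 * t - 1) = 0 := Real.smoothTransition.zero_of_nonpos ht
      have hfun : cmp (dd (fun z => (1 - χ (2 * t - 1)) • Av (s₀ * χ (2 * t)) α z + χ (2 * t - 1) • a0 z) z) u v =
          cmp (dd (Av (s₀ * χ (2 * t)) α) z) u v := by
        funext i j
        rw [hcmp i j, e1]
        ring
      rw [hfun]
      by_cases hs : χ (2 * t) = 0
      · have e3 : dd (Av (s₀ * χ (2 * t)) α) z = dd α z := by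
          have hev : Av (s₀ * χ (2 * t)) α =ᶠ[nhds z] α := by
            filter_upwards [isOpen_compl_singleton.mem_nhds (by simpa using hzz)] with y hy
            rw [hs, mul_zero]
            exact Av_zero hα y hy
          funext a b
          unfold dd
          rw [hev.fderiv_eq]
        rw [e3]
        exact hA0 z u v hz
      · have hpos : 0 < χ (2 * t) := lt_of_le_of_ne (hχ0 _) (Ne.symm hs)
        exact hA1 _ (by positivity) (by nlinarith [hχ1 (2 * t)]) z u v hz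
    · push Not at ht
      have e2 : χ (2 * t) = 1 := Real.smoothTransition.one_of_one_le (by linarith)
      rw [e2, mul_one] at hcmp ⊢
      refine hlin c0 _ c0_facts.1 (cmp_skew _ z u v) (by rw [c0_facts.2.1]; norm_num) ?_ fun i j => ?_
      · rw [c0_facts.2.2.1, c0_facts.2.1]
        simp only [nrm2]
        simp
        positivity
      · rw [hcmp i j, c0_sqrt]
        have h1 := hA2 z u v hz i j
        have h2 := hχ0 (2 * t - 1)
        have h3 := hχ1 (2 * t - 1)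
        have e : (1 - χ (2 * t - 1)) * cmp (dd (Av s₀ α) z) u v i j + χ (2 * t - 1) * c0 i j - c0 i j =
            (1 - χ (2 * t - 1)) * (cmp (dd (Av s₀ α) z) u v i j - c0 i j) := by ring
        rw [e, abs_mul, abs_of_nonneg (by linarith)]
        nlinarith [abs_nonneg (cmp (dd (Av s₀ α) z) u v i j - c0 i j)]

end Pool.Agent.Lib.Psd
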