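import Pool.Agent.Lib.Psd.AmbB
import Pool.Agent.Lib.Psd.MainA

/-!
# Pinched closed two-forms on `ℂP²`, ambient version

`mainB`: for some `κ > 0`, every closed two-form of the Fubini-Study class with anti-self-dual part at most `κ` times the self-dual part at every point is symplectic and joined to the Fubini-Study form by symplectic forms of the same class.
-/

set_option autoImplicit false

open MeasureTheory Set Metric
open scoped ContDiff

namespace Pool.Agent.Lib.Psd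

open Pool.Agent.P28b04d

namespace AmbCAux

theorem nsq_of_ON3 {z u v : W} (h : ON3 z u v) : nsq z = 1 := by
  have h1 := nsq_eq_hp z
  rw [h.zz] at h1
  exact_mod_cast h1

theorem ne_of_nsq {z : W} (hz : nsq z = 1) : z ≠ 0 := by
  rintro rfl
  simp [nsq] at hz

theorem hp_fr {z u v : W} (h : ON3 z u v) (i : Fin 4) : hp z (fr u v i) = 0 := by
  fin_cases i
  · exact h.zu
  · show hp z (Complex.I • u) = 0
    rw [hp_smul_right, h.zu, mul_zero]
  · exact h.zv
  · show hp z (Complex.I • v) = 0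
    rw [hp_smul_right, h.zv, mul_zero]

theorem decomp {z : W} (hz : nsq z = 1) (w : W) : hp z (w - hp z w • z) = 0 := by
  have h1 := nsq_eq_hp z
  rw [hz] at h1
  have h2 : w - hp z w • z = w + (-hp z w) • z := by rw [neg_smul, sub_eq_add_neg]
  rw [h2, hp_add_right, hp_smul_right, ← h1]
  push_cast
  ring

/-- non-degeneracy downstairs from non-degeneracy upstairs -/
theorem nondeg_amb {α : W → W →L[ℝ] ℝ} (hα : Conn α) (hn : Nondeg α) {Ω : Mat → Mat → Mat → ℝ}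
    (hΩ : ∀ z v w : W, nsq z = 1 → hp z v = 0 → hp z w = 0 → dd α z v w = Ω (pt z) (tv z v) (tv z w)) :
    NondegM Ω := by
  intro P hP Y hY hz
  obtain ⟨z, hz1, rfl⟩ := exists_unit hP
  have hz0 : z ≠ 0 := ne_of_nsq hz1
  obtain ⟨v, hv, rfl⟩ := tan_eq hz1 hY
  have h1 : ∀ w : W, dd α z v w = 0 := by
    intro w
    have hw := decomp hz1 w
    have h2 : w = (w - hp z w • z) + hp z w • z := by abel
    rw [h2, dd_add_right, dd_skew α z v (hp z w • z), hα.dd_left hz0, neg_zero, add_zero, hΩ z v _ hz1 hv hw]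
    exact hz _ (tv_mem hz1 hw)
  obtain ⟨c, hc⟩ := hn z hz0 v h1
  have h3 : c = 0 := by
    rw [hc, hp_smul_right, ← nsq_eq_hp, hz1] at hv
    simpa using hv
  rw [hc, h3, zero_smul]
  funext i j
  simp [tv]

theorem dd_congr {α β : W → W →L[ℝ] ℝ} (h : ∀ z : W, z ≠ 0 → α z = β z) {z : W} (hz : z ≠ 0) (v w : W) :
    dd α z v w = dd β z v w := by
  have h1 : α =ᶠ[nhds z] β := by
    filter_upwards [isOpen_compl_singleton.mem_nhds (show z ∈ ({0}ᶜ : Set W) from hz)] with y hy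
    exact h y hy
  unfold dd
  rw [h1.fderiv_eq]

end AmbCAux

open AmbCAux

theorem mainB : ∃ κ : ℝ, 0 < κ ∧ ∀ β : Mat → Mat →L[ℝ] ℝ, ContDiff ℝ ∞ β → PinchedM κ (form β) →
    NondegM (form β) ∧
    ∃ K : ℝ × Mat → Mat →L[ℝ] ℝ, ContDiff ℝ ∞ K ∧
      (∀ P ∈ CP 2, ∀ Y ∈ Tan P, K (0, P) Y = β P Y) ∧
      (∀ P ∈ CP 2, ∀ Y ∈ Tan P, K (1, P) Y = 0) ∧
      ∀ t : ℝ, NondegM (form fun P => K (t, P)) := by
  obtain ⟨κ, hκ, H⟩ := mainA
  refine ⟨κ, hκ, fun β hβ hpin => ?_⟩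
  have hα : Conn (fun z => a0 z + pb β z) := conn_add a0_conn (pb_basic hβ)
  have hP : Pinched κ (fun z => a0 z + pb β z) := by
    intro z u v h
    have h1 : cmp (dd (fun z => a0 z + pb β z) z) u v = cmpM (form β) z u v := by
      funext i j
      unfold cmp cmpM
      exact dd_conn hβ (nsq_of_ON3 h) (hp_fr h i) (hp_fr h j)
    rw [h1]
    exact hpin z u v h
  obtain ⟨hn, K, hKs, hK0, hK1, hKt⟩ := H _ hα hP
  refine ⟨nondeg_amb hα hn fun z v w hz hv hw => dd_conn hβ hz hv hw, ?_⟩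
  set Γ : ℝ × W → W →L[ℝ] ℝ := fun q => K q - a0 q.2 with hΓ
  have hΓs : ContDiffOn ℝ ∞ Γ (univ ×ˢ {0}ᶜ) := by
    refine hKs.sub ?_
    exact a0_conn.smooth.comp contDiffOn_snd fun q hq => hq.2
  have hΓb : ∀ t, Basic (fun z => Γ (t, z)) := fun t => (hKt t).1.sub a0_conn
  have hΓt : ∀ t : ℝ, ∀ z : W, z ≠ 0 → a0 z + pb (fun P => ext1 Γ (t, P)) z = K (t, z) := by
    intro t z hz
    rw [pb_ext1 hΓb t hz]
    simp [hΓ]
  have hs := ext1_smooth hΓs
  refine ⟨ext1 Γ, hs, ?_, ?_, ?_⟩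
  · intro P hP Y hY
    obtain ⟨z, hz1, rfl⟩ := exists_unit hP
    obtain ⟨v, hv, rfl⟩ := tan_eq hz1 hY
    rw [ext1_apply hΓb 0 hz1 hv]
    have h1 : Γ (0, z) = pb β z := by
      simp only [hΓ]
      rw [hK0 z (ne_of_nsq hz1), add_sub_cancel_left]
    rw [h1, pb, ContinuousLinearMap.comp_apply, fderiv_pt hz1 hv]
  · intro P hP Y hY
    obtain ⟨z, hz1, rfl⟩ := exists_unit hP
    obtain ⟨v, hv, rfl⟩ := tan_eq hz1 hY
    rw [ext1_apply hΓb 1 hz1 hv]
    have h1 : Γ (1, z) = 0 := by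
      simp only [hΓ]
      rw [hK1 z (ne_of_nsq hz1), sub_self]
    rw [h1, zero_apply]
  · intro t
    have hst : ContDiff ℝ ∞ (fun P => ext1 Γ (t, P)) := hs.comp (contDiff_const.prodMk contDiff_id)
    refine nondeg_amb (hKt t).1 (hKt t).2 fun z v w hz hv hw => ?_
    rw [← dd_conn hst hz hv hw]
    exact dd_congr (fun y hy => (hΓt t y hy).symm) (ne_of_nsq hz) v w

end Pool.Agent.Lib.Psd
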