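import Pool.Agent.Lib.Psd.ConnB

set_option autoImplicit false

/-!
# Bounds for basic one-forms

PROOF. On the compact unit sphere (maximum norm) `‖γ z‖ ≤ C` and `‖fderiv ℝ γ z‖ ≤ C` (continuous on `{0}ᶜ`). For `z ≠ 0` put `c = ‖z‖⁻¹` (as a complex number): `γ z v = γ (c z) (c v)`, and `dd γ z v w = dd γ (c z) (c v) (c w)` (`Basic.dd_hom`).
-/

open MeasureTheory Set Metric
open scoped ContDiff

namespace Pool.Agent.Lib.Psd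

open Pool.Agent.P28b04d

namespace BdBAux

theorem contFd {γ : W → W →L[ℝ] ℝ} (hs : ContDiffOn ℝ ∞ γ {0}ᶜ) :
    ContinuousOn (fun z => fderiv ℝ γ z) {0}ᶜ :=
  hs.continuousOn_fderiv_of_isOpen isOpen_compl_singleton (by simp)

theorem sphere_bound {F : Type} [NormedAddCommGroup F] {f : W → F} (hf : ContinuousOn f {0}ᶜ) :
    ∃ C : ℝ, 0 ≤ C ∧ ∀ z : W, ‖z‖ = 1 → ‖f z‖ ≤ C := by
  have hsub : Metric.sphere (0 : W) 1 ⊆ {0}ᶜ := by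
    intro z hz h0
    have h1 : ‖z‖ = 1 := by simpa using hz
    have h2 : z = 0 := h0
    rw [h2, norm_zero] at h1
    exact zero_ne_one h1
  obtain ⟨C, hC⟩ := (isCompact_sphere (0 : W) 1).exists_bound_of_continuousOn (hf.mono hsub)
  refine ⟨max C 0, le_max_right _ _, ?_⟩
  intro z hz
  exact (hC z (by simpa using hz)).trans (le_max_left _ _)

theorem unit_vec {z : W} (hz : z ≠ 0) :
    (((‖z‖⁻¹ : ℝ) : ℂ) ≠ 0) ∧ ‖(((‖z‖⁻¹ : ℝ) : ℂ)) • z‖ = 1 ∧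
      ∀ v : W, ‖(((‖z‖⁻¹ : ℝ) : ℂ)) • v‖ = ‖v‖ / ‖z‖ := by
  have hz' : ‖z‖ ≠ 0 := norm_ne_zero_iff.mpr hz
  have hn : ‖(((‖z‖⁻¹ : ℝ) : ℂ))‖ = ‖z‖⁻¹ := by
    rw [Complex.norm_real, norm_inv, norm_norm]
  refine ⟨?_, ?_, ?_⟩
  · intro h
    have h1 : (‖z‖⁻¹ : ℝ) = 0 := by exact_mod_cast h
    exact inv_ne_zero hz' h1
  · rw [norm_smul, hn, inv_mul_cancel₀ hz']
  · intro v
    rw [norm_smul, hn, div_eq_inv_mul]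

end BdBAux

theorem Basic.bound {γ : W → W →L[ℝ] ℝ} (h : Basic γ) : ∃ C : ℝ, 0 ≤ C ∧
    (∀ z : W, z ≠ 0 → ∀ v, |γ z v| ≤ C * ‖v‖ / ‖z‖) ∧
    ∀ z : W, z ≠ 0 → ∀ v w, |dd γ z v w| ≤ C * ‖v‖ * ‖w‖ / ‖z‖ ^ 2 := by
  obtain ⟨C1, h10, h1⟩ := BdBAux.sphere_bound (F := W →L[ℝ] ℝ) h.smooth.continuousOn
  obtain ⟨C2, h20, h2⟩ := BdBAux.sphere_bound (F := W →L[ℝ] (W →L[ℝ] ℝ)) (BdBAux.contFd h.smooth)
  refine ⟨C1 + 2 * C2, by positivity, ?_, ?_⟩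
  · intro z hz v
    obtain ⟨hc, hu, hv⟩ := BdBAux.unit_vec hz
    have hz' : 0 < ‖z‖ := norm_pos_iff.mpr hz
    rw [← h.hom _ hc z hz v, ← Real.norm_eq_abs]
    calc ‖γ ((((‖z‖⁻¹ : ℝ) : ℂ)) • z) ((((‖z‖⁻¹ : ℝ) : ℂ)) • v)‖
        ≤ ‖γ ((((‖z‖⁻¹ : ℝ) : ℂ)) • z)‖ * ‖(((‖z‖⁻¹ : ℝ) : ℂ)) • v‖ :=
          ContinuousLinearMap.le_opNorm _ _
      _ ≤ C1 * (‖v‖ / ‖z‖) := by
          rw [hv v]
          exact mul_le_mul_of_nonneg_right (h1 _ hu) (by positivity)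
      _ ≤ (C1 + 2 * C2) * (‖v‖ / ‖z‖) :=
          mul_le_mul_of_nonneg_right (by linarith) (by positivity)
      _ = (C1 + 2 * C2) * ‖v‖ / ‖z‖ := by ring
  · intro z hz v w
    obtain ⟨hc, hu, hv⟩ := BdBAux.unit_vec hz
    have hz' : 0 < ‖z‖ := norm_pos_iff.mpr hz
    rw [← h.dd_hom hc hz v w]
    set c : ℂ := (((‖z‖⁻¹ : ℝ) : ℂ)) with hcdef
    have hA : ∀ a b : W, |fderiv ℝ γ (c • z) a b| ≤ C2 * ‖a‖ * ‖b‖ := by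
      intro a b
      rw [← Real.norm_eq_abs]
      calc ‖fderiv ℝ γ (c • z) a b‖ ≤ ‖fderiv ℝ γ (c • z) a‖ * ‖b‖ :=
            ContinuousLinearMap.le_opNorm _ _
        _ ≤ (‖fderiv ℝ γ (c • z)‖ * ‖a‖) * ‖b‖ :=
            mul_le_mul_of_nonneg_right (ContinuousLinearMap.le_opNorm _ _) (norm_nonneg _)
        _ ≤ (C2 * ‖a‖) * ‖b‖ :=
            mul_le_mul_of_nonneg_right
              (mul_le_mul_of_nonneg_right (h2 _ hu) (norm_nonneg _)) (norm_nonneg _)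
    have h3 := hA (c • v) (c • w)
    have h4 := hA (c • w) (c • v)
    rw [hv v, hv w] at h3 h4
    have h5 : |dd γ (c • z) (c • v) (c • w)| ≤
        C2 * (‖v‖ / ‖z‖) * (‖w‖ / ‖z‖) + C2 * (‖w‖ / ‖z‖) * (‖v‖ / ‖z‖) := by
      unfold dd
      exact (abs_sub _ _).trans (add_le_add h3 h4)
    refine h5.trans ?_
    have h6 : C2 * (‖v‖ / ‖z‖) * (‖w‖ / ‖z‖) + C2 * (‖w‖ / ‖z‖) * (‖v‖ / ‖z‖) =
        2 * C2 * (‖v‖ * ‖w‖ / ‖z‖ ^ 2) := by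
      field_simp
      ring
    have h7 : (C1 + 2 * C2) * ‖v‖ * ‖w‖ / ‖z‖ ^ 2 = (C1 + 2 * C2) * (‖v‖ * ‖w‖ / ‖z‖ ^ 2) := by
      ring
    rw [h6, h7]
    exact mul_le_mul_of_nonneg_right (by linarith) (by positivity)

end Pool.Agent.Lib.Psd
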