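import Pool.Agent.Lib.Psd.FrameG
import Pool.Agent.Lib.Psd.Alg

set_option autoImplicit false

/-!
# Components in the chart and in a unitary frame

PROOF. `chart_frame`: by `frame`, modulo multiples of `y = sig z u v x` (which `dd α y` kills on the left by hypothesis, and on the right by skew symmetry) `fr u v i = ∑_k Rm a d m₁ m₂ k i • fr p q k`:
`u ≡ a p`, `iu ≡ a ip`, `v ≡ m₁ p + m₂ ip + d q`, `iv ≡ - m₂ p + m₁ ip + d iq`. Bilinearity. The pinching inequality is only assumed at unit vectors `ẑ = ρ⁻¹ y`; `dd α y v w = ρ^-2 * dd α ẑ v w` by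
`Conn.dd_hom` (`c = ρ`: `dd α (ρ ẑ) (ρ v) (ρ w) = dd α ẑ v w`), so it holds at `y` as well, for `cmp (dd α y) p q`. For `a0`: `dd_a0` gives `cmp (dd a0 y) p q = ρ^-2 * c0` (`hp p (I p) = I`, `hp p q = 0`, `nsq y = ρ^2`).
-/

open MeasureTheory Set Metric
open scoped ContDiff

namespace Pool.Agent.Lib.Psd

open Pool.Agent.P28b04d

namespace CmpFAux

theorem hp_smul_left (c : ℂ) (a b : W) : hp (c • a) b = star c * hp a b := by
  unfold hp
  rw [Finset.mul_sum]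
  refine Finset.sum_congr rfl fun k _ => ?_
  rw [Pi.smul_apply, smul_eq_mul, star_mul']
  ring

theorem rsmul (r : ℝ) (a : W) : r • a = (r : ℂ) • a := (Complex.coe_smul r a).symm

theorem dd_zero_left (α : W → W →L[ℝ] ℝ) (z w : W) : dd α z 0 w = 0 := by
  have := dd_smul_left α z 0 0 w
  rwa [zero_smul, zero_mul] at this

theorem dd_sum_left (α : W → W →L[ℝ] ℝ) (z w : W) (r : Fin 4 → ℝ) (f : Fin 4 → W) :
    dd α z (∑ k, r k • f k) w = ∑ k, r k * dd α z (f k) w := by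
  rw [Fin.sum_univ_four, Fin.sum_univ_four, dd_add_left, dd_add_left, dd_add_left,
    dd_smul_left, dd_smul_left, dd_smul_left, dd_smul_left]

theorem dd_sum_right (α : W → W →L[ℝ] ℝ) (z w : W) (r : Fin 4 → ℝ) (f : Fin 4 → W) :
    dd α z w (∑ k, r k • f k) = ∑ k, r k * dd α z w (f k) := by
  rw [Fin.sum_univ_four, Fin.sum_univ_four, dd_add_right, dd_add_right, dd_add_right,
    dd_smul_right, dd_smul_right, dd_smul_right, dd_smul_right]

/-- decomposition of the frame -/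
theorem fr_decomp {y u v p q : W} {c₁ c₂ : ℂ} {a d m₁ m₂ : ℝ}
    (hu : u = c₁ • y + (a : ℂ) • p)
    (hv : v = c₂ • y + ((m₁ : ℂ) + m₂ * Complex.I) • p + (d : ℂ) • q) (i : Fin 4) :
    ∃ e : ℂ, fr u v i = e • y + ∑ k, Rm a d m₁ m₂ k i • fr p q k := by
  have hI : Complex.I * Complex.I = -1 := Complex.I_mul_I
  fin_cases i
  · refine ⟨c₁, ?_⟩
    rw [Fin.sum_univ_four]
    show u = c₁ • y + (a • p + (0 : ℝ) • (Complex.I • p) + (0 : ℝ) • q + (0 : ℝ) • (Complex.I • q))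
    rw [hu, rsmul a p]
    simp
  · refine ⟨Complex.I * c₁, ?_⟩
    rw [Fin.sum_univ_four]
    show Complex.I • u = (Complex.I * c₁) • y + ((0 : ℝ) • p + a • (Complex.I • p) + (0 : ℝ) • q +
      (0 : ℝ) • (Complex.I • q))
    rw [hu, rsmul a]
    simp only [zero_smul, add_zero, zero_add, smul_add, smul_smul]
    rw [mul_comm (a : ℂ)]
  · refine ⟨c₂, ?_⟩
    rw [Fin.sum_univ_four]
    show v = c₂ • y + (m₁ • p + m₂ • (Complex.I • p) + d • q + (0 : ℝ) • (Complex.I • q))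
    rw [hv, rsmul m₁, rsmul m₂, rsmul d]
    simp only [zero_smul, add_zero, add_smul, smul_smul]
    abel
  · refine ⟨Complex.I * c₂, ?_⟩
    rw [Fin.sum_univ_four]
    show Complex.I • v = (Complex.I * c₂) • y + ((-m₂) • p + m₁ • (Complex.I • p) + (0 : ℝ) • q +
      d • (Complex.I • q))
    rw [hv, rsmul (-m₂), rsmul m₁, rsmul d]
    simp only [zero_smul, add_zero, smul_add, smul_smul]
    have e1 : Complex.I * ((m₁ : ℂ) + m₂ * Complex.I) = ((-m₂ : ℝ) : ℂ) + m₁ * Complex.I := by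
      push_cast
      linear_combination (m₂ : ℂ) * hI
    rw [e1, add_smul, mul_comm Complex.I (d : ℂ)]
    abel

theorem nrm2_smul (c : ℝ) (T : Fin 4 → Fin 4 → ℝ) :
    nrm2 (fun i j => c * T i j) = c ^ 2 * nrm2 T := by
  unfold nrm2
  rw [Finset.mul_sum]
  refine Finset.sum_congr rfl fun i _ => ?_
  rw [Finset.mul_sum]
  refine Finset.sum_congr rfl fun j _ => ?_
  ring

/-- the Hermitian products of the frame -/
theorem hp_fr {z p q : W} (h : ON3 z p q) (i j : Fin 4) :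
    2 * (hp (fr p q i) (fr p q j)).im = c0 i j := by
  have hqp : hp q p = 0 := by rw [← hp_star, h.uv, star_zero]
  have hI : star Complex.I = -Complex.I := Complex.conj_I
  fin_cases i <;> fin_cases j <;>
    simp [fr, c0, hp_smul_left, hp_smul_right, h.uu, h.vv, h.uv, hqp]

end CmpFAux

open CmpFAux

theorem chart_frame {z u v : W} (h : ON3 z u v) (x : E) : ∃ (p q : W) (a d m₁ m₂ ρ : ℝ),
    0 < ρ ∧ ρ ^ 2 = 1 + ‖x‖ ^ 2 ∧ ON3 ((ρ⁻¹ : ℝ) • sig z u v x) p q ∧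
    0 < a ∧ a ≤ 1 ∧ 0 < d ∧ d ≤ 1 ∧ |m₁| ≤ 1 ∧ |m₂| ≤ 1 ∧ ρ * a * d = 1 ∧
    1 - a ≤ ‖x‖ ∧ 1 - d ≤ ‖x‖ ∧ |m₁| ≤ ‖x‖ ∧ |m₂| ≤ ‖x‖ ∧
    (∀ α : W → W →L[ℝ] ℝ, ContDiffOn ℝ ∞ α {0}ᶜ → (∀ (c : ℂ) (w : W), dd α (sig z u v x) (c • sig z u v x) w = 0) →
      ∀ i j, co (ch α z u v) i j x = tr a d m₁ m₂ (cmp (dd α (sig z u v x)) p q) i j) ∧
    (∀ i j, cmp (dd a0 (sig z u v x)) p q i j = (ρ ^ 2)⁻¹ * c0 i j) ∧
    ∀ (κ : ℝ) (α : W → W →L[ℝ] ℝ), Conn α → Pinched κ α →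
      nrm2 (asd (cmp (dd α (sig z u v x)) p q)) ≤ κ ^ 2 * nrm2 (sd (cmp (dd α (sig z u v x)) p q)) := by
  obtain ⟨p, q, c₁, c₂, a, d, m₁, m₂, ρ, hρ, hρ2, hON, hu, hv, ha0, ha1, hd0, hd1, hm1, hm2, had,
    h1, h2, h3, h4⟩ := frame h x
  have hy : sig z u v x ≠ 0 := sig_ne h x
  have hρc : (ρ : ℂ) ≠ 0 := by exact_mod_cast hρ.ne'
  refine ⟨p, q, a, d, m₁, m₂, ρ, hρ, hρ2, hON, ha0, ha1, hd0, hd1, hm1, hm2, had, h1, h2, h3, h4,
    ?_, ?_, ?_⟩
  · intro α hα hk i j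
    rw [co_ch h hα]
    obtain ⟨e, he⟩ := fr_decomp hu hv i
    obtain ⟨e', he'⟩ := fr_decomp hu hv j
    rw [he, he', dd_add_left, hk, zero_add, dd_add_right, dd_skew α _ _ (e' • _), hk, neg_zero,
      zero_add, dd_sum_left]
    unfold tr
    refine Finset.sum_congr rfl fun k _ => ?_
    rw [dd_sum_right, Finset.mul_sum]
    refine Finset.sum_congr rfl fun l _ => ?_
    unfold cmp
    ring
  · intro i j
    have e1 : ∀ w, hp ((ρ⁻¹ : ℝ) • sig z u v x) w = 0 → hp (sig z u v x) w = 0 := by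
      intro w hw
      rw [rsmul, hp_smul_left] at hw
      rcases mul_eq_zero.1 hw with h0 | h0
      · exfalso
        rw [star_eq_zero] at h0
        have : (ρ⁻¹ : ℝ) = 0 := by exact_mod_cast h0
        exact (inv_ne_zero hρ.ne') this
      · exact h0
    have e2 : ∀ k, hp (sig z u v x) (fr p q k) = 0 := by
      have hp1 := e1 p hON.zu
      have hq1 := e1 q hON.zv
      intro k
      fin_cases k
      · exact hp1
      · show hp _ (Complex.I • p) = 0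
        rw [hp_smul_right, hp1, mul_zero]
      · exact hq1
      · show hp _ (Complex.I • q) = 0
        rw [hp_smul_right, hq1, mul_zero]
    unfold cmp
    rw [dd_a0 hy (e2 i) (e2 j), hp_fr hON i j, nsq_sig h, ← hρ2]
    rw [div_eq_inv_mul]
  · intro κ α hα hP
    have h5 := hP _ p q hON
    have hz0 : (ρ⁻¹ : ℝ) • sig z u v x ≠ 0 := smul_ne_zero (inv_ne_zero hρ.ne') hy
    have e1 : cmp (dd α ((ρ⁻¹ : ℝ) • sig z u v x)) p q =
        fun i j => ρ ^ 2 * cmp (dd α (sig z u v x)) p q i j := by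
      funext i j
      unfold cmp
      have h6 := hα.dd_hom hρc hz0 (fr p q i) (fr p q j)
      have h7 : (ρ : ℂ) • ((ρ⁻¹ : ℝ) • sig z u v x) = sig z u v x := by
        rw [← rsmul, smul_smul, mul_inv_cancel₀ hρ.ne', one_smul]
      rw [h7, ← rsmul, ← rsmul, dd_smul_left, dd_smul_right] at h6
      rw [← h6]
      ring
    have e2 : asd (fun i j => ρ ^ 2 * cmp (dd α (sig z u v x)) p q i j) =
        fun i j => ρ ^ 2 * asd (cmp (dd α (sig z u v x)) p q) i j := by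
      funext i j
      rw [asd_smul]
    have e3 : sd (fun i j => ρ ^ 2 * cmp (dd α (sig z u v x)) p q i j) =
        fun i j => ρ ^ 2 * sd (cmp (dd α (sig z u v x)) p q) i j := by
      funext i j
      rw [sd_smul]
    rw [e1, e2, e3, nrm2_smul, nrm2_smul] at h5
    have h8 : 0 < (ρ ^ 2) ^ 2 := by positivity
    have h9 : (ρ ^ 2) ^ 2 * nrm2 (asd (cmp (dd α (sig z u v x)) p q)) ≤
        (ρ ^ 2) ^ 2 * (κ ^ 2 * nrm2 (sd (cmp (dd α (sig z u v x)) p q))) := by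
      calc _ ≤ _ := h5
        _ = _ := by ring
    exact le_of_mul_le_mul_left h9 h8

end Pool.Agent.Lib.Psd
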