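import Pool.Agent.Lib.Psd.ChartA

set_option autoImplicit false

/-!
# The projective maps `1 + s X`

PROOFS. `‖mx X z‖ ≤ 3 ‖X‖ ‖z‖` (maximum norms), so for `‖X‖ ≤ 1/8`, `|s| < 2`: `‖s • mx X z‖ < ‖z‖`. `exists_wX`: a `ContDiffBump (0 : XX)` with `rIn = 1/32`, `rOut = 1/16`, normalised (`ContDiffBump.normed`; the type `XX = Fin 3 → Fin 3 → ℂ` is a finite
dimensional real normed space with the volume of `MeasureSpace.pi`, an additive Haar measure; it needs `HasContDiffBump XX`, automatic in finite dimension). `act_sig`: `mx X z = (hp z (mx X z)) z + (hp u (mx X z)) u + (hp v (mx X z)) v` (unitary basis).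
-/

open MeasureTheory Set Metric
open scoped ContDiff

namespace Pool.Agent.Lib.Psd

open Pool.Agent.P28b04d

theorem exists_wX : ∃ w : XX → ℝ, ContDiff ℝ ∞ w ∧ (∀ X, 0 ≤ w X) ∧ (∀ X, 1 / 8 ≤ ‖X‖ → w X = 0) ∧
    ∫ X, w X = 1 := by
  let b : ContDiffBump (0 : XX) := ⟨1 / 32, 1 / 16, by norm_num, by norm_num⟩
  refine ⟨b.normed volume, b.contDiff_normed, b.nonneg_normed, ?_, b.integral_normed⟩
  intro X hX
  have h1 : X ∉ Function.support (b.normed volume) := by
    rw [b.support_normed_eq]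
    intro h2
    have h3 : ‖X‖ < 1 / 16 := by
      have : dist X 0 < 1 / 16 := h2
      rwa [dist_zero_right] at this
    linarith
  exact Function.notMem_support.1 h1

/-- The weight. -/
noncomputable def wX : XX → ℝ := Classical.choose exists_wX

theorem wX_spec : ContDiff ℝ ∞ wX ∧ (∀ X, 0 ≤ wX X) ∧ (∀ X, 1 / 8 ≤ ‖X‖ → wX X = 0) ∧ ∫ X, wX X = 1 :=
  Classical.choose_spec exists_wX

/-- `1 + s X` as a real linear map. -/
noncomputable def actL (s : ℝ) (X : XX) : W →L[ℝ] W :=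
  ContinuousLinearMap.id ℝ W + s • ∑ j, (ContinuousLinearMap.proj (R := ℝ) j : W →L[ℝ] ℂ).smulRight (X j)

theorem actL_apply (s : ℝ) (X : XX) (z : W) : actL s X z = act s X z := by
  unfold actL act mx
  simp only [add_apply, ContinuousLinearMap.id_apply,
    smul_apply, sum_apply,
    ContinuousLinearMap.smulRight_apply, ContinuousLinearMap.proj_apply]
  congr 1

theorem act_smul (s : ℝ) (X : XX) (c : ℂ) (z : W) : act s X (c • z) = c • act s X z := by
  funext k
  simp only [act, mx, Pi.add_apply, Pi.smul_apply, smul_eq_mul, Fin.sum_univ_three]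
  ring

theorem norm_mx_le (X : XX) (z : W) : ‖mx X z‖ ≤ 3 * ‖X‖ * ‖z‖ := by
  unfold mx
  refine (norm_sum_le _ _).trans ?_
  have h1 : ∀ j ∈ (Finset.univ : Finset (Fin 3)), ‖z j • X j‖ ≤ ‖X‖ * ‖z‖ := by
    intro j _
    rw [norm_smul, mul_comm]
    exact mul_le_mul (norm_le_pi_norm X j) (norm_le_pi_norm z j) (norm_nonneg _) (norm_nonneg _)
  refine (Finset.sum_le_sum h1).trans (le_of_eq ?_)
  rw [Finset.sum_const, Finset.card_univ, Fintype.card_fin, nsmul_eq_mul]
  push_cast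
  ring

theorem act_ne {s : ℝ} (hs : |s| < 2) {X : XX} (hX : ‖X‖ ≤ 1 / 8) {z : W} (hz : z ≠ 0) : act s X z ≠ 0 := by
  intro h
  have h1 : z = -((s : ℂ) • mx X z) := eq_neg_of_add_eq_zero_left h
  have h2 : ‖z‖ = |s| * ‖mx X z‖ := by
    have e : ‖z‖ = ‖-((s : ℂ) • mx X z)‖ := congrArg norm h1
    rw [norm_neg, norm_smul, Complex.norm_real, Real.norm_eq_abs] at e
    exact e
  have h3 := norm_mx_le X z
  have h4 : 0 < ‖z‖ := norm_pos_iff.2 hz
  have h5 : ‖mx X z‖ ≤ 3 / 8 * ‖z‖ := by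
    refine h3.trans ?_
    apply mul_le_mul_of_nonneg_right _ h4.le
    linarith
  have h6 : |s| * ‖mx X z‖ ≤ 2 * (3 / 8 * ‖z‖) :=
    mul_le_mul hs.le h5 (norm_nonneg _) (by norm_num)
  linarith

/-- The chart coordinate of `act s X z`. -/
noncomputable def zet (s : ℝ) (X : XX) (z u v : W) : E :=
  !₂[(s * hp u (mx X z) / (1 + s * hp z (mx X z))).re, (s * hp u (mx X z) / (1 + s * hp z (mx X z))).im,
    (s * hp v (mx X z) / (1 + s * hp z (mx X z))).re, (s * hp v (mx X z) / (1 + s * hp z (mx X z))).im]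

theorem norm_hp_le {z u v : W} (h : ON3 z u v) (X : XX) (hX : ‖X‖ ≤ 1 / 8) :
    ‖hp z (mx X z)‖ ≤ 9 / 8 ∧ ‖hp u (mx X z)‖ ≤ 9 / 8 ∧ ‖hp v (mx X z)‖ ≤ 9 / 8 := by
  obtain ⟨hz, hu, hv⟩ := norm_le_one h
  have h1 : ‖mx X z‖ ≤ 3 / 8 := by
    refine (norm_mx_le X z).trans ?_
    have := mul_le_mul hX hz (norm_nonneg _) (by norm_num : (0 : ℝ) ≤ 1 / 8)
    linarith
  have key : ∀ a : W, ‖a‖ ≤ 1 → ‖hp a (mx X z)‖ ≤ 9 / 8 := by
    intro a ha
    unfold hp
    refine (norm_sum_le _ _).trans ?_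
    have h2 : ∀ k ∈ (Finset.univ : Finset (Fin 3)), ‖star (a k) * mx X z k‖ ≤ 3 / 8 := by
      intro k _
      rw [norm_mul, norm_star]
      have h3 := (norm_le_pi_norm a k).trans ha
      have h4 := (norm_le_pi_norm (mx X z) k).trans h1
      calc ‖a k‖ * ‖mx X z k‖ ≤ 1 * (3 / 8) :=
            mul_le_mul h3 h4 (norm_nonneg _) (by norm_num)
        _ = 3 / 8 := by norm_num
    refine (Finset.sum_le_sum h2).trans (le_of_eq ?_)
    rw [Finset.sum_const, Finset.card_univ, Fintype.card_fin, nsmul_eq_mul]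
    norm_num
  exact ⟨key z hz, key u hu, key v hv⟩

namespace ActXAux

theorem hp_conj (a b : W) (h : hp a b = 0) : hp b a = 0 := by
  rw [← hp_star, h, star_zero]

/-- expansion in a unitary basis -/
theorem expand {z u v : W} (h : ON3 z u v) (w : W) :
    w = hp z w • z + hp u w • u + hp v w • v := by
  let A : Matrix (Fin 3) (Fin 3) ℂ := Matrix.of ![fun k => star (z k), fun k => star (u k),
    fun k => star (v k)]
  let B : Matrix (Fin 3) (Fin 3) ℂ := (Matrix.of ![z, u, v]).transpose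
  have hAB : A * B = 1 := by
    have e1 := h.zz
    have e2 := h.uu
    have e3 := h.vv
    have e4 := h.zu
    have e5 := h.zv
    have e6 := h.uv
    have e7 := hp_conj _ _ h.zu
    have e8 := hp_conj _ _ h.zv
    have e9 := hp_conj _ _ h.uv
    unfold hp at e1 e2 e3 e4 e5 e6 e7 e8 e9
    ext i j
    rw [Matrix.mul_apply]
    fin_cases i <;> fin_cases j
    · simpa [A, B] using e1
    · simpa [A, B] using e4
    · simpa [A, B] using e5
    · simpa [A, B] using e7
    · simpa [A, B] using e2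
    · simpa [A, B] using e6
    · simpa [A, B] using e8
    · simpa [A, B] using e9
    · simpa [A, B] using e3
  have hBA : B * A = 1 := mul_eq_one_comm.1 hAB
  have h1 : (B * A).mulVec w = w := by rw [hBA, Matrix.one_mulVec]
  rw [← Matrix.mulVec_mulVec] at h1
  nth_rewrite 1 [← h1]
  funext k
  simp only [Matrix.mulVec, dotProduct, Fin.sum_univ_three, A, B, Matrix.transpose_apply,
    Matrix.of_apply, Matrix.cons_val_zero, Matrix.cons_val_one, Matrix.cons_val, hp,
    Pi.add_apply, Pi.smul_apply, smul_eq_mul]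
  ring

theorem Lf_eq (u v : W) (x : E) :
    Lf u v x = ((x 0 : ℂ) + x 1 * Complex.I) • u + ((x 2 : ℂ) + x 3 * Complex.I) • v := by
  rw [Lf_apply, Fin.sum_univ_four]
  funext k
  simp only [fr, Matrix.cons_val_zero, Matrix.cons_val_one, Matrix.cons_val, Pi.add_apply,
    Pi.smul_apply, smul_eq_mul, Complex.real_smul]
  ring

end ActXAux

theorem act_sig {z u v : W} (h : ON3 z u v) {s : ℝ} (hs : |s| ≤ 1 / 2) {X : XX} (hX : ‖X‖ ≤ 1 / 8) :
    1 + (s : ℂ) * hp z (mx X z) ≠ 0 ∧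
    act s X z = (1 + (s : ℂ) * hp z (mx X z)) • sig z u v (zet s X z u v) := by
  obtain ⟨h1, h2, h3⟩ := norm_hp_le h X hX
  have hne : 1 + (s : ℂ) * hp z (mx X z) ≠ 0 := by
    intro h0
    have h4 : (s : ℂ) * hp z (mx X z) = -1 := by linear_combination h0
    have h5 : ‖(s : ℂ) * hp z (mx X z)‖ = 1 := by rw [h4, norm_neg, norm_one]
    rw [norm_mul, Complex.norm_real, Real.norm_eq_abs] at h5
    have h6 := mul_le_mul hs h1 (norm_nonneg _) (by norm_num : (0 : ℝ) ≤ 1 / 2)
    linarith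
  refine ⟨hne, ?_⟩
  have hexp := ActXAux.expand h (mx X z)
  set a := hp z (mx X z) with ha
  set b := hp u (mx X z) with hb
  set c := hp v (mx X z) with hc
  set m := mx X z with hm
  have z0 : ((zet s X z u v 0 : ℝ) : ℂ) + (zet s X z u v 1 : ℝ) * Complex.I =
      (s : ℂ) * b / (1 + s * a) := by
    have e0 : zet s X z u v 0 = ((s : ℂ) * b / (1 + s * a)).re := by
      simp [zet, ha, hb, hm]
    have e1 : zet s X z u v 1 = ((s : ℂ) * b / (1 + s * a)).im := by
      simp [zet, ha, hb, hm]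
    rw [e0, e1, Complex.re_add_im]
  have z2 : ((zet s X z u v 2 : ℝ) : ℂ) + (zet s X z u v 3 : ℝ) * Complex.I =
      (s : ℂ) * c / (1 + s * a) := by
    have e0 : zet s X z u v 2 = ((s : ℂ) * c / (1 + s * a)).re := by
      simp [zet, ha, hc, hm]
    have e1 : zet s X z u v 3 = ((s : ℂ) * c / (1 + s * a)).im := by
      simp [zet, ha, hc, hm]
    rw [e0, e1, Complex.re_add_im]
  unfold act sig
  rw [← hm, ActXAux.Lf_eq, z0, z2, hexp]
  funext k
  simp only [Pi.add_apply, Pi.smul_apply, smul_eq_mul]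
  field_simp
  ring

end Pool.Agent.Lib.Psd
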