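import Pool.Agent.Lib.Psd.Defs

set_option autoImplicit false

/-!
# Connection forms and basic forms: homogeneity of the exterior derivative

PROOFS. `dd` is bilinear and skew by definition. Homogeneity: differentiate `α (c z) (c v) = α z v` in `z` (chain rule; `fderiv ℝ α (c • z) (c • w) (c • v) = fderiv ℝ α z w v`; the set `{0}ᶜ` is open).
`dd_left`: it is enough to treat `c = 1` and `c = I` (real bilinearity). For real `t > 0`: `d/dt` at `t = 1` of `α (t z) (t v) = α z v` is `fderiv ℝ α z z v + α z v = 0`, and the derivative of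
`y ↦ α y y = 0` in the direction `v` is `fderiv ℝ α z v z + α z v = 0`; so `dd α z z v = 0`. The same with `e^{iθ}`, `θ = 0`: `fderiv ℝ α z (I z) v + α z (I v) = 0` and `fderiv ℝ α z v (I z) + α z (I v) = 0`
(the function `y ↦ α y (I y)` is constant). `a0_conn`: `hp` is sesquilinear, `nsq (c z) = |c|^2 nsq z`. `dd_a0`: the derivative of `z ↦ (hp z w).im / nsq z` in the direction `v` is
`(hp v w).im / nsq z - (hp z w).im * (2 Re (hp z v)) / nsq z ^ 2`.
-/

open MeasureTheory Set Metric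
open scoped ContDiff

namespace Pool.Agent.Lib.Psd

open Pool.Agent.P28b04d

namespace ConnBAux

theorem diffAt {α : W → W →L[ℝ] ℝ} (hs : ContDiffOn ℝ ∞ α {0}ᶜ) {z : W} (hz : z ≠ 0) :
    HasFDerivAt α (fderiv ℝ α z) z := by
  have h1 : ContDiffAt ℝ ∞ α z := hs.contDiffAt (isOpen_compl_singleton.mem_nhds hz)
  exact (h1.differentiableAt (by simp)).hasFDerivAt

theorem nhds_ne {z : W} (hz : z ≠ 0) : ∀ᶠ y in nhds z, y ≠ 0 :=
  isOpen_compl_singleton.mem_nhds hz

theorem hasFDerivAt_apply {α : W → W →L[ℝ] ℝ} (hs : ContDiffOn ℝ ∞ α {0}ᶜ) {z : W} (hz : z ≠ 0)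
    (w : W) : HasFDerivAt (fun y => α y w)
      ((ContinuousLinearMap.apply ℝ ℝ w).comp (fderiv ℝ α z)) z :=
  (ContinuousLinearMap.apply ℝ ℝ w).hasFDerivAt.comp z (diffAt hs hz)

theorem fderiv_hom {α : W → W →L[ℝ] ℝ} (hs : ContDiffOn ℝ ∞ α {0}ᶜ)
    (hh : ∀ c : ℂ, c ≠ 0 → ∀ z : W, z ≠ 0 → ∀ v : W, α (c • z) (c • v) = α z v)
    {c : ℂ} (hc : c ≠ 0) {z : W} (hz : z ≠ 0) (v w : W) :
    fderiv ℝ α (c • z) (c • v) (c • w) = fderiv ℝ α z v w := by
  have hcz : c • z ≠ 0 := smul_ne_zero hc hz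
  have hM : HasFDerivAt (fun y : W => c • y) (c • ContinuousLinearMap.id ℝ W) z :=
    (hasFDerivAt_id z).const_smul c
  have h1 := (hasFDerivAt_apply hs hcz (c • w)).comp z hM
  have h2 := hasFDerivAt_apply hs hz w
  have h3 : (fun y => α y w) =ᶠ[nhds z] ((fun y => α y (c • w)) ∘ fun y : W => c • y) := by
    filter_upwards [nhds_ne hz] with y hy
    exact (hh c hc y hy w).symm
  have h4 := (h1.congr_of_eventuallyEq h3).unique h2
  have h5 := DFunLike.congr_fun h4 v
  simpa using h5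

theorem dd_hom' {α : W → W →L[ℝ] ℝ} (hs : ContDiffOn ℝ ∞ α {0}ᶜ)
    (hh : ∀ c : ℂ, c ≠ 0 → ∀ z : W, z ≠ 0 → ∀ v : W, α (c • z) (c • v) = α z v)
    {c : ℂ} (hc : c ≠ 0) {z : W} (hz : z ≠ 0) (v w : W) :
    dd α (c • z) (c • v) (c • w) = dd α z v w := by
  unfold dd
  rw [fderiv_hom hs hh hc hz, fderiv_hom hs hh hc hz]

/-- derivative along a curve -/
theorem deriv_curve {α : W → W →L[ℝ] ℝ} (hs : ContDiffOn ℝ ∞ α {0}ᶜ) {z : W} (hz : z ≠ 0)
    {γ δ : ℝ → W} {v w w' : W} (hγ : HasDerivAt γ v 0) (hγ0 : γ 0 = z) (hδ : HasDerivAt δ w' 0)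
    (hδ0 : δ 0 = w) : HasDerivAt (fun t => α (γ t) (δ t)) (fderiv ℝ α z v w + α z w') 0 := by
  have h1 : HasFDerivAt α (fderiv ℝ α z) (γ 0) := by
    rw [hγ0]
    exact diffAt hs hz
  have h2 : HasDerivAt (α ∘ γ) (fderiv ℝ α z v) 0 := h1.comp_hasDerivAt 0 hγ
  have h3 := h2.clm_apply hδ
  rw [Function.comp_apply, hγ0, hδ0] at h3
  exact h3

theorem curve (z : W) (v : W) : HasDerivAt (fun t : ℝ => z + t • v) v 0 := by
  have h := ((hasDerivAt_id (0 : ℝ)).smul_const v).const_add z
  simpa using h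

theorem fderiv_rad {α : W → W →L[ℝ] ℝ} (hs : ContDiffOn ℝ ∞ α {0}ᶜ)
    (hh : ∀ c : ℂ, c ≠ 0 → ∀ z : W, z ≠ 0 → ∀ v : W, α (c • z) (c • v) = α z v)
    {z : W} (hz : z ≠ 0) (c : ℂ) (w : W) :
    fderiv ℝ α z (c • z) w + α z (c • w) = 0 := by
  have h1 := deriv_curve hs hz (curve z (c • z)) (by simp) (curve w (c • w)) (w := w) (by simp)
  have hcont : Filter.Tendsto (fun t : ℝ => (1 : ℂ) + (t : ℂ) * c) (nhds 0) (nhds 1) := by
    have hc : Continuous (fun t : ℝ => (1 : ℂ) + (t : ℂ) * c) := by fun_prop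
    have h := hc.tendsto 0
    simpa using h
  have hne : ∀ᶠ t : ℝ in nhds 0, (1 : ℂ) + (t : ℂ) * c ≠ 0 :=
    hcont.eventually_ne one_ne_zero
  have h2 : (fun t : ℝ => α (z + t • (c • z)) (w + t • (c • w))) =ᶠ[nhds 0] fun _ => α z w := by
    filter_upwards [hne] with t ht
    have e1 : z + t • (c • z) = ((1 : ℂ) + (t : ℂ) * c) • z := by
      rw [add_smul, one_smul, mul_smul]
      rfl
    have e2 : w + t • (c • w) = ((1 : ℂ) + (t : ℂ) * c) • w := by
      rw [add_smul, one_smul, mul_smul]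
      rfl
    rw [e1, e2]
    exact hh _ ht z hz w
  have h3 := (hasDerivAt_const (0 : ℝ) (α z w)).congr_of_eventuallyEq h2
  exact h1.unique h3

theorem fderiv_const {α : W → W →L[ℝ] ℝ} (hs : ContDiffOn ℝ ∞ α {0}ᶜ) (c : ℂ) (ρ : ℝ)
    (hr : ∀ y : W, y ≠ 0 → α y (c • y) = ρ) {z : W} (hz : z ≠ 0) (w : W) :
    fderiv ℝ α z w (c • z) + α z (c • w) = 0 := by
  have h1 := deriv_curve hs hz (curve z w) (by simp) (curve (c • z) (c • w)) (w := c • z)
    (by simp)
  have hcont : Filter.Tendsto (fun t : ℝ => z + t • w) (nhds 0) (nhds z) := by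
    have hc : Continuous (fun t : ℝ => z + t • w) := by fun_prop
    have h := hc.tendsto 0
    simpa using h
  have hne : ∀ᶠ t : ℝ in nhds 0, z + t • w ≠ 0 := hcont.eventually_ne hz
  have h2 : (fun t : ℝ => α (z + t • w) (c • z + t • (c • w))) =ᶠ[nhds 0] fun _ => ρ := by
    filter_upwards [hne] with t ht
    have e1 : c • z + t • (c • w) = c • (z + t • w) := by
      rw [smul_add, smul_comm t c w]
    rw [e1]
    exact hr _ ht
  have h3 := (hasDerivAt_const (0 : ℝ) ρ).congr_of_eventuallyEq h2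
  exact h1.unique h3

theorem dd_left' {α : W → W →L[ℝ] ℝ} (hs : ContDiffOn ℝ ∞ α {0}ᶜ)
    (hh : ∀ c : ℂ, c ≠ 0 → ∀ z : W, z ≠ 0 → ∀ v : W, α (c • z) (c • v) = α z v) (ρ : ℝ)
    (hrad : ∀ z : W, z ≠ 0 → α z z = 0) (hrot : ∀ z : W, z ≠ 0 → α z (Complex.I • z) = ρ)
    {z : W} (hz : z ≠ 0) (c : ℂ) (w : W) : dd α z (c • z) w = 0 := by
  have h1 := fderiv_rad hs hh hz c w
  have h2 := fderiv_const hs c (c.im * ρ) (by
    intro y hy
    have e : c • y = c.re • y + c.im • (Complex.I • y) := by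
      have hc : c = (c.re : ℂ) + (c.im : ℂ) * Complex.I := (Complex.re_add_im c).symm
      conv_lhs => rw [hc]
      rw [add_smul, mul_smul]
      rfl
    rw [e, map_add, map_smul, map_smul, hrad y hy, hrot y hy]
    simp) hz w
  unfold dd
  linarith

theorem nsq_eq (z : W) : nsq z = ∑ k, Complex.normSq (z k) := rfl

theorem nsq_pos {z : W} (hz : z ≠ 0) : 0 < nsq z := by
  rw [nsq_eq]
  obtain ⟨k, hk⟩ := Function.ne_iff.1 hz
  refine Finset.sum_pos' (fun i _ => Complex.normSq_nonneg _) ⟨k, Finset.mem_univ _, ?_⟩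
  exact Complex.normSq_pos.2 hk

theorem hp_self (z : W) : hp z z = ((nsq z : ℝ) : ℂ) := by
  rw [nsq_eq]
  unfold hp
  push_cast
  refine Finset.sum_congr rfl fun k _ => ?_
  exact (Complex.normSq_eq_conj_mul_self).symm

theorem nsq_smul (c : ℂ) (z : W) : nsq (c • z) = Complex.normSq c * nsq z := by
  rw [nsq_eq, nsq_eq, Finset.mul_sum]
  refine Finset.sum_congr rfl fun k _ => ?_
  rw [Pi.smul_apply, smul_eq_mul, Complex.normSq_mul]

theorem hp_smul_smul (c : ℂ) (z v : W) : hp (c • z) (c • v) = (Complex.normSq c : ℂ) * hp z v := by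
  unfold hp
  rw [Finset.mul_sum]
  refine Finset.sum_congr rfl fun k _ => ?_
  rw [Pi.smul_apply, Pi.smul_apply, smul_eq_mul, smul_eq_mul, star_mul', 
    Complex.normSq_eq_conj_mul_self]
  show star c * star (z k) * (c * v k) = (starRingEnd ℂ) c * c * (star (z k) * v k)
  rw [Complex.star_def]
  ring

theorem hp_smul_right (c : ℂ) (z v : W) : hp z (c • v) = c * hp z v := by
  unfold hp
  rw [Finset.mul_sum]
  refine Finset.sum_congr rfl fun k _ => ?_
  rw [Pi.smul_apply, smul_eq_mul]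
  ring

theorem hp_conj (z v : W) : hp v z = star (hp z v) := by
  unfold hp
  rw [star_sum]
  refine Finset.sum_congr rfl fun k _ => ?_
  rw [star_mul', star_star]
  ring

theorem contDiff_nsq : ContDiff ℝ ∞ (fun z : W => nsq z) := by
  have e : (fun z : W => nsq z) = fun z : W => ∑ k, ((z k).re * (z k).re + (z k).im * (z k).im) := by
    funext z
    rw [nsq_eq]
    rfl
  rw [e]
  refine ContDiff.sum fun k _ => ?_
  have h1 : ContDiff ℝ ∞ (fun z : W => (z k).re) :=
    Complex.reCLM.contDiff.comp (contDiff_apply ℝ ℂ k)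
  have h2 : ContDiff ℝ ∞ (fun z : W => (z k).im) :=
    Complex.imCLM.contDiff.comp (contDiff_apply ℝ ℂ k)
  exact (h1.mul h1).add (h2.mul h2)

theorem contDiff_hpi : ContDiff ℝ ∞ hpi := by
  unfold hpi
  refine ContDiff.sum fun k _ => ?_
  have h1 : ContDiff ℝ ∞ (fun z : W => (z k).re) :=
    Complex.reCLM.contDiff.comp (contDiff_apply ℝ ℂ k)
  have h2 : ContDiff ℝ ∞ (fun z : W => (z k).im) :=
    Complex.imCLM.contDiff.comp (contDiff_apply ℝ ℂ k)
  exact (h1.smul contDiff_const).sub (h2.smul contDiff_const)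

theorem contDiffOn_a0 : ContDiffOn ℝ ∞ a0 {0}ᶜ := by
  unfold a0
  refine ContDiffOn.smul (ContDiffOn.inv contDiff_nsq.contDiffOn ?_) contDiff_hpi.contDiffOn
  intro z hz
  exact (nsq_pos hz).ne'

/-- the value of the derivative of `a0` in a direction orthogonal to `z` -/
theorem fderiv_a0 {z v w : W} (hz : z ≠ 0) (hw : hp z w = 0) :
    fderiv ℝ a0 z v w = (hp v w).im / nsq z := by
  have h1 := deriv_curve contDiffOn_a0 hz (curve z v) (by simp) (hasDerivAt_const (0 : ℝ) w)
    (w := w) rfl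
  rw [map_zero, add_zero] at h1
  -- the numerator
  have h2 : ∀ t : ℝ, a0 (z + t • v) w = (t * (hp v w).im) * (nsq (z + t • v))⁻¹ := by
    intro t
    rw [a0_apply, div_eq_mul_inv]
    congr 1
    have e : hp (z + t • v) w = hp z w + (t : ℂ) * hp v w := by
      unfold hp
      rw [Finset.mul_sum, ← Finset.sum_add_distrib]
      refine Finset.sum_congr rfl fun k _ => ?_
      rw [Pi.add_apply, Pi.smul_apply, star_add]
      have : star (t • v k) = (t : ℂ) * star (v k) := by
        rw [star_smul]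
        simp
      rw [this]
      ring
    rw [e, hw, zero_add, Complex.im_ofReal_mul]
  have h3 : HasDerivAt (fun t : ℝ => (t * (hp v w).im) * (nsq (z + t • v))⁻¹)
      ((hp v w).im / nsq z) 0 := by
    have hn : DifferentiableAt ℝ (fun t : ℝ => (nsq (z + t • v))⁻¹) 0 := by
      refine DifferentiableAt.inv ?_ ?_
      · have hd : Differentiable ℝ (fun z : W => nsq z) := contDiff_nsq.differentiable (by simp)
        have hg : DifferentiableAt ℝ (fun t : ℝ => z + t • v) 0 := (curve z v).differentiableAt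
        exact DifferentiableAt.comp (g := fun z : W => nsq z) (0 : ℝ) (hd _) hg
      · simpa using (nsq_pos hz).ne'
    have h4 : HasDerivAt (fun t : ℝ => t * (hp v w).im) (hp v w).im 0 := by
      simpa using (hasDerivAt_id (0 : ℝ)).mul_const (hp v w).im
    refine (h4.mul hn.hasDerivAt).congr_deriv ?_
    simp [div_eq_mul_inv]
  rw [funext h2] at h1
  exact h1.unique h3

end ConnBAux

section
variable {V : Type} [NormedAddCommGroup V] [NormedSpace ℝ V] (α : V → V →L[ℝ] ℝ)

theorem dd_skew (z v w : V) : dd α z v w = -dd α z w v := by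
  unfold dd
  ring

theorem dd_add_left (z v v' w : V) : dd α z (v + v') w = dd α z v w + dd α z v' w := by
  unfold dd
  rw [map_add, map_add, ContinuousLinearMap.add_apply]
  ring

theorem dd_smul_left (z : V) (c : ℝ) (v w : V) : dd α z (c • v) w = c * dd α z v w := by
  unfold dd
  rw [map_smul, map_smul, ContinuousLinearMap.smul_apply, smul_eq_mul, smul_eq_mul]
  ring

theorem dd_add_right (z v w w' : V) : dd α z v (w + w') = dd α z v w + dd α z v w' := by
  unfold dd
  rw [map_add, map_add, ContinuousLinearMap.add_apply]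
  ring

theorem dd_smul_right (z : V) (c : ℝ) (v w : V) : dd α z v (c • w) = c * dd α z v w := by
  unfold dd
  rw [map_smul, map_smul, ContinuousLinearMap.smul_apply, smul_eq_mul, smul_eq_mul]
  ring

end

variable {α β : W → W →L[ℝ] ℝ}

theorem Conn.dd_hom (h : Conn α) {c : ℂ} (hc : c ≠ 0) {z : W} (hz : z ≠ 0) (v w : W) :
    dd α (c • z) (c • v) (c • w) = dd α z v w := ConnBAux.dd_hom' h.smooth h.hom hc hz v w

theorem Conn.dd_left (h : Conn α) {z : W} (hz : z ≠ 0) (c : ℂ) (w : W) : dd α z (c • z) w = 0 := 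
  ConnBAux.dd_left' h.smooth h.hom 1 h.rad h.rot hz c w

theorem Basic.dd_hom (h : Basic α) {c : ℂ} (hc : c ≠ 0) {z : W} (hz : z ≠ 0) (v w : W) :
    dd α (c • z) (c • v) (c • w) = dd α z v w := ConnBAux.dd_hom' h.smooth h.hom hc hz v w

theorem Basic.dd_left (h : Basic α) {z : W} (hz : z ≠ 0) (c : ℂ) (w : W) : dd α z (c • z) w = 0 := 
  ConnBAux.dd_left' h.smooth h.hom 0 h.rad h.rot hz c w

theorem a0_conn : Conn a0 := 
  { smooth := ConnBAux.contDiffOn_a0
    hom := by
      intro c hc z _ v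
      have hn : Complex.normSq c ≠ 0 := (Complex.normSq_pos.2 hc).ne'
      rw [a0_apply, a0_apply, ConnBAux.nsq_smul, ConnBAux.hp_smul_smul, Complex.im_ofReal_mul,
        mul_div_mul_left _ _ hn]
    rad := by
      intro z _
      rw [a0_apply, ConnBAux.hp_self, Complex.ofReal_im, zero_div]
    rot := by
      intro z hz
      rw [a0_apply, ConnBAux.hp_smul_right, ConnBAux.hp_self, Complex.I_mul_im,
        Complex.ofReal_re, div_self (ConnBAux.nsq_pos hz).ne'] }

theorem Conn.sub (h : Conn α) (h' : Conn β) : Basic (fun z => α z - β z) := 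
  { smooth := h.smooth.sub h'.smooth
    hom := by
      intro c hc z hz v
      rw [ContinuousLinearMap.sub_apply, ContinuousLinearMap.sub_apply, h.hom c hc z hz,
        h'.hom c hc z hz]
    rad := by
      intro z hz
      rw [ContinuousLinearMap.sub_apply, h.rad z hz, h'.rad z hz, sub_zero]
    rot := by
      intro z hz
      rw [ContinuousLinearMap.sub_apply, h.rot z hz, h'.rot z hz, sub_self] }

theorem Conn.lin (h : Conn α) (h' : Conn β) (t : ℝ) : Conn (fun z => (1 - t) • α z + t • β z) := 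
  { smooth := (h.smooth.const_smul (1 - t)).add (h'.smooth.const_smul t)
    hom := by
      intro c hc z hz v
      simp only [ContinuousLinearMap.add_apply, ContinuousLinearMap.smul_apply]
      rw [h.hom c hc z hz, h'.hom c hc z hz]
    rad := by
      intro z hz
      simp only [ContinuousLinearMap.add_apply, ContinuousLinearMap.smul_apply]
      rw [h.rad z hz, h'.rad z hz]
      simp
    rot := by
      intro z hz
      simp only [ContinuousLinearMap.add_apply, ContinuousLinearMap.smul_apply]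
      rw [h.rot z hz, h'.rot z hz]
      simp }

theorem dd_sub (h : ContDiffOn ℝ ∞ α {0}ᶜ) (h' : ContDiffOn ℝ ∞ β {0}ᶜ) {z : W} (hz : z ≠ 0) (v w : W) :
    dd (fun y => α y - β y) z v w = dd α z v w - dd β z v w := by
  have h1 := ((ConnBAux.diffAt h hz).sub (ConnBAux.diffAt h' hz)).fderiv
  unfold dd
  have e : fderiv ℝ (fun y => α y - β y) z = fderiv ℝ α z - fderiv ℝ β z := h1
  rw [e]
  simp only [ContinuousLinearMap.sub_apply]
  ring

theorem dd_lin (h : ContDiffOn ℝ ∞ α {0}ᶜ) (h' : ContDiffOn ℝ ∞ β {0}ᶜ) (t : ℝ) {z : W} (hz : z ≠ 0) (v w : W) :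
    dd (fun y => (1 - t) • α y + t • β y) z v w = (1 - t) * dd α z v w + t * dd β z v w := by
  have h1 := (((ConnBAux.diffAt h hz).const_smul (1 - t)).add
    ((ConnBAux.diffAt h' hz).const_smul t)).fderiv
  unfold dd
  have e : fderiv ℝ (fun y => (1 - t) • α y + t • β y) z =
      (1 - t) • fderiv ℝ α z + t • fderiv ℝ β z := h1
  rw [e]
  simp only [ContinuousLinearMap.add_apply, ContinuousLinearMap.smul_apply, smul_eq_mul]
  ring

/-- continuity of the exterior derivative -/
theorem dd_continuousOn (h : ContDiffOn ℝ ∞ α {0}ᶜ) (v w : W) : ContinuousOn (fun z => dd α z v w) {0}ᶜ := by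
  have h1 : ContinuousOn (fderiv ℝ α) {0}ᶜ :=
    h.continuousOn_fderiv_of_isOpen isOpen_compl_singleton (by simp)
  unfold dd
  exact ((h1.clm_apply continuousOn_const).clm_apply continuousOn_const).sub
    ((h1.clm_apply continuousOn_const).clm_apply continuousOn_const)

theorem dd_a0 {z v w : W} (hz : z ≠ 0) (hv : hp z v = 0) (hw : hp z w = 0) :
    dd a0 z v w = 2 * (hp v w).im / nsq z := by
  unfold dd
  rw [ConnBAux.fderiv_a0 hz hw, ConnBAux.fderiv_a0 hz hv, ConnBAux.hp_conj v w]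
  have e : (star (hp v w)).im = -(hp v w).im := by
    rw [Complex.star_def, Complex.conj_im]
  rw [e]
  ring

end Pool.Agent.Lib.Psd
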