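import Pool.Agent.Lib.Psd.AmbD
import Pool.Agent.Lib.Psd.ConnB

set_option autoImplicit false

/-!
# Pull-back to `ℂ³ - 0`

PROOFS. `pt (c z) = pt z` (`pt_smul`), so `fderiv ℝ pt (c • z) (c • v) = fderiv ℝ pt z v` for `c ≠ 0`, and `fderiv ℝ pt z (c • z) = 0` for every complex `c` (derivative of the constant curves `t ↦ pt ((1 + t c) z)`).
`fderiv_pt`: the derivative of `z_i conj z_j / nsq z` at `nsq z = 1` in a direction `v` with `hp z v = 0` (then the derivative of `nsq` is `2 Re hp z v = 0`) is `v_i conj z_j + z_i conj v_j`.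
`pb_basic`, `conn_add`: immediate (`a0_conn`; `contDiffAt_pt` for the smoothness). `dd_pb`: `d (pt^* β) = pt^* dβ` at `z ≠ 0`: `fderiv ℝ (pb β) z v w = fderiv ℝ β (pt z) (pt' v) (pt' w) + β (pt z) (pt'' v w)` and `pt''` is symmetric
(`second_derivative_symmetric` / `ContDiffAt.isSymmSndFDerivAt`). `dd_conn`: for unit `z` and `v, w ⟂ z`: `dd a0 z v w = 2 (hp v w).im` (`dd_a0`) and `fs (pt z) (tv z v) (tv z w) = 2 Im (z* Y Z z) = 2 Im <Y z, Z z> = 2 Im hp v w` since `Y z = v`, `Z z = w`.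
-/

open MeasureTheory Set Metric
open scoped ContDiff

namespace Pool.Agent.Lib.Psd

open Pool.Agent.P28b04d

namespace AmbAAux

theorem hasFDerivAt_pt {z : W} (hz : z ≠ 0) :
    HasFDerivAt (pt : W → Mat) (fderiv ℝ (pt : W → Mat) z) z := by
  have h : ContDiffAt ℝ ∞ (pt : W → Mat) z := contDiffAt_pt hz
  exact (h.differentiableAt (by simp)).hasFDerivAt

theorem contDiffOn_pt : ContDiffOn ℝ ∞ (pt : W → Mat) {0}ᶜ := by
  intro z hz
  have h : ContDiffAt ℝ ∞ (pt : W → Mat) z := contDiffAt_pt hz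
  exact h.contDiffWithinAt

theorem contDiffOn_fderiv_pt : ContDiffOn ℝ ∞ (fderiv ℝ (pt : W → Mat)) {0}ᶜ :=
  contDiffOn_pt.fderiv_of_isOpen isOpen_compl_singleton (by simp)

theorem nsq_ne_zero {z : W} (hz : nsq z = 1) : z ≠ 0 := by
  rintro rfl
  have h : nsq (0 : W) = 0 := by
    unfold nsq
    simp
  rw [h] at hz
  exact zero_ne_one hz

theorem nsq_curve {z v : W} (hz : nsq z = 1) (hv : hp z v = 0) (t : ℝ) :
    nsq (z + t • v) = 1 + t ^ 2 * nsq v := by
  have h0 : (hp z v).re = 0 := by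
    rw [hv]
    rfl
  have h1 : ∑ k, ((z k).re * (v k).re + (z k).im * (v k).im) = 0 := by
    rw [← h0]
    unfold hp
    rw [Complex.re_sum]
    refine Finset.sum_congr rfl fun k _ => ?_
    rw [Complex.mul_re, Complex.star_def, Complex.conj_re, Complex.conj_im]
    ring
  have h2 : nsq (z + t • v) = nsq z + 2 * t * ∑ k, ((z k).re * (v k).re + (z k).im * (v k).im) +
      t ^ 2 * nsq v := by
    unfold nsq
    rw [Finset.mul_sum, Finset.mul_sum, ← Finset.sum_add_distrib, ← Finset.sum_add_distrib]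
    refine Finset.sum_congr rfl fun k _ => ?_
    rw [Complex.normSq_apply, Complex.normSq_apply, Complex.normSq_apply]
    simp only [Pi.add_apply, Pi.smul_apply, Complex.add_re, Complex.add_im, Complex.real_smul,
      Complex.mul_re, Complex.mul_im, Complex.ofReal_re, Complex.ofReal_im]
    ring
  rw [h2, h1, hz]
  ring

theorem alg (z v w z' v' w' : Fin 3 → ℂ) :
    (∑ i : Fin 3, ∑ j : Fin 3, ∑ k : Fin 3,
      (z i * z' j) * (v j * z' k + z j * v' k) * (w k * z' i + z k * w' i)) =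
      (∑ k, z' k * v k) * (∑ k, z' k * z k) * (∑ k, z' k * w k) +
      (∑ k, z' k * v k) * (∑ k, w' k * z k) * (∑ k, z' k * z k) +
      (∑ k, z' k * z k) ^ 2 * (∑ k, v' k * w k) +
      (∑ k, z' k * z k) * (∑ k, w' k * z k) * (∑ k, v' k * z k) := by
  simp only [Fin.sum_univ_three]
  ring

theorem fs_eq {z v w : W} (hz : nsq z = 1) (hv : hp z v = 0) (hw : hp z w = 0) :
    fs (pt z) (tv z v) (tv z w) = 2 * (hp v w).im := by
  have hzz : hp z z = 1 := by
    rw [ConnBAux.hp_self, hz]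
    simp
  have hwz : hp w z = 0 := by
    rw [ConnBAux.hp_conj, hw, star_zero]
  have e : (∑ i, ∑ j, ∑ k, pt z i j * tv z v j k * tv z w k i) = hp v w := by
    have e1 : (∑ i, ∑ j, ∑ k, pt z i j * tv z v j k * tv z w k i) =
        hp z v * hp z z * hp z w + hp z v * hp w z * hp z z + hp z z ^ 2 * hp v w +
          hp z z * hp w z * hp v z := by
      have ept : ∀ i j, pt z i j = z i * star (z j) := by
        intro i j
        unfold pt
        rw [hz]
        simp
      simp only [ept, tv]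
      exact alg z v w (fun i => star (z i)) (fun i => star (v i)) (fun i => star (w i))
    rw [e1, hv, hw, hwz, hzz]
    ring
  unfold fs
  rw [e]

end AmbAAux

theorem fderiv_pt_hom {c : ℂ} (hc : c ≠ 0) {z : W} (hz : z ≠ 0) (v : W) :
    fderiv ℝ (pt : W → Mat) (c • z) (c • v) = fderiv ℝ (pt : W → Mat) z v := by
  have hcz : c • z ≠ 0 := smul_ne_zero hc hz
  have hM : HasFDerivAt (fun y : W => c • y) (c • ContinuousLinearMap.id ℝ W) z :=
    (hasFDerivAt_id z).const_smul c
  have h1 := (AmbAAux.hasFDerivAt_pt hcz).comp z hM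
  have h2 := AmbAAux.hasFDerivAt_pt hz
  have h3 : ((pt : W → Mat) ∘ fun y : W => c • y) = pt := by
    funext y
    exact pt_smul hc y
  rw [h3] at h1
  have h5 := DFunLike.congr_fun (h1.unique h2) v
  simpa using h5

theorem fderiv_pt_self {z : W} (hz : z ≠ 0) (c : ℂ) : fderiv ℝ (pt : W → Mat) z (c • z) = 0 := by
  have hcur := ConnBAux.curve z (c • z)
  have h1 : HasFDerivAt (pt : W → Mat) (fderiv ℝ (pt : W → Mat) z) (z + (0 : ℝ) • (c • z)) := by
    rw [zero_smul, add_zero]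
    exact AmbAAux.hasFDerivAt_pt hz
  have h2 := h1.comp_hasDerivAt (0 : ℝ) hcur
  have hcont : Filter.Tendsto (fun t : ℝ => (1 : ℂ) + (t : ℂ) * c) (nhds 0) (nhds 1) := by
    have hc : Continuous (fun t : ℝ => (1 : ℂ) + (t : ℂ) * c) := by fun_prop
    have h := hc.tendsto 0
    simpa using h
  have hne : ∀ᶠ t : ℝ in nhds 0, (1 : ℂ) + (t : ℂ) * c ≠ 0 :=
    hcont.eventually_ne one_ne_zero
  have h3 : ((pt : W → Mat) ∘ fun t : ℝ => z + t • (c • z)) =ᶠ[nhds 0] fun _ => pt z := by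
    filter_upwards [hne] with t ht
    have e1 : z + t • (c • z) = ((1 : ℂ) + (t : ℂ) * c) • z := by
      rw [add_smul, one_smul, mul_smul]
      rfl
    rw [Function.comp_apply, e1]
    exact pt_smul ht z
  have h4 := (hasDerivAt_const (0 : ℝ) (pt z : Mat)).congr_of_eventuallyEq h3
  exact h2.unique h4

theorem fderiv_pt {z v : W} (hz : nsq z = 1) (hv : hp z v = 0) :
    fderiv ℝ (pt : W → Mat) z v = tv z v := by
  have hz0 : z ≠ 0 := AmbAAux.nsq_ne_zero hz
  have hcur := ConnBAux.curve z v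
  have h1 : HasFDerivAt (pt : W → Mat) (fderiv ℝ (pt : W → Mat) z) (z + (0 : ℝ) • v) := by
    rw [zero_smul, add_zero]
    exact AmbAAux.hasFDerivAt_pt hz0
  have h2 := h1.comp_hasDerivAt (0 : ℝ) hcur
  have h3 : HasDerivAt ((pt : W → Mat) ∘ fun t : ℝ => z + t • v) (tv z v) 0 := by
    rw [hasDerivAt_pi]
    intro i
    rw [hasDerivAt_pi]
    intro j
    have e : (fun t : ℝ => ((pt : W → Mat) ∘ fun t : ℝ => z + t • v) t i j) =
        fun t : ℝ => ((z i + (t : ℂ) * v i) * (star (z j) + (t : ℂ) * star (v j))) *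
          (1 + (t : ℂ) ^ 2 * (nsq v : ℂ))⁻¹ := by
      funext t
      show pt (z + t • v) i j = _
      unfold pt
      rw [AmbAAux.nsq_curve hz hv t, div_eq_mul_inv]
      congr 1
      · rw [Pi.add_apply, Pi.add_apply, Pi.smul_apply, Pi.smul_apply, star_add]
        congr 1
        rw [Complex.real_smul, star_mul']
        congr 1
        exact congrArg (fun y => y * star (v j)) (Complex.conj_ofReal t)
      · push_cast
        rfl
    rw [e]
    have hid : HasDerivAt (fun t : ℝ => (t : ℂ)) 1 0 := Complex.ofRealCLM.hasDerivAt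
    have ha : HasDerivAt (fun t : ℝ => z i + (t : ℂ) * v i) (v i) 0 := by
      simpa using (hid.mul_const (v i)).const_add (z i)
    have hb : HasDerivAt (fun t : ℝ => star (z j) + (t : ℂ) * star (v j)) (star (v j)) 0 := by
      simpa using (hid.mul_const (star (v j))).const_add (star (z j))
    have hc : HasDerivAt (fun t : ℝ => (1 + (t : ℂ) ^ 2 * (nsq v : ℂ))) 0 0 := by
      have := ((hid.pow 2).mul_const (nsq v : ℂ)).const_add 1
      simpa using this
    have hd : HasDerivAt (fun t : ℝ => (1 + (t : ℂ) ^ 2 * (nsq v : ℂ))⁻¹) 0 0 := by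
      have h := hc.inv (by simp)
      refine HasDerivAt.congr_deriv (f' := -0 / (1 + ((0 : ℝ) : ℂ) ^ 2 * (nsq v : ℂ)) ^ 2) h ?_
      simp
    have := (ha.mul hb).mul hd
    refine this.congr_deriv ?_
    simp [tv]
  exact h2.unique h3

theorem pb_basic {β : Mat → Mat →L[ℝ] ℝ} (hβ : ContDiff ℝ ∞ β) : Basic (pb β) :=
  { smooth := (hβ.comp_contDiffOn AmbAAux.contDiffOn_pt).clm_comp AmbAAux.contDiffOn_fderiv_pt
    hom := by
      intro c hc z hz v
      show β (pt (c • z)) (fderiv ℝ (pt : W → Mat) (c • z) (c • v)) =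
        β (pt z) (fderiv ℝ (pt : W → Mat) z v)
      rw [pt_smul hc z, fderiv_pt_hom hc hz]
    rad := by
      intro z hz
      show β (pt z) (fderiv ℝ (pt : W → Mat) z z) = 0
      have h := fderiv_pt_self hz 1
      rw [one_smul] at h
      rw [h, map_zero]
    rot := by
      intro z hz
      show β (pt z) (fderiv ℝ (pt : W → Mat) z (Complex.I • z)) = 0
      rw [fderiv_pt_self hz Complex.I, map_zero] }

theorem conn_add {α γ : W → W →L[ℝ] ℝ} (h : Conn α) (h' : Basic γ) : Conn (fun z => α z + γ z) :=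
  { smooth := h.smooth.add h'.smooth
    hom := by
      intro c hc z hz v
      rw [ContinuousLinearMap.add_apply, ContinuousLinearMap.add_apply, h.hom c hc z hz,
        h'.hom c hc z hz]
    rad := by
      intro z hz
      rw [ContinuousLinearMap.add_apply, h.rad z hz, h'.rad z hz, add_zero]
    rot := by
      intro z hz
      rw [ContinuousLinearMap.add_apply, h.rot z hz, h'.rot z hz, add_zero] }

theorem dd_pb {β : Mat → Mat →L[ℝ] ℝ} (hβ : ContDiff ℝ ∞ β) {z : W} (hz : z ≠ 0) (v w : W) :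
    dd (pb β) z v w = dd β (pt z) (fderiv ℝ (pt : W → Mat) z v) (fderiv ℝ (pt : W → Mat) z w) := by
  have hp1 := AmbAAux.hasFDerivAt_pt hz
  have hβ1 : HasFDerivAt β (fderiv ℝ β (pt z)) (pt z) :=
    (hβ.differentiable (by simp) (pt z)).hasFDerivAt
  have hc : HasFDerivAt (fun y : W => β (pt y)) ((fderiv ℝ β (pt z)).comp (fderiv ℝ (pt : W → Mat) z)) z :=
    hβ1.comp z hp1
  have hd : HasFDerivAt (fderiv ℝ (pt : W → Mat)) (fderiv ℝ (fderiv ℝ (pt : W → Mat)) z) z := by
    have h1 : ContDiffAt ℝ ∞ (fderiv ℝ (pt : W → Mat)) z :=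
      AmbAAux.contDiffOn_fderiv_pt.contDiffAt (isOpen_compl_singleton.mem_nhds hz)
    exact (h1.differentiableAt (by simp)).hasFDerivAt
  have hcd := (hc.clm_comp hd).fderiv
  have hpb : ∀ a b : W, fderiv ℝ (pb β) z a b =
      β (pt z) (fderiv ℝ (fderiv ℝ (pt : W → Mat)) z a b) +
        fderiv ℝ β (pt z) (fderiv ℝ (pt : W → Mat) z a) (fderiv ℝ (pt : W → Mat) z b) := by
    intro a b
    have e : fderiv ℝ (pb β) z = fderiv ℝ (fun y : W => (β (pt y)).comp (fderiv ℝ (pt : W → Mat) y)) z := rfl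
    rw [e, hcd]
    simp
  have hsym : fderiv ℝ (fderiv ℝ (pt : W → Mat)) z v w = fderiv ℝ (fderiv ℝ (pt : W → Mat)) z w v := by
    have h1 : ContDiffAt ℝ ∞ (pt : W → Mat) z := contDiffAt_pt hz
    refine (h1.isSymmSndFDerivAt ?_) v w
    rw [minSmoothness_of_isRCLikeNormedField]
    have h2 : ((2 : ℕ∞) : WithTop ℕ∞) ≤ ((⊤ : ℕ∞) : WithTop ℕ∞) := WithTop.coe_le_coe.2 le_top
    exact h2
  unfold dd
  rw [hpb, hpb, hsym]
  ring

/-- the exterior derivative of `a0 + pt^* β` is `form β` -/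
theorem dd_conn {β : Mat → Mat →L[ℝ] ℝ} (hβ : ContDiff ℝ ∞ β) {z v w : W} (hz : nsq z = 1)
    (hv : hp z v = 0) (hw : hp z w = 0) :
    dd (fun y => a0 y + pb β y) z v w = form β (pt z) (tv z v) (tv z w) := by
  have hz0 : z ≠ 0 := AmbAAux.nsq_ne_zero hz
  have h1 := ((ConnBAux.diffAt a0_conn.smooth hz0).add
    (ConnBAux.diffAt (pb_basic hβ).smooth hz0)).fderiv
  have e0 : fderiv ℝ (fun y => a0 y + pb β y) z = fderiv ℝ a0 z + fderiv ℝ (pb β) z := h1
  have e : dd (fun y => a0 y + pb β y) z v w = dd a0 z v w + dd (pb β) z v w := by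
    unfold dd
    rw [e0]
    simp only [ContinuousLinearMap.add_apply]
    ring
  rw [e, dd_pb hβ hz0, fderiv_pt hz hv, fderiv_pt hz hw, dd_a0 hz0 hv hw]
  unfold form
  rw [AmbAAux.fs_eq hz hv hw, hz, div_one]

end Pool.Agent.Lib.Psd
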