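import Pool.Agent.Lib.Psd.Defs
import Pool.Agent.Lib.P28b04d.Ext

set_option autoImplicit false

/-!
# The model of the frozen statement S12917: definitions

`ℂP² = CP 2` is the set of rank-one Hermitian projections; `Tan P` its tangent space at `P`: the Hermitian `Y` with `P Y + Y P = Y`. `fs P Y Z = 2 Im tr (P Y Z)` is the Fubini-Study form; every closed two-form of its class is the
restriction of `form β = fs + dβ` for a smooth one-form `β` on the space of matrices. `tv z u = u z* + z u*` is the tangent vector at `P = z z*` (`|z| = 1`) given by `u ⟂ z`.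
-/

open MeasureTheory Set Metric
open scoped ContDiff

namespace Pool.Agent.Lib.Psd

open Pool.Agent.P28b04d

abbrev Mat : Type := Fin 3 → Fin 3 → ℂ

/-- Tangent space of `ℂP²` at the projection `P`. -/
def Tan (P : Mat) : Set Mat :=
  {Y | (∀ i j, Y j i = star (Y i j)) ∧ ∀ i j, ∑ k, P i k * Y k j + ∑ k, Y i k * P k j = Y i j}

/-- The Fubini-Study form `2 Im tr (P Y Z)`. -/
noncomputable def fs (P Y Z : Mat) : ℝ := 2 * (∑ i, ∑ j, ∑ k, P i j * Y j k * Z k i).im

/-- The closed two-form `fs + dβ`. -/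
noncomputable def form (β : Mat → Mat →L[ℝ] ℝ) (P Y Z : Mat) : ℝ := fs P Y Z + dd β P Y Z

/-- The tangent vector `u z* + z u*`. -/
def tv (z u : W) : Mat := fun i j => u i * star (z j) + z i * star (u j)

/-- Components of a two-form at `z z*` in the orthogonal frame given by a unitary basis `z, u, v`. -/
noncomputable def cmpM (Ω : Mat → Mat → Mat → ℝ) (z u v : W) (i j : Fin 4) : ℝ :=
  Ω (pt z) (tv z (fr u v i)) (tv z (fr u v j))

/-- The anti-self-dual part is at most `κ` times the self-dual part, at every point. -/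
def PinchedM (κ : ℝ) (Ω : Mat → Mat → Mat → ℝ) : Prop :=
  ∀ z u v : W, ON3 z u v → nrm2 (asd (cmpM Ω z u v)) ≤ κ ^ 2 * nrm2 (sd (cmpM Ω z u v))

/-- Non-degenerate on all tangent spaces of `ℂP²`. -/
def NondegM (Ω : Mat → Mat → Mat → ℝ) : Prop :=
  ∀ P ∈ CP 2, ∀ Y ∈ Tan P, (∀ Z ∈ Tan P, Ω P Y Z = 0) → Y = 0

/-- The pull-back to `ℂ³ - 0` of a one-form on the space of matrices. -/
noncomputable def pb (β : Mat → Mat →L[ℝ] ℝ) (z : W) : W →L[ℝ] ℝ := (β (pt z)).comp (fderiv ℝ pt z)

/-- The `j`-th column as a linear map. -/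
noncomputable def colL (j : Fin 3) : Mat →L[ℝ] W :=
  ContinuousLinearMap.pi fun i => (ContinuousLinearMap.proj (R := ℝ) j : W →L[ℝ] ℂ).comp
    (ContinuousLinearMap.proj (R := ℝ) i : Mat →L[ℝ] W)

/-- Ambient extension of a family of basic one-forms. -/
noncomputable def ext1 (Γ : ℝ × W → W →L[ℝ] ℝ) (q : ℝ × Mat) : Mat →L[ℝ] ℝ :=
  (Sden q.2)⁻¹ • ∑ j, chi 2 (q.2 j j).re • (Γ (q.1, col q.2 j)).comp (colL j)

end Pool.Agent.Lib.Psd
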