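import Pool.Agent.Lib.Psd.CmpF

set_option autoImplicit false

/-!
# The chart is almost isometric at its centre

PROOF. `t = tr a d m₁ m₂ τ`, `τ = cmp (dd α y) p q`, with `|1 - a|, |1 - d|, |m₁|, |m₂| ≤ ‖x‖ =: ε`. `tr_near`: `nrm2 (t - τ) ≤ C ε^2 nrm2 τ`; for `ε ≤ ε₀` small (`C ε₀^2 ≤ 1/4`) `nrm2 τ ≤ 4 nrm2 t` (use `nrm2_add`: `nrm2 τ ≤ 2 nrm2 t + 2 nrm2 (t - τ)`).
`asd t = asd τ + asd (t - τ)`, so `nrm2 (asd t) ≤ 2 nrm2 (asd τ) + 2 nrm2 (asd (t - τ)) ≤ 2 κ^2 nrm2 τ + 2 C ε^2 nrm2 τ` (`chart_frame`, `nrm2_split`, `nrm2_asd_le`).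
-/

open MeasureTheory Set Metric
open scoped ContDiff

namespace Pool.Agent.Lib.Psd

open Pool.Agent.P28b04d

theorem asd_chart : ∃ C ε₀ : ℝ, 1 ≤ C ∧ 0 < ε₀ ∧ ∀ κ : ℝ, 0 ≤ κ → ∀ α : W → W →L[ℝ] ℝ, Conn α → Pinched κ α →
    ∀ z u v : W, ON3 z u v → ∀ x : E, ‖x‖ ≤ ε₀ →
      nrm2 (asd (fun i j => co (ch α z u v) i j x)) ≤
        C * (κ ^ 2 + ‖x‖ ^ 2) * nrm2 (fun i j => co (ch α z u v) i j x) := by
  obtain ⟨D, hD, hnear⟩ := tr_near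
  have hD0 : 0 < D := by linarith
  refine ⟨8 * D, 1 / (2 * D), by linarith, by positivity, ?_⟩
  intro κ hκ α hα hP z u v h x hx
  obtain ⟨p, q, a, d, m₁, m₂, ρ, hρ, -, -, ha0, ha1, hd0, hd1, -, -, -, ha, hd, hm₁, hm₂, hfr, -, hpin⟩ :=
    chart_frame h x
  have hsig : sig z u v x ≠ 0 := sig_ne h x
  have hco := hfr α hα.smooth (fun c w => hα.dd_left hsig c w)
  set τ : Fin 4 → Fin 4 → ℝ := cmp (dd α (sig z u v x)) p q with hτ
  have et : (fun i j => co (ch α z u v) i j x) = tr a d m₁ m₂ τ := by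
    funext i j
    exact hco i j
  rw [et]
  have hskτ : Skew τ := by
    intro i j
    rw [hτ]
    exact dd_skew α _ _ _
  have hε0 : 0 ≤ ‖x‖ := norm_nonneg x
  have hxD : ‖x‖ * D ≤ 1 / 2 := by
    have h1 : ‖x‖ * D ≤ 1 / (2 * D) * D := mul_le_mul_of_nonneg_right hx hD0.le
    have h2 : 1 / (2 * D) * D = 1 / 2 := by
      field_simp
    linarith
  have hε1 : ‖x‖ ≤ 1 := by
    have h1 : ‖x‖ * 1 ≤ ‖x‖ * D := mul_le_mul_of_nonneg_left hD hε0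
    linarith
  have hxx : D * ‖x‖ ^ 2 ≤ 1 / 4 := by
    have h1 : ‖x‖ ≤ 1 / 2 := by
      have h1 : ‖x‖ * 1 ≤ ‖x‖ * D := mul_le_mul_of_nonneg_left hD hε0
      linarith
    have h2 : D * ‖x‖ ^ 2 = (‖x‖ * D) * ‖x‖ := by ring
    rw [h2]
    calc (‖x‖ * D) * ‖x‖ ≤ 1 / 2 * (1 / 2) := mul_le_mul hxD h1 hε0 (by norm_num)
      _ = 1 / 4 := by norm_num
  have hn := hnear a d m₁ m₂ ‖x‖ (by rw [abs_of_nonneg (by linarith)]; exact ha)
    (by rw [abs_of_nonneg (by linarith)]; exact hd) hm₁ hm₂ hε1 τ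
  have hτ0 : 0 ≤ nrm2 τ := nrm2_nonneg τ
  set t : Fin 4 → Fin 4 → ℝ := tr a d m₁ m₂ τ with ht
  have hskt : Skew t := skew_tr hskτ
  have ht0 : 0 ≤ nrm2 t := nrm2_nonneg t
  have hsw : nrm2 (fun i j => τ i j - t i j) = nrm2 (fun i j => t i j - τ i j) := by
    unfold nrm2
    refine Finset.sum_congr rfl fun i _ => Finset.sum_congr rfl fun j _ => ?_
    ring
  have h1 : nrm2 τ ≤ 2 * nrm2 t + 2 * nrm2 (fun i j => τ i j - t i j) := by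
    have e : τ = fun i j => t i j + (fun i j => τ i j - t i j) i j := by
      funext i j
      simp
    have := nrm2_add t (fun i j => τ i j - t i j)
    rw [← e] at this
    exact this
  have h2 : nrm2 τ ≤ 4 * nrm2 t := by
    have h3 : D * ‖x‖ ^ 2 * nrm2 τ ≤ 1 / 4 * nrm2 τ := mul_le_mul_of_nonneg_right hxx hτ0
    rw [hsw] at h1
    linarith
  have h4 : nrm2 (asd t) ≤ 2 * nrm2 (asd τ) + 2 * nrm2 (asd (fun i j => t i j - τ i j)) := by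
    have e : asd t = fun i j => asd τ i j + asd (fun i j => t i j - τ i j) i j := by
      funext i j
      rw [← asd_add]
      have e2 : t = fun i j => τ i j + (t i j - τ i j) := by
        funext i j
        ring
      exact congrArg (fun T => asd T i j) e2
    rw [e]
    exact nrm2_add _ _
  have hskd : Skew (fun i j => t i j - τ i j) := by
    intro i j
    show t i j - τ i j = -(t j i - τ j i)
    rw [hskt i j, hskτ i j]
    ring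
  have h5 : nrm2 (asd (fun i j => t i j - τ i j)) ≤ D * ‖x‖ ^ 2 * nrm2 τ :=
    (nrm2_asd_le hskd).trans hn
  have h6 : nrm2 (asd τ) ≤ κ ^ 2 * nrm2 τ := by
    have h7 := hpin κ α hα hP
    have h8 := nrm2_split hskτ
    have h9 : nrm2 (sd τ) ≤ nrm2 τ := by
      have := nrm2_nonneg (asd τ)
      linarith
    exact h7.trans (mul_le_mul_of_nonneg_left h9 (sq_nonneg κ))
  have h10 : nrm2 (asd t) ≤ 2 * (κ ^ 2 + D * ‖x‖ ^ 2) * nrm2 τ := by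
    have e : 2 * (κ ^ 2 + D * ‖x‖ ^ 2) * nrm2 τ = 2 * (κ ^ 2 * nrm2 τ) + 2 * (D * ‖x‖ ^ 2 * nrm2 τ) := by
      ring
    rw [e]
    linarith
  have h11 : κ ^ 2 + D * ‖x‖ ^ 2 ≤ D * (κ ^ 2 + ‖x‖ ^ 2) := by
    have h12 : 1 * κ ^ 2 ≤ D * κ ^ 2 := mul_le_mul_of_nonneg_right hD (sq_nonneg κ)
    have e : D * (κ ^ 2 + ‖x‖ ^ 2) = D * κ ^ 2 + D * ‖x‖ ^ 2 := by ring
    rw [e]
    linarith
  calc nrm2 (asd t) ≤ 2 * (κ ^ 2 + D * ‖x‖ ^ 2) * nrm2 τ := h10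
    _ ≤ 2 * (D * (κ ^ 2 + ‖x‖ ^ 2)) * (4 * nrm2 t) := by
        refine mul_le_mul ?_ h2 hτ0 (by positivity)
        linarith
    _ = 8 * D * (κ ^ 2 + ‖x‖ ^ 2) * nrm2 t := by ring

end Pool.Agent.Lib.Psd
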