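import Pool.Agent.Lib.Psd.ActX
import Pool.Agent.Lib.P28e.AvgSmooth

/-!
# Averages of connection forms over projective maps

`Av s α z = ∫ wX X • (α (act s X z) ∘ (1 + s X))`. PROOFS. `Av_smooth`: `Pool.Agent.Lib.P28e.contDiffOn_param` (import `Pool.Agent.Lib.P28e.AvgSmooth`) with `E := ℝ × W`, `F := XX`, `Ω = Ioo (-2) 2 ×ˢ {0}ᶜ`, `O = ball 0 (1/8)`,
`K = closedBall 0 (1/9)`... choose `K = closedBall 0 (1/16)` if the weight is known to vanish off it; with `wX_spec` (`wX X = 0` for `‖X‖ ≥ 1/8`) take `O = {X | ∀ z ≠ 0, |s| < 2 → act s X z ≠ 0} ⊇ ball 0 (1/7)` (`norm_mx_le`: `3 ‖X‖ ‖z‖ * 2 < ‖z‖` for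
`‖X‖ < 1/6`) and `K = closedBall 0 (1/8)`; the integrand is `wX X • (α (act s X z)).comp (actL s X)`, smooth on `Ω × ball 0 (1/7)`, and the integral over `XX` is the integral over `K`.
`Av_conn`: every `X` gives a connection form (`act_smul`: `act s X (c z) = c act s X z`; `α (act z) (act z) = 0`, `α (act z) (act (I z)) = α (act z) (I (act z)) = 1`, and `∫ wX = 1`), evaluate the integral at a vector (`ContinuousLinearMap.integral_apply`).
`dd_Av`: differentiate under the integral sign: `fderiv ℝ (Av s α) z v w = ∫ wX X * fderiv ℝ α (act s X z) (act s X v) (act s X w)` (`hasFDerivAt_integral_of_dominated_of_fderiv_le`, `actL` is linear, bounds by compactness).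
-/

set_option autoImplicit false

open MeasureTheory Set Metric
open scoped ContDiff

namespace Pool.Agent.Lib.Psd

open Pool.Agent.P28b04d

/-- Average of a one-form over the projective maps `1 + s X`. -/
noncomputable def Av (s : ℝ) (α : W → W →L[ℝ] ℝ) (z : W) : W →L[ℝ] ℝ :=
  ∫ X, wX X • (α (act s X z)).comp (actL s X)

variable {α : W → W →L[ℝ] ℝ}

namespace AvCAux

/-- the domain of the parameters -/
def Om : Set (ℝ × W) := Ioo (-2) 2 ×ˢ {0}ᶜ

/-- the domain of `X` -/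
def Oo : Set XX := ball 0 (1 / 6)

/-- the compact set -/
def Kk : Set XX := closedBall 0 (1 / 8)

lemma Om_open : IsOpen Om := isOpen_Ioo.prod isOpen_compl_singleton

lemma Oo_open : IsOpen Oo := isOpen_ball

lemma Kk_compact : IsCompact Kk := isCompact_closedBall 0 _

lemma Kk_sub : Kk ⊆ Oo := closedBall_subset_ball (by norm_num)

lemma act_ne' {s : ℝ} (hs : |s| < 2) {X : XX} (hX : ‖X‖ < 1 / 6) {z : W} (hz : z ≠ 0) :
    act s X z ≠ 0 := by
  intro h
  unfold act at h
  have h1 : z = -((s : ℂ) • mx X z) := eq_neg_of_add_eq_zero_left h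
  have hz' : 0 < ‖z‖ := norm_pos_iff.2 hz
  have h2 : ‖z‖ = |s| * ‖mx X z‖ := by
    conv_lhs => rw [h1]
    rw [norm_neg, norm_smul, Complex.norm_real, Real.norm_eq_abs]
  have h3 := norm_mx_le X z
  have h4 : |s| * ‖mx X z‖ ≤ |s| * (3 * ‖X‖ * ‖z‖) := mul_le_mul_of_nonneg_left h3 (abs_nonneg _)
  have h5 : |s| * (3 * ‖X‖ * ‖z‖) ≤ 2 * (3 * ‖X‖ * ‖z‖) :=
    mul_le_mul_of_nonneg_right hs.le (by positivity)
  have h6 : 3 * ‖X‖ * ‖z‖ < 3 * (1 / 6) * ‖z‖ := by
    apply mul_lt_mul_of_pos_right _ hz'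
    linarith
  linarith

lemma smooth_act : ContDiff ℝ ∞ (fun q : (ℝ × W) × XX => act q.1.1 q.2 q.1.2) := by
  unfold act mx
  rw [contDiff_pi]
  intro i
  simp only [Pi.add_apply, Pi.smul_apply, Finset.sum_apply, smul_eq_mul]
  have h1 : ContDiff ℝ ∞ (fun q : (ℝ × W) × XX => q.1.2 i) :=
    (contDiff_apply ℝ ℂ i).comp (contDiff_snd.comp contDiff_fst)
  have h2 : ContDiff ℝ ∞ (fun q : (ℝ × W) × XX => (q.1.1 : ℂ)) :=
    Complex.ofRealCLM.contDiff.comp (contDiff_fst.comp contDiff_fst)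
  refine h1.add (h2.mul (ContDiff.sum fun j _ => ?_))
  have h3 : ContDiff ℝ ∞ (fun q : (ℝ × W) × XX => q.1.2 j) :=
    (contDiff_apply ℝ ℂ j).comp (contDiff_snd.comp contDiff_fst)
  have h4 : ContDiff ℝ ∞ (fun q : (ℝ × W) × XX => q.2 j i) :=
    (contDiff_apply ℝ ℂ i).comp ((contDiff_apply ℝ W j).comp contDiff_snd)
  exact h3.mul h4

lemma smooth_actL : ContDiff ℝ ∞ (fun q : (ℝ × W) × XX => actL q.1.1 q.2) := by
  rw [contDiff_clm_apply_iff]
  intro y
  have h : (fun q : (ℝ × W) × XX => actL q.1.1 q.2 y) =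
      (fun q : (ℝ × W) × XX => act q.1.1 q.2 q.1.2) ∘
        (fun q : (ℝ × W) × XX => (((q.1.1, y), q.2) : (ℝ × W) × XX)) := by
    funext q
    simp only [Function.comp_apply]
    rw [actL_apply]
  rw [h]
  exact smooth_act.comp (((contDiff_fst.comp contDiff_fst).prodMk contDiff_const).prodMk contDiff_snd)

/-- the integrand -/
noncomputable def Ps (α : W → W →L[ℝ] ℝ) (q : (ℝ × W) × XX) : W →L[ℝ] ℝ :=
  wX q.2 • (α (act q.1.1 q.2 q.1.2)).comp (actL q.1.1 q.2)

lemma maps_act : MapsTo (fun q : (ℝ × W) × XX => act q.1.1 q.2 q.1.2) (Om ×ˢ Oo) {0}ᶜ := by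
  rintro ⟨⟨s, z⟩, X⟩ ⟨⟨hs, hz⟩, hX⟩
  rw [Oo, mem_ball_zero_iff] at hX
  exact act_ne' (abs_lt.2 hs) hX hz

lemma smooth_Ps (h : Conn α) : ContDiffOn ℝ ∞ (Ps α) (Om ×ˢ Oo) := by
  unfold Ps
  have h1 : ContDiffOn ℝ ∞ (fun q : (ℝ × W) × XX => wX q.2) (Om ×ˢ Oo) :=
    (wX_spec.1.comp contDiff_snd).contDiffOn
  have h2 : ContDiffOn ℝ ∞ (fun q : (ℝ × W) × XX => α (act q.1.1 q.2 q.1.2)) (Om ×ˢ Oo) :=
    h.smooth.comp smooth_act.contDiffOn maps_act
  exact h1.smul (h2.clm_comp smooth_actL.contDiffOn)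

lemma Ps_zero (α : W → W →L[ℝ] ℝ) (q : (ℝ × W) × XX) (hq : q.2 ∉ Kk) : Ps α q = 0 := by
  unfold Ps
  rw [wX_spec.2.2.1 q.2, zero_smul]
  rw [Kk, mem_closedBall_zero_iff, not_le] at hq
  exact hq.le

lemma Av_eq (α : W → W →L[ℝ] ℝ) (s : ℝ) (z : W) :
    Av s α z = ∫ X in Kk, Ps α ((s, z), X) := by
  rw [setIntegral_eq_integral_of_forall_compl_eq_zero fun X hX => Ps_zero α ((s, z), X) hX]
  rfl

lemma slice {G : Type} [NormedAddCommGroup G] {Ψ : (ℝ × W) × XX → G}
    (h : ContinuousOn Ψ (Om ×ˢ Oo)) {p : ℝ × W} (hp : p ∈ Om) :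
    ContinuousOn (fun X => Ψ (p, X)) Kk :=
  h.comp (Continuous.prodMk_right p).continuousOn (fun _ hX => ⟨hp, Kk_sub hX⟩)

lemma integrable_of_slice {G : Type} [NormedAddCommGroup G] {f : XX → G}
    (h : ContinuousOn f Kk) (h0 : ∀ X, X ∉ Kk → f X = 0) : Integrable f := by
  have h1 : IntegrableOn f Kk := h.integrableOn_compact Kk_compact
  rw [integrableOn_iff_integrable_of_support_subset] at h1
  · exact h1
  · intro X hX
    by_contra hc
    exact hX (h0 X hc)

lemma mem_Om {s : ℝ} (hs : |s| < 2) {z : W} (hz : z ≠ 0) : (s, z) ∈ Om := ⟨abs_lt.1 hs, hz⟩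

lemma Av_apply (h : Conn α) {s : ℝ} (hs : |s| < 2) {z : W} (hz : z ≠ 0) (v : W) :
    Av s α z v = ∫ X, wX X * α (act s X z) (act s X v) := by
  have h1 : Integrable (fun X => Ps α ((s, z), X)) :=
    integrable_of_slice (slice (smooth_Ps h).continuousOn (mem_Om hs hz)) fun X hX => Ps_zero α _ hX
  have h2 : Av s α z = ∫ X, Ps α ((s, z), X) := rfl
  rw [h2, ContinuousLinearMap.integral_apply h1]
  refine integral_congr_ae (Filter.Eventually.of_forall fun X => ?_)
  simp only [Ps, smul_apply, ContinuousLinearMap.comp_apply, smul_eq_mul,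
    actL_apply]

lemma act_zero0 (X : XX) (z : W) : act 0 X z = z := by
  unfold act
  simp

/-- the derivative in the point, at `X` -/
lemma hasFDerivAt_Ps (h : Conn α) {s : ℝ} {X : XX} {z : W} (ha : act s X z ≠ 0) :
    HasFDerivAt (fun z' => Ps α ((s, z'), X))
      ((wX X • ContinuousLinearMap.precomp ℝ (actL s X)).comp
        ((fderiv ℝ α (act s X z)).comp (actL s X))) z := by
  have h1 : HasFDerivAt (fun z' => act s X z') (actL s X) z := by
    have : (fun z' => act s X z') = fun z' => actL s X z' := by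
      funext z'
      rw [actL_apply]
    rw [this]
    exact (actL s X).hasFDerivAt
  have h2 : HasFDerivAt α (fderiv ℝ α (act s X z)) (act s X z) := by
    apply DifferentiableAt.hasFDerivAt
    exact (h.smooth.differentiableOn (by simp)).differentiableAt (isOpen_compl_singleton.mem_nhds ha)
  have h3 := (h2.comp z h1)
  have h4 := ((wX X • (ContinuousLinearMap.precomp ℝ (actL s X) :
    (W →L[ℝ] ℝ) →L[ℝ] (W →L[ℝ] ℝ))).hasFDerivAt (x := α (act s X z))).comp z h3
  exact h4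

end AvCAux

open AvCAux

theorem Av_smooth (h : Conn α) :
    ContDiffOn ℝ ∞ (fun p : ℝ × W => Av p.1 α p.2) (Ioo (-2) 2 ×ˢ {0}ᶜ) := by
  have h1 := Pool.Agent.Lib.P28e.contDiffOn_param (E := ℝ × W) (F := XX) volume Om_open Oo_open
    Kk_compact Kk_sub (smooth_Ps h)
  refine h1.congr fun p _ => ?_
  exact Av_eq α p.1 p.2

theorem Av_conn (h : Conn α) {s : ℝ} (hs : |s| < 2) : Conn (Av s α) := by
  refine ⟨?_, ?_, ?_, ?_⟩
  · have h1 := (Av_smooth h).comp (g := fun p : ℝ × W => Av p.1 α p.2) (f := fun z : W => (s, z)) (s := {0}ᶜ)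
      (contDiff_const.prodMk contDiff_id).contDiffOn (fun z hz => ⟨abs_lt.1 hs, hz⟩)
    exact h1
  · intro c hc z hz v
    rw [Av_apply h hs hz, Av_apply h hs (smul_ne_zero hc hz)]
    refine integral_congr_ae (Filter.Eventually.of_forall fun X => ?_)
    by_cases hX : 1 / 8 ≤ ‖X‖
    · simp only [wX_spec.2.2.1 X hX, zero_mul]
    · simp only [act_smul]
      rw [h.hom c hc _ (act_ne hs (not_le.1 hX).le hz)]
  · intro z hz
    rw [Av_apply h hs hz]
    rw [← integral_zero XX ℝ]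
    refine integral_congr_ae (Filter.Eventually.of_forall fun X => ?_)
    by_cases hX : 1 / 8 ≤ ‖X‖
    · simp only [wX_spec.2.2.1 X hX, zero_mul]
    · simp only
      rw [h.rad _ (act_ne hs (not_le.1 hX).le hz), mul_zero]
  · intro z hz
    rw [Av_apply h hs hz]
    rw [← wX_spec.2.2.2]
    refine integral_congr_ae (Filter.Eventually.of_forall fun X => ?_)
    by_cases hX : 1 / 8 ≤ ‖X‖
    · simp only [wX_spec.2.2.1 X hX, zero_mul]
    · simp only [act_smul]
      rw [h.rot _ (act_ne hs (not_le.1 hX).le hz), mul_one]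

theorem Av_zero (h : Conn α) (z : W) (hz : z ≠ 0) : Av 0 α z = α z := by
  ext v
  rw [Av_apply h (by norm_num) hz]
  simp only [act_zero0]
  rw [integral_mul_const, wX_spec.2.2.2, one_mul]

namespace AvCAux

/-- differentiation of a parametric integral over a compact set -/
lemma fderiv_param {E' F G : Type} [NormedAddCommGroup E'] [NormedSpace ℝ E']
    [FiniteDimensional ℝ E'] [NormedAddCommGroup F] [NormedSpace ℝ F] [FiniteDimensional ℝ F]
    [MeasurableSpace F] [BorelSpace F] [NormedAddCommGroup G] [NormedSpace ℝ G]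
    [FiniteDimensional ℝ G] (μ : Measure F) [IsFiniteMeasureOnCompacts μ] {Ω : Set E'} {O K : Set F}
    (hΩ : IsOpen Ω) (hO : IsOpen O) (hK : IsCompact K) (hKO : K ⊆ O) {Ψ : E' × F → G}
    (hΨ : ContDiffOn ℝ ∞ Ψ (Ω ×ˢ O)) {z₀ : E'} (hz₀ : z₀ ∈ Ω) (v : E') :
    IntegrableOn (fun η => fderiv ℝ (fun z => Ψ (z, η)) z₀ v) K μ ∧
    fderiv ℝ (fun z => ∫ η in K, Ψ (z, η) ∂μ) z₀ v =
      ∫ η in K, fderiv ℝ (fun z => Ψ (z, η)) z₀ v ∂μ := by
  have hfin : IsFiniteMeasure (μ.restrict K) := ⟨by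
    rw [Measure.restrict_apply_univ]; exact hK.measure_lt_top⟩
  have hopen : IsOpen (Ω ×ˢ O) := hΩ.prod hO
  have hdiff : DifferentiableOn ℝ Ψ (Ω ×ˢ O) := hΨ.differentiableOn (by simp)
  set Ψ' : E' × F → E' →L[ℝ] G := fun p => (fderiv ℝ Ψ p).comp (ContinuousLinearMap.inl ℝ E' F) with hΨ'
  have hder' : ContinuousOn Ψ' (Ω ×ˢ O) :=
    (hΨ.continuousOn_fderiv_of_isOpen hopen (by simp)).clm_comp continuousOn_const
  have hD : ∀ z ∈ Ω, ∀ η ∈ O, HasFDerivAt (fun z => Ψ (z, η)) (Ψ' (z, η)) z := by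
    intro z hz η hη
    have h2 : HasFDerivAt Ψ (fderiv ℝ Ψ (z, η)) (z, η) :=
      (hdiff.differentiableAt (hopen.mem_nhds ⟨hz, hη⟩)).hasFDerivAt
    exact h2.comp z (hasFDerivAt_prodMk_left z η)
  obtain ⟨r, hr, hrΩ⟩ := Metric.nhds_basis_closedBall.mem_iff.1 (hΩ.mem_nhds hz₀)
  have hc : IsCompact (closedBall z₀ r ×ˢ K) := (isCompact_closedBall z₀ r).prod hK
  obtain ⟨C, hC⟩ := hc.exists_bound_of_continuousOn (hder'.mono (prod_mono hrΩ hKO))
  have hsl : ContinuousOn (fun η => Ψ' (z₀, η)) K :=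
    hder'.comp (Continuous.prodMk_right z₀).continuousOn (fun η hη => ⟨hz₀, hKO hη⟩)
  have hsl0 : ∀ z ∈ Ω, ContinuousOn (fun η => Ψ (z, η)) K := fun z hz =>
    hΨ.continuousOn.comp (Continuous.prodMk_right z).continuousOn (fun η hη => ⟨hz, hKO hη⟩)
  have hi : IntegrableOn (fun η => Ψ' (z₀, η)) K μ := hsl.integrableOn_compact hK
  have key : HasFDerivAt (fun z => ∫ η in K, Ψ (z, η) ∂μ) (∫ η in K, Ψ' (z₀, η) ∂μ) z₀ := by
    refine hasFDerivAt_integral_of_dominated_of_fderiv_le (bound := fun _ => C)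
      (F' := fun z η => Ψ' (z, η)) (closedBall_mem_nhds z₀ hr) ?_ ?_ ?_ ?_ ?_ ?_
    · filter_upwards [hΩ.mem_nhds hz₀] with z hz using (hsl0 z hz).aestronglyMeasurable hK.measurableSet
    · exact (hsl0 z₀ hz₀).integrableOn_compact hK
    · exact hsl.aestronglyMeasurable hK.measurableSet
    · rw [ae_restrict_iff' hK.measurableSet]
      exact Filter.Eventually.of_forall fun η hη z hz => hC (z, η) ⟨hz, hη⟩
    · exact integrable_const C
    · rw [ae_restrict_iff' hK.measurableSet]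
      exact Filter.Eventually.of_forall fun η hη z hz => hD z (hrΩ hz) η (hKO hη)
  have he : ∀ η ∈ K, fderiv ℝ (fun z => Ψ (z, η)) z₀ v = Ψ' (z₀, η) v := fun η hη => by
    rw [(hD z₀ hz₀ η (hKO hη)).fderiv]
  constructor
  · have h3 : IntegrableOn (fun η => Ψ' (z₀, η) v) K μ := hi.apply_continuousLinearMap v
    exact h3.congr_fun (fun η hη => (he η hη).symm) hK.measurableSet
  · rw [key.fderiv, ContinuousLinearMap.integral_apply hi]
    exact (setIntegral_congr_fun hK.measurableSet fun η hη => he η hη).symm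

lemma smooth_Ps' (h : Conn α) {s : ℝ} (hs : |s| < 2) :
    ContDiffOn ℝ ∞ (fun p : W × XX => Ps α ((s, p.1), p.2)) (({0}ᶜ : Set W) ×ˢ Oo) := by
  refine (smooth_Ps h).comp (f := fun p : W × XX => (((s, p.1), p.2) : (ℝ × W) × XX))
    (((contDiff_const.prodMk contDiff_fst).prodMk contDiff_snd).contDiffOn) ?_
  rintro ⟨z, X⟩ ⟨hz, hX⟩
  exact ⟨mem_Om hs hz, hX⟩

lemma fd_apply (h : Conn α) {s : ℝ} (hs : |s| < 2) {z : W} (hz : z ≠ 0) {X : XX} (hX : X ∈ Kk)
    (v w : W) : (fderiv ℝ (fun z' => Ps α ((s, z'), X)) z v) w =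
      wX X * fderiv ℝ α (act s X z) (act s X v) (act s X w) := by
  have ha : act s X z ≠ 0 := act_ne hs (mem_closedBall_zero_iff.1 hX) hz
  rw [(hasFDerivAt_Ps h ha).fderiv]
  simp [actL_apply]

lemma int_fd (h : Conn α) {s : ℝ} (hs : |s| < 2) {z : W} (hz : z ≠ 0) (v w : W) :
    Integrable (fun X => wX X * fderiv ℝ α (act s X z) (act s X v) (act s X w)) ∧
    fderiv ℝ (Av s α) z v w = ∫ X, wX X * fderiv ℝ α (act s X z) (act s X v) (act s X w) := by
  obtain ⟨h1, h2⟩ := fderiv_param (volume : Measure XX) (isOpen_compl_singleton) Oo_open Kk_compact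
    Kk_sub (smooth_Ps' h hs) hz v
  have h3 : IntegrableOn (fun X => wX X * fderiv ℝ α (act s X z) (act s X v) (act s X w)) Kk :=
    IntegrableOn.congr_fun (f := fun X => (fderiv ℝ (fun z' => Ps α ((s, z'), X)) z v) w)
      (h1.apply_continuousLinearMap w) (fun X hX => fd_apply h hs hz hX v w)
      Kk_compact.measurableSet
  have h0 : ∀ X, X ∉ Kk → wX X * fderiv ℝ α (act s X z) (act s X v) (act s X w) = 0 := by
    intro X hX
    rw [Kk, mem_closedBall_zero_iff, not_le] at hX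
    rw [wX_spec.2.2.1 X hX.le, zero_mul]
  constructor
  · rw [integrableOn_iff_integrable_of_support_subset] at h3
    · exact h3
    · intro X hX
      by_contra hc
      exact hX (h0 X hc)
  · have h4 : (Av s α) = fun z' => ∫ X in Kk, Ps α ((s, z'), X) := by
      funext z'
      exact Av_eq α s z'
    rw [h4]
    have h2' : fderiv ℝ (fun z' => ∫ X in Kk, Ps α ((s, z'), X)) z v =
      ∫ X in Kk, fderiv ℝ (fun z' => Ps α ((s, z'), X)) z v := h2
    rw [h2', ContinuousLinearMap.integral_apply h1,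
      ← setIntegral_eq_integral_of_forall_compl_eq_zero h0]
    exact setIntegral_congr_fun Kk_compact.measurableSet fun X hX => fd_apply h hs hz hX v w

end AvCAux

theorem integrable_dd (h : Conn α) {s : ℝ} (hs : |s| < 2) {z : W} (hz : z ≠ 0) (v w : W) :
    Integrable fun X => wX X * dd α (act s X z) (act s X v) (act s X w) := by
  have h1 : (fun X => wX X * dd α (act s X z) (act s X v) (act s X w)) =
      fun X => wX X * fderiv ℝ α (act s X z) (act s X v) (act s X w) -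
        wX X * fderiv ℝ α (act s X z) (act s X w) (act s X v) := by
    funext X
    unfold dd
    ring
  rw [h1]
  exact (int_fd h hs hz v w).1.sub (int_fd h hs hz w v).1

theorem dd_Av (h : Conn α) {s : ℝ} (hs : |s| < 2) {z : W} (hz : z ≠ 0) (v w : W) :
    dd (Av s α) z v w = ∫ X, wX X * dd α (act s X z) (act s X v) (act s X w) := by
  have h1 : (fun X => wX X * dd α (act s X z) (act s X v) (act s X w)) =
      fun X => wX X * fderiv ℝ α (act s X z) (act s X v) (act s X w) -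
        wX X * fderiv ℝ α (act s X z) (act s X w) (act s X v) := by
    funext X
    unfold dd
    ring
  rw [h1, integral_sub (int_fd h hs hz v w).1 (int_fd h hs hz w v).1]
  unfold dd
  rw [(int_fd h hs hz v w).2, (int_fd h hs hz w v).2]

end Pool.Agent.Lib.Psd
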