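import Pool.Agent.Lib.Psd.KavA

set_option autoImplicit false

/-!
# Two `L²` inequalities

PROOFS. `cz`: for smooth `f` with compact support, two integrations by parts give `∫ (D2 i j f)^2 = ∫ D2 i i f * D2 j j f` (`D2 i j f = D2 j i f`, symmetry of the second derivative;
`pd` commutes with `pd`), sum over `i, j`: `∑_{i,j} ∫ (D2 i j f)^2 = ∫ (lap f)^2`; every term is non-negative. Integration by parts: `∫ pd i F * G = - ∫ F * pd i G` for smooth
functions, one of them with compact support (`integral_mul_fderiv_eq_neg_fderiv_mul_of_integrable`, `Mathlib.Analysis.Calculus.LineDeriv.IntegrationByParts`).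
`Kav_contract`: `(Kav phi s f x)^2 ≤ Kav phi s (f^2) x` (Cauchy-Schwarz or Jensen, `phi ≥ 0`, `∫ phi = 1`; e.g. `0 ≤ ∫ phi u (f (x + s u) - Kav phi s f x)^2`), then Fubini
(`integral_integral_swap`, integrable on the product: continuous with compact support in `(x, u)`) and translation invariance of the Lebesgue measure.
-/

open MeasureTheory Set Metric
open scoped ContDiff

namespace Pool.Agent.Lib.Psd

open Pool.Agent.P28b04d

variable {f : E → ℝ}

private lemma pd_cs (hc : HasCompactSupport f) (i : Fin 4) : HasCompactSupport (pd i f) :=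
  hc.fderiv_apply (𝕜 := ℝ) (ev i)

private lemma pd_pd (hf : ContDiff ℝ ∞ f) (i j : Fin 4) (x : E) :
    pd i (pd j f) x = fderiv ℝ (fderiv ℝ f) x (ev i) (ev j) := by
  unfold pd
  have h1 : DifferentiableAt ℝ (fderiv ℝ f) x :=
    (hf.fderiv_right (m := ∞) (by exact_mod_cast le_top)).differentiable (by simp) x
  have h2 : HasFDerivAt (fun y => fderiv ℝ f y (ev j))
      ((ContinuousLinearMap.apply ℝ ℝ (ev j)).comp (fderiv ℝ (fderiv ℝ f) x)) x :=
    (ContinuousLinearMap.apply ℝ ℝ (ev j)).hasFDerivAt.comp x h1.hasFDerivAt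
  rw [h2.fderiv]
  rfl

private lemma pd_comm (hf : ContDiff ℝ ∞ f) (i j : Fin 4) : pd i (pd j f) = pd j (pd i f) := by
  funext x
  rw [pd_pd hf, pd_pd hf]
  have h2 : minSmoothness ℝ 2 ≤ (∞ : ℕ∞ω) := by
    rw [minSmoothness_of_isRCLikeNormedField]
    exact WithTop.coe_le_coe.mpr le_top
  exact (hf.contDiffAt.isSymmSndFDerivAt h2) (ev i) (ev j)

private lemma ibp {F G : E → ℝ} (hF : ContDiff ℝ ∞ F) (hG : ContDiff ℝ ∞ G)
    (hc : HasCompactSupport F) (i : Fin 4) : ∫ x, F x * pd i G x = -∫ x, pd i F x * G x := by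
  have hFc := hF.continuous
  have hGc := hG.continuous
  have hF1 := (pd_contDiff hF i).continuous
  have hG1 := (pd_contDiff hG i).continuous
  exact integral_mul_fderiv_eq_neg_fderiv_mul_of_integrable (v := ev i)
    ((hF1.mul hGc).integrable_of_hasCompactSupport (pd_cs hc i).mul_right)
    ((hFc.mul hG1).integrable_of_hasCompactSupport hc.mul_right)
    ((hFc.mul hGc).integrable_of_hasCompactSupport hc.mul_right)
    (fun x _ => hF.differentiable (by simp) x) (fun x _ => hG.differentiable (by simp) x)

private lemma cz_eq (hf : ContDiff ℝ ∞ f) (hc : HasCompactSupport f) (i j : Fin 4) :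
    ∫ x, (D2 i j f x) ^ 2 = ∫ x, D2 i i f x * D2 j j f x := by
  have hj := pd_contDiff hf j
  have hi := pd_contDiff hf i
  have hij := pd_contDiff hj i
  have hii := pd_contDiff hi i
  have e1 : ∫ x, pd i (pd j f) x * pd i (pd j f) x = -∫ x, pd j f x * pd i (pd i (pd j f)) x := by
    rw [ibp hj hij (pd_cs hc j) i, neg_neg]
  have e2 : pd i (pd i (pd j f)) = pd j (pd i (pd i f)) := by
    rw [pd_comm hf i j, pd_comm hi i j]
  have e3 : ∫ x, pd j f x * pd j (pd i (pd i f)) x = -∫ x, pd j (pd j f) x * pd i (pd i f) x :=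
    ibp hj hii (pd_cs hc j) j
  unfold D2
  calc ∫ x, (pd i (pd j f) x) ^ 2 = ∫ x, pd i (pd j f) x * pd i (pd j f) x := by
        refine integral_congr_ae (Filter.Eventually.of_forall fun x => ?_)
        simp only
        ring
    _ = ∫ x, pd j (pd j f) x * pd i (pd i f) x := by
        rw [e1, e2, e3, neg_neg]
    _ = ∫ x, pd i (pd i f) x * pd j (pd j f) x := by
        refine integral_congr_ae (Filter.Eventually.of_forall fun x => ?_)
        simp only
        ring

theorem cz (hf : ContDiff ℝ ∞ f) (hc : HasCompactSupport f) (i j : Fin 4) :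
    ∫ x, (D2 i j f x) ^ 2 ≤ ∫ x, (lap f x) ^ 2 := by
  have hint : ∀ a b : Fin 4, Integrable fun x => D2 a a f x * D2 b b f x := by
    intro a b
    have h1 := (D2_contDiff hf a a).continuous
    have h2 := (D2_contDiff hf b b).continuous
    exact (h1.mul h2).integrable_of_hasCompactSupport (pd_cs (pd_cs hc a) a).mul_right
  have e1 : ∫ x, (lap f x) ^ 2 = ∑ a : Fin 4, ∑ b : Fin 4, ∫ x, (D2 a b f x) ^ 2 := by
    have e2 : ∀ x, (lap f x) ^ 2 = ∑ a : Fin 4, ∑ b : Fin 4, D2 a a f x * D2 b b f x := by
      intro x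
      unfold lap
      rw [sq, Finset.sum_mul_sum]
    simp_rw [e2]
    rw [integral_finset_sum _ fun a _ => integrable_finset_sum _ fun b _ => hint a b]
    refine Finset.sum_congr rfl fun a _ => ?_
    rw [integral_finset_sum _ fun b _ => hint a b]
    exact Finset.sum_congr rfl fun b _ => (cz_eq hf hc a b).symm
  rw [e1]
  have h0 : ∀ a b : Fin 4, 0 ≤ ∫ x, (D2 a b f x) ^ 2 := fun a b =>
    integral_nonneg fun x => sq_nonneg _
  refine (Finset.single_le_sum (f := fun b => ∫ x, (D2 i b f x) ^ 2) (fun b _ => h0 i b)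
    (Finset.mem_univ j)).trans ?_
  exact Finset.single_le_sum (f := fun a => ∑ b : Fin 4, ∫ x, (D2 a b f x) ^ 2)
    (fun a _ => Finset.sum_nonneg fun b _ => h0 a b) (Finset.mem_univ i)

private lemma Kav_sq_le (hf : Continuous f) (s : ℝ) (x : E) :
    (Kav phi s f x) ^ 2 ≤ Kav phi s (fun y => (f y) ^ 2) x := by
  set m : ℝ := Kav phi s f x with hm
  have i1 : Integrable fun u => phi u * f (x + s • u) := integrable_Kav kerOK_phi hf s x
  have i2 : Integrable fun u => phi u * f (x + s • u) ^ 2 :=
    integrable_Kav kerOK_phi (hf.pow 2) s x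
  have i4 : Integrable fun u => phi u * f (x + s • u) ^ 2 - 2 * m * (phi u * f (x + s • u)) :=
    i2.sub (i1.const_mul (2 * m))
  have i3 : Integrable fun u => phi u := kerOK_phi.integrable
  have e1 : ∫ u, phi u * (f (x + s • u) - m) ^ 2 =
      Kav phi s (fun y => (f y) ^ 2) x - 2 * m * m + m ^ 2 := by
    have e2 : ∀ u, phi u * (f (x + s • u) - m) ^ 2 =
        phi u * (f (x + s • u)) ^ 2 - 2 * m * (phi u * f (x + s • u)) + m ^ 2 * phi u := by
      intro u
      ring
    simp_rw [e2]
    rw [integral_add i4 (i3.const_mul (m ^ 2)),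
      integral_sub i2 (i1.const_mul (2 * m)), integral_const_mul, integral_const_mul, integral_phi]
    rw [hm]
    unfold Kav
    ring
  have e3 : 0 ≤ ∫ u, phi u * (f (x + s • u) - m) ^ 2 :=
    integral_nonneg fun u => mul_nonneg (phi_nonneg u) (sq_nonneg _)
  rw [e1] at e3
  nlinarith

theorem Kav_contract (hf : Continuous f) (hc : HasCompactSupport f) (s : ℝ) :
    ∫ x, (Kav phi s f x) ^ 2 ≤ ∫ x, (f x) ^ 2 := by
  have hcont : Continuous fun p : E × E => phi p.2 * (f (p.1 + s • p.2)) ^ 2 := by
    have h1 := phi_contDiff.continuous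
    fun_prop
  obtain ⟨R, hR⟩ := hc.isCompact.isBounded.subset_closedBall (0 : E)
  have hcs : HasCompactSupport fun p : E × E => phi p.2 * (f (p.1 + s • p.2)) ^ 2 := by
    refine HasCompactSupport.intro
      ((isCompact_closedBall (0 : E) (R + |s|)).prod (isCompact_closedBall (0 : E) 1)) ?_
    rintro ⟨x, u⟩ hxu
    by_cases hu : ‖u‖ < 1
    · have h1 : f (x + s • u) = 0 := by
        by_contra h
        apply hxu
        have h2 : x + s • u ∈ closedBall (0 : E) R := hR (subset_tsupport f h)
        rw [mem_closedBall, dist_zero_right] at h2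
        refine ⟨?_, ?_⟩
        · rw [mem_closedBall, dist_zero_right]
          have h3 : ‖x‖ ≤ ‖x + s • u‖ + ‖s • u‖ := by
            have := norm_sub_le (x + s • u) (s • u)
            rwa [add_sub_cancel_right] at this
          have h4 : ‖s • u‖ ≤ |s| := by
            rw [norm_smul, Real.norm_eq_abs]
            have := abs_nonneg s
            nlinarith
          simp only
          linarith
        · rw [mem_closedBall, dist_zero_right]
          exact hu.le
      simp only
      rw [h1]
      ring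
    · simp only
      rw [kerOK_phi.supp u (not_lt.mp hu), zero_mul]
  have hint : Integrable (fun p : E × E => phi p.2 * (f (p.1 + s • p.2)) ^ 2)
      ((volume : Measure E).prod (volume : Measure E)) :=
    hcont.integrable_of_hasCompactSupport hcs
  have hK : Integrable fun x => Kav phi s (fun y => (f y) ^ 2) x := hint.integral_prod_left
  have e1 : ∫ x, Kav phi s (fun y => (f y) ^ 2) x = ∫ x, (f x) ^ 2 := by
    unfold Kav
    rw [integral_integral_swap (f := fun x u => phi u * (f (x + s • u)) ^ 2) hint]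
    have e2 : ∀ u : E, ∫ x, phi u * (f (x + s • u)) ^ 2 = phi u * ∫ x, (f x) ^ 2 := by
      intro u
      rw [integral_const_mul, integral_add_right_eq_self (fun x => (f x) ^ 2) (s • u)]
    simp_rw [e2]
    rw [integral_mul_const, integral_phi, one_mul]
  rw [← e1]
  exact integral_mono_of_nonneg (Filter.Eventually.of_forall fun x => sq_nonneg _) hK
    (Filter.Eventually.of_forall fun x => Kav_sq_le hf s x)

end Pool.Agent.Lib.Psd
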