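import Pool.Agent.Lib.Psd.ConnB

set_option autoImplicit false

/-!
# The affine charts

PROOFS. `hp` is additive in both arguments, conjugate linear in the first and linear in the second one; `hp z (Lf u v x) = 0`, so `hp z (sig z u v x) = 1` and `sig ≠ 0`; `nsq y = (hp y y).re`;
`Lf u v x = (x 0 + i x 1) • u + (x 2 + i x 3) • v`. `ch_smooth`: composition of the smooth map `sig` (affine) with `α` on `{0}ᶜ`, and `ContinuousLinearMap.comp` with a constant.
`dd_ch`: chain rule, `fderiv ℝ (ch α z u v) x a b = fderiv ℝ α (sig x) (Lf a) (Lf b)`. `Lf_norm`: `|u k| ≤ 1`, `|v k| ≤ 1` (from `hp u u = 1`), `‖Lf u v x‖ ≤ |x 0| + |x 1| + |x 2| + |x 3| ≤ 2 ‖x‖`.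
`one_le_norm_sig`: `3 ‖y‖^2 ≥ nsq y ≥ 1`.
-/

open MeasureTheory Set Metric
open scoped ContDiff

namespace Pool.Agent.Lib.Psd

open Pool.Agent.P28b04d

variable {z u v : W}

theorem hp_add_right (a b c : W) : hp a (b + c) = hp a b + hp a c := by
  simp only [hp, Pi.add_apply, mul_add, Finset.sum_add_distrib]

theorem hp_smul_right (a b : W) (c : ℂ) : hp a (c • b) = c * hp a b := by
  simp only [hp, Pi.smul_apply, smul_eq_mul, Finset.mul_sum]
  refine Finset.sum_congr rfl fun k _ => ?_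
  ring

theorem hp_star (a b : W) : star (hp a b) = hp b a := by
  simp only [hp, star_sum, star_mul, star_star]

theorem nsq_eq_hp (a : W) : (nsq a : ℂ) = hp a a := nsq_eq' a

theorem Lf_ev (u v : W) (i : Fin 4) : Lf u v (ev i) = fr u v i := by
  rw [Lf_apply, Finset.sum_eq_single i]
  · simp [ev]
  · intro j _ hj
    simp [ev, hj]
  · intro h
    exact absurd (Finset.mem_univ i) h

private theorem Lf_eq (u v : W) (x : E) :
    Lf u v x = ((x 0 : ℂ) + x 1 * Complex.I) • u + ((x 2 : ℂ) + x 3 * Complex.I) • v := by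
  rw [Lf_apply, Fin.sum_univ_four]
  funext k
  simp [fr]
  ring

theorem Lf_J4 (u v : W) (x : E) : Lf u v (J4 x) = Complex.I • Lf u v x := by
  rw [Lf_eq, Lf_eq]
  funext k
  have hI : Complex.I * Complex.I = -1 := Complex.I_mul_I
  simp [J4]
  linear_combination (-(x 1 : ℂ) * u k - (x 3 : ℂ) * v k) * hI

theorem norm_J4 (x : E) : ‖J4 x‖ = ‖x‖ := by
  rw [EuclideanSpace.norm_eq, EuclideanSpace.norm_eq]
  congr 1
  simp [J4, Fin.sum_univ_four]
  ring

private theorem unit_norm {z : W} (h : hp z z = 1) : ‖z‖ ≤ 1 := by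
  rw [pi_norm_le_iff_of_nonneg zero_le_one]
  intro k
  have h1 : nsq z = 1 := by
    have h2 := nsq_eq_hp z
    rw [h] at h2
    exact_mod_cast h2
  have h3 : Complex.normSq (z k) ≤ nsq z :=
    Finset.single_le_sum (f := fun k => Complex.normSq (z k)) (fun i _ => Complex.normSq_nonneg _)
      (Finset.mem_univ k)
  rw [h1, Complex.normSq_eq_norm_sq] at h3
  have h4 := norm_nonneg (z k)
  nlinarith

private theorem hp_zero_Lf (h : ON3 z u v) (x : E) : hp z (Lf u v x) = 0 := by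
  rw [Lf_eq, hp_add_right, hp_smul_right, hp_smul_right, h.zu, h.zv]
  ring

theorem Lf_norm (h : ON3 z u v) (x : E) : ‖Lf u v x‖ ≤ 2 * ‖x‖ := by
  have hf : ∀ i, ‖fr u v i‖ ≤ 1 := by
    have hu := unit_norm h.uu
    have hv := unit_norm h.vv
    intro i
    fin_cases i
    · simpa [fr] using hu
    · simpa [fr, norm_smul] using hu
    · simpa [fr] using hv
    · simpa [fr, norm_smul] using hv
  have h1 : ‖Lf u v x‖ ≤ ∑ i, |x i| := by
    rw [Lf_apply]
    refine (norm_sum_le _ _).trans (Finset.sum_le_sum fun i _ => ?_)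
    rw [norm_smul, Real.norm_eq_abs]
    have := hf i
    have := abs_nonneg (x i)
    nlinarith
  refine h1.trans ?_
  have h2 : ‖x‖ ^ 2 = ∑ i, |x i| ^ 2 := by
    rw [EuclideanSpace.norm_sq_eq]
    simp
  rw [Fin.sum_univ_four] at h2 ⊢
  have h3 := norm_nonneg x
  refine abs_le_of_sq_le_sq' ?_ (by positivity) |>.2
  nlinarith [sq_nonneg (|x 0| - |x 1|), sq_nonneg (|x 0| - |x 2|), sq_nonneg (|x 0| - |x 3|),
    sq_nonneg (|x 1| - |x 2|), sq_nonneg (|x 1| - |x 3|), sq_nonneg (|x 2| - |x 3|)]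

theorem hp_sig (h : ON3 z u v) (x : E) : hp z (sig z u v x) = 1 := by
  rw [sig, hp_add_right, h.zz, hp_zero_Lf h, add_zero]

theorem sig_ne (h : ON3 z u v) (x : E) : sig z u v x ≠ 0 := by
  intro h0
  have h1 := hp_sig h x
  rw [h0] at h1
  simp [hp] at h1

theorem nsq_sig (h : ON3 z u v) (x : E) : nsq (sig z u v x) = 1 + ‖x‖ ^ 2 := by
  have h1 : (nsq (sig z u v x) : ℂ) = ((1 + ‖x‖ ^ 2 : ℝ) : ℂ) := by
    have hL : ∀ a b c : W, hp (a + b) c = hp a c + hp b c := by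
      intro a b c
      rw [← hp_star, hp_add_right, star_add, hp_star, hp_star]
    have hS : ∀ (a b : W) (c : ℂ), hp (c • a) b = star c * hp a b := by
      intro a b c
      rw [← hp_star, hp_smul_right, star_mul, hp_star, mul_comm]
    have huz : hp u z = 0 := by rw [← hp_star, h.zu, star_zero]
    have hvz : hp v z = 0 := by rw [← hp_star, h.zv, star_zero]
    have hvu : hp v u = 0 := by rw [← hp_star, h.uv, star_zero]
    rw [nsq_eq_hp, sig, Lf_eq]
    simp only [hL, hS, hp_add_right, hp_smul_right, h.zz, h.uu, h.vv, h.zu, h.zv, h.uv, huz, hvz, hvu]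
    have hx : ‖x‖ ^ 2 = x 0 ^ 2 + x 1 ^ 2 + x 2 ^ 2 + x 3 ^ 2 := by
      rw [EuclideanSpace.norm_sq_eq, Fin.sum_univ_four]
      simp
    rw [hx]
    have hI : Complex.I * Complex.I = -1 := Complex.I_mul_I
    simp
    linear_combination (-(x 1 : ℂ) ^ 2 - (x 3 : ℂ) ^ 2) * hI
  exact_mod_cast h1

theorem norm_le_one (h : ON3 z u v) : ‖z‖ ≤ 1 ∧ ‖u‖ ≤ 1 ∧ ‖v‖ ≤ 1 :=
  ⟨unit_norm h.zz, unit_norm h.uu, unit_norm h.vv⟩

theorem norm_sig_lower (h : ON3 z u v) (x : E) : 1 + ‖x‖ ^ 2 ≤ 3 * ‖sig z u v x‖ ^ 2 := by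
  rw [← nsq_sig h x]
  have h1 : nsq (sig z u v x) ≤ ∑ _k : Fin 3, ‖sig z u v x‖ ^ 2 := by
    refine Finset.sum_le_sum fun k _ => ?_
    rw [Complex.normSq_eq_norm_sq]
    have h2 := norm_le_pi_norm (sig z u v x) k
    have h3 := norm_nonneg (sig z u v x k)
    nlinarith
  refine h1.trans (le_of_eq ?_)
  simp

theorem ch_smooth (h : ON3 z u v) {α : W → W →L[ℝ] ℝ} (hα : ContDiffOn ℝ ∞ α {0}ᶜ) :
    ContDiff ℝ ∞ (ch α z u v) := by
  have hs : ContDiff ℝ ∞ (sig z u v) := contDiff_const.add (Lf u v).contDiff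
  have h1 : ContDiff ℝ ∞ (fun x => α (sig z u v x)) := by
    rw [contDiff_iff_contDiffAt]
    intro x
    have h2 : ContDiffAt ℝ ∞ α (sig z u v x) :=
      hα.contDiffAt (isOpen_compl_singleton.mem_nhds (sig_ne h x))
    exact h2.comp x hs.contDiffAt
  exact h1.clm_comp contDiff_const

theorem dd_ch (h : ON3 z u v) {α : W → W →L[ℝ] ℝ} (hα : ContDiffOn ℝ ∞ α {0}ᶜ) (x a b : E) :
    dd (ch α z u v) x a b = dd α (sig z u v x) (Lf u v a) (Lf u v b) := by
  have h2 : DifferentiableAt ℝ α (sig z u v x) :=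
    (hα.contDiffAt (isOpen_compl_singleton.mem_nhds (sig_ne h x))).differentiableAt (by simp)
  have hs : HasFDerivAt (sig z u v) (Lf u v) x := by
    have := (Lf u v).hasFDerivAt (x := x)
    exact this.const_add z
  have h3 : HasFDerivAt (fun y => α (sig z u v y)) ((fderiv ℝ α (sig z u v x)).comp (Lf u v)) x :=
    h2.hasFDerivAt.comp x hs
  have h4 : HasFDerivAt (ch α z u v)
      (((ContinuousLinearMap.compL ℝ E W ℝ).flip (Lf u v)).comp
        ((fderiv ℝ α (sig z u v x)).comp (Lf u v))) x :=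
    ((ContinuousLinearMap.compL ℝ E W ℝ).flip (Lf u v)).hasFDerivAt.comp x h3
  unfold dd
  rw [h4.fderiv]
  rfl

theorem co_ch (h : ON3 z u v) {α : W → W →L[ℝ] ℝ} (hα : ContDiffOn ℝ ∞ α {0}ᶜ) (i j : Fin 4) (x : E) :
    co (ch α z u v) i j x = dd α (sig z u v x) (fr u v i) (fr u v j) := by
  rw [co, dd_ch h hα, Lf_ev, Lf_ev]

theorem co_ch_zero (h : ON3 z u v) {α : W → W →L[ℝ] ℝ} (hα : ContDiffOn ℝ ∞ α {0}ᶜ) (i j : Fin 4) :
    co (ch α z u v) i j 0 = cmp (dd α z) u v i j := by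
  rw [co_ch h hα, cmp, sig, map_zero, add_zero]

/-- a unitary basis containing a given unit vector -/
theorem exists_ON3 {z : W} (hz : nsq z = 1) : ∃ u v : W, ON3 z u v := by
  have hin : ∀ a b : EuclideanSpace ℂ (Fin 3), inner ℂ a b = hp a.ofLp b.ofLp := by
    intro a b
    rw [PiLp.inner_apply, hp]
    refine Finset.sum_congr rfl fun k _ => ?_
    rw [RCLike.inner_apply, mul_comm]
    rfl
  obtain ⟨w, hw⟩ : ∃ w : EuclideanSpace ℂ (Fin 3), w.ofLp = z := ⟨WithLp.toLp 2 z, rfl⟩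
  have hzz : hp z z = 1 := by
    rw [← nsq_eq_hp, hz]
    simp
  have hw1 : ‖w‖ = 1 := by
    have h1 : inner ℂ w w = (1 : ℂ) := by rw [hin, hw, hzz]
    have h2 : ‖w‖ ^ 2 = 1 := by
      rw [← inner_self_eq_norm_sq (𝕜 := ℂ), h1]
      simp
    have h3 := norm_nonneg w
    nlinarith
  have hv : Orthonormal ℂ (({0} : Set (Fin 3)).restrict (fun _ => w)) := by
    constructor
    · intro i
      exact hw1
    · intro i j hij
      exact absurd (Subsingleton.elim i j) hij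
  obtain ⟨b, hb⟩ := hv.exists_orthonormalBasis_extension_of_card_eq (ι := Fin 3) (by simp)
  have hb0 : b 0 = w := hb 0 rfl
  have hob := b.orthonormal
  have hd : ∀ i, hp (b i).ofLp (b i).ofLp = 1 := by
    intro i
    rw [← hin, inner_self_eq_norm_sq_to_K, hob.1 i]
    simp
  have ho : ∀ i j, i ≠ j → hp (b i).ofLp (b j).ofLp = 0 := by
    intro i j hij
    rw [← hin]
    exact hob.2 hij
  refine ⟨(b 1).ofLp, (b 2).ofLp, hzz, hd 1, hd 2, ?_, ?_, ho 1 2 (by decide)⟩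
  · rw [← hw, ← hb0]
    exact ho 0 1 (by decide)
  · rw [← hw, ← hb0]
    exact ho 0 2 (by decide)

end Pool.Agent.Lib.Psd
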