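import Pool.Agent.Lib.Psd.KavA

set_option autoImplicit false

/-!
# Closed two-forms on `ℝ⁴`: the Laplacian is determined by the anti-self-dual part

PROOF. `T i j = co lam i j` (`= ∂_i λ_j - ∂_j λ_i` with `λ_j = lam · (ev j)`), `B = asd T`. `T` is skew and closed: `pd i (T k l) + pd k (T l i) + pd l (T i k) = 0` (symmetry of second derivatives). Hence
`D2 i i (T k l) = D2 k i (T i l) - D2 l i (T i k)`, sum over `i`. The star of `T` is divergence free: `∑_i pd i (st T i l) = 0` for each `l` (this is the closedness, check the four cases `l = 0, 1, 2, 3` with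
`Fin.sum_univ_four`), and `T = st T + 2 B`, so `∑_i pd i (T i l) = 2 ∑_i pd i (B i l)` and
`lap (T k l) = 2 ∑_i (D2 k i (B i l) - D2 l i (B i k))`; this is the sum with the coefficients `cfc` (the index `m = (p, q)` stands for `B p q`, `j = p`).
-/

open MeasureTheory Set Metric
open scoped ContDiff

namespace Pool.Agent.Lib.Psd

open Pool.Agent.P28b04d

namespace ClosedAux

/-- the components of a one-form -/
noncomputable def l1 (lam : E → E →L[ℝ] ℝ) (j : Fin 4) (x : E) : ℝ := lam x (ev j)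

theorem l1_contDiff {lam : E → E →L[ℝ] ℝ} (h : ContDiff ℝ ∞ lam) (j : Fin 4) :
    ContDiff ℝ ∞ (l1 lam j) := h.clm_apply contDiff_const

theorem fderiv_l1 {lam : E → E →L[ℝ] ℝ} (h : ContDiff ℝ ∞ lam) (j : Fin 4) (x v : E) :
    fderiv ℝ (l1 lam j) x v = fderiv ℝ lam x v (ev j) := by
  have hd : DifferentiableAt ℝ lam x := (h.differentiable (by simp)).differentiableAt
  have h1 : l1 lam j = fun y => lam y (ev j) := rfl
  rw [h1, fderiv_clm_apply hd (differentiableAt_const _)]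
  simp

theorem co_eq {lam : E → E →L[ℝ] ℝ} (h : ContDiff ℝ ∞ lam) (i j : Fin 4) (x : E) :
    co lam i j x = pd i (l1 lam j) x - pd j (l1 lam i) x := by
  unfold co dd pd
  rw [fderiv_l1 h, fderiv_l1 h]

theorem pd_contDiff' {f : E → ℝ} (h : ContDiff ℝ ∞ f) (i : Fin 4) : ContDiff ℝ ∞ (pd i f) := by
  have h1 : ContDiff ℝ ∞ (fderiv ℝ f) := h.fderiv_right (by simp)
  exact h1.clm_apply contDiff_const

theorem pd_symm {f : E → ℝ} (h : ContDiff ℝ ∞ f) (i j : Fin 4) (x : E) :
    pd i (pd j f) x = pd j (pd i f) x := by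
  have hd : DifferentiableAt ℝ (fderiv ℝ f) x :=
    ((h.fderiv_right (m := ∞) (by simp)).differentiable (by simp)).differentiableAt
  have key : ∀ a b : E, fderiv ℝ (fun y => fderiv ℝ f y a) x b = fderiv ℝ (fderiv ℝ f) x b a := by
    intro a b
    rw [fderiv_clm_apply hd (differentiableAt_const _)]
    simp
  unfold pd
  rw [key, key]
  have hs : IsSymmSndFDerivAt ℝ f x := h.contDiffAt.isSymmSndFDerivAt (by
    rw [minSmoothness_of_isRCLikeNormedField]
    exact WithTop.coe_le_coe.2 le_top)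
  exact hs.eq _ _

theorem pd_symm' {f : E → ℝ} (h : ContDiff ℝ ∞ f) (i j : Fin 4) :
    pd i (pd j f) = pd j (pd i f) := funext fun x => pd_symm h i j x

theorem pd_sub {f g : E → ℝ} (hf : ContDiff ℝ ∞ f) (hg : ContDiff ℝ ∞ g) (i : Fin 4) :
    pd i (fun x => f x - g x) = fun x => pd i f x - pd i g x := by
  funext x
  unfold pd
  rw [fderiv_fun_sub (hf.differentiable (by simp)).differentiableAt
    (hg.differentiable (by simp)).differentiableAt]
  rfl

theorem pd_div {f : E → ℝ} (hf : ContDiff ℝ ∞ f) (i : Fin 4) :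
    pd i (fun x => f x / 2) = fun x => pd i f x / 2 := by
  funext x
  unfold pd
  have h1 : (fun x => f x / 2) = fun x => (2 : ℝ)⁻¹ * f x := by
    funext y; ring
  rw [h1, fderiv_const_mul (hf.differentiable (by simp)).differentiableAt]
  simp only [ContinuousLinearMap.smul_apply, smul_eq_mul]
  ring

/-- third order expressions -/
noncomputable def g3 (lam : E → E →L[ℝ] ℝ) (i j k l : Fin 4) (x : E) : ℝ :=
  pd i (pd j (pd k (l1 lam l))) x

theorem g3_symm12 {lam : E → E →L[ℝ] ℝ} (h : ContDiff ℝ ∞ lam) (i j k l : Fin 4) (x : E) :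
    g3 lam i j k l x = g3 lam j i k l x :=
  pd_symm (pd_contDiff' (l1_contDiff h l) k) i j x

theorem g3_symm23 {lam : E → E →L[ℝ] ℝ} (h : ContDiff ℝ ∞ lam) (i j k l : Fin 4) (x : E) :
    g3 lam i j k l x = g3 lam i k j l x := by
  unfold g3
  rw [pd_symm' (l1_contDiff h l) j k]

theorem co_funext {lam : E → E →L[ℝ] ℝ} (h : ContDiff ℝ ∞ lam) (i j : Fin 4) :
    co lam i j = fun x => pd i (l1 lam j) x - pd j (l1 lam i) x := funext fun x => co_eq h i j x

theorem co_smooth {lam : E → E →L[ℝ] ℝ} (h : ContDiff ℝ ∞ lam) (i j : Fin 4) :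
    ContDiff ℝ ∞ (co lam i j) := by
  rw [co_funext h]
  exact (pd_contDiff' (l1_contDiff h j) i).sub (pd_contDiff' (l1_contDiff h i) j)

theorem pd_co {lam : E → E →L[ℝ] ℝ} (h : ContDiff ℝ ∞ lam) (i k l : Fin 4) :
    pd i (co lam k l) = fun x => pd i (pd k (l1 lam l)) x - pd i (pd l (l1 lam k)) x := by
  rw [co_funext h]
  exact pd_sub (pd_contDiff' (l1_contDiff h l) k) (pd_contDiff' (l1_contDiff h k) l) i

theorem D2_co {lam : E → E →L[ℝ] ℝ} (h : ContDiff ℝ ∞ lam) (i j k l : Fin 4) (x : E) :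
    D2 i j (co lam k l) x = g3 lam i j k l x - g3 lam i j l k x := by
  unfold D2
  rw [pd_co h, pd_sub (pd_contDiff' (pd_contDiff' (l1_contDiff h l) k) j)
    (pd_contDiff' (pd_contDiff' (l1_contDiff h k) l) j)]
  rfl

/-- the index of the star -/
def sx (i j : Fin 4) : Fin 4 × Fin 4 :=
  (![![(0, 0), (2, 3), (3, 1), (1, 2)], ![(3, 2), (0, 0), (0, 3), (2, 0)],
    ![(1, 3), (3, 0), (0, 0), (0, 1)], ![(2, 1), (0, 2), (1, 0), (0, 0)]] :
      Fin 4 → Fin 4 → Fin 4 × Fin 4) i j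

theorem st_sx (T : Fin 4 → Fin 4 → ℝ) (h0 : T 0 0 = 0) (i j : Fin 4) :
    st T i j = T (sx i j).1 (sx i j).2 := by
  fin_cases i <;> fin_cases j <;> simp [st, sx, h0]

theorem co_diag (lam : E → E →L[ℝ] ℝ) (i : Fin 4) (x : E) : co lam i i x = 0 := by
  unfold co dd
  ring

theorem asd_eq (lam : E → E →L[ℝ] ℝ) (p q : Fin 4) :
    (fun x => asd (fun i j => co lam i j x) p q) =
      fun x => (co lam p q x - co lam (sx p q).1 (sx p q).2 x) / 2 := by
  funext x
  unfold asd
  rw [st_sx _ (co_diag lam 0 x)]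

theorem D2_asd {lam : E → E →L[ℝ] ℝ} (h : ContDiff ℝ ∞ lam) (i j p q : Fin 4) (x : E) :
    D2 i j (fun x => asd (fun i j => co lam i j x) p q) x =
      (g3 lam i j p q x - g3 lam i j q p x -
        (g3 lam i j (sx p q).1 (sx p q).2 x - g3 lam i j (sx p q).2 (sx p q).1 x)) / 2 := by
  have h1 := co_smooth h p q
  have h2 := co_smooth h (sx p q).1 (sx p q).2
  have e1 : D2 i j (fun x => asd (fun i j => co lam i j x) p q) x =
      (D2 i j (co lam p q) x - D2 i j (co lam (sx p q).1 (sx p q).2) x) / 2 := by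
    unfold D2
    rw [asd_eq, pd_div (h1.sub h2), pd_sub h1 h2,
      pd_div ((pd_contDiff' h1 j).sub (pd_contDiff' h2 j)),
      pd_sub (pd_contDiff' h1 j) (pd_contDiff' h2 j)]
  rw [e1, D2_co h, D2_co h]

/-- the star of a closed form is divergence free -/
theorem star_div {lam : E → E →L[ℝ] ℝ} (h : ContDiff ℝ ∞ lam) (k l : Fin 4) (x : E) :
    ∑ p, (g3 lam k p (sx p l).1 (sx p l).2 x - g3 lam k p (sx p l).2 (sx p l).1 x) = 0 := by
  rw [Fin.sum_univ_four]
  fin_cases l
  · simp only [sx, Matrix.cons_val, Fin.zero_eta, Fin.mk_one, Fin.reduceFinMk]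
    linarith [g3_symm23 h k 1 3 2 x, g3_symm23 h k 1 2 3 x, g3_symm23 h k 2 3 1 x]
  · simp only [sx, Matrix.cons_val, Fin.zero_eta, Fin.mk_one, Fin.reduceFinMk]
    linarith [g3_symm23 h k 0 2 3 x, g3_symm23 h k 0 3 2 x, g3_symm23 h k 2 3 0 x,
      g3_symm23 h k 2 0 3 x, g3_symm23 h k 3 0 2 x]
  · simp only [sx, Matrix.cons_val, Fin.zero_eta, Fin.mk_one, Fin.reduceFinMk]
    linarith [g3_symm23 h k 0 1 3 x, g3_symm23 h k 0 3 1 x, g3_symm23 h k 1 3 0 x,
      g3_symm23 h k 1 0 3 x, g3_symm23 h k 3 0 1 x]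
  · simp only [sx, Matrix.cons_val, Fin.zero_eta, Fin.mk_one, Fin.reduceFinMk]
    linarith [g3_symm23 h k 0 1 2 x, g3_symm23 h k 0 2 1 x, g3_symm23 h k 1 2 0 x,
      g3_symm23 h k 1 0 2 x, g3_symm23 h k 2 0 1 x]

end ClosedAux

open ClosedAux

/-- The coefficients of the system satisfied by closed two-forms. -/
def cfc (kl : Fin 4 × Fin 4) (i j : Fin 4) (m : Fin 4 × Fin 4) : ℝ :=
  (if i = kl.1 ∧ j = m.1 ∧ m.2 = kl.2 then 2 else 0) - (if i = kl.2 ∧ j = m.1 ∧ m.2 = kl.1 then 2 else 0)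

theorem co_contDiff {lam : E → E →L[ℝ] ℝ} (h : ContDiff ℝ ∞ lam) (i j : Fin 4) :
    ContDiff ℝ ∞ (co lam i j) := co_smooth h i j

theorem cfc_sum (F : Fin 4 → Fin 4 → Fin 4 × Fin 4 → ℝ) (k l : Fin 4) :
    ∑ i, ∑ j, ∑ m, (if i = k ∧ j = m.1 ∧ m.2 = l then (2 : ℝ) else 0) * F i j m =
      ∑ p, 2 * F k p (p, l) := by
  rw [Finset.sum_eq_single k]
  · refine Finset.sum_congr rfl fun j _ => ?_
    rw [Finset.sum_eq_single (j, l)]
    · simp
    · rintro ⟨a, b⟩ _ hne
      have : ¬ (k = k ∧ j = a ∧ b = l) := by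
        rintro ⟨_, h1, h2⟩
        exact hne (by rw [h1, h2])
      rw [if_neg this, zero_mul]
    · intro hm
      exact absurd (Finset.mem_univ _) hm
  · intro i _ hne
    refine Finset.sum_eq_zero fun j _ => Finset.sum_eq_zero fun m _ => ?_
    rw [if_neg (fun h => hne h.1), zero_mul]
  · intro hm
    exact absurd (Finset.mem_univ _) hm

theorem closed_sys {lam : E → E →L[ℝ] ℝ} (h : ContDiff ℝ ∞ lam) :
    Sys cfc (fun k : Fin 4 × Fin 4 => co lam k.1 k.2)
      (fun (m : Fin 4 × Fin 4) x => asd (fun i j => co lam i j x) m.1 m.2) where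
  sT k := co_contDiff h _ _
  sB m := by
    rw [asd_eq]
    exact ((co_smooth h _ _).sub (co_smooth h _ _)).div_const 2
  eq := by
    rintro ⟨k, l⟩ x
    have e1 : ∑ i, ∑ j, ∑ m : Fin 4 × Fin 4, cfc (k, l) i j m *
        D2 i j (fun x => asd (fun i j => co lam i j x) m.1 m.2) x =
        (∑ p, 2 * D2 k p (fun x => asd (fun i j => co lam i j x) p l) x) -
          ∑ p, 2 * D2 l p (fun x => asd (fun i j => co lam i j x) p k) x := by
      rw [← cfc_sum (fun i j m => D2 i j (fun x => asd (fun i j => co lam i j x) m.1 m.2) x) k l,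
        ← cfc_sum (fun i j m => D2 i j (fun x => asd (fun i j => co lam i j x) m.1 m.2) x) l k]
      simp only [← Finset.sum_sub_distrib, ← sub_mul]
      rfl
    rw [e1]
    unfold lap
    change ∑ i, D2 i i (co lam k l) x = _
    have s1 := star_div h k l x
    have s2 := star_div h l k x
    simp only [D2_asd h, D2_co h]
    rw [Fin.sum_univ_four] at s1 s2 ⊢
    rw [Fin.sum_univ_four, Fin.sum_univ_four]
    have c1 : ∀ p, g3 lam k p p l x = g3 lam p p k l x := by
      intro p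
      rw [g3_symm12 h k p p l x, g3_symm23 h p k p l x]
    have c2 : ∀ p, g3 lam l p p k x = g3 lam p p l k x := by
      intro p
      rw [g3_symm12 h l p p k x, g3_symm23 h p l p k x]
    have c3 : ∀ p, g3 lam k p l p x = g3 lam l p k p x := by
      intro p
      rw [g3_symm23 h k p l p x, g3_symm12 h k l p p x, g3_symm23 h l k p p x]
    linarith [c1 0, c1 1, c1 2, c1 3, c2 0, c2 1, c2 2, c2 3, c3 0, c3 1, c3 2, c3 3]

end Pool.Agent.Lib.Psd
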