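import Pool.Agent.Lib.P28b04d.Proj

set_option autoImplicit false

/-!
# Pinched closed two-forms on the projective plane: definitions

`W = ℂ³`, `E = ℝ⁴`. A one-form is a map `α : V → V →L[ℝ] ℝ`, `dd α z v w` its exterior derivative. `Conn α`: `α` is a connection
form on the principal `ℂˣ`-bundle `ℂ³ - 0 → ℂP²`; the closed two-forms of the class `a` on `ℂP²` are the forms `dd α`. `a0` is the
connection form of the Fubini-Study form. `ON3 z u v`: a unitary basis; `fr u v = (u, iu, v, iv)`; `cmp τ u v` are the `4 × 4`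
components of a two-form `τ` in this frame. `st` is the Hodge star of `ℝ⁴`, `asd` and `sd` are the projections to the anti-self-dual and
self-dual parts. `sig z u v x = z + (x₀ + i x₁) u + (x₂ + i x₃) v` is the affine chart centred at `[z]`, `ch α z u v` the
expression of `α` in this chart and `co lam i j` the components of `d lam` for a one-form `lam` on `E`.
-/

open MeasureTheory Set Metric
open scoped ContDiff

namespace Pool.Agent.Lib.Psd

open Pool.Agent.P28b04d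

abbrev W : Type := Fin 3 → ℂ

abbrev E : Type := EuclideanSpace ℝ (Fin 4)

/-- Exterior derivative of a one-form. -/
noncomputable def dd {V : Type} [NormedAddCommGroup V] [NormedSpace ℝ V] (α : V → V →L[ℝ] ℝ)
    (z v w : V) : ℝ :=
  fderiv ℝ α z v w - fderiv ℝ α z w v

/-- Hermitian product. -/
def hp (z w : W) : ℂ := ∑ k, star (z k) * w k

/-- Unitary bases of `ℂ³`. -/
structure ON3 (z u v : W) : Prop where
  zz : hp z z = 1
  uu : hp u u = 1
  vv : hp v v = 1
  zu : hp z u = 0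
  zv : hp z v = 0
  uv : hp u v = 0

/-- The real frame `(u, iu, v, iv)`. -/
def fr (u v : W) : Fin 4 → W := ![u, Complex.I • u, v, Complex.I • v]

/-- Components of a two-form in the frame `(u, iu, v, iv)`. -/
def cmp (τ : W → W → ℝ) (u v : W) (i j : Fin 4) : ℝ := τ (fr u v i) (fr u v j)

/-- Hodge star on the components of a two-form on `ℝ⁴`. -/
def st (T : Fin 4 → Fin 4 → ℝ) : Fin 4 → Fin 4 → ℝ :=
  ![![0, T 2 3, T 3 1, T 1 2], ![T 3 2, 0, T 0 3, T 2 0], ![T 1 3, T 3 0, 0, T 0 1],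
    ![T 2 1, T 0 2, T 1 0, 0]]

/-- Anti-self-dual part. -/
noncomputable def asd (T : Fin 4 → Fin 4 → ℝ) (i j : Fin 4) : ℝ := (T i j - st T i j) / 2

/-- Self-dual part. -/
noncomputable def sd (T : Fin 4 → Fin 4 → ℝ) (i j : Fin 4) : ℝ := (T i j + st T i j) / 2

/-- Sum of the squares of the components. -/
def nrm2 (T : Fin 4 → Fin 4 → ℝ) : ℝ := ∑ i, ∑ j, T i j ^ 2

/-- Pfaffian. -/
def Pf (T : Fin 4 → Fin 4 → ℝ) : ℝ := T 0 1 * T 2 3 - T 0 2 * T 1 3 + T 0 3 * T 1 2

/-- Skew-symmetric components. -/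
def Skew (T : Fin 4 → Fin 4 → ℝ) : Prop := ∀ i j, T i j = -T j i

/-- Connection forms on `ℂ³ - 0 → ℂP²`. -/
structure Conn (α : W → W →L[ℝ] ℝ) : Prop where
  smooth : ContDiffOn ℝ ∞ α {0}ᶜ
  hom : ∀ c : ℂ, c ≠ 0 → ∀ z : W, z ≠ 0 → ∀ v : W, α (c • z) (c • v) = α z v
  rad : ∀ z : W, z ≠ 0 → α z z = 0
  rot : ∀ z : W, z ≠ 0 → α z (Complex.I • z) = 1

/-- Pull-backs of one-forms on `ℂP²` to `ℂ³ - 0`. -/
structure Basic (α : W → W →L[ℝ] ℝ) : Prop where
  smooth : ContDiffOn ℝ ∞ α {0}ᶜ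
  hom : ∀ c : ℂ, c ≠ 0 → ∀ z : W, z ≠ 0 → ∀ v : W, α (c • z) (c • v) = α z v
  rad : ∀ z : W, z ≠ 0 → α z z = 0
  rot : ∀ z : W, z ≠ 0 → α z (Complex.I • z) = 0

/-- `v ↦ Im (hp z v)`. -/
noncomputable def hpi (z : W) : W →L[ℝ] ℝ :=
  ∑ k, ((z k).re • (Complex.imCLM.comp (ContinuousLinearMap.proj (R := ℝ) k)) -
    (z k).im • (Complex.reCLM.comp (ContinuousLinearMap.proj (R := ℝ) k)))

/-- The connection form of the Fubini-Study form. -/
noncomputable def a0 (z : W) : W →L[ℝ] ℝ := (nsq z)⁻¹ • hpi z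

/-- The anti-self-dual part is at most `κ` times the self-dual part, at every point. -/
def Pinched (κ : ℝ) (α : W → W →L[ℝ] ℝ) : Prop :=
  ∀ z u v : W, ON3 z u v → nrm2 (asd (cmp (dd α z) u v)) ≤ κ ^ 2 * nrm2 (sd (cmp (dd α z) u v))

/-- The two-form `dd α` is non-degenerate on the quotients by the lines `ℂ z`. -/
def Nondeg (α : W → W →L[ℝ] ℝ) : Prop :=
  ∀ z : W, z ≠ 0 → ∀ v : W, (∀ w : W, dd α z v w = 0) → ∃ c : ℂ, v = c • z

/-- Standard basis of `ℝ⁴`. -/
noncomputable def ev (i : Fin 4) : E := EuclideanSpace.single i 1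

/-- `x ↦ (x₀ + i x₁) u + (x₂ + i x₃) v`. -/
noncomputable def Lf (u v : W) : E →L[ℝ] W :=
  ∑ i, (EuclideanSpace.proj (𝕜 := ℝ) i : E →L[ℝ] ℝ).smulRight (fr u v i)

/-- The affine chart centred at `[z]`. -/
noncomputable def sig (z u v : W) (x : E) : W := z + Lf u v x

/-- The expression of a one-form in the chart. -/
noncomputable def ch (α : W → W →L[ℝ] ℝ) (z u v : W) (x : E) : E →L[ℝ] ℝ :=
  (α (sig z u v x)).comp (Lf u v)

/-- Components of the exterior derivative of a one-form on `E`. -/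
noncomputable def co (lam : E → E →L[ℝ] ℝ) (i j : Fin 4) (x : E) : ℝ := dd lam x (ev i) (ev j)

/-- Partial derivative. -/
noncomputable def pd (i : Fin 4) (f : E → ℝ) (x : E) : ℝ := fderiv ℝ f x (ev i)

/-- Second partial derivatives. -/
noncomputable def D2 (i j : Fin 4) (f : E → ℝ) (x : E) : ℝ := pd i (pd j f) x

/-- Laplacian. -/
noncomputable def lap (f : E → ℝ) (x : E) : ℝ := ∑ i, D2 i i f x

/-- Average with a kernel `k` at scale `s`. -/
noncomputable def Kav (k : E → ℝ) (s : ℝ) (f : E → ℝ) (x : E) : ℝ := ∫ u, k u * f (x + s • u)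

/-- Kernels: continuous, supported in the unit ball. -/
structure KerOK (k : E → ℝ) : Prop where
  cont : Continuous k
  supp : ∀ x : E, 1 ≤ ‖x‖ → k x = 0

/-- Smooth cut-off: `1` for `‖x‖ ≤ 3 r / 4`, `0` for `‖x‖ ≥ r`. -/
noncomputable def cutf (r : ℝ) (x : E) : ℝ := Real.smoothTransition (16 / 7 * (1 - ‖x‖ ^ 2 / r ^ 2))

/-- Smooth cut-off: `1` for `‖x‖ ≤ R`, `0` for `‖x‖ ^ 2 ≥ 2 R ^ 2`. -/
noncomputable def cutR (R : ℝ) (x : E) : ℝ := Real.smoothTransition (2 - ‖x‖ ^ 2 / R ^ 2)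

/-- Functions `T k` whose Laplacians are combinations of second derivatives of the functions `B m`. -/
structure Sys {K M : Type} [Fintype M] (cf : K → Fin 4 → Fin 4 → M → ℝ) (T : K → E → ℝ) (B : M → E → ℝ) : Prop where
  sT : ∀ k, ContDiff ℝ ∞ (T k)
  sB : ∀ m, ContDiff ℝ ∞ (B m)
  eq : ∀ k x, lap (T k) x = ∑ i, ∑ j, ∑ m, cf k i j m * D2 i j (B m) x

/-- Multiplication by `i` on `ℝ⁴ = ℂ²`. -/
noncomputable def J4 (x : E) : E := !₂[-x 1, x 0, -x 3, x 2]

/-- The matrix of the change of frames: `u = a p`, `v = (m₁ + i m₂) p + d q` modulo the line `ℂ z`. -/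
def Rm (a d m₁ m₂ : ℝ) : Fin 4 → Fin 4 → ℝ :=
  ![![a, 0, m₁, -m₂], ![0, a, m₂, m₁], ![0, 0, d, 0], ![0, 0, 0, d]]

/-- Transformation of the components of a two-form. -/
def tr (a d m₁ m₂ : ℝ) (τ : Fin 4 → Fin 4 → ℝ) (i j : Fin 4) : ℝ :=
  ∑ k, ∑ l, Rm a d m₁ m₂ k i * Rm a d m₁ m₂ l j * τ k l

/-- The vector field with divergence `Pf (d lam)`. -/
noncomputable def Vf (lam : E → E →L[ℝ] ℝ) (i : Fin 4) (x : E) : ℝ :=
  1 / 2 * ∑ j, lam x (ev j) * st (fun a b => co lam a b x) i j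

/-- Triples of vectors: the columns of a `3 × 3` matrix. -/
abbrev XX : Type := Fin 3 → W

/-- `X z = ∑ z_j X_j`. -/
def mx (X : XX) (z : W) : W := ∑ j, z j • X j

/-- The projective transformation `1 + s X`. -/
noncomputable def act (s : ℝ) (X : XX) (z : W) : W := z + (s : ℂ) • mx X z

/-- The parallel components `2 (e₀ ∧ e₁ + e₂ ∧ e₃)` of the Fubini-Study form at the centre of the chart. -/
def c0 : Fin 4 → Fin 4 → ℝ := ![![0, 2, 0, 0], ![-2, 0, 0, 0], ![0, 0, 0, 2], ![0, 0, -2, 0]]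

theorem Lf_apply (u v : W) (x : E) : Lf u v x = ∑ i, x i • fr u v i := by
  simp [Lf]

theorem hpi_apply (z v : W) : hpi z v = (hp z v).im := by
  simp only [hpi, hp, ContinuousLinearMap.sum_apply, ContinuousLinearMap.sub_apply,
    ContinuousLinearMap.smul_apply, ContinuousLinearMap.comp_apply, ContinuousLinearMap.proj_apply,
    Complex.imCLM_apply, Complex.reCLM_apply, smul_eq_mul, Complex.im_sum, Complex.mul_im,
    Complex.star_def, Complex.conj_re, Complex.conj_im]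
  refine Finset.sum_congr rfl fun k _ => ?_
  ring

theorem a0_apply (z v : W) : a0 z v = (hp z v).im / nsq z := by
  rw [a0, ContinuousLinearMap.smul_apply, hpi_apply, smul_eq_mul, div_eq_inv_mul]

end Pool.Agent.Lib.Psd
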