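import Pool.Agent.Lib.Psd.Ibp
import Pool.Agent.Lib.Psd.BdB
import Pool.Agent.Lib.Psd.ChartA

set_option autoImplicit false

/-!
# The integral of the Pfaffian over the chart vanishes

PROOF. `lam = ch γ z u v`. `pd i (cutR R) x = - (2 x i / R^2) χ'(2 - ‖x‖^2/R^2)`, `χ = Real.smoothTransition`, `|χ'| ≤ M` (a smooth function with `χ' = 0` off `[0, 1]`); the derivative vanishes unless `R ≤ ‖x‖ ≤ 2 R`. So by `ibp` and `xV`
`|∫ cutR R * Pf| ≤ (2 M / R^2) ∫_{R ≤ ‖x‖ ≤ 2R} |∑ x i Vf lam i x|`. With `y = sig z u v x`: `lam x (J4 x) = γ y (Lf (J4 x)) = γ y (I • (y - z)) = - γ y (I • z)` (`Lf_J4`, `Basic.rot`), so `|lam x (J4 x)| ≤ C / ‖y‖`;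
`dd lam x (J4 x) b = dd γ y (I • (y - z)) (Lf b) = - dd γ y (I • z) (Lf b)` (`Basic.dd_left`), so it is at most `2 C ‖b‖ / ‖y‖^2`; `|lam x (ev j)| ≤ C/‖y‖`, `|co lam i j x| ≤ 4 C / ‖y‖^2` (`Basic.bound`, `Lf_norm`, `norm_le_one`).
Hence `|∑ x i Vf lam i x| ≤ C₁ / ‖y‖^3 ≤ C₂ / ‖x‖^3` (`norm_sig_lower`) and the integral is at most `C₃ R^-2 R^-3 R^4 = C₃ / R`.
-/

open MeasureTheory Set Metric
open scoped ContDiff

namespace Pool.Agent.Lib.Psd

open Pool.Agent.P28b04d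

namespace PfIntAux

theorem chi_deriv : ∃ M : ℝ, 0 ≤ M ∧ (∀ t, |deriv Real.smoothTransition t| ≤ M) ∧
    (∀ t, t < 0 → deriv Real.smoothTransition t = 0) ∧
    ∀ t, 1 < t → deriv Real.smoothTransition t = 0 := by
  have h0 : ∀ t, t < 0 → deriv Real.smoothTransition t = 0 := by
    intro t ht
    have h1 : Real.smoothTransition =ᶠ[nhds t] fun _ => 0 :=
      (eventually_lt_nhds ht).mono fun x hx => Real.smoothTransition.zero_of_nonpos hx.le
    rw [h1.deriv_eq]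
    exact deriv_const _ _
  have h1 : ∀ t, 1 < t → deriv Real.smoothTransition t = 0 := by
    intro t ht
    have h1 : Real.smoothTransition =ᶠ[nhds t] fun _ => 1 :=
      (eventually_gt_nhds ht).mono fun x hx => Real.smoothTransition.one_of_one_le hx.le
    rw [h1.deriv_eq]
    exact deriv_const _ _
  have hc : Continuous (deriv Real.smoothTransition) :=
    (Real.smoothTransition.contDiff (n := 1)).continuous_deriv (le_refl 1)
  obtain ⟨M, hM⟩ := (isCompact_Icc (a := (0 : ℝ)) (b := 1)).exists_bound_of_continuousOn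
    hc.continuousOn
  refine ⟨|M|, abs_nonneg _, fun t => ?_, h0, h1⟩
  by_cases h2 : t < 0
  · rw [h0 t h2, abs_zero]
    exact abs_nonneg _
  · by_cases h3 : 1 < t
    · rw [h1 t h3, abs_zero]
      exact abs_nonneg _
    · have h4 := hM t ⟨not_lt.1 h2, not_lt.1 h3⟩
      rw [Real.norm_eq_abs] at h4
      exact h4.trans (le_abs_self M)

theorem contDiff_cutR (R : ℝ) : ContDiff ℝ ∞ (cutR R) := by
  unfold cutR
  refine Real.smoothTransition.contDiff.comp ?_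
  exact contDiff_const.sub ((contDiff_norm_sq ℝ).div_const _)

theorem pd_cutR (R : ℝ) (i : Fin 4) (x : E) : pd i (cutR R) x =
    deriv Real.smoothTransition (2 - ‖x‖ ^ 2 / R ^ 2) * (-(2 * x i / R ^ 2)) := by
  have h1 : HasFDerivAt (fun y : E => ‖y‖ ^ 2) (2 • (innerSL ℝ x)) x :=
    (hasStrictFDerivAt_norm_sq x).hasFDerivAt
  have h2 : HasFDerivAt (fun y : E => 2 - ‖y‖ ^ 2 / R ^ 2)
      (-((R ^ 2)⁻¹ • (2 • (innerSL ℝ x)))) x := by
    have h3 := (h1.const_mul (R ^ 2)⁻¹).const_sub 2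
    refine h3.congr_of_eventuallyEq (Filter.Eventually.of_forall fun y => ?_)
    show 2 - ‖y‖ ^ 2 / R ^ 2 = 2 - (R ^ 2)⁻¹ * ‖y‖ ^ 2
    rw [div_eq_inv_mul]
  have h4 : HasDerivAt Real.smoothTransition
      (deriv Real.smoothTransition (2 - ‖x‖ ^ 2 / R ^ 2)) (2 - ‖x‖ ^ 2 / R ^ 2) :=
    ((Real.smoothTransition.contDiff (n := 1)).differentiable (by norm_num) _).hasDerivAt
  have h5' := h4.comp_hasFDerivAt x h2
  have h5 : HasFDerivAt (cutR R) _ x := h5'
  unfold pd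
  rw [h5.fderiv]
  have h6 : (innerSL ℝ x) (ev i) = x i := by
    rw [innerSL_apply_apply, ev, EuclideanSpace.inner_single_right]
    simp
  show deriv Real.smoothTransition (2 - ‖x‖ ^ 2 / R ^ 2) *
    (-((R ^ 2)⁻¹ * ((2 • (innerSL ℝ x)) (ev i)))) = _
  have h7 : (2 • (innerSL ℝ x)) (ev i) = 2 * x i := by
    show 2 • ((innerSL ℝ x) (ev i)) = _
    rw [h6, nsmul_eq_mul]
    norm_num
  rw [h7, ← div_eq_inv_mul]

theorem cutR_zero {R : ℝ} (hR : 0 < R) {x : E} (hx : 2 * R ^ 2 ≤ ‖x‖ ^ 2) : cutR R x = 0 := by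
  unfold cutR
  apply Real.smoothTransition.zero_of_nonpos
  rw [sub_nonpos, le_div_iff₀ (by positivity)]
  exact hx

theorem compact_cutR {R : ℝ} (hR : 0 < R) : HasCompactSupport (cutR R) := by
  refine HasCompactSupport.intro (isCompact_closedBall (0 : E) (2 * R)) fun x hx => ?_
  rw [mem_closedBall_zero_iff, not_le] at hx
  apply cutR_zero hR
  nlinarith [norm_nonneg x]

theorem pd_zero {R : ℝ} (hR : 0 < R) {M : ℝ} {i : Fin 4}
    (h0 : ∀ t, t < 0 → deriv Real.smoothTransition t = 0)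
    (h1 : ∀ t, 1 < t → deriv Real.smoothTransition t = 0) (x : E)
    (hx : ‖x‖ < R ∨ 2 * R < ‖x‖) : pd i (cutR R) x = 0 := by
  rw [pd_cutR]
  have h2 : deriv Real.smoothTransition (2 - ‖x‖ ^ 2 / R ^ 2) = 0 := by
    rcases hx with hx | hx
    · apply h1
      have : ‖x‖ ^ 2 / R ^ 2 < 1 := by
        rw [div_lt_one (by positivity)]
        nlinarith [norm_nonneg x]
      linarith
    · apply h0
      rw [sub_neg, lt_div_iff₀ (by positivity)]
      nlinarith [norm_nonneg x]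
  rw [h2, zero_mul]

theorem norm_ev (i : Fin 4) : ‖ev i‖ = 1 := by
  rw [ev, PiLp.norm_single, norm_one]

theorem norm_fr {z u v : W} (hz : ON3 z u v) (i : Fin 4) : ‖fr u v i‖ ≤ 1 := by
  obtain ⟨_, hu, hv⟩ := norm_le_one hz
  fin_cases i
  · exact hu
  · show ‖Complex.I • u‖ ≤ 1
    rw [norm_smul, Complex.norm_I, one_mul]
    exact hu
  · exact hv
  · show ‖Complex.I • v‖ ≤ 1
    rw [norm_smul, Complex.norm_I, one_mul]
    exact hv

theorem xV_bound {γ : W → W →L[ℝ] ℝ} (h : Basic γ) {z u v : W} (hz : ON3 z u v) {C : ℝ}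
    (hC : 0 ≤ C) (h1 : ∀ z : W, z ≠ 0 → ∀ v, |γ z v| ≤ C * ‖v‖ / ‖z‖)
    (h2 : ∀ z : W, z ≠ 0 → ∀ v w, |dd γ z v w| ≤ C * ‖v‖ * ‖w‖ / ‖z‖ ^ 2) (x : E) :
    |∑ i, x i * Vf (ch γ z u v) i x| ≤ 5 * C ^ 2 / ‖sig z u v x‖ ^ 3 := by
  set y : W := sig z u v x with hy
  have hy0 : y ≠ 0 := sig_ne hz x
  have hyn : 0 < ‖y‖ := norm_pos_iff.2 hy0
  obtain ⟨hz1, _, _⟩ := norm_le_one hz
  have hL : Lf u v x = y - z := by
    rw [hy, sig]
    abel
  have hLJ : Lf u v (J4 x) = Complex.I • y - Complex.I • z := by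
    rw [Lf_J4, hL, smul_sub]
  have hIz : ‖Complex.I • z‖ ≤ 1 := by
    rw [norm_smul, Complex.norm_I, one_mul]
    exact hz1
  -- the values
  have a1 : |ch γ z u v x (J4 x)| ≤ C / ‖y‖ := by
    have e1 : ch γ z u v x (J4 x) = -(γ y (Complex.I • z)) := by
      show γ y (Lf u v (J4 x)) = _
      rw [hLJ, map_sub, h.rot y hy0, zero_sub]
    rw [e1, abs_neg]
    refine (h1 y hy0 _).trans ?_
    gcongr
    exact mul_le_of_le_one_right hC hIz
  have a2 : ∀ b : E, |dd (ch γ z u v) x (J4 x) b| ≤ 2 * C * ‖b‖ / ‖y‖ ^ 2 := by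
    intro b
    have e1 : dd (ch γ z u v) x (J4 x) b = -(dd γ y (Complex.I • z) (Lf u v b)) := by
      rw [dd_ch hz h.smooth, hLJ, sub_eq_add_neg, ← hy, dd_add_left, h.dd_left hy0, zero_add]
      have e2 : -(Complex.I • z) = (-1 : ℝ) • (Complex.I • z) := by
        rw [neg_one_smul]
      rw [e2, dd_smul_left]
      ring
    rw [e1, abs_neg]
    refine (h2 y hy0 _ _).trans (div_le_div_of_nonneg_right ?_ (by positivity))
    calc C * ‖Complex.I • z‖ * ‖Lf u v b‖ ≤ C * 1 * (2 * ‖b‖) := by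
          gcongr
          exact Lf_norm hz b
      _ = 2 * C * ‖b‖ := by ring
  have a3 : ∀ j, |ch γ z u v x (ev j)| ≤ C / ‖y‖ := by
    intro j
    have e1 : ch γ z u v x (ev j) = γ y (fr u v j) := by
      show γ y (Lf u v (ev j)) = _
      rw [Lf_ev]
    rw [e1]
    refine (h1 y hy0 _).trans ?_
    gcongr
    exact mul_le_of_le_one_right hC (norm_fr hz j)
  have a4 : ∀ i j, |co (ch γ z u v) i j x| ≤ C / ‖y‖ ^ 2 := by
    intro i j
    rw [co_ch hz h.smooth]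
    refine (h2 y hy0 _ _).trans ?_
    gcongr
    calc C * ‖fr u v i‖ * ‖fr u v j‖ ≤ C * 1 * 1 := by
          gcongr
          · exact norm_fr hz i
          · exact norm_fr hz j
      _ = C := by ring
  rw [xV]
  have b1 : |(co (ch γ z u v) 0 1 x + co (ch γ z u v) 2 3 x) / 2 * ch γ z u v x (J4 x)| ≤
      C / ‖y‖ ^ 2 * (C / ‖y‖) := by
    rw [abs_mul]
    refine mul_le_mul ?_ a1 (abs_nonneg _) (by positivity)
    rw [abs_div, abs_of_pos (by norm_num : (0 : ℝ) < 2), div_le_iff₀ (by norm_num)]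
    refine (abs_add_le _ _).trans ?_
    have := a4 0 1
    have := a4 2 3
    linarith
  have b2 : |∑ j, ch γ z u v x (ev j) * dd (ch γ z u v) x (J4 x) (J4 (ev j))| ≤
      4 * (C / ‖y‖ * (2 * C / ‖y‖ ^ 2)) := by
    refine (Finset.abs_sum_le_sum_abs _ _).trans ?_
    have e1 : ∀ j ∈ (Finset.univ : Finset (Fin 4)),
        |ch γ z u v x (ev j) * dd (ch γ z u v) x (J4 x) (J4 (ev j))| ≤
        C / ‖y‖ * (2 * C / ‖y‖ ^ 2) := by
      intro j _
      rw [abs_mul]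
      refine mul_le_mul (a3 j) ?_ (abs_nonneg _) (by positivity)
      refine (a2 _).trans (le_of_eq ?_)
      rw [norm_J4, norm_ev, mul_one]
    refine (Finset.sum_le_sum e1).trans (le_of_eq ?_)
    rw [Finset.sum_const, Finset.card_univ, Fintype.card_fin, nsmul_eq_mul]
    norm_num
  refine (abs_sub _ _).trans ?_
  have b3 : |1 / 2 * ∑ j, ch γ z u v x (ev j) * dd (ch γ z u v) x (J4 x) (J4 (ev j))| ≤
      1 / 2 * (4 * (C / ‖y‖ * (2 * C / ‖y‖ ^ 2))) := by
    rw [abs_mul, abs_of_pos (by norm_num : (0 : ℝ) < 1 / 2)]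
    exact mul_le_mul_of_nonneg_left b2 (by norm_num)
  refine (add_le_add b1 b3).trans (le_of_eq ?_)
  field_simp
  ring

end PfIntAux

open PfIntAux

theorem pfint {γ : W → W →L[ℝ] ℝ} (h : Basic γ) {z u v : W} (hz : ON3 z u v) (ε : ℝ) (hε : 0 < ε) :
    ∃ R₀ : ℝ, 0 < R₀ ∧ ∀ R : ℝ, R₀ ≤ R →
      |∫ x, cutR R x * Pf (fun i j => co (ch γ z u v) i j x)| ≤ ε := by
  obtain ⟨M, hM0, hM, hχ0, hχ1⟩ := chi_deriv
  obtain ⟨C, hC, h1, h2⟩ := h.bound
  set v₁ : ℝ := (volume : Measure E).real (closedBall (0 : E) 1) with hv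
  have hv0 : 0 ≤ v₁ := ENNReal.toReal_nonneg
  set K : ℝ := 80 * M * C ^ 2 * 16 * v₁ with hK
  have hK0 : 0 ≤ K := by positivity
  refine ⟨max 1 (K / ε), lt_of_lt_of_le one_pos (le_max_left _ _), fun R hR => ?_⟩
  have hR1 : 1 ≤ R := (le_max_left _ _).trans hR
  have hR0 : 0 < R := lt_of_lt_of_le one_pos hR1
  have hRK : K / ε ≤ R := (le_max_right _ _).trans hR
  rw [ibp (ch_smooth hz h.smooth) (contDiff_cutR R) (compact_cutR hR0), abs_neg]
  set F : E → ℝ := fun x => ∑ i, pd i (cutR R) x * Vf (ch γ z u v) i x with hF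
  have hF0 : ∀ x, ‖x‖ < R ∨ 2 * R < ‖x‖ → F x = 0 := by
    intro x hx
    rw [hF]
    refine Finset.sum_eq_zero fun i _ => ?_
    rw [pd_zero (M := M) hR0 hχ0 hχ1 x hx, zero_mul]
  have hFb : ∀ x, |F x| ≤ 80 * M * C ^ 2 / R ^ 5 := by
    intro x
    by_cases hx : ‖x‖ < R
    · rw [hF0 x (Or.inl hx), abs_zero]
      positivity
    · have hx' : R ≤ ‖x‖ := not_lt.1 hx
      have e1 : F x = deriv Real.smoothTransition (2 - ‖x‖ ^ 2 / R ^ 2) * (-(2 / R ^ 2)) *
          ∑ i, x i * Vf (ch γ z u v) i x := by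
        rw [hF, Finset.mul_sum]
        refine Finset.sum_congr rfl fun i _ => ?_
        rw [pd_cutR]
        ring
      have e2 := xV_bound h hz hC h1 h2 x
      have hy : R ≤ 2 * ‖sig z u v x‖ := by
        have e3 := norm_sig_lower hz x
        have e4 : R ^ 2 ≤ ‖x‖ ^ 2 := pow_le_pow_left₀ hR0.le hx' 2
        have e5 : R ^ 2 ≤ (2 * ‖sig z u v x‖) ^ 2 := by nlinarith [norm_nonneg (sig z u v x)]
        exact (sq_le_sq₀ hR0.le (by positivity)).1 e5
      have hyn : 0 < ‖sig z u v x‖ := by linarith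
      have e6 : 5 * C ^ 2 / ‖sig z u v x‖ ^ 3 ≤ 40 * C ^ 2 / R ^ 3 := by
        rw [div_le_div_iff₀ (by positivity) (by positivity)]
        have e7 : R ^ 3 ≤ (2 * ‖sig z u v x‖) ^ 3 := pow_le_pow_left₀ hR0.le hy 3
        calc 5 * C ^ 2 * R ^ 3 ≤ 5 * C ^ 2 * (2 * ‖sig z u v x‖) ^ 3 := by gcongr
          _ = 40 * C ^ 2 * ‖sig z u v x‖ ^ 3 := by ring
      rw [e1, abs_mul, abs_mul, abs_neg, abs_of_pos (by positivity : 0 < 2 / R ^ 2)]
      calc |deriv Real.smoothTransition (2 - ‖x‖ ^ 2 / R ^ 2)| * (2 / R ^ 2) *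
            |∑ i, x i * Vf (ch γ z u v) i x| ≤ M * (2 / R ^ 2) * (40 * C ^ 2 / R ^ 3) := by
            gcongr
            · exact hM _
            · exact e2.trans e6
        _ = 80 * M * C ^ 2 / R ^ 5 := by
            field_simp
            ring
  have hset : ∫ x, F x = ∫ x in closedBall (0 : E) (2 * R), F x := by
    symm
    refine setIntegral_eq_integral_of_forall_compl_eq_zero fun x hx => ?_
    rw [mem_closedBall_zero_iff, not_le] at hx
    exact hF0 x (Or.inr hx)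
  have hvol : (volume : Measure E).real (closedBall (0 : E) (2 * R)) = (2 * R) ^ 4 * v₁ := by
    have e1 := Measure.addHaar_closedBall' (volume : Measure E) (0 : E)
      (by positivity : (0 : ℝ) ≤ 2 * R)
    rw [Measure.real, e1, ENNReal.toReal_mul, ENNReal.toReal_ofReal (by positivity),
      finrank_euclideanSpace_fin]
    rfl
  rw [hset, ← Real.norm_eq_abs]
  refine (norm_setIntegral_le_of_norm_le_const measure_closedBall_lt_top
    (C := 80 * M * C ^ 2 / R ^ 5) fun x _ => ?_).trans ?_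
  · rw [Real.norm_eq_abs]
    exact hFb x
  · rw [hvol]
    have e1 : 80 * M * C ^ 2 / R ^ 5 * ((2 * R) ^ 4 * v₁) = K / R := by
      rw [hK]
      field_simp
      ring
    rw [e1, div_le_iff₀ hR0, mul_comm]
    rwa [div_le_iff₀ hε] at hRK

end Pool.Agent.Lib.Psd
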