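import Pool.Agent.Lib.Psd.Ptw
import Pool.Agent.Lib.Psd.PfInt

set_option autoImplicit false

/-!
# Closeness to the Fubini-Study form at unit scale

PROOF. Let `γ = α - a0` (`Conn.sub a0_conn`), `t = co (ch γ z u v)`, `F x = 3 Pf (t x) + C κ^2 (1 + ‖x‖^2)^-3 ≥ 0` (`ptw`). For `R ≥ 1` large: `∫_{B(0,1)} F ≤ ∫ cutR R * F = 3 ∫ cutR R * Pf t + C κ^2 ∫ cutR R * (1 + ‖x‖^2)^-3 ≤ 3 ε + C κ^2 I`,
`I = ∫ (1 + ‖x‖^2)^-3 < ∞` (`integrable_rpow_neg_one_add_norm_sq` / `integrable_one_add_norm`, `finrank = 4 < 6`; `cutR R * F` is continuous with compact support, `0 ≤ cutR ≤ 1`, `cutR R = 1` on the unit ball). `ε → 0`: `∫_{B(0,1)} F ≤ C I κ^2`, so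
`∫_{B(0,1)} nrm2 t ≤ C^2 I κ^2`. `co (ch α z u v) = co (ch a0 z u v) + t` (`co_ch`, `dd_sub`). For `a0` the components in the chart are explicit, or by `chart_frame`: `co (ch a0 z u v) i j x = tr a d m₁ m₂ (ρ^-2 c0) i j`,
`|ρ^-2 - 1| ≤ ‖x‖^2`, `tr_near`, so `|co (ch a0 z u v) i j x - c0 i j| ≤ C ‖x‖` for `‖x‖ ≤ 1`, with `C` independent of the frame. Finally `(a + b)^2 ≤ 2 a^2 + 2 b^2` and `vol B(0,r) ≤ 5 r^4`.
-/

open MeasureTheory Set Metric
open scoped ContDiff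

namespace Pool.Agent.Lib.Psd

open Pool.Agent.P28b04d

namespace TopCAux

theorem cutR_cont (R : ℝ) : Continuous (cutR R) := by
  unfold cutR
  exact Real.smoothTransition.continuous.comp
    (continuous_const.sub ((continuous_norm.pow 2).div_const _))

theorem cutR_nonneg (R : ℝ) (x : E) : 0 ≤ cutR R x := Real.smoothTransition.nonneg _

theorem cutR_le_one (R : ℝ) (x : E) : cutR R x ≤ 1 := Real.smoothTransition.le_one _

theorem cutR_one {R : ℝ} (hR : 1 ≤ R) {x : E} (hx : ‖x‖ ≤ 1) : cutR R x = 1 := by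
  refine Real.smoothTransition.one_of_one_le ?_
  have h1 : ‖x‖ ^ 2 ≤ R ^ 2 := by
    have := norm_nonneg x
    exact pow_le_pow_left₀ this (hx.trans hR) 2
  have h2 : ‖x‖ ^ 2 / R ^ 2 ≤ 1 := (div_le_one (by positivity)).2 h1
  linarith

theorem cutR_supp {R : ℝ} (hR : 1 ≤ R) : HasCompactSupport (cutR R) := by
  refine HasCompactSupport.intro (isCompact_closedBall (0 : E) (2 * R)) fun x hx => ?_
  rw [mem_closedBall, dist_zero_right, not_le] at hx
  refine Real.smoothTransition.zero_of_nonpos ?_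
  have hR0 : 0 < R := by linarith
  have h1 : (2 * R) ^ 2 ≤ ‖x‖ ^ 2 := pow_le_pow_left₀ (by positivity) hx.le 2
  have h2 : 2 ≤ ‖x‖ ^ 2 / R ^ 2 := by
    rw [le_div_iff₀ (by positivity)]
    nlinarith
  linarith

theorem co_cont {lam : E → E →L[ℝ] ℝ} (h : ContDiff ℝ ∞ lam) (i j : Fin 4) :
    Continuous (co lam i j) := by
  have h1 : Continuous (fderiv ℝ lam) := h.continuous_fderiv (by simp)
  unfold co dd
  exact ((h1.clm_apply continuous_const).clm_apply continuous_const).sub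
    ((h1.clm_apply continuous_const).clm_apply continuous_const)

theorem Pf_cont {t : Fin 4 → Fin 4 → E → ℝ} (h : ∀ i j, Continuous (t i j)) :
    Continuous fun x => Pf (fun i j => t i j x) := by
  unfold Pf
  exact (((h 0 1).mul (h 2 3)).sub ((h 0 2).mul (h 1 3))).add ((h 0 3).mul (h 1 2))

theorem nrm2_cont {t : Fin 4 → Fin 4 → E → ℝ} (h : ∀ i j, Continuous (t i j)) :
    Continuous fun x => nrm2 (fun i j => t i j x) := by
  unfold nrm2
  exact continuous_finsetSum _ fun i _ => continuous_finsetSum _ fun j _ => (h i j).pow 2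

theorem g_cont : Continuous fun x : E => ((1 + ‖x‖ ^ 2) ^ 3)⁻¹ := by
  refine Continuous.inv₀ (by fun_prop) fun x => ?_
  positivity

theorem g_int : Integrable fun x : E => ((1 + ‖x‖ ^ 2) ^ 3)⁻¹ := by
  have h := integrable_rpow_neg_one_add_norm_sq (E := E) (μ := volume) (r := 6) (by
    rw [finrank_euclideanSpace, Fintype.card_fin]
    norm_num)
  refine h.congr (Filter.Eventually.of_forall fun x => ?_)
  show (1 + ‖x‖ ^ 2) ^ (-6 / 2 : ℝ) = ((1 + ‖x‖ ^ 2) ^ 3)⁻¹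
  rw [show (-6 / 2 : ℝ) = -((3 : ℕ) : ℝ) by norm_num, Real.rpow_neg (by positivity),
    Real.rpow_natCast]

theorem ball_int {f : E → ℝ} (h : Continuous f) (r : ℝ) : IntegrableOn f (ball (0 : E) r) :=
  (h.continuousOn.integrableOn_compact (isCompact_closedBall (0 : E) r)).mono_set ball_subset_closedBall

theorem le_nrm2 (T : Fin 4 → Fin 4 → ℝ) (i j : Fin 4) : T i j ^ 2 ≤ nrm2 T := by
  unfold nrm2
  have h1 : T i j ^ 2 ≤ ∑ j, T i j ^ 2 :=
    Finset.single_le_sum (f := fun j => T i j ^ 2) (fun j _ => sq_nonneg _) (Finset.mem_univ j)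
  exact h1.trans (Finset.single_le_sum (f := fun i => ∑ j, T i j ^ 2)
    (fun i _ => Finset.sum_nonneg fun j _ => sq_nonneg _) (Finset.mem_univ i))

theorem tr_smul (a d m₁ m₂ c : ℝ) (τ : Fin 4 → Fin 4 → ℝ) (i j : Fin 4) :
    tr a d m₁ m₂ (fun i j => c * τ i j) i j = c * tr a d m₁ m₂ τ i j := by
  unfold tr
  rw [Finset.mul_sum]
  refine Finset.sum_congr rfl fun k _ => ?_
  rw [Finset.mul_sum]
  exact Finset.sum_congr rfl fun l _ => by ring

theorem c0_sq (i j : Fin 4) : c0 i j ^ 2 ≤ 4 := by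
  fin_cases i <;> fin_cases j <;> simp [c0] <;> norm_num

/-- the components of the Fubini-Study form near the centre of the chart -/
theorem near0 {Ct : ℝ}
    (htr : ∀ a d m₁ m₂ ε : ℝ, |1 - a| ≤ ε → |1 - d| ≤ ε → |m₁| ≤ ε → |m₂| ≤ ε → ε ≤ 1 →
    ∀ τ : Fin 4 → Fin 4 → ℝ, nrm2 (fun i j => tr a d m₁ m₂ τ i j - τ i j) ≤ Ct * ε ^ 2 * nrm2 τ)
    {z u v : W} (hz : ON3 z u v) (i j : Fin 4) {x : E} (hx : ‖x‖ ≤ 1) :
    (co (ch a0 z u v) i j x - c0 i j) ^ 2 ≤ (32 * Ct + 8) * ‖x‖ ^ 2 := by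
  obtain ⟨p, q, a, d, m₁, m₂, ρ, hρ, hρ2, -, ha, ha1, hd, hd1, -, -, -, h1a, h1d, hm1, hm2, hco,
    hcmp, -⟩ := chart_frame hz x
  have hy := sig_ne hz x
  have h1 := hco a0 a0_conn.smooth (fun c w => a0_conn.dd_left hy c w) i j
  have h2 : cmp (dd a0 (sig z u v x)) p q = fun i j => (ρ ^ 2)⁻¹ * c0 i j := by
    funext i j
    exact hcmp i j
  rw [h2, tr_smul] at h1
  rw [h1]
  have h3 := htr a d m₁ m₂ ‖x‖ (by rw [abs_of_nonneg (by linarith)]; exact h1a)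
    (by rw [abs_of_nonneg (by linarith)]; exact h1d) hm1 hm2 hx c0
  rw [c0_facts.2.1] at h3
  have h4 : (tr a d m₁ m₂ c0 i j - c0 i j) ^ 2 ≤ Ct * ‖x‖ ^ 2 * 16 :=
    (le_nrm2 (fun i j => tr a d m₁ m₂ c0 i j - c0 i j) i j).trans h3
  have hs : (ρ ^ 2)⁻¹ ≤ 1 := by
    rw [hρ2]
    exact inv_le_one_of_one_le₀ (by nlinarith [sq_nonneg ‖x‖])
  have hs0 : 0 ≤ (ρ ^ 2)⁻¹ := by positivity
  have hs1 : ((ρ ^ 2)⁻¹ - 1) ^ 2 ≤ ‖x‖ ^ 2 := by
    have h5 : 1 - (ρ ^ 2)⁻¹ ≤ ‖x‖ ^ 2 := by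
      rw [hρ2]
      have h6 : (0 : ℝ) < 1 + ‖x‖ ^ 2 := by positivity
      have h7 : (1 - ‖x‖ ^ 2) * (1 + ‖x‖ ^ 2) ≤ 1 := by nlinarith [sq_nonneg (‖x‖ ^ 2)]
      have h8 : 1 - ‖x‖ ^ 2 ≤ (1 + ‖x‖ ^ 2)⁻¹ := by
        rw [← one_div, le_div_iff₀ h6]
        exact h7
      linarith
    have h6 : ‖x‖ ^ 2 ≤ ‖x‖ := by nlinarith [norm_nonneg x]
    have h7 : 0 ≤ 1 - (ρ ^ 2)⁻¹ := by linarith
    have h8 : 1 - (ρ ^ 2)⁻¹ ≤ ‖x‖ := h5.trans h6
    have h9 : ((ρ ^ 2)⁻¹ - 1) ^ 2 = (1 - (ρ ^ 2)⁻¹) ^ 2 := by ring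
    rw [h9]
    exact pow_le_pow_left₀ h7 h8 2
  have e : (ρ ^ 2)⁻¹ * tr a d m₁ m₂ c0 i j - c0 i j =
      (ρ ^ 2)⁻¹ * (tr a d m₁ m₂ c0 i j - c0 i j) + ((ρ ^ 2)⁻¹ - 1) * c0 i j := by ring
  rw [e]
  have h10 : ((ρ ^ 2)⁻¹ * (tr a d m₁ m₂ c0 i j - c0 i j)) ^ 2 ≤ Ct * ‖x‖ ^ 2 * 16 := by
    rw [mul_pow]
    have : ((ρ ^ 2)⁻¹) ^ 2 ≤ 1 := pow_le_one₀ hs0 hs
    calc _ ≤ 1 * (tr a d m₁ m₂ c0 i j - c0 i j) ^ 2 := by gcongr
      _ ≤ _ := by rw [one_mul]; exact h4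
  have h11 : (((ρ ^ 2)⁻¹ - 1) * c0 i j) ^ 2 ≤ ‖x‖ ^ 2 * 4 := by
    rw [mul_pow]
    exact mul_le_mul hs1 (c0_sq i j) (sq_nonneg _) (by positivity)
  nlinarith [sq_nonneg ((ρ ^ 2)⁻¹ * (tr a d m₁ m₂ c0 i j - c0 i j) - ((ρ ^ 2)⁻¹ - 1) * c0 i j)]

/-- the integral over the unit ball -/
theorem unit_int {C0 κ : ℝ} {α : W → W →L[ℝ] ℝ} (hα : Conn α) {z u v : W}
    (hz : ON3 z u v) (h0 : 0 ≤ C0)
    (hp : ∀ x : E,
      0 ≤ 3 * Pf (fun i j => co (ch (fun y => α y - a0 y) z u v) i j x) + C0 * κ ^ 2 * ((1 + ‖x‖ ^ 2) ^ 3)⁻¹ ∧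
      (‖x‖ ≤ 1 → nrm2 (fun i j => co (ch (fun y => α y - a0 y) z u v) i j x) ≤
        C0 * (3 * Pf (fun i j => co (ch (fun y => α y - a0 y) z u v) i j x) +
          C0 * κ ^ 2 * ((1 + ‖x‖ ^ 2) ^ 3)⁻¹))) :
    ∫ x in ball (0 : E) 1, nrm2 (fun i j => co (ch (fun y => α y - a0 y) z u v) i j x) ≤
      C0 * (C0 * κ ^ 2 * ∫ x : E, ((1 + ‖x‖ ^ 2) ^ 3)⁻¹) := by
  have hγ : Basic (fun y => α y - a0 y) := hα.sub a0_conn
  have hsm := ch_smooth hz hγ.smooth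
  set t : Fin 4 → Fin 4 → E → ℝ := fun i j => co (ch (fun y => α y - a0 y) z u v) i j with ht
  have htc : ∀ i j, Continuous (t i j) := fun i j => co_cont hsm i j
  have hPf := Pf_cont htc
  have hN := nrm2_cont htc
  set F : E → ℝ := fun x => 3 * Pf (fun i j => t i j x) + C0 * κ ^ 2 * ((1 + ‖x‖ ^ 2) ^ 3)⁻¹ with hF
  have hFc : Continuous F := (continuous_const.mul hPf).add (continuous_const.mul g_cont)
  have hF0 : ∀ x, 0 ≤ F x := fun x => (hp x).1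
  have step1 : ∫ x in ball (0 : E) 1, nrm2 (fun i j => t i j x) ≤
      C0 * ∫ x in ball (0 : E) 1, F x := by
    rw [← integral_const_mul]
    refine setIntegral_mono_on (ball_int hN 1) (ball_int (continuous_const.mul hFc) 1)
      measurableSet_ball fun x hx => ?_
    rw [mem_ball, dist_zero_right] at hx
    exact (hp x).2 hx.le
  have step2 : ∫ x in ball (0 : E) 1, F x ≤ C0 * κ ^ 2 * ∫ x : E, ((1 + ‖x‖ ^ 2) ^ 3)⁻¹ := by
    refine le_of_forall_pos_le_add fun ε hε => ?_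
    obtain ⟨R₀, -, hR⟩ := pfint hγ hz (ε / 3) (by positivity)
    set R := max R₀ 1 with hRdef
    have hR1 : 1 ≤ R := le_max_right _ _
    have h1 := hR R (le_max_left _ _)
    have hcF : Integrable fun x => cutR R x * F x :=
      ((cutR_cont R).mul hFc).integrable_of_hasCompactSupport (cutR_supp hR1).mul_right
    have hcP : Integrable fun x => cutR R x * Pf (fun i j => t i j x) :=
      ((cutR_cont R).mul hPf).integrable_of_hasCompactSupport (cutR_supp hR1).mul_right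
    have hcg : Integrable fun x : E => cutR R x * ((1 + ‖x‖ ^ 2) ^ 3)⁻¹ :=
      ((cutR_cont R).mul g_cont).integrable_of_hasCompactSupport (cutR_supp hR1).mul_right
    have h2 : ∫ x in ball (0 : E) 1, F x ≤ ∫ x, cutR R x * F x := by
      have h3 : ∫ x in ball (0 : E) 1, F x = ∫ x in ball (0 : E) 1, cutR R x * F x := by
        refine setIntegral_congr_fun measurableSet_ball fun x hx => ?_
        rw [mem_ball, dist_zero_right] at hx
        show F x = cutR R x * F x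
        rw [cutR_one hR1 hx.le, one_mul]
      rw [h3]
      exact setIntegral_le_integral hcF
        (Filter.Eventually.of_forall fun x => mul_nonneg (cutR_nonneg R x) (hF0 x))
    have h4 : ∫ x, cutR R x * F x = 3 * (∫ x, cutR R x * Pf (fun i j => t i j x)) +
        C0 * κ ^ 2 * ∫ x : E, cutR R x * ((1 + ‖x‖ ^ 2) ^ 3)⁻¹ := by
      rw [← integral_const_mul, ← integral_const_mul, ← integral_add (hcP.const_mul _)
        (hcg.const_mul _)]
      refine integral_congr_ae (Filter.Eventually.of_forall fun x => ?_)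
      simp only [hF]
      ring
    have h5 : ∫ x : E, cutR R x * ((1 + ‖x‖ ^ 2) ^ 3)⁻¹ ≤ ∫ x : E, ((1 + ‖x‖ ^ 2) ^ 3)⁻¹ := by
      refine integral_mono hcg g_int fun x => ?_
      have h6 : 0 ≤ ((1 + ‖x‖ ^ 2) ^ 3)⁻¹ := by positivity
      calc cutR R x * ((1 + ‖x‖ ^ 2) ^ 3)⁻¹ ≤ 1 * ((1 + ‖x‖ ^ 2) ^ 3)⁻¹ := by
            gcongr
            exact cutR_le_one R x
        _ = _ := one_mul _
    have h7 : C0 * κ ^ 2 * ∫ x : E, cutR R x * ((1 + ‖x‖ ^ 2) ^ 3)⁻¹ ≤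
        C0 * κ ^ 2 * ∫ x : E, ((1 + ‖x‖ ^ 2) ^ 3)⁻¹ := by gcongr
    have h8 := (le_abs_self _).trans h1
    linarith
  calc _ ≤ C0 * ∫ x in ball (0 : E) 1, F x := step1
    _ ≤ _ := by gcongr

theorem ball_sq {r : ℝ} (hr : 0 < r) :
    ∫ x in ball (0 : E) r, ‖x‖ ^ 2 ≤ r ^ 6 * (volume (ball (0 : E) 1)).toReal := by
  have h1 : ∫ x in ball (0 : E) r, ‖x‖ ^ 2 ≤ ∫ _x in ball (0 : E) r, r ^ 2 := by
    refine setIntegral_mono_on (ball_int (by fun_prop) r) (ball_int continuous_const r)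
      measurableSet_ball fun x hx => ?_
    rw [mem_ball, dist_zero_right] at hx
    exact pow_le_pow_left₀ (norm_nonneg _) hx.le 2
  refine h1.trans (le_of_eq ?_)
  rw [setIntegral_const, smul_eq_mul, Measure.real, Measure.addHaar_ball_of_pos _ _ hr,
    ENNReal.toReal_mul, finrank_euclideanSpace, Fintype.card_fin,
    ENNReal.toReal_ofReal (by positivity)]
  ring

end TopCAux

open TopCAux

theorem topc : ∃ C : ℝ, 1 ≤ C ∧ ∀ κ : ℝ, 0 ≤ κ → κ ≤ 1 / 4 → ∀ α : W → W →L[ℝ] ℝ, Conn α → Pinched κ α →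
    ∀ z u v : W, ON3 z u v → ∀ (i j : Fin 4) (r : ℝ), 0 < r → r ≤ 1 →
      ∫ x in ball (0 : E) r, (co (ch α z u v) i j x - c0 i j) ^ 2 ≤ C * (κ ^ 2 + r ^ 6) := by
  obtain ⟨C0, hC0, hptw⟩ := ptw
  obtain ⟨Ct, hCt, htr⟩ := tr_near
  set I : ℝ := ∫ x : E, ((1 + ‖x‖ ^ 2) ^ 3)⁻¹ with hI
  have hI0 : 0 ≤ I := integral_nonneg fun x => by positivity
  set V : ℝ := (volume (ball (0 : E) 1)).toReal with hV
  have hV0 : 0 ≤ V := ENNReal.toReal_nonneg
  refine ⟨2 * (C0 * (C0 * I)) + 2 * (32 * Ct + 8) * V + 1, ?_, ?_⟩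
  · have h1 : 0 ≤ 2 * (C0 * (C0 * I)) := by positivity
    have h2 : 0 ≤ 2 * (32 * Ct + 8) * V := by positivity
    linarith
  intro κ hκ hκ4 α hα hP z u v hz i j r hr hr1
  have hγ : Basic (fun y => α y - a0 y) := hα.sub a0_conn
  have hpt := hptw κ hκ hκ4 α hα hP z u v hz
  have hU := unit_int hα hz (by linarith) hpt
  rw [← hI] at hU
  set t : Fin 4 → Fin 4 → E → ℝ := fun i j => co (ch (fun y => α y - a0 y) z u v) i j with ht
  have htc : ∀ i j, Continuous (t i j) := fun i j => co_cont (ch_smooth hz hγ.smooth) i j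
  have hN := nrm2_cont htc
  have hαc : Continuous (co (ch α z u v) i j) := co_cont (ch_smooth hz hα.smooth) i j
  have hpoint : ∀ x ∈ ball (0 : E) r, (co (ch α z u v) i j x - c0 i j) ^ 2 ≤
      2 * nrm2 (fun i j => t i j x) + 2 * (32 * Ct + 8) * ‖x‖ ^ 2 := by
    intro x hx
    rw [mem_ball, dist_zero_right] at hx
    have hx1 : ‖x‖ ≤ 1 := hx.le.trans hr1
    have h1 := near0 htr hz i j hx1
    have h2 : co (ch α z u v) i j x = co (ch a0 z u v) i j x + t i j x := by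
      simp only [ht]
      rw [co_ch hz hα.smooth, co_ch hz a0_conn.smooth, co_ch hz hγ.smooth,
        dd_sub hα.smooth a0_conn.smooth (sig_ne hz x)]
      ring
    have h3 := le_nrm2 (fun i j => t i j x) i j
    rw [h2]
    nlinarith [sq_nonneg (co (ch a0 z u v) i j x - c0 i j - t i j x)]
  have hint1 : IntegrableOn (fun x => 2 * nrm2 (fun i j => t i j x)) (ball (0 : E) r) :=
    ball_int (continuous_const.mul hN) r
  have hint2 : IntegrableOn (fun x : E => 2 * (32 * Ct + 8) * ‖x‖ ^ 2) (ball (0 : E) r) :=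
    ball_int (by fun_prop) r
  calc ∫ x in ball (0 : E) r, (co (ch α z u v) i j x - c0 i j) ^ 2
      ≤ ∫ x in ball (0 : E) r, (2 * nrm2 (fun i j => t i j x) + 2 * (32 * Ct + 8) * ‖x‖ ^ 2) := by
        refine setIntegral_mono_on (ball_int ((hαc.sub continuous_const).pow 2) r)
          (hint1.add hint2) measurableSet_ball hpoint
    _ = 2 * (∫ x in ball (0 : E) r, nrm2 (fun i j => t i j x)) +
        2 * (32 * Ct + 8) * ∫ x in ball (0 : E) r, ‖x‖ ^ 2 := by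
        rw [integral_add hint1 hint2, integral_const_mul, integral_const_mul]
    _ ≤ 2 * (C0 * (C0 * κ ^ 2 * I)) + 2 * (32 * Ct + 8) * (r ^ 6 * V) := by
        have h5 : ∫ x in ball (0 : E) r, nrm2 (fun i j => t i j x) ≤
            ∫ x in ball (0 : E) 1, nrm2 (fun i j => t i j x) := by
          refine setIntegral_mono_set (ball_int hN 1)
            (Filter.Eventually.of_forall fun x => nrm2_nonneg _)
            (Filter.Eventually.of_forall (ball_subset_ball hr1))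
        have h6 := ball_sq hr
        have h7 : 0 ≤ 2 * (32 * Ct + 8) := by linarith
        exact add_le_add (mul_le_mul_of_nonneg_left (h5.trans hU) (by norm_num))
          (mul_le_mul_of_nonneg_left h6 h7)
    _ ≤ (2 * (C0 * (C0 * I)) + 2 * (32 * Ct + 8) * V + 1) * (κ ^ 2 + r ^ 6) := by
        have h8 : 0 ≤ 2 * (C0 * (C0 * I)) := by positivity
        have h9 : 0 ≤ 2 * (32 * Ct + 8) * V := by positivity
        have h10 : 0 ≤ κ ^ 2 := sq_nonneg _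
        have h11 : 0 ≤ r ^ 6 := by positivity
        nlinarith [mul_nonneg h8 h11, mul_nonneg h9 h10]

end Pool.Agent.Lib.Psd
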