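import Pool.Agent.Lib.Psd.Iter
import Pool.Agent.Lib.Psd.Closed
import Pool.Agent.Lib.Psd.TopC
import Pool.Agent.Lib.Psd.AsdC

set_option autoImplicit false

/-!
# Flatness at all scales

PROOF. Apply `iter cfc η'` (`η' = η'(η)` small) to `T = co (ch α z u v)`, `B = asd T` (`closed_sys`, `ch_smooth`), `K = M = Fin 4 × Fin 4`, `c₀ = c0`, `‖c0‖ = 2`: it gives `δ, κ'`. `asd_chart`: for `‖x‖ < r₀`, `|B m x|^2 ≤ nrm2 (asd T) ≤ C (κ^2 + r₀^2) nrm2 T ≤
16 C (κ^2 + r₀^2) ‖T‖^2`, so `r₀ ≤ ε₀` with `16 C r₀^2 ≤ κ'^2/2` and then `κ₀` with `16 C κ₀^2 ≤ κ'^2/2`. `topc`: `∫_{B(0,r₀)} (T - c0)^2 ≤ C (κ₀^2 + r₀^6) ≤ (2 δ)^2 r₀^4` if `C r₀^2 ≤ δ^2`, `C κ₀^2 ≤ δ^2 r₀^4`.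
For `r ≤ r₀` let `c` be given by `iter`; replace it by its skew part `c' i j = (c i j - c j i)/2` (`T` is skew, so `(T - c')^2 ≤` the mean of the squares for `(i,j)` and `(j,i)`; `‖c - c'‖ ≤ C η' ‖c‖`: integrate the constant
`(c i j + c j i)^2 ≤ 2 (T i j - c i j)^2 + 2 (T j i - c j i)^2`; so `c' ≠ 0`). `asd c'`: integrate `(asd c')^2 ≤ 2 (asd (T - c'))^2 + 2 (asd T)^2` over the ball, `∫ (asd T)^2 ≤ κ'^2 ∫ ‖T‖^2 ≤ C κ'^2 ‖c‖^2 r^4`, which needs `κ' ≤ η'` (decrease `κ'`: the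
pinching hypothesis of `iter` is monotone in `κ`). Second claim: `iter` gives `T k 0 ≠ 0`.
-/

open MeasureTheory Set Metric
open scoped ContDiff

namespace Pool.Agent.Lib.Psd

open Pool.Agent.P28b04d

namespace FlatCAux

theorem volr {r : ℝ} (hr : 0 < r) : r ^ 4 ≤ volume.real (ball (0 : E) r) := by
  have h1 : volume (ball (0 : E) r) = ENNReal.ofReal (r ^ 4 * (Real.pi ^ 2 / 2)) := by
    rw [EuclideanSpace.volume_ball, Fintype.card_fin]
    have h2 : ((4 : ℕ) : ℝ) / 2 + 1 = ((2 : ℕ) : ℝ) + 1 := by norm_num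
    have h3 : √Real.pi ^ 4 = Real.pi ^ 2 := by
      have : √Real.pi ^ 4 = (√Real.pi ^ 2) ^ 2 := by ring
      rw [this, Real.sq_sqrt Real.pi_pos.le]
    rw [h2, Real.Gamma_nat_eq_factorial, h3, ← ENNReal.ofReal_pow hr.le,
      ← ENNReal.ofReal_mul (by positivity)]
    norm_num [Nat.factorial]
  rw [Measure.real, h1, ENNReal.toReal_ofReal (by positivity)]
  have h4 : 3 < Real.pi := Real.pi_gt_three
  have h5 : 1 ≤ Real.pi ^ 2 / 2 := by nlinarith
  have h6 : 0 ≤ r ^ 4 := by positivity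
  nlinarith

theorem intb {f : E → ℝ} (hf : Continuous f) (r : ℝ) : IntegrableOn f (ball (0 : E) r) :=
  (hf.continuousOn.integrableOn_compact (isCompact_closedBall (0 : E) r)).mono_set
    ball_subset_closedBall

theorem imono {f g : E → ℝ} (hf : Continuous f) (hg : Continuous g) {r : ℝ}
    (h : ∀ x, ‖x‖ < r → f x ≤ g x) : ∫ x in ball (0 : E) r, f x ≤ ∫ x in ball (0 : E) r, g x :=
  setIntegral_mono_on (intb hf r) (intb hg r) measurableSet_ball fun x hx =>
    h x (by simpa using hx)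

theorem asd_cont {T : Fin 4 → Fin 4 → E → ℝ} (hT : ∀ i j, Continuous (T i j)) :
    Continuous fun x => nrm2 (asd fun i j => T i j x) := by
  unfold nrm2
  refine continuous_finsetSum _ fun i _ => continuous_finsetSum _ fun j _ => ?_
  refine Continuous.pow ?_ 2
  unfold asd st
  refine Continuous.div_const ?_ 2
  refine (hT i j).sub ?_
  fin_cases i <;> fin_cases j <;> simp <;> first | exact hT _ _ | exact continuous_const


theorem asd_of_close {T : Fin 4 → Fin 4 → ℝ} {c' : Fin 4 → Fin 4 → ℝ} (hT : Skew T)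
    (hc : Skew c') {β : ℝ} (hβ : 0 < β) (h1 : nrm2 (asd T) ≤ β * nrm2 T) : nrm2 (asd c') ≤
      (2 + 4 * β) * nrm2 (fun i j => T i j - c' i j) + 4 * β * nrm2 c' := by
  have h2 : asd c' = fun i j => asd T i j + asd (fun i j => -1 * (T i j - c' i j)) i j := by
    funext i j
    rw [← asd_add]
    congr 1
    funext i j
    ring
  have h3 : nrm2 (asd fun i j => -1 * (T i j - c' i j)) ≤ nrm2 (fun i j => T i j - c' i j) := by
    have h4 : Skew fun i j => T i j - c' i j := by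
      intro i j
      simp only
      rw [hT i j, hc i j]
      ring
    have h5 : nrm2 (asd fun i j => -1 * (T i j - c' i j)) =
        nrm2 (asd fun i j => T i j - c' i j) := by
      unfold nrm2
      refine Finset.sum_congr rfl fun i _ => Finset.sum_congr rfl fun j _ => ?_
      rw [asd_smul]
      ring
    rw [h5]
    exact nrm2_asd_le h4
  have h6 : nrm2 T ≤ 2 * nrm2 (fun i j => T i j - c' i j) + 2 * nrm2 c' := by
    have := nrm2_add (fun i j => T i j - c' i j) c'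
    simpa using this
  rw [h2]
  refine (nrm2_add _ _).trans ?_
  have h7 : β * nrm2 T ≤ β * (2 * nrm2 (fun i j => T i j - c' i j) + 2 * nrm2 c') :=
    mul_le_mul_of_nonneg_left h6 hβ.le
  calc 2 * nrm2 (fun i j => asd T i j) + 2 * nrm2 (fun i j => asd (fun i j => -1 * (T i j - c' i j)) i j)
      ≤ 2 * (β * (2 * nrm2 (fun i j => T i j - c' i j) + 2 * nrm2 c')) +
        2 * nrm2 (fun i j => T i j - c' i j) :=
        add_le_add (mul_le_mul_of_nonneg_left (h1.trans h7) (by norm_num))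
          (mul_le_mul_of_nonneg_left h3 (by norm_num))
    _ = _ := by ring

theorem numfin {η η' β : ℝ} (hη'0 : 0 < η') (hη'1 : η' ≤ 1 / 2) (hη'2 : 14 * η' ≤ η)
    (hβ2 : β ≤ η' ^ 2) (hβ : 0 < β) : (2 + 4 * β) * 64 * η' ^ 2 + 4 * β ≤ η ^ 2 := by
  have h14 : β ≤ 1 / 4 := by nlinarith
  have h15 : 0 ≤ η' ^ 2 := sq_nonneg _
  have h18 : 4 * β * (64 * η' ^ 2) ≤ 1 * (64 * η' ^ 2) :=
    mul_le_mul_of_nonneg_right (by linarith) (by positivity)
  have h17 : (14 * η') ^ 2 ≤ η ^ 2 := pow_le_pow_left₀ (by positivity) hη'2 2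
  have h19 : (14 * η') ^ 2 = 196 * η' ^ 2 := by ring
  have h20 : (2 + 4 * β) * 64 * η' ^ 2 = 128 * η' ^ 2 + 4 * β * (64 * η' ^ 2) := by ring
  rw [h20]
  linarith

theorem core {T : Fin 4 → Fin 4 → E → ℝ} (hTc : ∀ i j, Continuous (T i j))
    (hTs : ∀ i j x, T i j x = -T j i x) {r : ℝ} (hr : 0 < r) {η η' β : ℝ}
    (hη'0 : 0 < η') (hη'1 : η' ≤ 1 / 2) (hη'2 : 14 * η' ≤ η) (hβ : 0 < β) (hβ2 : β ≤ η' ^ 2)
    {c : Fin 4 × Fin 4 → ℝ} (hc0 : c ≠ 0)
    (hX : ∀ i j, ∫ x in ball (0 : E) r, (T i j x - c (i, j)) ^ 2 ≤ (η' * ‖c‖) ^ 2 * r ^ 4)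
    (hsmall : ∀ x : E, ‖x‖ < r → nrm2 (asd fun i j => T i j x) ≤
      β * nrm2 (fun i j => T i j x)) :
    ∃ c : Fin 4 → Fin 4 → ℝ, Skew c ∧ 0 < nrm2 c ∧ nrm2 (asd c) ≤ η ^ 2 * nrm2 c ∧
        ∀ i j, ∫ x in ball (0 : E) r, (T i j x - c i j) ^ 2 ≤ η ^ 2 * nrm2 c * r ^ 4 := by
  set N := ‖c‖ with hN
  have hN0 : 0 < N := norm_pos_iff.mpr hc0
  set V := volume.real (ball (0 : E) r) with hV
  have hV1 : r ^ 4 ≤ V := volr hr
  have hr4 : 0 < r ^ 4 := by positivity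
  have hVpos : 0 < V := lt_of_lt_of_le hr4 hV1
  have hconst : ∀ a : ℝ, ∫ _x in ball (0 : E) r, a = V * a := by
    intro a
    rw [setIntegral_const, smul_eq_mul]
  set c' : Fin 4 → Fin 4 → ℝ := fun i j => (c (i, j) - c (j, i)) / 2 with hc'
  have hskew : Skew c' := by
    intro i j
    simp only [hc']
    ring
  have cX : ∀ i j, Continuous fun x => (T i j x - c (i, j)) ^ 2 := fun i j =>
    ((hTc i j).sub continuous_const).pow 2
  have cY : ∀ i j, Continuous fun x => (T i j x - c' i j) ^ 2 := fun i j =>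
    ((hTc i j).sub continuous_const).pow 2
  -- the symmetric part
  have hsym : ∀ i j, |c (i, j) + c (j, i)| ≤ 2 * η' * N := by
    intro i j
    have h1 : ∫ _x in ball (0 : E) r, (c (i, j) + c (j, i)) ^ 2 ≤
        ∫ x in ball (0 : E) r, (2 * (T i j x - c (i, j)) ^ 2 + 2 * (T j i x - c (j, i)) ^ 2) := by
      have hp : ∀ x : E, ‖x‖ < r → (c (i, j) + c (j, i)) ^ 2 ≤
          2 * (T i j x - c (i, j)) ^ 2 + 2 * (T j i x - c (j, i)) ^ 2 := by
        intro x _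
        have h2 := hTs i j x
        have h3 : c (i, j) + c (j, i) = -((T i j x - c (i, j)) + (T j i x - c (j, i))) := by
          rw [h2]; ring
        rw [h3]
        have h4 := sq_nonneg ((T i j x - c (i, j)) - (T j i x - c (j, i)))
        linarith
      exact imono continuous_const (((cX i j).const_mul 2).add ((cX j i).const_mul 2)) hp
    rw [hconst, integral_add ((intb (cX i j) r).const_mul 2) ((intb (cX j i) r).const_mul 2),
      integral_const_mul, integral_const_mul] at h1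
    have h4 := hX i j
    have h5 := hX j i
    have h6 : V * (c (i, j) + c (j, i)) ^ 2 ≤ V * (2 * η' * N) ^ 2 := by
      calc V * (c (i, j) + c (j, i)) ^ 2 ≤ 4 * ((η' * N) ^ 2 * r ^ 4) := by linarith
        _ = (2 * η' * N) ^ 2 * r ^ 4 := by ring
        _ ≤ (2 * η' * N) ^ 2 * V := mul_le_mul_of_nonneg_left hV1 (by positivity)
        _ = _ := by ring
    exact abs_le_of_sq_le_sq (le_of_mul_le_mul_left h6 hVpos) (by positivity)
  -- the norm of `c'`
  have hNc : N ^ 2 ≤ 4 * nrm2 c' := by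
    obtain ⟨k, hk⟩ : ∃ k, ‖c k‖ = N := by
      obtain ⟨k, -, hk⟩ := Finset.exists_max_image Finset.univ (fun k => ‖c k‖)
        Finset.univ_nonempty
      refine ⟨k, le_antisymm (norm_le_pi_norm c k) ?_⟩
      exact (pi_norm_le_iff_of_nonneg (norm_nonneg _)).mpr fun l => hk l (Finset.mem_univ l)
    have h1 := hsym k.1 k.2
    have h2 : c' k.1 k.2 = c k - (c (k.1, k.2) + c (k.2, k.1)) / 2 := by
      simp only [hc']
      ring
    have h3 : N / 2 ≤ |c' k.1 k.2| := by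
      have h4 : |c k| = N := hk
      have h5 : |c k| ≤ |c' k.1 k.2| + |(c (k.1, k.2) + c (k.2, k.1)) / 2| := by
        have : c k = c' k.1 k.2 + (c (k.1, k.2) + c (k.2, k.1)) / 2 := by rw [h2]; ring
        calc |c k| = |c' k.1 k.2 + (c (k.1, k.2) + c (k.2, k.1)) / 2| := by rw [← this]
          _ ≤ _ := abs_add_le _ _
      have h5' : |(c (k.1, k.2) + c (k.2, k.1)) / 2| = |c (k.1, k.2) + c (k.2, k.1)| / 2 := by
        rw [abs_div, abs_two]
      rw [h5'] at h5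
      have h6 : η' * N ≤ 1 / 2 * N := mul_le_mul_of_nonneg_right hη'1 hN0.le
      rw [h4] at h5
      linarith
    have h7 : (c' k.1 k.2) ^ 2 ≤ nrm2 c' := by
      unfold nrm2
      calc (c' k.1 k.2) ^ 2 ≤ ∑ j, (c' k.1 j) ^ 2 :=
            Finset.single_le_sum (f := fun j => (c' k.1 j) ^ 2)
              (fun _ _ => sq_nonneg _) (Finset.mem_univ k.2)
        _ ≤ _ := Finset.single_le_sum (f := fun i => ∑ j, (c' i j) ^ 2)
              (fun _ _ => Finset.sum_nonneg fun _ _ => sq_nonneg _) (Finset.mem_univ k.1)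
    have h8 : (N / 2) ^ 2 ≤ (c' k.1 k.2) ^ 2 := by
      rw [← sq_abs (c' k.1 k.2)]
      exact pow_le_pow_left₀ (by positivity) h3 2
    have h9 : (N / 2) ^ 2 = N ^ 2 / 4 := by ring
    rw [h9] at h8
    linarith
  have hcpos : 0 < nrm2 c' := by
    have : 0 < N ^ 2 := by positivity
    linarith
  -- closeness to `c'`
  have hY : ∀ i j, ∫ x in ball (0 : E) r, (T i j x - c' i j) ^ 2 ≤ (η' * N) ^ 2 * r ^ 4 := by
    intro i j
    have h1 : ∫ x in ball (0 : E) r, (T i j x - c' i j) ^ 2 ≤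
        ∫ x in ball (0 : E) r, (1 / 2 * (T i j x - c (i, j)) ^ 2 +
          1 / 2 * (T j i x - c (j, i)) ^ 2) := by
      have hp : ∀ x : E, ‖x‖ < r → (T i j x - c' i j) ^ 2 ≤
          1 / 2 * (T i j x - c (i, j)) ^ 2 + 1 / 2 * (T j i x - c (j, i)) ^ 2 := by
        intro x _
        have h2 := hTs j i x
        have h3 : T i j x - c' i j = ((T i j x - c (i, j)) - (T j i x - c (j, i))) / 2 := by
          rw [h2]
          simp only [hc']
          ring
        rw [h3]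
        have h4 := sq_nonneg ((T i j x - c (i, j)) + (T j i x - c (j, i)))
        linarith
      exact imono (cY i j) (((cX i j).const_mul (1 / 2)).add ((cX j i).const_mul (1 / 2))) hp
    rw [integral_add ((intb (cX i j) r).const_mul (1 / 2)) ((intb (cX j i) r).const_mul (1 / 2)),
      integral_const_mul, integral_const_mul] at h1
    have h4 := hX i j
    have h5 := hX j i
    linarith
  refine ⟨c', hskew, hcpos, ?_, ?_⟩
  · -- the anti-self-dual part
    have cn : Continuous fun x => nrm2 (fun i j => T i j x - c' i j) := by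
      unfold nrm2
      exact continuous_finsetSum _ fun i _ => continuous_finsetSum _ fun j _ => cY i j
    have ca : Continuous fun x => nrm2 (asd fun i j => T i j x) := asd_cont hTc
    have hn : ∫ x in ball (0 : E) r, nrm2 (fun i j => T i j x - c' i j) ≤
        16 * ((η' * N) ^ 2 * r ^ 4) := by
      unfold nrm2
      rw [integral_finsetSum _ fun i _ => (intb (continuous_finsetSum _ fun j _ => cY i j) r)]
      calc ∑ i, ∫ x in ball (0 : E) r, ∑ j, (T i j x - c' i j) ^ 2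
          = ∑ i, ∑ j, ∫ x in ball (0 : E) r, (T i j x - c' i j) ^ 2 := by
            refine Finset.sum_congr rfl fun i _ => ?_
            rw [integral_finsetSum _ fun j _ => intb (cY i j) r]
        _ ≤ ∑ _i : Fin 4, ∑ _j : Fin 4, (η' * N) ^ 2 * r ^ 4 :=
            Finset.sum_le_sum fun i _ => Finset.sum_le_sum fun j _ => hY i j
        _ = _ := by simp; ring
    have hpt : ∀ x : E, ‖x‖ < r → nrm2 (asd c') ≤
        (2 + 4 * β) * nrm2 (fun i j => T i j x - c' i j) + 4 * β * nrm2 c' :=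
      fun x hx => asd_of_close (fun i j => hTs i j x) hskew hβ (hsmall x hx)
    have h9 : V * nrm2 (asd c') ≤ (2 + 4 * β) * (16 * ((η' * N) ^ 2 * r ^ 4)) +
        V * (4 * β * nrm2 c') := by
      have h10 : ∫ _x in ball (0 : E) r, nrm2 (asd c') ≤ ∫ x in ball (0 : E) r,
          ((2 + 4 * β) * nrm2 (fun i j => T i j x - c' i j) + 4 * β * nrm2 c') :=
        imono continuous_const ((cn.const_mul _).add continuous_const) fun x hx => hpt x hx
      rw [hconst, integral_add ((intb cn r).const_mul _) (intb continuous_const r), hconst,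
        integral_const_mul] at h10
      refine h10.trans ?_
      gcongr
    have h11 : (2 + 4 * β) * (16 * ((η' * N) ^ 2 * r ^ 4)) ≤
        V * ((2 + 4 * β) * 64 * η' ^ 2 * nrm2 c') := by
      calc (2 + 4 * β) * (16 * ((η' * N) ^ 2 * r ^ 4))
          = (2 + 4 * β) * 16 * η' ^ 2 * (N ^ 2 * r ^ 4) := by ring
        _ ≤ (2 + 4 * β) * 16 * η' ^ 2 * ((4 * nrm2 c') * V) := by
            refine mul_le_mul_of_nonneg_left ?_ (by positivity)
            exact mul_le_mul hNc hV1 hr4.le (by positivity)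
        _ = _ := by ring
    have h12 : V * nrm2 (asd c') ≤
        V * (((2 + 4 * β) * 64 * η' ^ 2 + 4 * β) * nrm2 c') := by
      calc V * nrm2 (asd c') ≤ V * ((2 + 4 * β) * 64 * η' ^ 2 * nrm2 c') +
            V * (4 * β * nrm2 c') := by linarith
        _ = _ := by ring
    have h13 := le_of_mul_le_mul_left h12 hVpos
    refine h13.trans (mul_le_mul_of_nonneg_right ?_ hcpos.le)
    exact numfin hη'0 hη'1 hη'2 hβ2 hβ
  · intro i j
    refine (hY i j).trans (mul_le_mul_of_nonneg_right ?_ hr4.le)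
    calc (η' * N) ^ 2 = η' ^ 2 * N ^ 2 := by ring
      _ ≤ η' ^ 2 * (4 * nrm2 c') := mul_le_mul_of_nonneg_left hNc (sq_nonneg _)
      _ = (2 * η') ^ 2 * nrm2 c' := by ring
      _ ≤ η ^ 2 * nrm2 c' := by
          refine mul_le_mul_of_nonneg_right ?_ hcpos.le
          exact pow_le_pow_left₀ (by positivity) (by linarith) 2


end FlatCAux

open FlatCAux in
theorem flatc (η : ℝ) (hη : 0 < η) : ∃ r₀ κ₀ : ℝ, 0 < r₀ ∧ r₀ ≤ 1 ∧ 0 < κ₀ ∧ κ₀ ≤ 1 / 4 ∧
    ∀ α : W → W →L[ℝ] ℝ, Conn α → Pinched κ₀ α → ∀ z u v : W, ON3 z u v →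
      (∀ r : ℝ, 0 < r → r ≤ r₀ → ∃ c : Fin 4 → Fin 4 → ℝ, Skew c ∧ 0 < nrm2 c ∧
        nrm2 (asd c) ≤ η ^ 2 * nrm2 c ∧
        ∀ i j, ∫ x in ball (0 : E) r, (co (ch α z u v) i j x - c i j) ^ 2 ≤ η ^ 2 * nrm2 c * r ^ 4) ∧
      ∃ i j, co (ch α z u v) i j 0 ≠ 0 := by
  obtain ⟨η', hη'0, hη'1, hη'2⟩ : ∃ η' : ℝ, 0 < η' ∧ η' ≤ 1 / 2 ∧ 14 * η' ≤ η :=
    ⟨min (1 / 2) (η / 14), by positivity, min_le_left _ _, by
      have := min_le_right (1 / 2 : ℝ) (η / 14)
      linarith⟩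
  obtain ⟨δ, κ', hδ, hκ', hiter⟩ := iter cfc η' hη'0
  obtain ⟨C, ε₀, hC, hε₀, hasd⟩ := asd_chart
  obtain ⟨Ct, hCt, htop⟩ := topc
  obtain ⟨β, hβ, hβ1, hβ2⟩ : ∃ β : ℝ, 0 < β ∧ β ≤ κ' ^ 2 / 16 ∧ β ≤ η' ^ 2 :=
    ⟨min (κ' ^ 2 / 16) (η' ^ 2), by positivity, min_le_left _ _, min_le_right _ _⟩
  obtain ⟨r₀, hr0, hr1, hrε, hrC, hrt⟩ : ∃ r₀ : ℝ, 0 < r₀ ∧ r₀ ≤ 1 ∧ r₀ ≤ ε₀ ∧
      C * r₀ ^ 2 ≤ β / 2 ∧ Ct * r₀ ^ 2 ≤ δ ^ 2 := by
    refine ⟨min 1 (min ε₀ (min (β / (2 * C)) (δ ^ 2 / Ct))), by positivity, min_le_left _ _,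
      (min_le_right _ _).trans (min_le_left _ _), ?_, ?_⟩
    · set q := min 1 (min ε₀ (min (β / (2 * C)) (δ ^ 2 / Ct))) with hq
      have h0 : 0 < q := by rw [hq]; positivity
      have h1 : q ≤ 1 := min_le_left _ _
      have h2 : q ≤ β / (2 * C) :=
        (min_le_right _ _).trans ((min_le_right _ _).trans (min_le_left _ _))
      have h3 : q ^ 2 ≤ q := by nlinarith
      calc C * q ^ 2 ≤ C * (β / (2 * C)) :=
            mul_le_mul_of_nonneg_left (h3.trans h2) (by linarith)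
        _ = β / 2 := by field_simp
    · set q := min 1 (min ε₀ (min (β / (2 * C)) (δ ^ 2 / Ct))) with hq
      have h0 : 0 < q := by rw [hq]; positivity
      have h1 : q ≤ 1 := min_le_left _ _
      have h2 : q ≤ δ ^ 2 / Ct :=
        (min_le_right _ _).trans ((min_le_right _ _).trans (min_le_right _ _))
      have h3 : q ^ 2 ≤ q := by nlinarith
      calc Ct * q ^ 2 ≤ Ct * (δ ^ 2 / Ct) :=
            mul_le_mul_of_nonneg_left (h3.trans h2) (by linarith)
        _ = δ ^ 2 := by field_simp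
  obtain ⟨κ₀, hk0, hk1, hkC, hkt⟩ : ∃ κ₀ : ℝ, 0 < κ₀ ∧ κ₀ ≤ 1 / 4 ∧
      C * κ₀ ^ 2 ≤ β / 2 ∧ Ct * κ₀ ^ 2 ≤ δ ^ 2 * r₀ ^ 4 := by
    refine ⟨min (1 / 4) (min (β / (2 * C)) (δ ^ 2 * r₀ ^ 4 / Ct)), by positivity,
      min_le_left _ _, ?_, ?_⟩
    · set q := min (1 / 4) (min (β / (2 * C)) (δ ^ 2 * r₀ ^ 4 / Ct)) with hq
      have h0 : 0 < q := by rw [hq]; positivity
      have h1 : q ≤ 1 / 4 := min_le_left _ _
      have h2 : q ≤ β / (2 * C) := (min_le_right _ _).trans (min_le_left _ _)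
      have h3 : q ^ 2 ≤ q := by nlinarith
      calc C * q ^ 2 ≤ C * (β / (2 * C)) :=
            mul_le_mul_of_nonneg_left (h3.trans h2) (by linarith)
        _ = β / 2 := by field_simp
    · set q := min (1 / 4) (min (β / (2 * C)) (δ ^ 2 * r₀ ^ 4 / Ct)) with hq
      have h0 : 0 < q := by rw [hq]; positivity
      have h1 : q ≤ 1 / 4 := min_le_left _ _
      have h2 : q ≤ δ ^ 2 * r₀ ^ 4 / Ct := (min_le_right _ _).trans (min_le_right _ _)
      have h3 : q ^ 2 ≤ q := by nlinarith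
      calc Ct * q ^ 2 ≤ Ct * (δ ^ 2 * r₀ ^ 4 / Ct) :=
            mul_le_mul_of_nonneg_left (h3.trans h2) (by linarith)
        _ = δ ^ 2 * r₀ ^ 4 := by field_simp
  refine ⟨r₀, κ₀, hr0, hr1, hk0, hk1, ?_⟩
  intro α hα hpin z u v hon
  set T : Fin 4 → Fin 4 → E → ℝ := fun i j => co (ch α z u v) i j with hT
  have hsm := ch_smooth hon hα.smooth
  have hTc : ∀ i j, Continuous (T i j) := fun i j => (co_contDiff hsm i j).continuous
  have hTs : ∀ i j x, T i j x = -T j i x := by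
    intro i j x
    simp only [hT, co, dd]
    ring
  have hTskew : ∀ x, Skew (fun i j => T i j x) := fun x i j => hTs i j x
  -- asd T is small
  have hsmall : ∀ x : E, ‖x‖ < r₀ → nrm2 (asd fun i j => T i j x) ≤
      β * nrm2 (fun i j => T i j x) := by
    intro x hx
    have h1 := hasd κ₀ hk0.le α hα hpin z u v hon x (hx.le.trans hrε)
    refine h1.trans (mul_le_mul_of_nonneg_right ?_ (nrm2_nonneg _))
    have h2 : ‖x‖ ^ 2 ≤ r₀ ^ 2 := pow_le_pow_left₀ (norm_nonneg _) hx.le 2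
    calc C * (κ₀ ^ 2 + ‖x‖ ^ 2) ≤ C * (κ₀ ^ 2 + r₀ ^ 2) :=
          mul_le_mul_of_nonneg_left (by linarith) (by linarith)
      _ = C * κ₀ ^ 2 + C * r₀ ^ 2 := by ring
      _ ≤ β := by linarith
  -- application of `iter`
  have hI := hiter (fun k : Fin 4 × Fin 4 => co (ch α z u v) k.1 k.2)
    (fun (m : Fin 4 × Fin 4) x => asd (fun i j => co (ch α z u v) i j x) m.1 m.2)
    (closed_sys hsm) (fun k => c0 k.1 k.2) r₀ hr0 (by
      intro h
      have := congrFun h (0, 1)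
      simp [c0] at this) (by
      intro m x hx
      have h1 := hsmall x hx
      have h2 : (asd (fun i j => T i j x) m.1 m.2) ^ 2 ≤ nrm2 (asd fun i j => T i j x) := by
        unfold nrm2
        calc (asd (fun i j => T i j x) m.1 m.2) ^ 2
            ≤ ∑ j, (asd (fun i j => T i j x) m.1 j) ^ 2 :=
              Finset.single_le_sum (f := fun j => (asd (fun i j => T i j x) m.1 j) ^ 2)
                (fun _ _ => sq_nonneg _) (Finset.mem_univ m.2)
          _ ≤ _ := Finset.single_le_sum (f := fun i => ∑ j, (asd (fun i j => T i j x) i j) ^ 2)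
                (fun _ _ => Finset.sum_nonneg fun _ _ => sq_nonneg _) (Finset.mem_univ m.1)
      have h3 : nrm2 (fun i j => T i j x) ≤
          16 * ‖fun k : Fin 4 × Fin 4 => T k.1 k.2 x‖ ^ 2 := by
        unfold nrm2
        calc ∑ i, ∑ j, T i j x ^ 2
            ≤ ∑ _i : Fin 4, ∑ _j : Fin 4, ‖fun k : Fin 4 × Fin 4 => T k.1 k.2 x‖ ^ 2 := by
              refine Finset.sum_le_sum fun i _ => Finset.sum_le_sum fun j _ => ?_
              rw [← sq_abs]
              refine pow_le_pow_left₀ (abs_nonneg _) ?_ 2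
              exact norm_le_pi_norm (fun k : Fin 4 × Fin 4 => T k.1 k.2 x) (i, j)
          _ = _ := by simp; ring
      set nn := ‖fun k : Fin 4 × Fin 4 => T k.1 k.2 x‖ with hnn
      have h4 : (asd (fun i j => T i j x) m.1 m.2) ^ 2 ≤ (κ' * nn) ^ 2 := by
        calc (asd (fun i j => T i j x) m.1 m.2) ^ 2 ≤ β * nrm2 (fun i j => T i j x) :=
              h2.trans h1
          _ ≤ κ' ^ 2 / 16 * (16 * nn ^ 2) :=
              mul_le_mul hβ1 h3 (nrm2_nonneg _) (by positivity)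
          _ = (κ' * nn) ^ 2 := by ring
      exact abs_le_of_sq_le_sq h4 (by positivity)) (by
      intro k
      have h1 := htop κ₀ hk0.le hk1 α hα hpin z u v hon k.1 k.2 r₀ hr0 hr1
      refine h1.trans ?_
      have h2 : (2 : ℝ) ≤ ‖fun k : Fin 4 × Fin 4 => c0 k.1 k.2‖ := by
        have := norm_le_pi_norm (fun k : Fin 4 × Fin 4 => c0 k.1 k.2) (0, 1)
        simpa [c0] using this
      have h3 : Ct * (κ₀ ^ 2 + r₀ ^ 6) ≤ 2 * (δ ^ 2 * r₀ ^ 4) := by
        have h4 : Ct * r₀ ^ 6 = (Ct * r₀ ^ 2) * r₀ ^ 4 := by ring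
        have h5 : (Ct * r₀ ^ 2) * r₀ ^ 4 ≤ δ ^ 2 * r₀ ^ 4 :=
          mul_le_mul_of_nonneg_right hrt (by positivity)
        calc Ct * (κ₀ ^ 2 + r₀ ^ 6) = Ct * κ₀ ^ 2 + (Ct * r₀ ^ 2) * r₀ ^ 4 := by ring
          _ ≤ 2 * (δ ^ 2 * r₀ ^ 4) := by linarith
      refine h3.trans ?_
      have h6 : (2 : ℝ) ^ 2 ≤ ‖fun k : Fin 4 × Fin 4 => c0 k.1 k.2‖ ^ 2 :=
        pow_le_pow_left₀ (by norm_num) h2 2
      have h7 : 0 ≤ δ ^ 2 * r₀ ^ 4 := by positivity
      calc 2 * (δ ^ 2 * r₀ ^ 4) ≤ 2 ^ 2 * (δ ^ 2 * r₀ ^ 4) := by linarith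
        _ ≤ ‖fun k : Fin 4 × Fin 4 => c0 k.1 k.2‖ ^ 2 * (δ ^ 2 * r₀ ^ 4) :=
            mul_le_mul_of_nonneg_right h6 h7
        _ = _ := by ring)
  refine ⟨?_, ?_⟩
  swap
  · obtain ⟨k, hk⟩ := hI.2
    exact ⟨k.1, k.2, hk⟩
  intro r hr hrr
  obtain ⟨c, hc0, hc⟩ := hI.1 r hr hrr
  exact core hTc hTs hr hη'0 hη'1 hη'2 hβ hβ2 hc0 (fun i j => hc (i, j))
    fun x hx => hsmall x (lt_of_lt_of_le hx hrr)

end Pool.Agent.Lib.Psd
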