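import Pool.Agent.Lib.Psd.ChartA

set_option autoImplicit false

/-!
# Gram-Schmidt frames in the chart

PROOF. Let `y = sig z u v x = z + ζ₁ u + ζ₂ v`, `ζ₁ = x 0 + i x 1`, `ζ₂ = x 2 + i x 3`, `ρ = sqrt (1 + |ζ₁|^2 + |ζ₂|^2) = sqrt (1 + ‖x‖^2)`. `hp y u = conj ζ₁`, `hp y v = conj ζ₂`.
`u' = u - (conj ζ₁ / ρ^2) y` is orthogonal to `y`, of square length `1 - |ζ₁|^2/ρ^2 = (1 + |ζ₂|^2)/ρ^2`; put `a = sqrt (1 + |ζ₂|^2)/ρ`, `p = u'/a`, `c₁ = conj ζ₁/ρ^2`. Then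
`m = hp p v = - ζ₁ conj ζ₂ / (ρ^2 a)`, `d = 1 / sqrt (1 + |ζ₂|^2)`, `c₂ = conj ζ₂/ρ^2`, `q = (v - c₂ y - m p)/d`. Check `hp q q = 1`: the square length of `v - c₂ y - m p` is
`1 - |ζ₂|^2/ρ^2 - |m|^2 = d^2`, since `|m|^2 = |ζ₁|^2 |ζ₂|^2/(ρ^2 (1 + |ζ₂|^2))`. `ρ a d = 1`. Bounds: `1/sqrt(1 + t^2) ≥ 1 - t`.
-/

open MeasureTheory Set Metric
open scoped ContDiff

namespace Pool.Agent.Lib.Psd

open Pool.Agent.P28b04d

namespace FrameGAux

theorem hp_add_left (a b c : W) : hp (a + b) c = hp a c + hp b c := by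
  rw [← hp_star, hp_add_right, star_add, hp_star, hp_star]

theorem hp_smul_left (c : ℂ) (a b : W) : hp (c • a) b = star c * hp a b := by
  rw [← hp_star, hp_smul_right, star_mul, hp_star, mul_comm]

theorem hp_neg_left (a b : W) : hp (-a) b = -hp a b := by
  rw [← neg_one_smul ℂ a, hp_smul_left]
  simp

theorem hp_neg_right (a b : W) : hp a (-b) = -hp a b := by
  rw [← neg_one_smul ℂ b, hp_smul_right]
  simp

theorem hp_sub_left (a b c : W) : hp (a - b) c = hp a c - hp b c := by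
  rw [sub_eq_add_neg, hp_add_left, hp_neg_left, sub_eq_add_neg]

theorem hp_sub_right (a b c : W) : hp a (b - c) = hp a b - hp a c := by
  rw [sub_eq_add_neg, hp_add_right, hp_neg_right, sub_eq_add_neg]

/-- Gram-Schmidt -/
theorem gs {y u v : W} {Z1 Z2 : ℂ} {ρ σ : ℝ} (hρ0 : 0 < ρ) (hσ0 : 0 < σ)
    (hρ : (ρ : ℂ) ^ 2 = 1 + Z1 * star Z1 + Z2 * star Z2) (hσ : (σ : ℂ) ^ 2 = 1 + Z2 * star Z2)
    (hyy : hp y y = (ρ : ℂ) ^ 2) (hyu : hp y u = star Z1) (hyv : hp y v = star Z2)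
    (huu : hp u u = 1) (hvv : hp v v = 1) (huv : hp u v = 0) :
    ∃ p q : W, ON3 ((ρ⁻¹ : ℝ) • y) p q ∧
      u = (star Z1 / (ρ : ℂ) ^ 2) • y + ((σ / ρ : ℝ) : ℂ) • p ∧
      v = (star Z2 / (ρ : ℂ) ^ 2) • y + (-(Z1 * star Z2) / (ρ * σ)) • p + ((σ⁻¹ : ℝ) : ℂ) • q := by
  have R0 : (ρ : ℂ) ≠ 0 := by exact_mod_cast hρ0.ne'
  have S0 : (σ : ℂ) ≠ 0 := by exact_mod_cast hσ0.ne'
  have hsρ : star (ρ : ℂ) = ρ := by simp
  have hsσ : star (σ : ℂ) = σ := by simp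
  have huy : hp u y = Z1 := by rw [← hp_star, hyu, star_star]
  have hvy : hp v y = Z2 := by rw [← hp_star, hyv, star_star]
  have hvu : hp v u = 0 := by rw [← hp_star, huv, star_zero]
  set c1 : ℂ := star Z1 / (ρ : ℂ) ^ 2 with hc1
  set c2 : ℂ := star Z2 / (ρ : ℂ) ^ 2 with hc2
  set m : ℂ := -(Z1 * star Z2) / (ρ * σ) with hm
  have sc1 : star c1 = Z1 / (ρ : ℂ) ^ 2 := by
    rw [hc1, star_div₀, star_star, star_pow, hsρ]
  have sc2 : star c2 = Z2 / (ρ : ℂ) ^ 2 := by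
    rw [hc2, star_div₀, star_star, star_pow, hsρ]
  have sm : star m = -(star Z1 * Z2) / (ρ * σ) := by
    rw [hm, star_div₀, star_neg, star_mul', star_star, star_mul', hsρ, hsσ]
  set p : W := ((ρ : ℂ) / σ) • (u - c1 • y) with hp_def
  set q : W := (σ : ℂ) • (v - c2 • y - m • p) with hq_def
  have srs : star ((ρ : ℂ) / σ) = ρ / σ := by rw [star_div₀, hsρ, hsσ]
  have yp : hp y p = 0 := by
    rw [hp_def, hp_smul_right, hp_sub_right, hp_smul_right, hyu, hyy, hc1]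
    field_simp
    ring
  have py : hp p y = 0 := by rw [← hp_star, yp, star_zero]
  have up : hp u p = σ / ρ := by
    rw [hp_def, hp_smul_right, hp_sub_right, hp_smul_right, huu, huy, hc1]
    field_simp
    rw [hρ, hσ]
    ring
  have pp : hp p p = 1 := by
    conv_lhs => rw [hp_def, hp_smul_left, hp_sub_left, hp_smul_left]
    rw [← hp_def, yp, up, srs]
    field_simp
    ring
  have pv : hp p v = m := by
    rw [hp_def, hp_smul_left, hp_sub_left, hp_smul_left, huv, hyv, srs, sc1, hm]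
    field_simp
    ring
  have vp : hp v p = star m := by rw [← hp_star, pv]
  have yq : hp y q = 0 := by
    rw [hq_def, hp_smul_right, hp_sub_right, hp_sub_right, hp_smul_right, hp_smul_right, hyv, hyy,
      yp, hc2]
    field_simp
    ring
  have qy : hp q y = 0 := by rw [← hp_star, yq, star_zero]
  have pq : hp p q = 0 := by
    rw [hq_def, hp_smul_right, hp_sub_right, hp_sub_right, hp_smul_right, hp_smul_right, pv, py, pp]
    ring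
  have vq : hp v q = 1 / σ := by
    rw [hq_def, hp_smul_right, hp_sub_right, hp_sub_right, hp_smul_right, hp_smul_right, hvv, hvy,
      vp, hc2, hm, sm]
    have e2 : (σ : ℂ) ^ 4 = (1 + Z2 * star Z2) ^ 2 := by rw [← hσ]; ring
    field_simp
    rw [hρ, hσ]
    ring
  have qq : hp q q = 1 := by
    conv_lhs => rw [hq_def, hp_smul_left, hp_sub_left, hp_sub_left, hp_smul_left, hp_smul_left]
    rw [← hq_def, yq, pq, vq, hsσ]
    field_simp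
    ring
  have hr : ∀ w : W, (ρ⁻¹ : ℝ) • w = (((ρ⁻¹ : ℝ) : ℂ)) • w := fun w => by
    rw [Complex.coe_smul]
  refine ⟨p, q, ⟨?_, pp, qq, ?_, ?_, pq⟩, ?_, ?_⟩
  · rw [hr, hp_smul_left, hp_smul_right, hyy]
    push_cast
    rw [star_inv₀, hsρ]
    field_simp
  · rw [hr, hp_smul_left, yp, mul_zero]
  · rw [hr, hp_smul_left, yq, mul_zero]
  · rw [hp_def, smul_smul]
    push_cast
    have : (σ : ℂ) / ρ * (ρ / σ) = 1 := by field_simp
    rw [this, one_smul]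
    abel
  · have e : ((σ⁻¹ : ℝ) : ℂ) • q = v - c2 • y - m • p := by
      rw [hq_def, smul_smul]
      push_cast
      rw [inv_mul_cancel₀ S0, one_smul]
    rw [e]
    abel

end FrameGAux

open FrameGAux in
theorem frame {z u v : W} (h : ON3 z u v) (x : E) : ∃ (p q : W) (c₁ c₂ : ℂ) (a d m₁ m₂ ρ : ℝ),
    0 < ρ ∧ ρ ^ 2 = 1 + ‖x‖ ^ 2 ∧ ON3 ((ρ⁻¹ : ℝ) • sig z u v x) p q ∧
    u = c₁ • sig z u v x + (a : ℂ) • p ∧
    v = c₂ • sig z u v x + ((m₁ : ℂ) + m₂ * Complex.I) • p + (d : ℂ) • q ∧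
    0 < a ∧ a ≤ 1 ∧ 0 < d ∧ d ≤ 1 ∧ |m₁| ≤ 1 ∧ |m₂| ≤ 1 ∧ ρ * a * d = 1 ∧
    1 - a ≤ ‖x‖ ∧ 1 - d ≤ ‖x‖ ∧ |m₁| ≤ ‖x‖ ∧ |m₂| ≤ ‖x‖ := by
  have hnorm : ‖x‖ ^ 2 = x 0 ^ 2 + x 1 ^ 2 + x 2 ^ 2 + x 3 ^ 2 := by
    rw [EuclideanSpace.norm_sq_eq, Fin.sum_univ_four]
    simp only [Real.norm_eq_abs, sq_abs]
  set Z1 : ℂ := x 0 + x 1 * Complex.I with hZ1
  set Z2 : ℂ := x 2 + x 3 * Complex.I with hZ2
  have z1 : Z1 * star Z1 = ((x 0 ^ 2 + x 1 ^ 2 : ℝ) : ℂ) := by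
    rw [hZ1]
    apply Complex.ext <;> simp [pow_two] <;> ring
  have z2 : Z2 * star Z2 = ((x 2 ^ 2 + x 3 ^ 2 : ℝ) : ℂ) := by
    rw [hZ2]
    apply Complex.ext <;> simp [pow_two] <;> ring
  set ρ : ℝ := √(1 + ‖x‖ ^ 2) with hρdef
  set σ : ℝ := √(1 + (x 2 ^ 2 + x 3 ^ 2)) with hσdef
  have hρ0 : 0 < ρ := Real.sqrt_pos.2 (by positivity)
  have hσ0 : 0 < σ := Real.sqrt_pos.2 (by positivity)
  have hρ2 : ρ ^ 2 = 1 + ‖x‖ ^ 2 := Real.sq_sqrt (by positivity)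
  have hσ2 : σ ^ 2 = 1 + (x 2 ^ 2 + x 3 ^ 2) := Real.sq_sqrt (by positivity)
  have hy : sig z u v x = z + (Z1 • u + Z2 • v) := by
    rw [sig, Lf_apply, Fin.sum_univ_four]
    simp only [fr, Matrix.cons_val_zero, Matrix.cons_val_one, Matrix.cons_val]
    congr 1
    rw [hZ1, hZ2, add_smul, add_smul, mul_smul, mul_smul]
    simp only [Complex.coe_smul]
    abel
  have huz : hp u z = 0 := by rw [← hp_star, h.zu, star_zero]
  have hvu : hp v u = 0 := by rw [← hp_star, h.uv, star_zero]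
  have hyu : hp (sig z u v x) u = star Z1 := by
    rw [hy, hp_add_left, hp_add_left, hp_smul_left, hp_smul_left, h.zu, h.uu, hvu]
    ring
  have hyv : hp (sig z u v x) v = star Z2 := by
    rw [hy, hp_add_left, hp_add_left, hp_smul_left, hp_smul_left, h.zv, h.vv, h.uv]
    ring
  have hyy : hp (sig z u v x) (sig z u v x) = (ρ : ℂ) ^ 2 := by
    rw [← nsq_eq_hp, nsq_sig h, ← hρ2]
    push_cast
    rfl
  obtain ⟨p, q, hon, hu, hv⟩ := gs (y := sig z u v x) (Z1 := Z1) (Z2 := Z2) hρ0 hσ0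
    (by
      rw [z1, z2]
      have : (ρ : ℂ) ^ 2 = ((ρ ^ 2 : ℝ) : ℂ) := by push_cast; rfl
      rw [this, hρ2, hnorm]
      push_cast
      ring)
    (by
      rw [z2]
      have : (σ : ℂ) ^ 2 = ((σ ^ 2 : ℝ) : ℂ) := by push_cast; rfl
      rw [this, hσ2]
      push_cast
      ring) hyy hyu hyv h.uu h.vv h.uv
  set m : ℂ := -(Z1 * star Z2) / (ρ * σ) with hm
  have hmn : Complex.normSq m * (ρ ^ 2 * σ ^ 2) =
      (x 0 ^ 2 + x 1 ^ 2) * (x 2 ^ 2 + x 3 ^ 2) := by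
    have e1 : Complex.normSq Z1 = x 0 ^ 2 + x 1 ^ 2 := by
      rw [hZ1, Complex.normSq_add_mul_I]
    have e2 : Complex.normSq (star Z2) = x 2 ^ 2 + x 3 ^ 2 := by
      rw [Complex.star_def, Complex.normSq_conj, hZ2, Complex.normSq_add_mul_I]
    rw [hm, Complex.normSq_div, Complex.normSq_neg, Complex.normSq_mul, Complex.normSq_mul, e1, e2,
      Complex.normSq_ofReal, Complex.normSq_ofReal]
    field_simp
  have hρ1 : 1 ≤ ρ ^ 2 := by rw [hρ2]; nlinarith [sq_nonneg ‖x‖]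
  have hσ1 : 1 ≤ σ ^ 2 := by rw [hσ2]; nlinarith [sq_nonneg (x 2), sq_nonneg (x 3)]
  have hx0 := norm_nonneg x
  have hA : x 0 ^ 2 + x 1 ^ 2 ≤ ‖x‖ ^ 2 := by
    rw [hnorm]; nlinarith [sq_nonneg (x 2), sq_nonneg (x 3)]
  have hB : x 2 ^ 2 + x 3 ^ 2 ≤ σ ^ 2 := by rw [hσ2]; linarith
  have hA0 : 0 ≤ x 0 ^ 2 + x 1 ^ 2 := by positivity
  have hm1 : Complex.normSq m ≤ 1 := by
    have h1 : (x 0 ^ 2 + x 1 ^ 2) * (x 2 ^ 2 + x 3 ^ 2) ≤ ρ ^ 2 * σ ^ 2 := by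
      apply mul_le_mul _ hB (by positivity) (by positivity)
      rw [hρ2]; linarith
    rw [← hmn] at h1
    have h2 : 0 < ρ ^ 2 * σ ^ 2 := by positivity
    nlinarith
  have hm2 : Complex.normSq m ≤ ‖x‖ ^ 2 := by
    have h1 : (x 0 ^ 2 + x 1 ^ 2) * (x 2 ^ 2 + x 3 ^ 2) ≤ ‖x‖ ^ 2 * (ρ ^ 2 * σ ^ 2) := by
      apply mul_le_mul hA _ (by positivity) (by positivity)
      calc x 2 ^ 2 + x 3 ^ 2 ≤ 1 * σ ^ 2 := by rw [one_mul]; exact hB
        _ ≤ ρ ^ 2 * σ ^ 2 := mul_le_mul_of_nonneg_right hρ1 (by positivity)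
    rw [← hmn] at h1
    have h2 : 0 < ρ ^ 2 * σ ^ 2 := by positivity
    exact le_of_mul_le_mul_right h1 h2
  have hre : m.re ^ 2 ≤ Complex.normSq m := by
    rw [Complex.normSq_apply]; nlinarith [mul_self_nonneg m.im]
  have him : m.im ^ 2 ≤ Complex.normSq m := by
    rw [Complex.normSq_apply]; nlinarith [mul_self_nonneg m.re]
  have hσρ : σ ≤ ρ := Real.sqrt_le_sqrt (by rw [hnorm]; nlinarith [sq_nonneg (x 0), sq_nonneg (x 1)])
  have hσge : 1 ≤ σ := by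
    nlinarith
  have hρle : ρ ≤ 1 + ‖x‖ := by
    apply Real.sqrt_le_iff.2
    constructor
    · positivity
    · nlinarith
  have hinv : 1 - ‖x‖ ≤ ρ⁻¹ := by
    rw [inv_eq_one_div, le_div_iff₀ hρ0]
    rcases le_total (1 - ‖x‖) 0 with h0 | h0
    · nlinarith
    · nlinarith
  refine ⟨p, q, star Z1 / (ρ : ℂ) ^ 2, star Z2 / (ρ : ℂ) ^ 2, σ / ρ, σ⁻¹, m.re, m.im, ρ, hρ0,
    hρ2, hon, hu, ?_, by positivity, ?_,
    by positivity, ?_, ?_, ?_, ?_, ?_, ?_, ?_, ?_⟩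
  · rw [Complex.re_add_im]; exact hv
  · exact (div_le_one hρ0).2 hσρ
  · exact inv_le_one_of_one_le₀ hσge
  · exact abs_le_of_sq_le_sq (by rw [one_pow]; exact hre.trans hm1) zero_le_one
  · exact abs_le_of_sq_le_sq (by rw [one_pow]; exact him.trans hm1) zero_le_one
  · field_simp
  · have : ρ⁻¹ ≤ σ / ρ := by
      rw [inv_eq_one_div]
      exact div_le_div_of_nonneg_right hσge hρ0.le
    linarith
  · have : ρ⁻¹ ≤ σ⁻¹ := inv_anti₀ hσ0 hσρ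
    linarith
  · exact abs_le_of_sq_le_sq (hre.trans hm2) hx0
  · exact abs_le_of_sq_le_sq (him.trans hm2) hx0

end Pool.Agent.Lib.Psd
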