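import Pool.Agent.Lib.Psd.KavA

set_option autoImplicit false

/-!
# The derivative of the averages with respect to the scale

PROOF. `hasDerivAt_phi`: `hasDerivAt_Kav` gives `∫ phi u * fderiv f (x + s u) u = ∑_j ∫ (u_j phi u) (pd j f)(x + s u) = - ∑_j ∫ (pd j Gk u) (pd j f)(x + s u)`
(`pd_Gk`), and integration by parts (`integral_mul_fderiv_eq_neg_fderiv_mul_of_integrable` or the bilinear line-derivative version in
`Mathlib.Analysis.Calculus.LineDeriv.IntegrationByParts`; everything has compact support because `Gk` has) gives `s ∫ Gk u * (lap f)(x + s u)`: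
the derivative of `u ↦ (pd j f)(x + s • u)` in the direction `ev j` is `s * (D2 j j f)(x + s • u)`.
`sub_Kav_phi`: fundamental theorem of calculus (`intervalIntegral.integral_eq_sub_of_hasDerivAt`), the integrand `t ↦ t * Kav Gk t (lap f) x` is continuous
(`Kav_continuous`), and `Kav phi 0 f x = f x` (`Kav_zero`, `integral_phi`).
-/

open MeasureTheory Set Metric
open scoped ContDiff

namespace Pool.Agent.Lib.Psd

open Pool.Agent.P28b04d

variable {f : E → ℝ}

namespace HeatAux

theorem sum_ev (u : E) : u = ∑ j, u j • ev j := by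
  ext i
  simp [ev, Pi.single_apply]

theorem fderiv_apply (f : E → ℝ) (y u : E) : fderiv ℝ f y u = ∑ j, u j * pd j f y := by
  conv_lhs => rw [sum_ev u]
  rw [map_sum]
  refine Finset.sum_congr rfl fun j _ => ?_
  rw [map_smul, smul_eq_mul, pd]

theorem kerOK_pd (j : Fin 4) : KerOK (pd j Gk) := by
  constructor
  · exact (pd_contDiff Gk_contDiff j).continuous
  · intro x hx
    rw [pd_Gk, kerOK_phi.supp x hx]
    ring

theorem fderiv_comp (g : E → ℝ) (hg : ContDiff ℝ ∞ g) (x : E) (s : ℝ) (u v : E) :
    fderiv ℝ (fun u : E => g (x + s • u)) u v = s * fderiv ℝ g (x + s • u) v := by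
  have h1 : HasFDerivAt (fun u : E => x + s • u) (s • ContinuousLinearMap.id ℝ E) u :=
    ((hasFDerivAt_id u).const_smul s).const_add x
  have h2 : HasFDerivAt g (fderiv ℝ g (x + s • u)) (x + s • u) :=
    (hg.differentiable (by simp)).differentiableAt.hasFDerivAt
  have h3 := h2.comp u h1
  have h4 : fderiv ℝ (fun u : E => g (x + s • u)) u =
      (fderiv ℝ g (x + s • u)).comp (s • ContinuousLinearMap.id ℝ E) := h3.fderiv
  rw [h4]
  simp

theorem ibp (hf : ContDiff ℝ ∞ f) (s : ℝ) (x : E) (j : Fin 4) :
    ∫ u, Gk u * (s * D2 j j f (x + s • u)) = -∫ u, pd j Gk u * pd j f (x + s • u) := by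
  have hg : ContDiff ℝ ∞ (pd j f) := pd_contDiff hf j
  have hfd : ∀ u : E, fderiv ℝ (fun u : E => pd j f (x + s • u)) u (ev j) =
      s * D2 j j f (x + s • u) := by
    intro u
    rw [fderiv_comp _ hg]
    rfl
  have h := integral_mul_fderiv_eq_neg_fderiv_mul_of_integrable (μ := (volume : Measure E))
    (f := Gk) (g := fun u : E => pd j f (x + s • u)) (v := ev j) ?_ ?_ ?_ ?_ ?_
  · simp only [hfd] at h
    exact h
  · exact integrable_Kav (kerOK_pd j) hg.continuous s x
  · simp only [hfd]
    have := (integrable_Kav kerOK_Gk (D2_contDiff hf j j).continuous s x).const_mul s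
    refine this.congr (Filter.Eventually.of_forall fun u => ?_)
    simp only
    ring
  · exact integrable_Kav kerOK_Gk hg.continuous s x
  · intro u _
    exact (Gk_contDiff.differentiable (by simp)).differentiableAt
  · intro u _
    have h1 : HasFDerivAt (fun u : E => x + s • u) (s • ContinuousLinearMap.id ℝ E) u :=
      ((hasFDerivAt_id u).const_smul s).const_add x
    have h2 : HasFDerivAt (pd j f) (fderiv ℝ (pd j f) (x + s • u)) (x + s • u) :=
      (hg.differentiable (by simp)).differentiableAt.hasFDerivAt
    exact (h2.comp u h1).differentiableAt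

end HeatAux

theorem hasDerivAt_phi (hf : ContDiff ℝ ∞ f) (s : ℝ) (x : E) :
    HasDerivAt (fun t => Kav phi t f x) (s * Kav Gk s (lap f) x) s := by
  have h := hasDerivAt_Kav kerOK_phi hf s x
  have he : ∫ u, phi u * fderiv ℝ f (x + s • u) u = s * Kav Gk s (lap f) x := by
    have h1 : ∀ u : E, phi u * fderiv ℝ f (x + s • u) u =
        ∑ j, -(pd j Gk u * pd j f (x + s • u)) := by
      intro u
      rw [HeatAux.fderiv_apply, Finset.mul_sum]
      refine Finset.sum_congr rfl fun j _ => ?_
      rw [pd_Gk]
      ring
    simp only [h1]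
    rw [integral_finsetSum]
    · have h2 : ∀ j ∈ (Finset.univ : Finset (Fin 4)), ∫ u, -(pd j Gk u * pd j f (x + s • u)) =
          ∫ u, Gk u * (s * D2 j j f (x + s • u)) := by
        intro j _
        rw [integral_neg, HeatAux.ibp hf]
      rw [Finset.sum_congr rfl h2, ← integral_finsetSum]
      · unfold Kav
        rw [← integral_const_mul]
        refine integral_congr_ae (Filter.Eventually.of_forall fun u => ?_)
        simp only
        unfold lap
        rw [Finset.mul_sum, Finset.mul_sum]
        refine Finset.sum_congr rfl fun j _ => ?_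
        ring
      · intro j _
        have := (integrable_Kav kerOK_Gk (D2_contDiff hf j j).continuous s x).const_mul s
        refine this.congr (Filter.Eventually.of_forall fun u => ?_)
        simp only
        ring
    · intro j _
      exact (integrable_Kav (HeatAux.kerOK_pd j) (pd_contDiff hf j).continuous s x).neg
  rw [he] at h
  exact h

theorem sub_Kav_phi (hf : ContDiff ℝ ∞ f) (s : ℝ) (x : E) :
    f x - Kav phi s f x = -∫ t in (0 : ℝ)..s, t * Kav Gk t (lap f) x := by
  have hc : Continuous fun t : ℝ => t * Kav Gk t (lap f) x := by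
    have h1 := Kav_continuous kerOK_Gk (lap_contDiff hf).continuous
    exact continuous_id.mul (h1.comp (continuous_id.prodMk continuous_const))
  rw [intervalIntegral.integral_eq_sub_of_hasDerivAt (f := fun t => Kav phi t f x)
    (fun t _ => hasDerivAt_phi hf t x) (hc.intervalIntegrable _ _)]
  rw [Kav_zero, integral_phi]
  ring

end Pool.Agent.Lib.Psd
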