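import Pool.Agent.Lib.Psd.Closed

set_option autoImplicit false

/-!
# The Pfaffian of an exact two-form on `ℝ⁴` is a divergence

PROOF. With `T = co lam`, `l j = lam x (ev j)`: `∑_i pd i (Vf lam i) = Pf T`: `pd i (l j) - pd j (l i) = T i j`; `1/2 ∑_{i,j} (pd i (l j)) st T i j = 1/4 ∑_{i,j} T i j st T i j = Pf T` (`st T` is skew) and
`∑_i pd i (st T i j) = 0` (closedness of `T`, as in module `Closed`; symmetry of second derivatives). Then integrate `∑_i pd i (η * Vf lam i)`, a smooth function with compact support: each integral `∫ pd i F = 0`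
(`integral_mul_fderiv_eq_neg_fderiv_mul_of_integrable` with one factor `1`, or `Mathlib.Analysis.Calculus.LineDeriv.IntegrationByParts`).
`xV`: an algebraic identity: expand all sums (`Fin.sum_univ_four`), `dd lam x` is bilinear so `dd lam x (J4 x) (J4 (ev j))` is a combination of the `T i j`, `lam x (J4 x) = - x 1 l 0 + x 0 l 1 - x 3 l 2 + x 2 l 3`.
(The reason: `(*T)(x, y) = (T 0 1 + T 2 3) ω(x, y) - T(Jx, Jy)`, `ω(x, y) = ⟨Jx, y⟩`.)
-/

open MeasureTheory Set Metric
open scoped ContDiff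

namespace Pool.Agent.Lib.Psd

open Pool.Agent.P28b04d

namespace IbpAux

open ClosedAux

/-- the vector field in terms of the components -/
theorem Vf_eq (lam : E → E →L[ℝ] ℝ) (i : Fin 4) :
    Vf lam i = fun x => 1 / 2 * ∑ j, l1 lam j x * co lam (sx i j).1 (sx i j).2 x := by
  funext x
  unfold Vf
  congr 1
  refine Finset.sum_congr rfl fun j _ => ?_
  rw [st_sx _ (co_diag lam 0 x)]
  rfl

theorem Vf_smooth {lam : E → E →L[ℝ] ℝ} (h : ContDiff ℝ ∞ lam) (i : Fin 4) :
    ContDiff ℝ ∞ (Vf lam i) := by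
  rw [Vf_eq]
  refine contDiff_const.mul (ContDiff.sum fun j _ => ?_)
  exact (l1_contDiff h j).mul (co_smooth h _ _)

theorem diffAt {f : E → ℝ} (h : ContDiff ℝ ∞ f) (x : E) : DifferentiableAt ℝ f x :=
  (h.differentiable (by simp)).differentiableAt

theorem pd_Vf {lam : E → E →L[ℝ] ℝ} (h : ContDiff ℝ ∞ lam) (i : Fin 4) (x : E) :
    pd i (Vf lam i) x = 1 / 2 * ∑ j, (pd i (l1 lam j) x * co lam (sx i j).1 (sx i j).2 x +
      l1 lam j x * pd i (co lam (sx i j).1 (sx i j).2) x) := by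
  have h1 : ∀ j, DifferentiableAt ℝ (fun x => l1 lam j x * co lam (sx i j).1 (sx i j).2 x) x :=
    fun j => (diffAt (l1_contDiff h j) x).mul (diffAt (co_smooth h _ _) x)
  have h2 : DifferentiableAt ℝ
      (fun x => ∑ j, l1 lam j x * co lam (sx i j).1 (sx i j).2 x) x :=
    DifferentiableAt.fun_sum fun j _ => h1 j
  unfold pd
  rw [Vf_eq, fderiv_const_mul h2, fderiv_fun_sum fun j _ => h1 j]
  simp only [FunLike.coe_smul, FunLike.coe_sum, Pi.smul_apply, Finset.sum_apply, smul_eq_mul]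
  congr 1
  refine Finset.sum_congr rfl fun j _ => ?_
  rw [fderiv_fun_mul (diffAt (l1_contDiff h j) x) (diffAt (co_smooth h _ _) x)]
  simp only [FunLike.coe_add, FunLike.coe_smul, Pi.add_apply, Pi.smul_apply, smul_eq_mul]
  ring

/-- second order expressions -/
noncomputable def g2 (lam : E → E →L[ℝ] ℝ) (i j l : Fin 4) (x : E) : ℝ := pd i (pd j (l1 lam l)) x

theorem g2_symm {lam : E → E →L[ℝ] ℝ} (h : ContDiff ℝ ∞ lam) (i j l : Fin 4) (x : E) :
    g2 lam i j l x = g2 lam j i l x := pd_symm (l1_contDiff h l) i j x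

theorem pd_co' {lam : E → E →L[ℝ] ℝ} (h : ContDiff ℝ ∞ lam) (i k l : Fin 4) (x : E) :
    pd i (co lam k l) x = g2 lam i k l x - g2 lam i l k x := by
  rw [pd_co h]
  rfl

/-- the star of a closed form is divergence free -/
theorem star_div2 {lam : E → E →L[ℝ] ℝ} (h : ContDiff ℝ ∞ lam) (l : Fin 4) (x : E) :
    ∑ p, pd p (co lam (sx p l).1 (sx p l).2) x = 0 := by
  simp only [pd_co' h]
  rw [Fin.sum_univ_four]
  fin_cases l
  · simp only [sx, Matrix.cons_val, Fin.zero_eta]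
    linarith [g2_symm h 1 3 2 x, g2_symm h 1 2 3 x, g2_symm h 2 3 1 x]
  · simp only [sx, Matrix.cons_val, Fin.mk_one]
    linarith [g2_symm h 0 2 3 x, g2_symm h 0 3 2 x, g2_symm h 2 3 0 x,
      g2_symm h 2 0 3 x, g2_symm h 3 0 2 x]
  · simp only [sx, Matrix.cons_val, Fin.reduceFinMk]
    linarith [g2_symm h 0 1 3 x, g2_symm h 0 3 1 x, g2_symm h 1 3 0 x,
      g2_symm h 1 0 3 x, g2_symm h 3 0 1 x]
  · simp only [sx, Matrix.cons_val, Fin.reduceFinMk]
    linarith [g2_symm h 0 1 2 x, g2_symm h 0 2 1 x, g2_symm h 1 2 0 x,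
      g2_symm h 1 0 2 x, g2_symm h 2 0 1 x]

theorem div_Vf {lam : E → E →L[ℝ] ℝ} (h : ContDiff ℝ ∞ lam) (x : E) :
    ∑ i, pd i (Vf lam i) x = Pf (fun i j => co lam i j x) := by
  have e1 : ∑ i, pd i (Vf lam i) x =
      1 / 2 * (∑ i, ∑ j, pd i (l1 lam j) x * co lam (sx i j).1 (sx i j).2 x) +
      1 / 2 * ∑ j, l1 lam j x * ∑ i, pd i (co lam (sx i j).1 (sx i j).2) x := by
    have : ∑ j, l1 lam j x * ∑ i, pd i (co lam (sx i j).1 (sx i j).2) x =
        ∑ i, ∑ j, l1 lam j x * pd i (co lam (sx i j).1 (sx i j).2) x := by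
      rw [Finset.sum_comm]
      refine Finset.sum_congr rfl fun j _ => ?_
      rw [Finset.mul_sum]
    rw [this, ← mul_add, ← Finset.sum_add_distrib, Finset.mul_sum]
    refine Finset.sum_congr rfl fun i _ => ?_
    rw [pd_Vf h, ← Finset.sum_add_distrib]
  rw [e1]
  have e2 : ∑ j, l1 lam j x * ∑ i, pd i (co lam (sx i j).1 (sx i j).2) x = 0 := by
    refine Finset.sum_eq_zero fun j _ => ?_
    rw [star_div2 h, mul_zero]
  rw [e2]
  unfold Pf
  simp only [co_eq h, Fin.sum_univ_four, sx, Matrix.cons_val]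
  ring

theorem J4_eq (x : E) : J4 x = (-x 1) • ev 0 + x 0 • ev 1 + (-x 3) • ev 2 + x 2 • ev 3 := by
  ext i
  fin_cases i <;> simp [J4, ev]

theorem J4_ev0 : J4 (ev 0) = ev 1 := by
  ext i
  fin_cases i <;> simp [J4, ev]

theorem J4_ev1 : J4 (ev 1) = -ev 0 := by
  ext i
  fin_cases i <;> simp [J4, ev]

theorem J4_ev2 : J4 (ev 2) = ev 3 := by
  ext i
  fin_cases i <;> simp [J4, ev]

theorem J4_ev3 : J4 (ev 3) = -ev 2 := by
  ext i
  fin_cases i <;> simp [J4, ev]

end IbpAux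

open IbpAux

theorem ibp {lam : E → E →L[ℝ] ℝ} (h : ContDiff ℝ ∞ lam) {η : E → ℝ} (hη : ContDiff ℝ ∞ η)
    (hc : HasCompactSupport η) :
    ∫ x, η x * Pf (fun i j => co lam i j x) = -∫ x, ∑ i, pd i η x * Vf lam i x := by
  have hcη : ∀ i, HasCompactSupport (pd i η) := fun i => hc.fderiv_apply (𝕜 := ℝ) (ev i)
  have i1 : ∀ i, Integrable (fun x => pd i η x * Vf lam i x) := by
    intro i
    refine Continuous.integrable_of_hasCompactSupport ?_ ?_
    · exact (ClosedAux.pd_contDiff' hη i).continuous.mul (Vf_smooth h i).continuous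
    · exact (hcη i).mul_right
  have i2 : ∀ i, Integrable (fun x => η x * pd i (Vf lam i) x) := by
    intro i
    refine Continuous.integrable_of_hasCompactSupport ?_ ?_
    · exact hη.continuous.mul (ClosedAux.pd_contDiff' (Vf_smooth h i) i).continuous
    · exact hc.mul_right
  have i3 : ∀ i, Integrable (fun x => η x * Vf lam i x) := by
    intro i
    refine Continuous.integrable_of_hasCompactSupport ?_ ?_
    · exact hη.continuous.mul (Vf_smooth h i).continuous
    · exact hc.mul_right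
  have e1 : ∀ x, η x * Pf (fun i j => co lam i j x) = ∑ i, η x * pd i (Vf lam i) x := by
    intro x
    rw [← div_Vf h, Finset.mul_sum]
  simp only [e1]
  rw [integral_finsetSum _ fun i _ => i2 i, integral_finsetSum _ fun i _ => i1 i,
    ← Finset.sum_neg_distrib]
  refine Finset.sum_congr rfl fun i _ => ?_
  exact integral_mul_fderiv_eq_neg_fderiv_mul_of_integrable (i1 i) (i2 i) (i3 i)
    (fun x _ => diffAt hη x) (fun x _ => diffAt (Vf_smooth h i) x)

theorem xV (lam : E → E →L[ℝ] ℝ) (x : E) :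
    ∑ i, x i * Vf lam i x = (co lam 0 1 x + co lam 2 3 x) / 2 * lam x (J4 x) -
      1 / 2 * ∑ j, lam x (ev j) * dd lam x (J4 x) (J4 (ev j)) := by
  have hl : lam x (J4 x) = -x 1 * lam x (ev 0) + x 0 * lam x (ev 1) + -x 3 * lam x (ev 2) +
      x 2 * lam x (ev 3) := by
    rw [J4_eq]
    simp only [map_add, map_smul, smul_eq_mul]
  have hdd : ∀ w, dd lam x (J4 x) w = -x 1 * dd lam x (ev 0) w + x 0 * dd lam x (ev 1) w +
      -x 3 * dd lam x (ev 2) w + x 2 * dd lam x (ev 3) w := by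
    intro w
    unfold dd
    rw [J4_eq]
    simp only [map_add, map_smul, smul_eq_mul, FunLike.coe_add, FunLike.coe_smul, Pi.add_apply,
      Pi.smul_apply]
    ring
  have hneg : ∀ v w, dd lam x v (-w) = - dd lam x v w := by
    intro v w
    unfold dd
    simp only [map_neg, FunLike.coe_neg, Pi.neg_apply]
    ring
  have hsk : ∀ i j, dd lam x (ev i) (ev j) = - dd lam x (ev j) (ev i) := by
    intro i j
    unfold dd
    ring
  have hd : ∀ i, dd lam x (ev i) (ev i) = 0 := by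
    intro i
    unfold dd
    ring
  simp only [hl, Fin.sum_univ_four, J4_ev0, J4_ev1, J4_ev2, J4_ev3, hneg, hdd]
  simp only [Vf_eq, Fin.sum_univ_four, ClosedAux.sx, Matrix.cons_val, ClosedAux.l1]
  unfold co
  rw [hsk 1 0, hsk 2 0, hsk 2 1, hsk 3 0, hsk 3 1, hsk 3 2, hd 0, hd 1, hd 2, hd 3]
  ring

end Pool.Agent.Lib.Psd
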