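import Pool.Agent.Lib.Psd.Step1

set_option autoImplicit false

/-!
# All scales

PROOF. Let `C` be the constant of `step`. Put `θ = 1 / (8 C)` (`≤ 1/8`), `δ` with `C δ ≤ 1/4` and `δ ≤ η θ^2` (and `δ ≤ 1`), `κ` with `C κ / θ^2 ≤ δ / 8`. By induction there are `c_j ≠ 0` with
`∫_{B(0, θ^j r₀)} (T k - c_j k)^2 ≤ (δ ‖c_j‖)^2 (θ^j r₀)^4`: `step` gives `‖c_{j+1}‖ ≥ (1 - C δ) ‖c_j‖ ≥ (3/4) ‖c_j‖` and the constant `C (θ δ + κ/θ^2) ‖c_j‖ ≤ (δ/8 + δ/8) ‖c_j‖ ≤ δ ‖c_{j+1}‖`. For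
`θ^(j+1) r₀ < r ≤ θ^j r₀` use `c_j`: the integral over the smaller ball is at most `(δ ‖c_j‖)^2 (θ^j r₀)^4 ≤ (δ θ^-2 ‖c_j‖)^2 r^4 ≤ (η ‖c_j‖)^2 r^4`.
`T k 0 ≠ 0` for some `k`: otherwise `|T k x| ≤ L ‖x‖` near `0` (differentiable), so on the ball of radius `ρ = θ^j r₀` (small) `(c_j k)^2 vol(B_ρ) ≤ 2 ∫ (T k - c_j k)^2 + 2 ∫ (T k)^2 ≤ 2 (δ ‖c_j‖)^2 ρ^4 + 2 L^2 ρ^2 vol(B_ρ)`,
`vol(B_ρ) ≥ ρ^4` (`= π^2/2 ρ^4`), hence `‖c_j‖^2 (1 - 2 δ^2) ≤ 2 L^2 ρ^2`, i.e. `‖c_j‖ ≤ 2 L θ^j r₀`, contradiction with `‖c_j‖ ≥ (3/4)^j ‖c₀‖` as `θ ≤ 1/8`.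
-/

open MeasureTheory Set Metric
open scoped ContDiff

namespace Pool.Agent.Lib.Psd

open Pool.Agent.P28b04d

namespace IterAux

theorem intOn {f : E → ℝ} (hf : Continuous f) (r : ℝ) : IntegrableOn f (ball (0 : E) r) :=
  (hf.continuousOn.integrableOn_compact (isCompact_closedBall (0 : E) r)).mono_set
    ball_subset_closedBall

theorem vol_ball {r : ℝ} (hr : 0 ≤ r) : (volume : Measure E).real (ball (0 : E) r) =
    r ^ 4 * (volume : Measure E).real (ball (0 : E) 1) := by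
  have h := Measure.addHaar_ball (volume : Measure E) (0 : E) hr
  rw [Measure.real, h, ENNReal.toReal_mul, ENNReal.toReal_ofReal (by positivity),
    finrank_euclideanSpace_fin]
  rfl

theorem vol_pos : 0 < (volume : Measure E).real (ball (0 : E) 1) := by
  rw [Measure.real, ENNReal.toReal_pos_iff]
  exact ⟨measure_ball_pos _ _ one_pos, measure_ball_lt_top⟩

/-- local bound for functions vanishing at `0` -/
theorem exists_L {K : Type} [Fintype K] (T : K → E → ℝ) (hT : ∀ k, ContDiff ℝ ∞ (T k))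
    (h0 : ∀ k, T k 0 = 0) : ∃ L ρ₀ : ℝ, 0 ≤ L ∧ 0 < ρ₀ ∧ ∀ x : E, ‖x‖ < ρ₀ → ∀ k,
      |T k x| ≤ L * ‖x‖ := by
  have h1 : ∀ k, ∃ L : ℝ, ∀ᶠ x in nhds (0 : E), |T k x| ≤ L * ‖x‖ := by
    intro k
    have hd : DifferentiableAt ℝ (T k) 0 := ((hT k).differentiable (by simp)) 0
    obtain ⟨L, hL⟩ := hd.isBigO_sub.bound
    refine ⟨L, hL.mono fun x hx => ?_⟩
    rw [h0 k, sub_zero, sub_zero, Real.norm_eq_abs] at hx
    exact hx
  choose L hL using h1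
  have h2 : ∀ᶠ x in nhds (0 : E), ∀ k, |T k x| ≤ L k * ‖x‖ := Filter.eventually_all.2 hL
  obtain ⟨ρ₀, hρ, h3⟩ := Metric.eventually_nhds_iff.1 h2
  refine ⟨∑ k, |L k|, ρ₀, Finset.sum_nonneg fun k _ => abs_nonneg _, hρ, fun x hx k => ?_⟩
  have h4 := h3 (show dist x 0 < ρ₀ by rwa [dist_zero_right]) k
  refine h4.trans (mul_le_mul_of_nonneg_right ?_ (norm_nonneg x))
  exact (le_abs_self _).trans
    (Finset.single_le_sum (f := fun k => |L k|) (fun k _ => abs_nonneg _) (Finset.mem_univ k))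

theorem small_c {K : Type} [Fintype K] {T : K → E → ℝ} (hT : ∀ k, ContDiff ℝ ∞ (T k)) {L ρ₀ δ ρ : ℝ}
    (hL0 : 0 ≤ L) (hL : ∀ x : E, ‖x‖ < ρ₀ → ∀ k, |T k x| ≤ L * ‖x‖) (hρ : 0 < ρ) (hρρ : ρ ≤ ρ₀)
    (hδ0 : 0 ≤ δ) (hδ1 : δ ≤ 1) (hδ : δ ≤ (volume : Measure E).real (ball (0 : E) 1) / 16)
    (c : K → ℝ) (h : ∀ k, ∫ x in ball (0 : E) ρ, (T k x - c k) ^ 2 ≤ (δ * ‖c‖) ^ 2 * ρ ^ 4) :
    ‖c‖ ≤ 2 * L * ρ := by
  set v : ℝ := (volume : Measure E).real (ball (0 : E) 1) with hv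
  have hv0 : 0 < v := vol_pos
  have hk : ∀ k, c k ^ 2 ≤ ‖c‖ ^ 2 / 8 + 2 * L ^ 2 * ρ ^ 2 := by
    intro k
    have hc := (hT k).continuous
    have i1 : IntegrableOn (fun x => 2 * (T k x - c k) ^ 2) (ball (0 : E) ρ) :=
      intOn (by fun_prop) ρ
    have i2 : IntegrableOn (fun _ : E => 2 * (L ^ 2 * ρ ^ 2)) (ball (0 : E) ρ) :=
      intOn (by fun_prop) ρ
    have e1 : ∫ _x in ball (0 : E) ρ, c k ^ 2 ≤
        ∫ x in ball (0 : E) ρ, (2 * (T k x - c k) ^ 2 + 2 * (L ^ 2 * ρ ^ 2)) := by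
      refine setIntegral_mono_on (intOn (by fun_prop) ρ) (i1.add i2) measurableSet_ball
        fun x hx => ?_
      rw [mem_ball_zero_iff] at hx
      have h1 := hL x (hx.trans_le hρρ) k
      have h2 : |T k x| ≤ L * ρ := h1.trans (mul_le_mul_of_nonneg_left hx.le hL0)
      have h3 : (T k x) ^ 2 ≤ L ^ 2 * ρ ^ 2 := by
        rw [← sq_abs, ← mul_pow]
        exact pow_le_pow_left₀ (abs_nonneg _) h2 2
      nlinarith [sq_nonneg (T k x - c k + T k x), sq_nonneg (2 * T k x - c k)]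
    rw [integral_add i1 i2, integral_const_mul, setIntegral_const, setIntegral_const,
      smul_eq_mul, smul_eq_mul, vol_ball hρ.le, ← hv] at e1
    have e2 := h k
    have hρ4 : 0 < ρ ^ 4 := by positivity
    have e3 : ρ ^ 4 * (v * c k ^ 2) ≤ ρ ^ 4 * (2 * (δ * ‖c‖) ^ 2 + v * (2 * (L ^ 2 * ρ ^ 2))) := by
      nlinarith
    have e4 : v * c k ^ 2 ≤ 2 * (δ * ‖c‖) ^ 2 + v * (2 * (L ^ 2 * ρ ^ 2)) :=
      le_of_mul_le_mul_left e3 hρ4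
    have e5 : 2 * (δ * ‖c‖) ^ 2 ≤ v * (‖c‖ ^ 2 / 8) := by
      have : δ ^ 2 ≤ v / 16 := by nlinarith
      calc 2 * (δ * ‖c‖) ^ 2 = 2 * δ ^ 2 * ‖c‖ ^ 2 := by ring
        _ ≤ 2 * (v / 16) * ‖c‖ ^ 2 := by gcongr
        _ = v * (‖c‖ ^ 2 / 8) := by ring
    have e6 : v * c k ^ 2 ≤ v * (‖c‖ ^ 2 / 8 + 2 * L ^ 2 * ρ ^ 2) := by nlinarith
    exact le_of_mul_le_mul_left e6 hv0
  set b : ℝ := ‖c‖ ^ 2 / 8 + 2 * L ^ 2 * ρ ^ 2 with hb
  have hb0 : 0 ≤ b := by positivity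
  have h1 : ‖c‖ ≤ Real.sqrt b := by
    rw [pi_norm_le_iff_of_nonneg (Real.sqrt_nonneg _)]
    intro k
    rw [Real.norm_eq_abs]
    exact Real.abs_le_sqrt (hk k)
  have h2 : ‖c‖ ^ 2 ≤ b := by
    rw [← Real.sq_sqrt hb0]
    exact pow_le_pow_left₀ (norm_nonneg _) h1 2
  have h3 : ‖c‖ ^ 2 ≤ (2 * L * ρ) ^ 2 := by
    have : (2 * L * ρ) ^ 2 = 4 * L ^ 2 * ρ ^ 2 := by ring
    rw [this]
    have h4 : 0 ≤ L ^ 2 * ρ ^ 2 := by positivity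
    rw [hb] at h2
    nlinarith
  exact (sq_le_sq₀ (norm_nonneg _) (by positivity)).1 h3

end IterAux

open IterAux

theorem iter {K M : Type} [Fintype K] [Fintype M] (cf : K → Fin 4 → Fin 4 → M → ℝ) (η : ℝ) (hη : 0 < η) :
    ∃ δ κ : ℝ, 0 < δ ∧ 0 < κ ∧ ∀ (T : K → E → ℝ) (B : M → E → ℝ), Sys cf T B → ∀ (c₀ : K → ℝ) (r₀ : ℝ),
      0 < r₀ → c₀ ≠ 0 → (∀ m x, ‖x‖ < r₀ → |B m x| ≤ κ * ‖fun k => T k x‖) →
      (∀ k, ∫ x in ball (0 : E) r₀, (T k x - c₀ k) ^ 2 ≤ (δ * ‖c₀‖) ^ 2 * r₀ ^ 4) →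
      (∀ r, 0 < r → r ≤ r₀ → ∃ c : K → ℝ, c ≠ 0 ∧
        ∀ k, ∫ x in ball (0 : E) r, (T k x - c k) ^ 2 ≤ (η * ‖c‖) ^ 2 * r ^ 4) ∧
      ∃ k, T k 0 ≠ 0 := by
  obtain ⟨C, hC1, hstep⟩ := step cf
  set v : ℝ := (volume : Measure E).real (ball (0 : E) 1) with hv
  have hv0 : 0 < v := vol_pos
  have hC0 : 0 < C := lt_of_lt_of_le one_pos hC1
  set θ : ℝ := 1 / (8 * C) with hθ
  have hθ0 : 0 < θ := by positivity
  have hθ8 : θ ≤ 1 / 8 := by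
    rw [hθ]
    apply one_div_le_one_div_of_le (by norm_num)
    linarith
  have hCθ : C * θ = 1 / 8 := by
    rw [hθ]
    field_simp
  set δ : ℝ := min (1 / (4 * C)) (min (η * θ ^ 2) (v / 16)) with hδ
  have hδ0 : 0 < δ := lt_min (by positivity) (lt_min (by positivity) (by positivity))
  have hδ1 : δ ≤ 1 / (4 * C) := min_le_left _ _
  have hδ2 : δ ≤ η * θ ^ 2 := (min_le_right _ _).trans (min_le_left _ _)
  have hδ3 : δ ≤ v / 16 := (min_le_right _ _).trans (min_le_right _ _)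
  have hCδ : C * δ ≤ 1 / 4 := by
    calc C * δ ≤ C * (1 / (4 * C)) := mul_le_mul_of_nonneg_left hδ1 hC0.le
      _ = 1 / 4 := by field_simp
  have hδ4 : δ ≤ 1 := by nlinarith
  set κ : ℝ := δ * θ ^ 2 / (8 * C) with hκ
  have hκ0 : 0 < κ := by positivity
  have hCκ : C * (θ * δ + κ / θ ^ 2) = δ / 4 := by
    have e1 : C * (κ / θ ^ 2) = δ / 8 := by
      rw [hκ]
      field_simp
    calc C * (θ * δ + κ / θ ^ 2) = (C * θ) * δ + C * (κ / θ ^ 2) := by ring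
      _ = δ / 4 := by rw [hCθ, e1]; ring
  refine ⟨δ, κ, hδ0, hκ0, ?_⟩
  intro T B hS c₀ r₀ hr₀ hc₀ hB hint
  have hind : ∀ j : ℕ, ∃ c : K → ℝ, (3 / 4) ^ j * ‖c₀‖ ≤ ‖c‖ ∧
      ∀ k, ∫ x in ball (0 : E) (θ ^ j * r₀), (T k x - c k) ^ 2 ≤
        (δ * ‖c‖) ^ 2 * (θ ^ j * r₀) ^ 4 := by
    intro j
    induction j with
    | zero => exact ⟨c₀, by simp, fun k => by simpa using hint k⟩
    | succ j ih =>
      obtain ⟨c, hc, hck⟩ := ih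
      have hθj : θ ^ j ≤ 1 := pow_le_one₀ hθ0.le (by linarith)
      have hrj : θ ^ j * r₀ ≤ r₀ := mul_le_of_le_one_left hr₀.le hθj
      obtain ⟨c', h1, h2⟩ := hstep T B hS c (θ ^ j * r₀) δ κ θ (by positivity) hδ0.le hδ4 hκ0.le
        hθ0 (by linarith) (fun m x hx => hB m x (hx.trans_le hrj)) hck
      have h3 : ‖c' - c‖ ≤ 1 / 4 * ‖c‖ :=
        h1.trans (mul_le_mul_of_nonneg_right hCδ (norm_nonneg _))
      have h4 : 3 / 4 * ‖c‖ ≤ ‖c'‖ := by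
        have h5 : ‖c‖ ≤ ‖c'‖ + ‖c' - c‖ := by
          calc ‖c‖ = ‖c' - (c' - c)‖ := by congr 1; abel
            _ ≤ _ := norm_sub_le _ _
        linarith
      refine ⟨c', ?_, fun k => ?_⟩
      · calc (3 / 4) ^ (j + 1) * ‖c₀‖ = 3 / 4 * ((3 / 4) ^ j * ‖c₀‖) := by ring
          _ ≤ 3 / 4 * ‖c‖ := by gcongr
          _ ≤ _ := h4
      · have h5 := h2 k
        rw [hCκ] at h5
        have h6 : θ ^ (j + 1) * r₀ = θ * (θ ^ j * r₀) := by ring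
        rw [h6]
        refine h5.trans (mul_le_mul_of_nonneg_right ?_ (by positivity))
        refine pow_le_pow_left₀ (by positivity) ?_ 2
        have h7 : 0 ≤ ‖c‖ := norm_nonneg c
        nlinarith
  have hc₀' : 0 < ‖c₀‖ := norm_pos_iff.2 hc₀
  refine ⟨fun r hr hrr => ?_, ?_⟩
  · have hx0 : 0 < r / r₀ := by positivity
    have hx1 : r / r₀ ≤ 1 := by rwa [div_le_one hr₀]
    obtain ⟨j, hj1, hj2⟩ := exists_nat_pow_near_of_lt_one hx0 hx1 hθ0 (by linarith)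
    obtain ⟨c, hc, hck⟩ := hind j
    have hj2' : r ≤ θ ^ j * r₀ := by rwa [div_le_iff₀ hr₀] at hj2
    have hj1' : θ ^ (j + 1) * r₀ < r := by rwa [lt_div_iff₀ hr₀] at hj1
    have hcn : 0 < ‖c‖ := lt_of_lt_of_le (by positivity) hc
    refine ⟨c, norm_pos_iff.1 hcn, fun k => ?_⟩
    have hTk := (hS.sT k).continuous
    have h1 : ∫ x in ball (0 : E) r, (T k x - c k) ^ 2 ≤
        ∫ x in ball (0 : E) (θ ^ j * r₀), (T k x - c k) ^ 2 := by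
      refine setIntegral_mono_set (intOn (by fun_prop) _) ?_ ?_
      · exact Filter.Eventually.of_forall fun x => sq_nonneg _
      · exact (ball_subset_ball hj2').eventuallyLE
    refine (h1.trans (hck k)).trans ?_
    have h2 : θ * (θ ^ j * r₀) ≤ r := by
      have : θ * (θ ^ j * r₀) = θ ^ (j + 1) * r₀ := by ring
      rw [this]
      exact hj1'.le
    have h3 : (θ * (θ ^ j * r₀)) ^ 4 ≤ r ^ 4 := pow_le_pow_left₀ (by positivity) h2 4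
    calc (δ * ‖c‖) ^ 2 * (θ ^ j * r₀) ^ 4 ≤ (η * θ ^ 2 * ‖c‖) ^ 2 * (θ ^ j * r₀) ^ 4 := by
          gcongr
      _ = (η * ‖c‖) ^ 2 * (θ * (θ ^ j * r₀)) ^ 4 := by ring
      _ ≤ (η * ‖c‖) ^ 2 * r ^ 4 := by gcongr
  · by_contra hcon
    push Not at hcon
    obtain ⟨L, ρ₀, hL0, hρ₀, hL⟩ := exists_L T hS.sT hcon
    have hθlt : θ < 1 := by linarith
    have ht1 : Filter.Tendsto (fun j : ℕ => θ ^ j * r₀) Filter.atTop (nhds 0) := by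
      have := (tendsto_pow_atTop_nhds_zero_of_lt_one hθ0.le hθlt).mul_const r₀
      rwa [zero_mul] at this
    have ht2 : Filter.Tendsto (fun j : ℕ => 2 * L * r₀ * (1 / 6 : ℝ) ^ j) Filter.atTop (nhds 0) := by
      have := (tendsto_pow_atTop_nhds_zero_of_lt_one (r := (1 / 6 : ℝ)) (by norm_num)
        (by norm_num)).const_mul (2 * L * r₀)
      rwa [mul_zero] at this
    obtain ⟨j, hj1, hj2⟩ := ((ht1.eventually_lt_const hρ₀).and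
      (ht2.eventually_lt_const hc₀')).exists
    obtain ⟨c, hc, hck⟩ := hind j
    have h1 := small_c hS.sT hL0 hL (ρ := θ ^ j * r₀) (by positivity) hj1.le hδ0.le hδ4 hδ3 c hck
    have h2 : (3 / 4 : ℝ) ^ j * ‖c₀‖ ≤ 2 * L * r₀ * (1 / 8) ^ j := by
      calc (3 / 4 : ℝ) ^ j * ‖c₀‖ ≤ 2 * L * (θ ^ j * r₀) := hc.trans h1
        _ ≤ 2 * L * ((1 / 8) ^ j * r₀) := by gcongr
        _ = 2 * L * r₀ * (1 / 8) ^ j := by ring
    have h3 : (3 / 4 : ℝ) ^ j * (2 * L * r₀ * (1 / 6) ^ j) = 2 * L * r₀ * (1 / 8) ^ j := by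
      have : (1 / 8 : ℝ) ^ j = (3 / 4) ^ j * (1 / 6) ^ j := by
        rw [← mul_pow]
        norm_num
      rw [this]
      ring
    rw [← h3] at h2
    have h4 := le_of_mul_le_mul_left h2 (by positivity)
    exact absurd hj2 (not_lt.2 h4)

end Pool.Agent.Lib.Psd
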