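import Pool.Agent.Lib.Psd.Ker

set_option autoImplicit false

/-!
# Averages with a kernel supported in the unit ball: calculus

`Kav k s f x = ∫ u, k u * f (x + s • u)`, `k` continuous and supported in the unit ball (`KerOK`).
PROOFS. `Kav_smooth`: `k u * f (x + s u)` is NOT smooth in `u` but only the parameters `(s, x)` are differentiated; by
`Pool.Agent.Lib.P28e.contDiffOn_param` (import `Pool.Agent.Lib.P28e.AvgSmooth`) with `E := ℝ × E`, `F := E`, `K = closedBall 0 1`, `O = univ`, and the
measure `μ := volume.withDensity (ENNReal.ofReal ∘ k)` split as `k = k⁺ - k⁻`, or directly: `contDiffOn_convolution_right_with_param_comp`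
as in `Pool.Agent.Lib.P28b04d.Avg.contDiff_ball_integral` (with `f := k`, which is only required to be locally integrable, and
`g p u := χ u • f (x - s u)`, `χ` a bump function equal to `1` on the ball of radius `1`). `fderiv_Kav`, `hasDerivAt_Kav`: differentiate under the integral sign
(`hasFDerivAt_integral_of_dominated_of_fderiv_le`, the bound is a constant times `|k u|`, integrable) or read them off `contDiffOn_param`. The rest is linearity of the
integral (all integrands are continuous with compact support) and the fact that only `‖u‖ < 1` matters.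
-/

open MeasureTheory Set Metric
open scoped ContDiff Convolution

namespace Pool.Agent.Lib.Psd

open Pool.Agent.P28b04d

variable {k : E → ℝ} {f g : E → ℝ}

theorem integrable_Kav (hk : KerOK k) (hf : Continuous f) (s : ℝ) (x : E) :
    Integrable fun u => k u * f (x + s • u) := by
  refine Continuous.integrable_of_hasCompactSupport ?_ ?_
  · exact hk.cont.mul (hf.comp (by fun_prop))
  · exact hk.hasCompactSupport.mul_right

namespace KavAAux

theorem ker_zero (hk : KerOK k) {u : E} (hu : u ∉ closedBall (0 : E) 1) : k u = 0 := by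
  rw [mem_closedBall, dist_zero_right, not_le] at hu
  exact hk.supp u hu.le

/-- Smooth dependence on parameters. -/
theorem conv_smooth (hk : KerOK k) {F : (ℝ × E) × E → ℝ} (hF : ContDiff ℝ ∞ F) :
    ContDiff ℝ ∞ (fun p : ℝ × E => ∫ u, k u * F (p, u)) := by
  let χ : ContDiffBump (0 : E) := ⟨1, 2, one_pos, one_lt_two⟩
  let g : ℝ × E → E → ℝ := fun p u => χ u • F (p, -u)
  have hl : LocallyIntegrable k volume := hk.integrable.locallyIntegrable
  have hg : ContDiff ℝ ∞ (fun q : (ℝ × E) × E => g q.1 q.2) := by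
    have h1 : ContDiff ℝ ∞ (fun q : (ℝ × E) × E => χ q.2) := χ.contDiff.comp contDiff_snd
    have h2 : ContDiff ℝ ∞ (fun q : (ℝ × E) × E => F (q.1, -q.2)) :=
      hF.comp (contDiff_fst.prodMk contDiff_snd.neg)
    exact h1.smul h2
  have hmain := contDiffOn_convolution_right_with_param_comp (μ := (volume : Measure E))
    (n := (⊤ : ℕ∞)) (ContinuousLinearMap.lsmul ℝ ℝ : ℝ →L[ℝ] ℝ →L[ℝ] ℝ) (s := Set.univ)
    (v := fun _ : ℝ × E => (0 : E)) contDiffOn_const (f := k) (g := g) (k := closedBall 0 2)
    isOpen_univ (isCompact_closedBall 0 2) (fun p x _ hx => by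
      have : χ x = 0 := by
        apply χ.zero_of_le_dist
        rw [mem_closedBall, not_le] at hx
        exact hx.le
      simp only [g]
      rw [this, zero_smul]) hl (by
      rw [Set.univ_prod_univ]
      exact hg.contDiffOn)
  rw [contDiffOn_univ] at hmain
  have e : (fun p : ℝ × E => ∫ u, k u * F (p, u)) =
      fun p => (k ⋆[ContinuousLinearMap.lsmul ℝ ℝ, volume] g p) 0 := by
    funext p
    show _ = ∫ t, k t • (χ (0 - t) • F (p, -(0 - t)))
    refine integral_congr_ae (Filter.Eventually.of_forall fun u => ?_)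
    simp only [smul_eq_mul, zero_sub, neg_neg]
    by_cases hu : u ∈ closedBall (0 : E) 1
    · have h1 : χ (-u) = 1 := by
        apply χ.one_of_mem_closedBall
        rw [mem_closedBall, dist_zero_right, norm_neg]
        rw [mem_closedBall, dist_zero_right] at hu
        exact hu
      rw [h1, one_mul]
    · rw [ker_zero hk hu, zero_mul, zero_mul]
  rw [e]
  exact hmain

/-- The derivative of the integrand. -/
noncomputable def Fp (k f : E → ℝ) (p : ℝ × E) (u : E) : ℝ × E →L[ℝ] ℝ :=
  k u • (fderiv ℝ f (p.2 + p.1 • u)).comp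
    (ContinuousLinearMap.snd ℝ ℝ E + (ContinuousLinearMap.fst ℝ ℝ E).smulRight u)

theorem Fp_apply (p : ℝ × E) (u : E) (q : ℝ × E) :
    Fp k f p u q = k u * fderiv ℝ f (p.2 + p.1 • u) (q.2 + q.1 • u) := by
  simp [Fp]
  ring

theorem Fp_continuous (hk : KerOK k) (hf : ContDiff ℝ ∞ f) :
    Continuous fun q : (ℝ × E) × E => Fp k f q.1 q.2 := by
  have h1 : Continuous (fderiv ℝ f) := hf.continuous_fderiv (by simp)
  have h2 : Continuous fun q : (ℝ × E) × E => k q.2 := hk.cont.comp continuous_snd
  have h3 : Continuous fun q : (ℝ × E) × E => fderiv ℝ f (q.1.2 + q.1.1 • q.2) :=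
    h1.comp (by fun_prop)
  have h4 : Continuous fun q : (ℝ × E) × E =>
      (ContinuousLinearMap.snd ℝ ℝ E + (ContinuousLinearMap.fst ℝ ℝ E).smulRight q.2) := by
    have : Continuous fun u : E => (ContinuousLinearMap.fst ℝ ℝ E).smulRight u :=
      (ContinuousLinearMap.smulRightL ℝ (ℝ × E) E (ContinuousLinearMap.fst ℝ ℝ E)).continuous
    exact continuous_const.add (this.comp continuous_snd)
  exact h2.smul (h3.clm_comp h4)

theorem hasFDerivAt_joint (hk : KerOK k) (hf : ContDiff ℝ ∞ f) (p₀ : ℝ × E) :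
    HasFDerivAt (fun p : ℝ × E => Kav k p.1 f p.2) (∫ u, Fp k f p₀ u) p₀ := by
  have hc : IsCompact (closedBall p₀ 1 ×ˢ closedBall (0 : E) 1) :=
    (isCompact_closedBall p₀ 1).prod (isCompact_closedBall 0 1)
  obtain ⟨C, hC⟩ := hc.exists_bound_of_continuousOn (Fp_continuous hk hf).continuousOn
  have hFc : ∀ p : ℝ × E, Continuous fun u => Fp k f p u := fun p =>
    (Fp_continuous hk hf).comp (Continuous.prodMk_right p)
  refine hasFDerivAt_integral_of_dominated_of_fderiv_le
    (F := fun (p : ℝ × E) u => k u * f (p.2 + p.1 • u)) (F' := Fp k f) (s := closedBall p₀ 1)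
    (bound := (closedBall (0 : E) 1).indicator fun _ => C) (closedBall_mem_nhds p₀ one_pos) ?_ ?_ ?_ ?_ ?_ ?_
  · exact Filter.Eventually.of_forall fun p => (integrable_Kav hk hf.continuous p.1 p.2).aestronglyMeasurable
  · exact integrable_Kav hk hf.continuous p₀.1 p₀.2
  · exact (hFc p₀).aestronglyMeasurable
  · refine Filter.Eventually.of_forall fun u p hp => ?_
    by_cases hu : u ∈ closedBall (0 : E) 1
    · rw [indicator_of_mem hu]
      exact hC (p, u) ⟨hp, hu⟩
    · rw [indicator_of_notMem hu]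
      unfold Fp
      rw [ker_zero hk hu, zero_smul, norm_zero]
  · refine (integrable_indicator_iff measurableSet_closedBall).2 ?_
    exact integrableOn_const (measure_closedBall_lt_top.ne)
  · refine Filter.Eventually.of_forall fun u p hp => ?_
    have h1 : HasFDerivAt (fun p : ℝ × E => p.2 + p.1 • u)
        (ContinuousLinearMap.snd ℝ ℝ E + (ContinuousLinearMap.fst ℝ ℝ E).smulRight u) p :=
      (ContinuousLinearMap.snd ℝ ℝ E + (ContinuousLinearMap.fst ℝ ℝ E).smulRight u).hasFDerivAt
    have h2 : HasFDerivAt f (fderiv ℝ f (p.2 + p.1 • u)) (p.2 + p.1 • u) :=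
      ((hf.differentiable (by simp)) _).hasFDerivAt
    exact (h2.comp p h1).const_mul (k u)

theorem integral_Fp_apply (hk : KerOK k) (hf : ContDiff ℝ ∞ f) (p : ℝ × E) (q : ℝ × E) :
    (∫ u, Fp k f p u) q = ∫ u, k u * fderiv ℝ f (p.2 + p.1 • u) (q.2 + q.1 • u) := by
  have hi : Integrable fun u => Fp k f p u := by
    refine Continuous.integrable_of_hasCompactSupport
      ((Fp_continuous hk hf).comp (Continuous.prodMk_right p)) ?_
    refine HasCompactSupport.intro (isCompact_closedBall (0 : E) 1) fun u hu => ?_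
    unfold Fp
    rw [ker_zero hk hu, zero_smul]
  rw [ContinuousLinearMap.integral_apply hi]
  simp only [Fp_apply]

end KavAAux

open KavAAux

theorem Kav_smooth (hk : KerOK k) (hf : ContDiff ℝ ∞ f) :
    ContDiff ℝ ∞ (fun p : ℝ × E => Kav k p.1 f p.2) := by
  refine conv_smooth hk (F := fun q => f (q.1.2 + q.1.1 • q.2)) ?_
  apply hf.comp
  exact (contDiff_snd.comp contDiff_fst).add
    ((contDiff_fst.comp contDiff_fst).smul contDiff_snd)

theorem Kav_continuous (hk : KerOK k) (hf : Continuous f) :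
    Continuous (fun p : ℝ × E => Kav k p.1 f p.2) := by
  have h := continuous_parametric_integral_of_continuous (μ := (volume : Measure E))
    (f := fun (p : ℝ × E) u => k u * f (p.2 + p.1 • u)) (s := closedBall (0 : E) 1) ?_
    (isCompact_closedBall 0 1)
  · refine h.congr fun p => ?_
    refine setIntegral_eq_integral_of_forall_compl_eq_zero fun u hu => ?_
    rw [ker_zero hk hu, zero_mul]
  · exact (hk.cont.comp continuous_snd).mul (hf.comp (by fun_prop))

theorem fderiv_Kav (hk : KerOK k) (hf : ContDiff ℝ ∞ f) (s : ℝ) (x v : E) :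
    fderiv ℝ (fun y => Kav k s f y) x v = Kav k s (fun y => fderiv ℝ f y v) x := by
  have h1 : HasFDerivAt (fun y : E => ((s, y) : ℝ × E)) (ContinuousLinearMap.inr ℝ ℝ E) x :=
    hasFDerivAt_prodMk_right s x
  have h2 := (hasFDerivAt_joint hk hf (s, x)).comp x h1
  have h3 : fderiv ℝ (fun y => Kav k s f y) x = (∫ u, Fp k f (s, x) u).comp (ContinuousLinearMap.inr ℝ ℝ E) :=
    h2.fderiv
  rw [h3, ContinuousLinearMap.comp_apply, integral_Fp_apply hk hf]
  simp [Kav]

theorem hasDerivAt_Kav (hk : KerOK k) (hf : ContDiff ℝ ∞ f) (s : ℝ) (x : E) :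
    HasDerivAt (fun t => Kav k t f x) (∫ u, k u * fderiv ℝ f (x + s • u) u) s := by
  have h1 : HasFDerivAt (fun t : ℝ => ((t, x) : ℝ × E)) (ContinuousLinearMap.inl ℝ ℝ E) s :=
    hasFDerivAt_prodMk_left s x
  have h2 := ((hasFDerivAt_joint hk hf (s, x)).comp s h1).hasDerivAt
  rw [ContinuousLinearMap.comp_apply, integral_Fp_apply hk hf] at h2
  simp only [ContinuousLinearMap.inl_apply, one_smul, zero_add] at h2
  exact h2

theorem pd_Kav (hk : KerOK k) (hf : ContDiff ℝ ∞ f) (s : ℝ) (i : Fin 4) (x : E) :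
    pd i (fun y => Kav k s f y) x = Kav k s (pd i f) x :=
  fderiv_Kav hk hf s x (ev i)

theorem pd_contDiff (hf : ContDiff ℝ ∞ f) (i : Fin 4) : ContDiff ℝ ∞ (pd i f) := by
  have h := (contDiff_infty_iff_fderiv.1 hf).2
  exact h.clm_apply contDiff_const

theorem D2_contDiff (hf : ContDiff ℝ ∞ f) (i j : Fin 4) : ContDiff ℝ ∞ (D2 i j f) :=
  pd_contDiff (pd_contDiff hf j) i

theorem lap_contDiff (hf : ContDiff ℝ ∞ f) : ContDiff ℝ ∞ (lap f) :=
  ContDiff.sum fun i _ => D2_contDiff hf i i

theorem D2_Kav (hk : KerOK k) (hf : ContDiff ℝ ∞ f) (s : ℝ) (i j : Fin 4) (x : E) :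
    D2 i j (fun y => Kav k s f y) x = Kav k s (D2 i j f) x := by
  unfold D2
  have h : (pd j fun y => Kav k s f y) = fun y => Kav k s (pd j f) y := by
    funext y
    exact pd_Kav hk hf s j y
  rw [h]
  exact pd_Kav hk (pd_contDiff hf j) s i x

theorem Kav_sum {ι : Type} (S : Finset ι) {F : ι → E → ℝ} (hk : KerOK k) (hF : ∀ i, Continuous (F i)) (s : ℝ) (x : E) :
    Kav k s (fun y => ∑ i ∈ S, F i y) x = ∑ i ∈ S, Kav k s (F i) x := by
  unfold Kav
  rw [← integral_finsetSum S fun i _ => integrable_Kav hk (hF i) s x]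
  simp only [Finset.mul_sum]

theorem lap_Kav (hk : KerOK k) (hf : ContDiff ℝ ∞ f) (s : ℝ) (x : E) :
    lap (fun y => Kav k s f y) x = Kav k s (lap f) x := by
  have h := Kav_sum Finset.univ (F := fun i => D2 i i f) hk
    (fun i => (D2_contDiff hf i i).continuous) s x
  have h2 : Kav k s (lap f) x = Kav k s (fun y => ∑ i : Fin 4, D2 i i f y) x := rfl
  rw [h2, h]
  exact Finset.sum_congr rfl fun i _ => D2_Kav hk hf s i i x

theorem Kav_zero (s : E → ℝ) (f : E → ℝ) (x : E) : Kav s 0 f x = (∫ u, s u) * f x := by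
  unfold Kav
  simp only [zero_smul, add_zero]
  exact integral_mul_const (f x) s

theorem Kav_sub (hk : KerOK k) (hf : Continuous f) (hg : Continuous g) (s : ℝ) (x : E) :
    Kav k s (fun y => f y - g y) x = Kav k s f x - Kav k s g x := by
  unfold Kav
  rw [← integral_sub (integrable_Kav hk hf s x) (integrable_Kav hk hg s x)]
  simp only [mul_sub]

theorem Kav_const_mul (c s : ℝ) (x : E) : Kav k s (fun y => c * f y) x = c * Kav k s f x := by
  unfold Kav
  rw [← integral_const_mul]
  refine integral_congr_ae (Filter.Eventually.of_forall fun u => ?_)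
  simp only
  ring

/-- locality -/
theorem Kav_congr (hk : KerOK k) {s : ℝ} (hs : 0 ≤ s) {x : E} (h : ∀ y, ‖y - x‖ ≤ s → f y = g y) :
    Kav k s f x = Kav k s g x := by
  unfold Kav
  refine integral_congr_ae (Filter.Eventually.of_forall fun u => ?_)
  simp only
  by_cases hu : u ∈ closedBall (0 : E) 1
  · rw [h (x + s • u) ?_]
    rw [add_sub_cancel_left, norm_smul, Real.norm_eq_abs, abs_of_nonneg hs]
    rw [mem_closedBall, dist_zero_right] at hu
    nlinarith
  · rw [ker_zero hk hu, zero_mul, zero_mul]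

end Pool.Agent.Lib.Psd
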