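import Pool.Agent.Lib.Psd.Defs

set_option autoImplicit false

/-!
# The averaging kernel

`phi ≥ 0` and `Gk` are smooth, vanish for `‖x‖ ≥ 1`, `∫ phi = 1` and `dG_x v = - ⟨x, v⟩ phi x`.
-/

open MeasureTheory Set Metric
open scoped ContDiff

namespace Pool.Agent.Lib.Psd

namespace KerAux

noncomputable def psi (t : ℝ) : ℝ := Real.smoothTransition (2 - 4 * t)

noncomputable def Psi (a : ℝ) : ℝ := ∫ t in a..1, psi t

theorem psi_contDiff : ContDiff ℝ ∞ psi := by
  unfold psi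
  exact Real.smoothTransition.contDiff.comp (by fun_prop)

theorem hasDerivAt_Psi (a : ℝ) : HasDerivAt Psi (-psi a) a := by
  have hc : Continuous psi := psi_contDiff.continuous
  exact intervalIntegral.integral_hasDerivAt_left (hc.intervalIntegrable _ _)
    (hc.stronglyMeasurableAtFilter _ _) hc.continuousAt

theorem Psi_contDiff : ContDiff ℝ ∞ Psi := by
  rw [contDiff_infty_iff_deriv]
  refine ⟨fun a => (hasDerivAt_Psi a).differentiableAt, ?_⟩
  have : deriv Psi = fun a => -psi a := by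
    funext a
    exact (hasDerivAt_Psi a).deriv
  rw [this]
  exact psi_contDiff.neg

theorem psi_zero {t : ℝ} (ht : 1 / 2 ≤ t) : psi t = 0 := by
  unfold psi
  exact Real.smoothTransition.zero_of_nonpos (by linarith)

theorem psi_one {t : ℝ} (ht : t ≤ 1 / 4) : psi t = 1 := by
  unfold psi
  exact Real.smoothTransition.one_of_one_le (by linarith)

theorem Psi_zero {a : ℝ} (ha : 1 ≤ a) : Psi a = 0 := by
  unfold Psi
  rw [intervalIntegral.integral_symm, intervalIntegral.integral_congr (g := fun _ => (0 : ℝ))]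
  · simp
  · intro t ht
    rw [uIcc_of_le ha] at ht
    exact psi_zero (by linarith [ht.1])

end KerAux

open KerAux

theorem exists_ker : ∃ φ G : E → ℝ, ContDiff ℝ ∞ φ ∧ ContDiff ℝ ∞ G ∧ (∀ x, 0 ≤ φ x) ∧
    (∀ x, 1 ≤ ‖x‖ → φ x = 0) ∧ (∀ x, 1 ≤ ‖x‖ → G x = 0) ∧ ∫ x, φ x = 1 ∧
    ∀ x v : E, fderiv ℝ G x v = -(inner ℝ x v * φ x) := by
  set φ₀ : E → ℝ := fun x => psi (‖x‖ ^ 2) with hφ₀
  have hφ₀c : ContDiff ℝ ∞ φ₀ := psi_contDiff.comp (contDiff_norm_sq ℝ)
  have hφ₀n : ∀ x, 0 ≤ φ₀ x := fun x => Real.smoothTransition.nonneg _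
  have hφ₀z : ∀ x : E, 1 ≤ ‖x‖ → φ₀ x = 0 := fun x hx => psi_zero (by nlinarith)
  have hφ₀s : HasCompactSupport φ₀ := by
    refine HasCompactSupport.intro (isCompact_closedBall (0 : E) 1) fun x hx => hφ₀z x ?_
    rw [mem_closedBall, dist_zero_right, not_le] at hx
    exact hx.le
  have hint : Integrable φ₀ := hφ₀c.continuous.integrable_of_hasCompactSupport hφ₀s
  have hpos : 0 < ∫ x, φ₀ x := by
    rw [integral_pos_iff_support_of_nonneg hφ₀n hint]
    refine lt_of_lt_of_le (measure_ball_pos volume (0 : E) (r := 1 / 2) (by norm_num)) (measure_mono ?_)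
    intro x hx
    rw [mem_ball, dist_zero_right] at hx
    rw [Function.mem_support]
    have : φ₀ x = 1 := psi_one (by nlinarith [norm_nonneg x])
    rw [this]
    exact one_ne_zero
  set c : ℝ := ∫ x, φ₀ x with hc
  refine ⟨fun x => c⁻¹ * φ₀ x, fun x => c⁻¹ * (1 / 2 * Psi (‖x‖ ^ 2)), contDiff_const.mul hφ₀c,
    contDiff_const.mul (contDiff_const.mul (Psi_contDiff.comp (contDiff_norm_sq ℝ))),
    fun x => mul_nonneg (inv_nonneg.2 hpos.le) (hφ₀n x), fun x hx => by simp only; rw [hφ₀z x hx, mul_zero],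
    fun x hx => by simp only; rw [Psi_zero (by nlinarith)]; ring, ?_, ?_⟩
  · rw [integral_const_mul, ← hc, inv_mul_cancel₀ hpos.ne']
  · intro x v
    have h1 : HasFDerivAt (fun y : E => ‖y‖ ^ 2) (2 • (innerSL ℝ x)) x := by
      simpa using (hasStrictFDerivAt_norm_sq x).hasFDerivAt
    have h2 : HasFDerivAt (fun y : E => Psi (‖y‖ ^ 2)) ((-psi (‖x‖ ^ 2)) • (2 • (innerSL ℝ x))) x :=
      (hasDerivAt_Psi _).comp_hasFDerivAt x h1
    have h3 := (h2.const_mul (1 / 2)).const_mul c⁻¹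
    rw [h3.fderiv]
    simp only [ContinuousLinearMap.smul_apply, innerSL_apply_apply, smul_eq_mul, nsmul_eq_mul, Nat.cast_ofNat, hφ₀]
    ring

/-- The averaging kernel. -/
noncomputable def phi : E → ℝ := Classical.choose exists_ker

/-- Its potential: `dG_x v = - ⟨x, v⟩ phi x`. -/
noncomputable def Gk : E → ℝ := Classical.choose (Classical.choose_spec exists_ker)

theorem ker_spec : ContDiff ℝ ∞ phi ∧ ContDiff ℝ ∞ Gk ∧ (∀ x, 0 ≤ phi x) ∧
    (∀ x, 1 ≤ ‖x‖ → phi x = 0) ∧ (∀ x, 1 ≤ ‖x‖ → Gk x = 0) ∧ ∫ x, phi x = 1 ∧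
    ∀ x v : E, fderiv ℝ Gk x v = -(inner ℝ x v * phi x) :=
  Classical.choose_spec (Classical.choose_spec exists_ker)

theorem phi_contDiff : ContDiff ℝ ∞ phi := ker_spec.1

theorem Gk_contDiff : ContDiff ℝ ∞ Gk := ker_spec.2.1

theorem phi_nonneg (x : E) : 0 ≤ phi x := ker_spec.2.2.1 x

theorem integral_phi : ∫ x, phi x = 1 := ker_spec.2.2.2.2.2.1

theorem fderiv_Gk (x v : E) : fderiv ℝ Gk x v = -(inner ℝ x v * phi x) := ker_spec.2.2.2.2.2.2 x v

theorem kerOK_phi : KerOK phi := ⟨phi_contDiff.continuous, ker_spec.2.2.2.1⟩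

theorem kerOK_Gk : KerOK Gk := ⟨Gk_contDiff.continuous, ker_spec.2.2.2.2.1⟩

theorem KerOK.hasCompactSupport {k : E → ℝ} (hk : KerOK k) : HasCompactSupport k := by
  refine HasCompactSupport.intro (isCompact_closedBall (0 : E) 1) fun x hx => hk.supp x ?_
  rw [mem_closedBall, dist_zero_right, not_le] at hx
  exact hx.le

theorem KerOK.integrable {k : E → ℝ} (hk : KerOK k) : Integrable k :=
  hk.cont.integrable_of_hasCompactSupport hk.hasCompactSupport

theorem pd_Gk (i : Fin 4) (x : E) : pd i Gk x = -(x i * phi x) := by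
  unfold pd
  rw [fderiv_Gk, ev]
  congr 2
  simp [EuclideanSpace.inner_single_right]

end Pool.Agent.Lib.Psd
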