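import Pool.Agent.Lib.Psd.Rep
import Pool.Agent.Lib.Psd.CZ

set_option autoImplicit false

/-!
# The `L²` bound for `T - Kav phi (r/4) T`

PROOF. `rep` on the ball `B(0, r/4)`; `(∑_{i,j,m} a)^2 ≤ 16 |M| ∑ a^2` (`sq_sum_le_card_mul_sum_sq`), each `∫_{B(0,r/4)} (D2 i j U)^2 ≤ ∫ (D2 i j U)^2 ≤ ∫ (lap U)^2` (`cz`, `U = Us (r/4) F`,
`F = cutf r * B m` smooth with compact support by `cutf_zero`, `U` has compact support by `Us_supp`), `lap U = Kav phi (r/4) F - F` (`lap_Us`), `∫ (Kav phi s F - F)^2 ≤ 2 ∫ (Kav phi s F)^2 + 2 ∫ F^2 ≤ 4 ∫ F^2`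
(`Kav_contract`) and `∫ F^2 ≤ ∫_{B(0,r)} (B m)^2` since `0 ≤ cutf ≤ 1` vanishes off the ball. The constant: `C = 64 |M| * max |cf|^2` or `64 |M| ∑ cf^2`.
-/

open MeasureTheory Set Metric
open scoped ContDiff

namespace Pool.Agent.Lib.Psd

open Pool.Agent.P28b04d

namespace L2bAux

theorem cs_pd {f : E → ℝ} (h : HasCompactSupport f) (i : Fin 4) : HasCompactSupport (pd i f) := by
  have h1 : HasCompactSupport (fderiv ℝ f) := h.fderiv ℝ
  exact h1.comp_left (g := fun L : E →L[ℝ] ℝ => L (ev i)) rfl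

theorem cs_D2 {f : E → ℝ} (h : HasCompactSupport f) (i j : Fin 4) :
    HasCompactSupport (D2 i j f) := cs_pd (cs_pd h j) i

theorem int_sq {f : E → ℝ} (hc : Continuous f) (h : HasCompactSupport f) :
    Integrable (fun x => f x ^ 2) := by
  refine (hc.pow 2).integrable_of_hasCompactSupport ?_
  exact h.comp_left (g := fun t : ℝ => t ^ 2) (by norm_num)

theorem cs_of_zero {f : E → ℝ} {R : ℝ} (h : ∀ x, R ≤ ‖x‖ → f x = 0) : HasCompactSupport f := by
  refine HasCompactSupport.intro (isCompact_closedBall (0 : E) R) fun x hx => h x ?_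
  rw [mem_closedBall, dist_zero_right, not_le] at hx
  exact hx.le

theorem one_fn {F : E → ℝ} (hF : ContDiff ℝ ∞ F) {r : ℝ} (hr : 0 < r)
    (hz : ∀ x, r ≤ ‖x‖ → F x = 0) (i j : Fin 4) :
    Integrable (fun x => (D2 i j (Us (r / 4) F) x) ^ 2) ∧
      ∫ x, (D2 i j (Us (r / 4) F) x) ^ 2 ≤ 4 * ∫ x, (F x) ^ 2 := by
  have hs : (0 : ℝ) ≤ r / 4 := by positivity
  have hU : ContDiff ℝ ∞ (Us (r / 4) F) := Us_smooth hF hs
  have hUc : HasCompactSupport (Us (r / 4) F) :=
    cs_of_zero (R := r + r / 4) fun x hx => Us_supp hz hs hx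
  have hFc : HasCompactSupport F := cs_of_zero hz
  refine ⟨int_sq (D2_contDiff hU i j).continuous (cs_D2 hUc i j), ?_⟩
  refine (cz hU hUc i j).trans ?_
  have hlap : ∀ x, lap (Us (r / 4) F) x = Kav phi (r / 4) F x - F x := fun x => lap_Us hF hs x
  have hlapc : HasCompactSupport (lap (Us (r / 4) F)) := by
    refine cs_of_zero (R := r + r / 4 + 1) fun x hx => ?_
    have hz2 : (Us (r / 4) F) =ᶠ[nhds x] (fun _ => (0 : ℝ)) := by
      have ho : {y : E | r + r / 4 < ‖y‖} ∈ nhds x :=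
        (isOpen_lt continuous_const continuous_norm).mem_nhds (by
          change r + r / 4 < ‖x‖; linarith)
      filter_upwards [ho] with y hy
      exact Us_supp hz hs (le_of_lt hy)
    unfold lap
    refine Finset.sum_eq_zero fun l _ => ?_
    rw [RepAux.D2_congr hz2]
    unfold D2 pd
    simp
  have hK : ∀ x, Kav phi (r / 4) F x = lap (Us (r / 4) F) x + F x := fun x => by rw [hlap]; ring
  have hKcont : Continuous (Kav phi (r / 4) F) := by
    have : Kav phi (r / 4) F = fun x => lap (Us (r / 4) F) x + F x := funext hK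
    rw [this]
    exact (lap_contDiff hU).continuous.add hF.continuous
  have hKc : HasCompactSupport (Kav phi (r / 4) F) := by
    have : Kav phi (r / 4) F = lap (Us (r / 4) F) + F := funext hK
    rw [this]
    exact hlapc.add hFc
  have iK := int_sq hKcont hKc
  have iF := int_sq hF.continuous hFc
  have iL := int_sq (lap_contDiff hU).continuous hlapc
  calc ∫ x, (lap (Us (r / 4) F) x) ^ 2
      ≤ ∫ x, (2 * (Kav phi (r / 4) F x) ^ 2 + 2 * (F x) ^ 2) := by
        refine integral_mono iL ((iK.const_mul 2).add (iF.const_mul 2)) fun x => ?_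
        change (lap (Us (r / 4) F) x) ^ 2 ≤ 2 * (Kav phi (r / 4) F x) ^ 2 + 2 * (F x) ^ 2
        rw [hlap]
        nlinarith [sq_nonneg (Kav phi (r / 4) F x + F x)]
    _ = 2 * (∫ x, (Kav phi (r / 4) F x) ^ 2) + 2 * ∫ x, (F x) ^ 2 := by
        rw [integral_add (iK.const_mul 2) (iF.const_mul 2), integral_const_mul, integral_const_mul]
    _ ≤ 2 * (∫ x, (F x) ^ 2) + 2 * ∫ x, (F x) ^ 2 := by
        have := Kav_contract hF.continuous hFc (r / 4)
        linarith
    _ = 4 * ∫ x, (F x) ^ 2 := by ring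

theorem cut_int {B : E → ℝ} (hB : ContDiff ℝ ∞ B) {r : ℝ} (hr : 0 < r) :
    ∫ x, (cutf r x * B x) ^ 2 ≤ ∫ x in ball (0 : E) r, (B x) ^ 2 := by
  have h0 : ∀ x, x ∉ ball (0 : E) r → (cutf r x * B x) ^ 2 = 0 := by
    intro x hx
    rw [mem_ball, dist_zero_right, not_lt] at hx
    rw [cutf_zero hr hx, zero_mul]
    norm_num
  rw [← setIntegral_eq_integral_of_forall_compl_eq_zero h0]
  have hc1 : Continuous (fun x => (cutf r x * B x) ^ 2) :=
    (((cutf_contDiff r).continuous).mul hB.continuous).pow 2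
  have hc2 : Continuous (fun x => (B x) ^ 2) := hB.continuous.pow 2
  have i1 : IntegrableOn (fun x => (cutf r x * B x) ^ 2) (ball (0 : E) r) :=
    (hc1.continuousOn.integrableOn_compact (isCompact_closedBall (0 : E) r)).mono_set
      ball_subset_closedBall
  have i2 : IntegrableOn (fun x => (B x) ^ 2) (ball (0 : E) r) :=
    (hc2.continuousOn.integrableOn_compact (isCompact_closedBall (0 : E) r)).mono_set
      ball_subset_closedBall
  refine setIntegral_mono i1 i2 fun x => ?_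
  change (cutf r x * B x) ^ 2 ≤ (B x) ^ 2
  have h := cutf_mem r x
  rw [mul_pow]
  have h2 : cutf r x ^ 2 ≤ 1 := by nlinarith [h.1, h.2]
  nlinarith [sq_nonneg (B x)]

end L2bAux

open L2bAux

theorem l2b {K M : Type} [Fintype K] [Fintype M] (cf : K → Fin 4 → Fin 4 → M → ℝ) :
    ∃ C : ℝ, 0 ≤ C ∧ ∀ (T : K → E → ℝ) (B : M → E → ℝ), Sys cf T B → ∀ r : ℝ, 0 < r → ∀ k : K,
      ∫ x in ball (0 : E) (r / 4), (T k x - Kav phi (r / 4) (T k) x) ^ 2 ≤
        C * ∑ m, ∫ x in ball (0 : E) r, (B m x) ^ 2 := by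
  set Ck : K → ℝ := fun k => ∑ p : Fin 4 × Fin 4 × M, (cf k p.1 p.2.1 p.2.2) ^ 2 with hCk
  have hCk0 : ∀ k, 0 ≤ Ck k := fun k => Finset.sum_nonneg fun p _ => sq_nonneg _
  refine ⟨64 * ∑ k, Ck k, mul_nonneg (by norm_num) (Finset.sum_nonneg fun k _ => hCk0 k), ?_⟩
  intro T B h r hr k
  have hs : (0 : ℝ) ≤ r / 4 := by positivity
  set F : M → E → ℝ := fun m y => cutf r y * B m y with hF
  have hFs : ∀ m, ContDiff ℝ ∞ (F m) := fun m => (cutf_contDiff r).mul (h.sB m)
  have hFz : ∀ m x, r ≤ ‖x‖ → F m x = 0 := fun m x hx => by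
    rw [hF]; simp only; rw [cutf_zero hr hx, zero_mul]
  have hone : ∀ (i j : Fin 4) (m : M), Integrable (fun x => (D2 i j (Us (r / 4) (F m)) x) ^ 2) ∧
      ∫ x, (D2 i j (Us (r / 4) (F m)) x) ^ 2 ≤ 4 * ∫ x, (F m x) ^ 2 := fun i j m =>
    one_fn (hFs m) hr (hFz m) i j
  have hUs : ∀ m, ContDiff ℝ ∞ (Us (r / 4) (F m)) := fun m => Us_smooth (hFs m) hs
  -- pointwise bound
  have hpt : ∀ x ∈ ball (0 : E) (r / 4), (T k x - Kav phi (r / 4) (T k) x) ^ 2 ≤
      Ck k * ∑ p : Fin 4 × Fin 4 × M, (D2 p.1 p.2.1 (Us (r / 4) (F p.2.2)) x) ^ 2 := by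
    intro x hx
    rw [mem_ball, dist_zero_right] at hx
    rw [rep h hr hx k, neg_sq]
    have e : ∑ i, ∑ j, ∑ m, cf k i j m * D2 i j (Us (r / 4) (fun y => cutf r y * B m y)) x =
        ∑ p : Fin 4 × Fin 4 × M, cf k p.1 p.2.1 p.2.2 * D2 p.1 p.2.1 (Us (r / 4) (F p.2.2)) x := by
      rw [Fintype.sum_prod_type]
      refine Finset.sum_congr rfl fun i _ => ?_
      rw [Fintype.sum_prod_type]
    rw [e]
    exact Finset.sum_mul_sq_le_sq_mul_sq _ _ _
  have iR : Integrable (fun x => Ck k * ∑ p : Fin 4 × Fin 4 × M,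
      (D2 p.1 p.2.1 (Us (r / 4) (F p.2.2)) x) ^ 2) :=
    (integrable_finsetSum _ fun p _ => (hone p.1 p.2.1 p.2.2).1).const_mul _
  have iL : IntegrableOn (fun x => (T k x - Kav phi (r / 4) (T k) x) ^ 2) (ball (0 : E) (r / 4)) := by
    have hc : Continuous (fun x => (T k x - Kav phi (r / 4) (T k) x) ^ 2) := by
      have hk : Continuous (fun x => Kav phi (r / 4) (T k) x) := by
        have := Kav_continuous kerOK_phi (h.sT k).continuous
        exact this.comp (Continuous.prodMk continuous_const continuous_id)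
      exact ((h.sT k).continuous.sub hk).pow 2
    exact (hc.continuousOn.integrableOn_compact (isCompact_closedBall (0 : E) (r / 4))).mono_set
      ball_subset_closedBall
  calc ∫ x in ball (0 : E) (r / 4), (T k x - Kav phi (r / 4) (T k) x) ^ 2
      ≤ ∫ x in ball (0 : E) (r / 4), Ck k * ∑ p : Fin 4 × Fin 4 × M,
          (D2 p.1 p.2.1 (Us (r / 4) (F p.2.2)) x) ^ 2 :=
        setIntegral_mono_on iL iR.integrableOn measurableSet_ball hpt
    _ ≤ ∫ x, Ck k * ∑ p : Fin 4 × Fin 4 × M, (D2 p.1 p.2.1 (Us (r / 4) (F p.2.2)) x) ^ 2 := by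
        refine setIntegral_le_integral iR (Filter.Eventually.of_forall fun x => ?_)
        exact mul_nonneg (hCk0 k) (Finset.sum_nonneg fun p _ => sq_nonneg _)
    _ = Ck k * ∑ p : Fin 4 × Fin 4 × M, ∫ x, (D2 p.1 p.2.1 (Us (r / 4) (F p.2.2)) x) ^ 2 := by
        rw [integral_const_mul, integral_finsetSum _ fun p _ => (hone p.1 p.2.1 p.2.2).1]
    _ ≤ Ck k * ∑ p : Fin 4 × Fin 4 × M, 4 * ∫ x, (F p.2.2 x) ^ 2 :=
        mul_le_mul_of_nonneg_left
          (Finset.sum_le_sum fun p _ => (hone p.1 p.2.1 p.2.2).2) (hCk0 k)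
    _ = 64 * Ck k * ∑ m, ∫ x, (F m x) ^ 2 := by
        rw [Fintype.sum_prod_type]
        simp only [Fintype.sum_prod_type, Finset.sum_const, Finset.card_univ, Fintype.card_fin,
          nsmul_eq_mul]
        rw [← Finset.mul_sum]
        push_cast
        ring
    _ ≤ 64 * (∑ k, Ck k) * ∑ m, ∫ x in ball (0 : E) r, (B m x) ^ 2 := by
        have a1 : Ck k ≤ ∑ k, Ck k :=
          Finset.single_le_sum (f := Ck) (fun k _ => hCk0 k) (Finset.mem_univ k)
        have a2 : ∑ m, ∫ x, (F m x) ^ 2 ≤ ∑ m, ∫ x in ball (0 : E) r, (B m x) ^ 2 :=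
          Finset.sum_le_sum fun m _ => cut_int (h.sB m) hr
        have a3 : 0 ≤ ∑ m, ∫ x, (F m x) ^ 2 :=
          Finset.sum_nonneg fun m _ => integral_nonneg fun x => sq_nonneg _
        have a4 : 64 * Ck k ≤ 64 * ∑ k, Ck k := by linarith
        exact mul_le_mul a4 a2 a3 (by have := (hCk0 k).trans a1; linarith)

end Pool.Agent.Lib.Psd
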