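import Pool.Agent.Lib.Psd.KavA

set_option autoImplicit false

/-!
# Averages of a function close to a constant

PROOF. With `s = r / 4`: `Kav phi s f x - c = ∫ phi u (f (x + s u) - c) du = s^-4 ∫ phi ((y - x)/s) (f y - c) dy` (substitution `y = x + s u`, `Measure.integral_comp_smul`-type lemmas,
translation invariance). `phi` is bounded by some `M` and Lipschitz with some constant `L` (smooth with compact support: `HasCompactSupport` + `ContDiff.lipschitzWith_of_hasCompactSupport`), and for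
`‖x‖ ≤ r / 4` the integrand vanishes unless `‖y‖ < r / 2`. First claim: `≤ M s^-4 ∫_{B(0,r)} |f - c|`. Second: the difference is `s^-4 ∫ (phi((y-x)/s) - phi(y/s)) (f y - c) dy`, bounded by
`s^-4 L (‖x‖/s) ∫_{B(0,r)} |f - c|`. `C = 4^5 (M + L)`.
-/

open MeasureTheory Set Metric
open scoped ContDiff

namespace Pool.Agent.Lib.Psd

open Pool.Agent.P28b04d

namespace NearAux

theorem cont_ker (s : ℝ) (x : E) : Continuous fun y : E => phi (s⁻¹ • (y - x)) :=
  phi_contDiff.continuous.comp (by fun_prop)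

theorem ker_zero {s : ℝ} (hs : 0 < s) {x y : E} (h : s ≤ ‖y - x‖) : phi (s⁻¹ • (y - x)) = 0 := by
  apply kerOK_phi.supp
  rw [norm_smul, norm_inv, Real.norm_of_nonneg hs.le, ← div_eq_inv_mul, le_div_iff₀ hs, one_mul]
  exact h

theorem integrable_ker {g : E → ℝ} (hg : Continuous g) {s : ℝ} (hs : 0 < s) (x : E) :
    Integrable fun y : E => phi (s⁻¹ • (y - x)) * g y := by
  refine ((cont_ker s x).mul hg).integrable_of_hasCompactSupport ?_
  refine HasCompactSupport.intro (isCompact_closedBall x s) fun y hy => ?_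
  rw [mem_closedBall, not_le, dist_eq_norm] at hy
  simp only [Pi.mul_apply]
  rw [ker_zero hs hy.le, zero_mul]

theorem Kav_eq {f : E → ℝ} (hf : Continuous f) (c : ℝ) {s : ℝ} (hs : 0 < s) (x : E) :
    Kav phi s f x - c = (s ^ 4)⁻¹ * ∫ y, phi (s⁻¹ • (y - x)) * (f y - c) := by
  have h1 : Kav phi s f x - c = ∫ u, phi u * (f (x + s • u) - c) := by
    unfold Kav
    have h2 : (fun u => phi u * (f (x + s • u) - c)) =
        fun u => phi u * f (x + s • u) - phi u * c := by
      funext u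
      ring
    rw [h2, integral_sub (integrable_Kav kerOK_phi hf s x) (kerOK_phi.integrable.mul_const c),
      integral_mul_const, integral_phi, one_mul]
  have h3 := Measure.integral_comp_smul (volume : Measure E)
    (fun w => phi (s⁻¹ • w) * (f (x + w) - c)) s
  have h4 : (fun u : E => phi (s⁻¹ • (s • u)) * (f (x + s • u) - c)) =
      fun u => phi u * (f (x + s • u) - c) := by
    funext u
    rw [smul_smul, inv_mul_cancel₀ hs.ne', one_smul]
  rw [h4, finrank_euclideanSpace_fin, abs_of_nonneg (by positivity), smul_eq_mul] at h3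
  rw [h1, h3]
  congr 1
  rw [← integral_add_left_eq_self (μ := (volume : Measure E))
    (fun y => phi (s⁻¹ • (y - x)) * (f y - c)) x]
  congr 1
  funext w
  rw [add_sub_cancel_left]

theorem bound {g K : E → ℝ} (hg : Continuous g) (hK : Continuous K) {A r : ℝ}
    (hA : ∀ y, |K y| ≤ A) (hz : ∀ y, r ≤ ‖y‖ → K y = 0) :
    |∫ y, K y * g y| ≤ A * ∫ y in ball (0 : E) r, |g y| := by
  have hI : ∀ h : E → ℝ, Continuous h → IntegrableOn h (ball (0 : E) r) := fun h hh =>
    (hh.continuousOn.integrableOn_compact (isCompact_closedBall (0 : E) r)).mono_set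
      ball_subset_closedBall
  have h1 : ∫ y, K y * g y = ∫ y in ball (0 : E) r, K y * g y := by
    symm
    apply setIntegral_eq_integral_of_forall_compl_eq_zero
    intro y hy
    rw [mem_ball, dist_zero_right, not_lt] at hy
    rw [hz y hy, zero_mul]
  rw [h1, ← integral_const_mul]
  refine (abs_integral_le_integral_abs).trans ?_
  refine integral_mono (hI _ (hK.mul hg).abs) (hI _ (continuous_const.mul hg.abs)) fun y => ?_
  simp only
  rw [abs_mul]
  exact mul_le_mul_of_nonneg_right (hA y) (abs_nonneg _)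

end NearAux

open NearAux

theorem near : ∃ C : ℝ, 0 ≤ C ∧ ∀ f : E → ℝ, Continuous f → ∀ c r : ℝ, 0 < r →
    |Kav phi (r / 4) f 0 - c| ≤ C * ((r ^ 4)⁻¹ * ∫ y in ball (0 : E) r, |f y - c|) ∧
    ∀ x : E, ‖x‖ ≤ r / 4 → |Kav phi (r / 4) f x - Kav phi (r / 4) f 0| ≤
      C * (‖x‖ / r) * ((r ^ 4)⁻¹ * ∫ y in ball (0 : E) r, |f y - c|) := by
  obtain ⟨M, hM⟩ := kerOK_phi.hasCompactSupport.exists_bound_of_continuous kerOK_phi.cont
  obtain ⟨L, hL⟩ := ContDiff.lipschitzWith_of_hasCompactSupport kerOK_phi.hasCompactSupport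
    phi_contDiff (by simp)
  have hM0 : 0 ≤ M := (norm_nonneg _).trans (hM 0)
  refine ⟨4 ^ 5 * (M + L), by positivity, fun f hf c r hr => ?_⟩
  have hs : 0 < r / 4 := by positivity
  have hg : Continuous fun y => f y - c := hf.sub continuous_const
  set I : ℝ := ∫ y in ball (0 : E) r, |f y - c| with hI
  have hI0 : 0 ≤ I := integral_nonneg fun y => abs_nonneg _
  have hs4 : ((r / 4) ^ 4)⁻¹ = 4 ^ 4 * (r ^ 4)⁻¹ := by
    rw [div_pow, inv_div]
    ring
  refine ⟨?_, fun x hx => ?_⟩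
  · rw [Kav_eq hf c hs 0, abs_mul, abs_of_nonneg (by positivity : (0 : ℝ) ≤ ((r / 4) ^ 4)⁻¹), hs4]
    have h1 := bound hg (cont_ker (r / 4) 0) (A := M) (r := r) (fun y => hM _)
      (fun y hy => ker_zero hs (by rw [sub_zero]; linarith))
    calc 4 ^ 4 * (r ^ 4)⁻¹ * |∫ y, phi ((r / 4)⁻¹ • (y - 0)) * (f y - c)|
        ≤ 4 ^ 4 * (r ^ 4)⁻¹ * (M * I) := by gcongr
      _ = (4 ^ 4 * M) * ((r ^ 4)⁻¹ * I) := by ring
      _ ≤ (4 ^ 5 * (M + L)) * ((r ^ 4)⁻¹ * I) := by
          have hL0 : (0 : ℝ) ≤ L := L.2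
          gcongr ?_ * _
          nlinarith
  · have e1 : Kav phi (r / 4) f x - Kav phi (r / 4) f 0 =
        ((r / 4) ^ 4)⁻¹ * ∫ y, (phi ((r / 4)⁻¹ • (y - x)) - phi ((r / 4)⁻¹ • (y - 0))) *
          (f y - c) := by
      have e2 : Kav phi (r / 4) f x - Kav phi (r / 4) f 0 =
          (Kav phi (r / 4) f x - c) - (Kav phi (r / 4) f 0 - c) := by ring
      rw [e2, Kav_eq hf c hs x, Kav_eq hf c hs 0, ← mul_sub,
        ← integral_sub (integrable_ker hg hs x) (integrable_ker hg hs 0)]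
      congr 2
      funext y
      ring
    have h1 := bound (K := fun y => phi ((r / 4)⁻¹ • (y - x)) - phi ((r / 4)⁻¹ • (y - 0))) hg
      ((cont_ker (r / 4) x).sub (cont_ker (r / 4) 0))
      (A := L * (4 * ‖x‖ / r)) (r := r) (fun y => by
        have h2 := hL.dist_le_mul ((r / 4)⁻¹ • (y - x)) ((r / 4)⁻¹ • (y - 0))
        rw [Real.dist_eq, dist_eq_norm, ← smul_sub] at h2
        have h3 : (y - x) - (y - 0) = -x := by abel
        rw [h3, norm_smul, norm_neg, norm_inv, Real.norm_of_nonneg hs.le] at h2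
        have h4 : (r / 4)⁻¹ * ‖x‖ = 4 * ‖x‖ / r := by
          rw [inv_div]
          ring
        rw [h4] at h2
        exact h2)
      (fun y hy => by
        have h3 : r / 4 ≤ ‖y - x‖ := by
          have := norm_sub_norm_le y x
          linarith
        rw [ker_zero hs h3, ker_zero hs (by rw [sub_zero]; linarith), sub_zero])
    rw [e1, abs_mul, abs_of_nonneg (by positivity : (0 : ℝ) ≤ ((r / 4) ^ 4)⁻¹), hs4]
    calc 4 ^ 4 * (r ^ 4)⁻¹ * |∫ y, (phi ((r / 4)⁻¹ • (y - x)) - phi ((r / 4)⁻¹ • (y - 0))) *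
          (f y - c)| ≤ 4 ^ 4 * (r ^ 4)⁻¹ * (L * (4 * ‖x‖ / r) * I) := by gcongr
      _ = (4 ^ 5 * L) * (‖x‖ / r) * ((r ^ 4)⁻¹ * I) := by ring
      _ ≤ (4 ^ 5 * (M + L)) * (‖x‖ / r) * ((r ^ 4)⁻¹ * I) := by
          gcongr ?_ * _ * _
          nlinarith

end Pool.Agent.Lib.Psd
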