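import Pool.Agent.Lib.Psd.Heat
import Pool.Agent.Lib.P28e.AvgSmooth

set_option autoImplicit false

/-!
# The potentials `Us s f = ∫_0^s t Kav Gk t f dt`

PROOFS. `Us_smooth`, `D2_Us`: for `s ≥ 0` write `Us s f x = ∫ t in Icc 0 s, t * Kav Gk t f x` and use `Pool.Agent.Lib.P28e.contDiffOn_param` (import
`Pool.Agent.Lib.P28e.AvgSmooth`), or `intervalIntegral` versions of differentiation under the integral sign (`hasFDerivAt_integral_of_dominated_of_fderiv_le` in
`Mathlib.Analysis.Calculus.ParametricIntervalIntegral`), the integrand `(t, x) ↦ t * Kav Gk t f x` is smooth (`Kav_smooth kerOK_Gk`), the derivative in `x` is `t * Kav Gk t (pd i f) x`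
(`pd_Kav`). `lap_Us`: `lap (Us s f) = Us s (lap f) = ∫_0^s t Kav Gk t (lap f) dt = Kav phi s f - f` (`sub_Kav_phi`). `Us_supp`, `Us_congr`: locality
(`Kav_congr`; for `0 ≤ t ≤ s` only points at distance `≤ t ≤ s` matter).
-/

open MeasureTheory Set Metric
open scoped ContDiff

namespace Pool.Agent.Lib.Psd

open Pool.Agent.P28b04d

variable {f g : E → ℝ}

noncomputable def Us (s : ℝ) (f : E → ℝ) (x : E) : ℝ := ∫ t in (0 : ℝ)..s, t * Kav Gk t f x

namespace PotAux

theorem param_smooth {Φ : ℝ × E → ℝ} (hΦ : ContDiff ℝ ∞ Φ) {s : ℝ} (hs : 0 ≤ s) :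
    ContDiff ℝ ∞ (fun y => ∫ t in (0 : ℝ)..s, Φ (t, y)) := by
  have h1 : ContDiffOn ℝ ∞ (fun z : E => ∫ η in Icc (0 : ℝ) s, (fun q : E × ℝ => Φ (q.2, q.1)) (z, η))
      univ :=
    Pool.Agent.Lib.P28e.contDiffOn_param volume isOpen_univ isOpen_univ isCompact_Icc
      (subset_univ _) (hΦ.comp (contDiff_snd.prodMk contDiff_fst)).contDiffOn
  rw [contDiffOn_univ] at h1
  have e : (fun y => ∫ t in (0 : ℝ)..s, Φ (t, y)) =
      fun z : E => ∫ η in Icc (0 : ℝ) s, (fun q : E × ℝ => Φ (q.2, q.1)) (z, η) := by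
    funext y
    rw [intervalIntegral.integral_of_le hs, integral_Icc_eq_integral_Ioc]
  rw [e]
  exact h1

theorem param_deriv {Φ : ℝ × E → ℝ} (hΦ : ContDiff ℝ ∞ Φ) (s : ℝ) (x v : E) :
    fderiv ℝ (fun y => ∫ t in (0 : ℝ)..s, Φ (t, y)) x v =
      ∫ t in (0 : ℝ)..s, fderiv ℝ (fun y => Φ (t, y)) x v := by
  set F' : E → ℝ → E →L[ℝ] ℝ := fun y t =>
    (fderiv ℝ Φ (t, y)).comp (ContinuousLinearMap.inr ℝ ℝ E) with hF'
  have hd : ∀ t y, HasFDerivAt (fun y => Φ (t, y)) (F' y t) y := by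
    intro t y
    exact ((hΦ.differentiable (by simp)) (t, y)).hasFDerivAt.comp y (hasFDerivAt_prodMk_right t y)
  have hc' : Continuous (fun q : E × ℝ => F' q.1 q.2) := by
    have h1 : Continuous (fderiv ℝ Φ) := hΦ.continuous_fderiv (by simp)
    have h2 : Continuous fun q : E × ℝ => fderiv ℝ Φ (q.2, q.1) :=
      h1.comp (continuous_snd.prodMk continuous_fst)
    exact h2.clm_comp continuous_const
  obtain ⟨C, hC⟩ := ((isCompact_closedBall x 1).prod (isCompact_uIcc (a := 0) (b := s))).exists_bound_of_continuousOn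
    hc'.continuousOn
  have key := intervalIntegral.hasFDerivAt_integral_of_dominated_of_fderiv_le
    (μ := volume) (a := 0) (b := s) (s := ball x 1) (x₀ := x) (F := fun y t => Φ (t, y)) (F' := F')
    (bound := fun _ => C) (ball_mem_nhds x one_pos)
    (Filter.Eventually.of_forall fun y =>
      ((hΦ.continuous.comp (continuous_id.prodMk continuous_const)).aestronglyMeasurable))
    ((hΦ.continuous.comp (continuous_id.prodMk continuous_const)).intervalIntegrable _ _)
    ((hc'.comp (continuous_const.prodMk continuous_id)).aestronglyMeasurable)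
    (Filter.Eventually.of_forall fun t ht y hy =>
      hC (y, t) ⟨ball_subset_closedBall hy, uIoc_subset_uIcc ht⟩)
    intervalIntegrable_const
    (Filter.Eventually.of_forall fun t _ y _ => hd t y)
  have hint : IntervalIntegrable (F' x) volume 0 s :=
    (hc'.comp (continuous_const.prodMk continuous_id)).intervalIntegrable _ _
  rw [key.fderiv, ContinuousLinearMap.intervalIntegral_apply hint]
  refine intervalIntegral.integral_congr fun t _ => ?_
  change F' x t v = _
  rw [(hd t x).fderiv]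

theorem Phi_smooth {f : E → ℝ} (hf : ContDiff ℝ ∞ f) :
    ContDiff ℝ ∞ (fun q : ℝ × E => q.1 * Kav Gk q.1 f q.2) :=
  contDiff_fst.mul (Kav_smooth kerOK_Gk hf)

theorem cont_int {f : E → ℝ} (hf : Continuous f) (x : E) :
    Continuous fun t : ℝ => t * Kav Gk t f x :=
  continuous_id.mul ((Kav_continuous kerOK_Gk hf).comp (continuous_id.prodMk continuous_const))

theorem pd_Us {f : E → ℝ} (hf : ContDiff ℝ ∞ f) (s : ℝ) (i : Fin 4) (x : E) :
    pd i (Us s f) x = Us s (pd i f) x := by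
  unfold pd Us
  rw [param_deriv (Phi_smooth hf) s x (ev i)]
  refine intervalIntegral.integral_congr fun t _ => ?_
  simp only
  have hd : DifferentiableAt ℝ (fun y => Kav Gk t f y) x :=
    (((Kav_smooth kerOK_Gk hf).comp (contDiff_const.prodMk contDiff_id)).differentiable
      (by simp)) x
  rw [fderiv_const_mul hd, ContinuousLinearMap.smul_apply, smul_eq_mul]
  congr 1
  exact fderiv_Kav kerOK_Gk hf t x (ev i)

end PotAux

open PotAux

theorem Us_smooth (hf : ContDiff ℝ ∞ f) {s : ℝ} (hs : 0 ≤ s) : ContDiff ℝ ∞ (Us s f) :=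
  param_smooth (Phi_smooth hf) hs

theorem D2_Us (hf : ContDiff ℝ ∞ f) {s : ℝ} (hs : 0 ≤ s) (i j : Fin 4) (x : E) :
    D2 i j (Us s f) x = Us s (D2 i j f) x := by
  unfold D2
  have h : pd j (Us s f) = Us s (pd j f) := funext fun y => pd_Us hf s j y
  rw [h, pd_Us (pd_contDiff hf j) s i x]

theorem Us_sum {ι : Type} (S : Finset ι) {F : ι → E → ℝ} (hF : ∀ i, Continuous (F i)) (s : ℝ) (x : E) :
    Us s (fun y => ∑ i ∈ S, F i y) x = ∑ i ∈ S, Us s (F i) x := by
  unfold Us
  rw [← intervalIntegral.integral_finsetSum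
    fun i _ => (cont_int (hF i) x).intervalIntegrable _ _]
  refine intervalIntegral.integral_congr fun t _ => ?_
  change t * Kav Gk t (fun y => ∑ i ∈ S, F i y) x = ∑ i ∈ S, t * Kav Gk t (F i) x
  rw [Kav_sum S kerOK_Gk hF, Finset.mul_sum]

theorem lap_Us (hf : ContDiff ℝ ∞ f) {s : ℝ} (hs : 0 ≤ s) (x : E) :
    lap (Us s f) x = Kav phi s f x - f x := by
  have h1 : lap (Us s f) x = Us s (lap f) x := by
    have h2 : Us s (lap f) x = ∑ i, Us s (D2 i i f) x :=
      Us_sum Finset.univ (fun i => (D2_contDiff hf i i).continuous) s x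
    rw [h2]
    unfold lap
    exact Finset.sum_congr rfl fun i _ => D2_Us hf hs i i x
  have h3 := sub_Kav_phi hf s x
  rw [h1]
  unfold Us
  linarith

theorem Us_congr {s : ℝ} (hs : 0 ≤ s) {x : E} (h : ∀ y, ‖y - x‖ ≤ s → f y = g y) :
    Us s f x = Us s g x := by
  unfold Us
  refine intervalIntegral.integral_congr fun t ht => ?_
  rw [uIcc_of_le hs] at ht
  change t * Kav Gk t f x = t * Kav Gk t g x
  rw [Kav_congr kerOK_Gk ht.1 fun y hy => h y (hy.trans ht.2)]

theorem Us_supp {R s : ℝ} (hf : ∀ y, R ≤ ‖y‖ → f y = 0) (hs : 0 ≤ s) {x : E} (hx : R + s ≤ ‖x‖) :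
    Us s f x = 0 := by
  have h1 : Us s f x = Us s (fun _ => (0 : ℝ)) x := by
    refine Us_congr hs fun y hy => hf y ?_
    have h2 : ‖x‖ ≤ ‖y‖ + ‖y - x‖ := by
      calc ‖x‖ = ‖y - (y - x)‖ := by rw [sub_sub_cancel]
        _ ≤ ‖y‖ + ‖y - x‖ := norm_sub_le _ _
    linarith
  rw [h1]
  simp [Us, Kav]

theorem Us_const_mul (c s : ℝ) (x : E) : Us s (fun y => c * f y) x = c * Us s f x := by
  unfold Us
  rw [← intervalIntegral.integral_const_mul]
  refine intervalIntegral.integral_congr fun t _ => ?_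
  change t * Kav Gk t (fun y => c * f y) x = c * (t * Kav Gk t f x)
  rw [Kav_const_mul]
  ring

end Pool.Agent.Lib.Psd
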