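import Pool.Agent.Lib.Psd.CmpF

set_option autoImplicit false

/-!
# The pointwise inequality

PROOF. Fix `x` and the frame of `chart_frame`. Let `τ = cmp (dd α y) p q`, `τ₀ = cmp (dd a0 y) p q = ρ^-2 c0`, `σ = τ - τ₀ = cmp (dd (α - a0) y) p q` (`dd_sub`). `t = tr .. σ`, `Pf t = (a d)^2 Pf σ = ρ^-2 Pf σ`.
`asd σ = asd τ` (`asd c0 = 0`), so `nrm2 (asd σ) ≤ κ^2 nrm2 (sd τ) ≤ 2 κ^2 (nrm2 (sd σ) + nrm2 (sd τ₀)) = 2 κ^2 (nrm2 (sd σ) + 16 ρ^-4)`. With `S = nrm2 (sd σ)`, `N = nrm2 (asd σ)`, `4 Pf σ = S - N`: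
`S = 4 Pf σ + N ≤ 4 Pf σ + 2 κ^2 S + 32 κ^2 ρ^-4`, `κ ≤ 1/4` so `(7/8) S ≤ 4 Pf σ + 32 κ^2 ρ^-4`, hence `0 ≤ 4 Pf σ + 32 κ^2 ρ^-4`, `S ≤ 2 (4 Pf σ + 32 κ^2 ρ^-4)`,
`N = S - 4 Pf σ ≤ 4 Pf σ + 64 κ^2 ρ^-4`, `S + N ≤ 12 Pf σ + 128 κ^2 ρ^-4`. Multiply by `ρ^-2` (`(ρ^2)^3 = (1 + ‖x‖^2)^3`): `0 ≤ ρ^-2 nrm2 σ ≤ 4 (3 Pf t + 32 κ^2 ρ^-6)`, and for `‖x‖ ≤ 1`, `ρ^2 ≤ 2`:
`nrm2 t ≤ C nrm2 σ ≤ 2 C ρ^-2 nrm2 σ`. A constant `C ≥ 32` that works for the second inequality also works for the first.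
-/

open MeasureTheory Set Metric
open scoped ContDiff

namespace Pool.Agent.Lib.Psd

open Pool.Agent.P28b04d

namespace PtwAux

theorem arith {k2 S N P q : ℝ} (hk : 0 ≤ k2) (hk' : k2 ≤ 1 / 16) (hS : 0 ≤ S) (hq : 0 < q)
    (hN : N ≤ k2 * (2 * S + 32 * q ^ 2)) (h4 : 4 * P = S - N) :
    0 ≤ 3 * P + 48 * k2 * q ^ 2 ∧ S + N ≤ 2 * (3 * P + 48 * k2 * q ^ 2) := by
  have h1 : k2 * S ≤ 1 / 16 * S := mul_le_mul_of_nonneg_right hk' hS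
  have h2 : 0 ≤ k2 * q ^ 2 := by positivity
  constructor
  · nlinarith
  · nlinarith

end PtwAux

open PtwAux

theorem ptw : ∃ C : ℝ, 1 ≤ C ∧ ∀ κ : ℝ, 0 ≤ κ → κ ≤ 1 / 4 → ∀ α : W → W →L[ℝ] ℝ, Conn α → Pinched κ α →
    ∀ z u v : W, ON3 z u v → ∀ x : E,
      0 ≤ 3 * Pf (fun i j => co (ch (fun y => α y - a0 y) z u v) i j x) + C * κ ^ 2 * ((1 + ‖x‖ ^ 2) ^ 3)⁻¹ ∧
      (‖x‖ ≤ 1 → nrm2 (fun i j => co (ch (fun y => α y - a0 y) z u v) i j x) ≤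
        C * (3 * Pf (fun i j => co (ch (fun y => α y - a0 y) z u v) i j x) +
          C * κ ^ 2 * ((1 + ‖x‖ ^ 2) ^ 3)⁻¹)) := by
  obtain ⟨C1, hC1, htr⟩ := tr_le
  refine ⟨48 + 4 * C1, by linarith, ?_⟩
  intro κ hκ hκ' α hα hpin z u v h x
  obtain ⟨p, q, a, d, m₁, m₂, ρ, hρ, hρ2, hON, ha, ha1, hd, hd1, hm1, hm2, hρad, -, -, -, -,
    hco, ha0, hpn⟩ := chart_frame h x
  have hy0 : sig z u v x ≠ 0 := sig_ne h x
  have hβ : Basic (fun y => α y - a0 y) := hα.sub a0_conn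
  set y := sig z u v x with hy
  set σ : Fin 4 → Fin 4 → ℝ := cmp (dd (fun y => α y - a0 y) y) p q with hσ
  set τ : Fin 4 → Fin 4 → ℝ := cmp (dd α y) p q with hτ
  have ht : (fun i j => co (ch (fun y => α y - a0 y) z u v) i j x) = tr a d m₁ m₂ σ := by
    funext i j
    exact hco _ hβ.smooth (fun c w => hβ.dd_left hy0 c w) i j
  set qq : ℝ := (ρ ^ 2)⁻¹ with hqq
  have hqpos : 0 < qq := by rw [hqq]; positivity
  have hσs : Skew σ := fun i j => dd_skew _ _ _ _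
  have hτσ : τ = fun i j => σ i j + qq * c0 i j := by
    funext i j
    have e1 : σ i j = τ i j - cmp (dd a0 y) p q i j := by
      rw [hσ, hτ]
      exact dd_sub hα.smooth a0_conn.smooth hy0 _ _
    rw [e1, ha0 i j]
    ring
  obtain ⟨hc1, hc2, hc3, hc4, hc5⟩ := c0_facts
  have hasd : asd τ = asd σ := by
    funext i j
    rw [hτσ, asd_add σ (fun i j => qq * c0 i j) i j, asd_smul qq c0 i j, hc3]
    ring
  have hsd : sd τ = fun i j => sd σ i j + qq * c0 i j := by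
    funext i j
    rw [hτσ, sd_add σ (fun i j => qq * c0 i j) i j, sd_smul qq c0 i j, hc4]
  have hsm : nrm2 (fun i j => qq * c0 i j) = qq ^ 2 * 16 := by
    rw [← hc2]
    unfold nrm2
    rw [Finset.mul_sum]
    refine Finset.sum_congr rfl fun i _ => ?_
    rw [Finset.mul_sum]
    refine Finset.sum_congr rfl fun j _ => ?_
    ring
  have hNle : nrm2 (asd σ) ≤ κ ^ 2 * (2 * nrm2 (sd σ) + 32 * qq ^ 2) := by
    have h1 := hpn κ α hα hpin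
    rw [← hτ, hasd] at h1
    refine h1.trans (mul_le_mul_of_nonneg_left ?_ (sq_nonneg κ))
    rw [hsd]
    refine (nrm2_add (sd σ) (fun i j => qq * c0 i j)).trans (le_of_eq ?_)
    rw [hsm]
    ring
  have hk2 : κ ^ 2 ≤ 1 / 16 := by nlinarith
  obtain ⟨b1, b2⟩ := arith (sq_nonneg κ) hk2 (nrm2_nonneg (sd σ)) hqpos hNle (Pf_split hσs)
  have hPft : Pf (tr a d m₁ m₂ σ) = qq * Pf σ := by
    rw [Pf_tr hσs]
    congr 1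
    rw [hqq]
    refine eq_inv_of_mul_eq_one_left ?_
    calc (a * d) ^ 2 * ρ ^ 2 = (ρ * a * d) ^ 2 := by ring
      _ = 1 := by rw [hρad]; norm_num
  have hq3 : ((1 + ‖x‖ ^ 2) ^ 3)⁻¹ = qq ^ 3 := by
    rw [hqq, ← hρ2, inv_pow]
  rw [ht, hPft, hq3]
  have hk0 : 0 ≤ κ ^ 2 := sq_nonneg κ
  have c1 : 0 ≤ qq * (3 * Pf σ + 48 * κ ^ 2 * qq ^ 2) := mul_nonneg hqpos.le b1
  have c2 : 3 * (qq * Pf σ) + (48 + 4 * C1) * κ ^ 2 * qq ^ 3 =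
      qq * (3 * Pf σ + 48 * κ ^ 2 * qq ^ 2) + 4 * C1 * κ ^ 2 * qq ^ 3 := by ring
  have c3 : 0 ≤ 4 * C1 * κ ^ 2 * qq ^ 3 := by
    have : 0 ≤ C1 := by linarith
    positivity
  refine ⟨by rw [c2]; linarith, fun hx => ?_⟩
  have hq2 : 1 ≤ 2 * qq := by
    have h1 : ρ ^ 2 ≤ 2 := by
      rw [hρ2]; nlinarith [norm_nonneg x]
    rw [hqq, ← div_eq_mul_inv, le_div_iff₀ (by positivity)]
    linarith
  have d1 : nrm2 (tr a d m₁ m₂ σ) ≤ C1 * nrm2 σ :=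
    htr a d m₁ m₂ (by rw [abs_of_pos ha]; exact ha1) (by rw [abs_of_pos hd]; exact hd1) hm1 hm2 σ
  have d2 : nrm2 σ ≤ 4 * (qq * (3 * Pf σ + 48 * κ ^ 2 * qq ^ 2)) := by
    rw [nrm2_split hσs]
    refine b2.trans ?_
    have := mul_le_mul_of_nonneg_right hq2 b1
    linarith
  rw [c2]
  have hC0 : 0 ≤ C1 := by linarith
  calc nrm2 (tr a d m₁ m₂ σ) ≤ C1 * nrm2 σ := d1
    _ ≤ C1 * (4 * (qq * (3 * Pf σ + 48 * κ ^ 2 * qq ^ 2))) := mul_le_mul_of_nonneg_left d2 hC0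
    _ = 4 * C1 * (qq * (3 * Pf σ + 48 * κ ^ 2 * qq ^ 2)) := by ring
    _ ≤ (48 + 4 * C1) * (qq * (3 * Pf σ + 48 * κ ^ 2 * qq ^ 2) + 4 * C1 * κ ^ 2 * qq ^ 3) := by
        refine mul_le_mul (by linarith) (by linarith) c1 (by linarith)

end Pool.Agent.Lib.Psd
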