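import Pool.Agent.Lib.Psd.Pot

set_option autoImplicit false

/-!
# The representation formula

PROOF. `sub_Kav_phi` for `T k`: `T k x - Kav phi s (T k) x = - ∫_0^s t Kav Gk t (lap (T k)) x dt`, `s = r / 4`. By `Sys.eq`, `lap (T k) = ∑ cf * D2 i j (B m)`; for `‖y - x‖ ≤ s`,
`‖x‖ < r / 4` we have `‖y‖ < r / 2`, and `cutf r = 1` in a neighbourhood of such `y` (`‖y'‖ ≤ 3 r / 4`), so `D2 i j (B m) y = D2 i j (cutf r * B m) y` (`Filter.EventuallyEq.fderiv_eq`).
Hence (`Us_congr`, `Us_sum`, `Us_const_mul`, `D2_Us`) the right side is `- ∑ cf k i j m * D2 i j (Us s (cutf r * B m)) x`.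
-/

open MeasureTheory Set Metric
open scoped ContDiff

namespace Pool.Agent.Lib.Psd

open Pool.Agent.P28b04d

theorem cutf_contDiff (r : ℝ) : ContDiff ℝ ∞ (cutf r) := by
  unfold cutf
  exact Real.smoothTransition.contDiff.comp
    (contDiff_const.mul (contDiff_const.sub ((contDiff_norm_sq ℝ).div_const _)))

theorem cutf_one {r : ℝ} (hr : 0 < r) {x : E} (hx : ‖x‖ ≤ 3 * r / 4) : cutf r x = 1 := by
  unfold cutf
  refine Real.smoothTransition.one_of_one_le ?_
  have h1 : ‖x‖ ^ 2 / r ^ 2 ≤ 9 / 16 := by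
    rw [div_le_div_iff₀ (by positivity) (by norm_num)]
    nlinarith [norm_nonneg x]
  linarith

theorem cutf_zero {r : ℝ} (hr : 0 < r) {x : E} (hx : r ≤ ‖x‖) : cutf r x = 0 := by
  unfold cutf
  refine Real.smoothTransition.zero_of_nonpos ?_
  have h1 : 1 ≤ ‖x‖ ^ 2 / r ^ 2 := by
    rw [le_div_iff₀ (by positivity)]
    nlinarith [norm_nonneg x]
  linarith

theorem cutf_mem (r : ℝ) (x : E) : 0 ≤ cutf r x ∧ cutf r x ≤ 1 :=
  ⟨Real.smoothTransition.nonneg _, Real.smoothTransition.le_one _⟩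

namespace RepAux

theorem D2_congr {f g : E → ℝ} {x : E} (h : f =ᶠ[nhds x] g) (i j : Fin 4) :
    D2 i j f x = D2 i j g x := by
  have h1 : (pd j f) =ᶠ[nhds x] (pd j g) := by
    have := h.fderiv (𝕜 := ℝ)
    filter_upwards [this] with y hy
    unfold pd
    rw [hy]
  unfold D2
  have h2 := h1.fderiv_eq (𝕜 := ℝ)
  unfold pd at h2 ⊢
  rw [h2]

end RepAux

theorem rep {K M : Type} [Fintype M] {cf : K → Fin 4 → Fin 4 → M → ℝ} {T : K → E → ℝ} {B : M → E → ℝ}
    (h : Sys cf T B) {r : ℝ} (hr : 0 < r) {x : E} (hx : ‖x‖ < r / 4) (k : K) :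
    T k x - Kav phi (r / 4) (T k) x =
      -∑ i, ∑ j, ∑ m, cf k i j m * D2 i j (Us (r / 4) (fun y => cutf r y * B m y)) x := by
  have hs : (0 : ℝ) ≤ r / 4 := by positivity
  have hF : ∀ m, ContDiff ℝ ∞ (fun y => cutf r y * B m y) := fun m => (cutf_contDiff r).mul (h.sB m)
  have hD : ∀ i j m, Continuous (fun y => D2 i j (fun y => cutf r y * B m y) y) := fun i j m =>
    (D2_contDiff (hF m) i j).continuous
  rw [sub_Kav_phi (h.sT k)]
  change -Us (r / 4) (lap (T k)) x = _
  congr 1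
  have e1 : Us (r / 4) (lap (T k)) x = Us (r / 4)
      (fun y => ∑ i, ∑ j, ∑ m, cf k i j m * D2 i j (fun y => cutf r y * B m y) y) x := by
    refine Us_congr hs fun y hy => ?_
    rw [h.eq k y]
    refine Finset.sum_congr rfl fun i _ => Finset.sum_congr rfl fun j _ =>
      Finset.sum_congr rfl fun m _ => ?_
    congr 1
    refine RepAux.D2_congr ?_ i j
    have hyn : ‖y‖ < 3 * r / 4 := by
      have : ‖y‖ ≤ ‖y - x‖ + ‖x‖ := by
        calc ‖y‖ = ‖(y - x) + x‖ := by rw [sub_add_cancel]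
          _ ≤ _ := norm_add_le _ _
      linarith
    have ho : {z : E | ‖z‖ < 3 * r / 4} ∈ nhds y :=
      (isOpen_lt continuous_norm continuous_const).mem_nhds hyn
    filter_upwards [ho] with z hz
    rw [cutf_one hr (le_of_lt hz), one_mul]
  rw [e1]
  have hc : ∀ i j m, Continuous (fun y => cf k i j m * D2 i j (fun y => cutf r y * B m y) y) :=
    fun i j m => continuous_const.mul (hD i j m)
  have hc2 : ∀ i j, Continuous (fun y => ∑ m, cf k i j m * D2 i j (fun y => cutf r y * B m y) y) :=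
    fun i j => continuous_finsetSum _ fun m _ => hc i j m
  have hc3 : ∀ i, Continuous (fun y => ∑ j, ∑ m, cf k i j m * D2 i j (fun y => cutf r y * B m y) y) :=
    fun i => continuous_finsetSum _ fun j _ => hc2 i j
  rw [Us_sum Finset.univ (F := fun i y => ∑ j, ∑ m, cf k i j m * D2 i j (fun y => cutf r y * B m y) y)
    hc3]
  refine Finset.sum_congr rfl fun i _ => ?_
  rw [Us_sum Finset.univ (F := fun j y => ∑ m, cf k i j m * D2 i j (fun y => cutf r y * B m y) y)
    (hc2 i)]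
  refine Finset.sum_congr rfl fun j _ => ?_
  rw [Us_sum Finset.univ (F := fun m y => cf k i j m * D2 i j (fun y => cutf r y * B m y) y)
    (hc i j)]
  refine Finset.sum_congr rfl fun m _ => ?_
  rw [Us_const_mul, D2_Us (hF m) hs]

end Pool.Agent.Lib.Psd
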