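import Pool.Agent.Lib.Psd.L2b
import Pool.Agent.Lib.Psd.NearC

set_option autoImplicit false

/-!
# One step of the iteration

PROOF. `c' k = Kav phi (r/4) (T k) 0`. Cauchy-Schwarz on the ball (`volume.real (ball 0 r) = (π^2/2) r^4`, any upper and lower bound `C r^4` is enough): `r^-4 ∫_{B(0,r)} |T k - c k| ≤ C δ ‖c‖`, so `near` gives
`|c' k - c k| ≤ C δ ‖c‖` and, for `‖x‖ ≤ θ r ≤ r/4`, `|Kav phi (r/4) (T k) x - c' k| ≤ C θ δ ‖c‖`. `l2b` and the pinching: `∫_{B(0,θ r)} (T k - Kav phi (r/4) (T k))^2 ≤ ∫_{B(0,r/4)} ... ≤ C ∑_m ∫_{B(0,r)} (B m)^2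
≤ C κ^2 ∫_{B(0,r)} ‖T‖^2 ≤ C κ^2 ∑_k ∫ (T k)^2 ≤ C κ^2 (∑_k 2 ∫ (T k - c k)^2 + 2 |K| ‖c‖^2 vol) ≤ C κ^2 ‖c‖^2 r^4` (`δ ≤ 1`), and `r^4 = θ^-4 (θ r)^4`. Then `(a + b)^2 ≤ 2 a^2 + 2 b^2`.
(`‖fun k => T k x‖^2 ≤ ∑_k (T k x)^2`.)
-/

open MeasureTheory Set Metric
open scoped ContDiff

namespace Pool.Agent.Lib.Psd

open Pool.Agent.P28b04d

namespace Step1Aux

noncomputable def V0 : ℝ := volume.real (ball (0 : E) 1)

theorem V0_nonneg : 0 ≤ V0 := measureReal_nonneg

theorem V0_pos : 0 < V0 := by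
  unfold V0
  rw [measureReal_def]
  exact ENNReal.toReal_pos (measure_ball_pos volume (0 : E) one_pos).ne' measure_ball_lt_top.ne

theorem vol_ball {r : ℝ} (hr : 0 < r) : volume.real (ball (0 : E) r) = V0 * r ^ 4 := by
  unfold V0
  rw [measureReal_def, Measure.addHaar_ball_of_pos _ _ hr, ENNReal.toReal_mul, ← measureReal_def,
    ENNReal.toReal_ofReal (by positivity), finrank_euclideanSpace_fin]
  ring

theorem iOn {f : E → ℝ} (hf : Continuous f) (r : ℝ) : IntegrableOn f (ball (0 : E) r) :=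
  (hf.continuousOn.integrableOn_compact (isCompact_closedBall (0 : E) r)).mono_set ball_subset_closedBall

/-- Cauchy-Schwarz on the ball. -/
theorem cs {g : E → ℝ} (hg : Continuous g) {r : ℝ} (hr : 0 < r) :
    (∫ x in ball (0 : E) r, |g x|) ^ 2 ≤ V0 * r ^ 4 * ∫ x in ball (0 : E) r, (g x) ^ 2 := by
  set I := ∫ x in ball (0 : E) r, |g x| with hI
  set v := V0 * r ^ 4 with hv
  have hvp : 0 < v := mul_pos V0_pos (pow_pos hr 4)
  set a := I / v with ha
  have h0 : 0 ≤ ∫ x in ball (0 : E) r, (|g x| - a) ^ 2 := integral_nonneg fun x => sq_nonneg _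
  have h1 : ∫ x in ball (0 : E) r, (|g x| - a) ^ 2 =
      (∫ x in ball (0 : E) r, (g x) ^ 2) - 2 * a * I + a ^ 2 * v := by
    have : ∀ x, (|g x| - a) ^ 2 = ((g x) ^ 2 - (2 * a) * |g x|) + a ^ 2 := by
      intro x
      have := sq_abs (g x)
      nlinarith
    have i1 : IntegrableOn (fun x => (g x) ^ 2) (ball (0 : E) r) := iOn (by fun_prop) r
    have i2 : IntegrableOn (fun x => 2 * a * |g x|) (ball (0 : E) r) :=
      iOn (continuous_const.mul hg.abs) r
    have i3 : IntegrableOn (fun _ : E => a ^ 2) (ball (0 : E) r) := iOn continuous_const r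
    simp only [this]
    have e1 : ∫ x in ball (0 : E) r, (g x ^ 2 - 2 * a * |g x| + a ^ 2) =
        (∫ x in ball (0 : E) r, (g x ^ 2 - 2 * a * |g x|)) + ∫ _x in ball (0 : E) r, a ^ 2 :=
      integral_add (i1.sub i2) i3
    have e2 : ∫ x in ball (0 : E) r, (g x ^ 2 - 2 * a * |g x|) =
        (∫ x in ball (0 : E) r, g x ^ 2) - ∫ x in ball (0 : E) r, 2 * a * |g x| :=
      integral_sub i1 i2
    rw [e1, e2, integral_const_mul, setIntegral_const, vol_ball hr, smul_eq_mul]
    ring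
  rw [h1] at h0
  have h2 : a * v = I := by rw [ha]; field_simp
  nlinarith [h0, h2]

end Step1Aux

open Step1Aux

theorem step {K M : Type} [Fintype K] [Fintype M] (cf : K → Fin 4 → Fin 4 → M → ℝ) :
    ∃ C : ℝ, 1 ≤ C ∧ ∀ (T : K → E → ℝ) (B : M → E → ℝ), Sys cf T B → ∀ (c : K → ℝ) (r δ κ θ : ℝ),
      0 < r → 0 ≤ δ → δ ≤ 1 → 0 ≤ κ → 0 < θ → θ ≤ 1 / 4 →
      (∀ m x, ‖x‖ < r → |B m x| ≤ κ * ‖fun k => T k x‖) →
      (∀ k, ∫ x in ball (0 : E) r, (T k x - c k) ^ 2 ≤ (δ * ‖c‖) ^ 2 * r ^ 4) →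
      ∃ c' : K → ℝ, ‖c' - c‖ ≤ C * δ * ‖c‖ ∧
        ∀ k, ∫ x in ball (0 : E) (θ * r), (T k x - c' k) ^ 2 ≤
          (C * (θ * δ + κ / θ ^ 2) * ‖c‖) ^ 2 * (θ * r) ^ 4 := by
  obtain ⟨C1, hC1, hnear⟩ := near
  obtain ⟨C2, hC2, hl2⟩ := l2b cf
  have hV := V0_nonneg
  set S := Real.sqrt V0 with hS
  have hS0 : 0 ≤ S := Real.sqrt_nonneg _
  have hSS : S ^ 2 = V0 := Real.sq_sqrt hV
  set nK : ℝ := (Fintype.card K : ℝ) with hnK
  set nM : ℝ := (Fintype.card M : ℝ) with hnM
  have hnK0 : 0 ≤ nK := Nat.cast_nonneg _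
  have hnM0 : 0 ≤ nM := Nat.cast_nonneg _
  set P : ℝ := 4 * C2 * nM * nK * (1 + V0) with hP
  have hP0 : 0 ≤ P := by positivity
  set C : ℝ := 1 + P + C1 * S + 2 * C1 * V0 with hC
  have hCS : 0 ≤ C1 * S := by positivity
  have hCV : 0 ≤ C1 * V0 := by positivity
  have hC1' : 1 ≤ C := by linarith
  refine ⟨C, hC1', ?_⟩
  intro T B hs c r δ κ θ hr hδ hδ1 hκ hθ hθ4 hpin hL
  have hTc : ∀ k, Continuous (T k) := fun k => (hs.sT k).continuous
  have hBc : ∀ m, Continuous (B m) := fun m => (hs.sB m).continuous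
  have hr4 : 0 < r ^ 4 := pow_pos hr 4
  have hcn : 0 ≤ ‖c‖ := norm_nonneg c
  -- mean deviation
  have hA : ∀ k, (r ^ 4)⁻¹ * ∫ y in ball (0 : E) r, |T k y - c k| ≤ S * δ * ‖c‖ := by
    intro k
    have h1 := cs ((hTc k).sub continuous_const : Continuous fun y => T k y - c k) hr
    have h2 : (∫ y in ball (0 : E) r, |T k y - c k|) ^ 2 ≤ (S * δ * ‖c‖ * r ^ 4) ^ 2 := by
      calc (∫ y in ball (0 : E) r, |T k y - c k|) ^ 2
          ≤ V0 * r ^ 4 * ∫ y in ball (0 : E) r, (T k y - c k) ^ 2 := h1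
        _ ≤ V0 * r ^ 4 * ((δ * ‖c‖) ^ 2 * r ^ 4) := by
            gcongr
            exact hL k
        _ = (S * δ * ‖c‖ * r ^ 4) ^ 2 := by rw [← hSS]; ring
    have h3 : ∫ y in ball (0 : E) r, |T k y - c k| ≤ S * δ * ‖c‖ * r ^ 4 :=
      le_of_sq_le_sq h2 (by positivity)
    rw [inv_mul_le_iff₀ hr4]
    linarith
  have hA0 : ∀ k, 0 ≤ (r ^ 4)⁻¹ * ∫ y in ball (0 : E) r, |T k y - c k| := fun k =>
    mul_nonneg (by positivity) (integral_nonneg fun _ => abs_nonneg _)
  refine ⟨fun k => Kav phi (r / 4) (T k) 0, ?_, ?_⟩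
  · rw [pi_norm_le_iff_of_nonneg (by positivity)]
    intro k
    rw [Pi.sub_apply, Real.norm_eq_abs]
    calc |Kav phi (r / 4) (T k) 0 - c k| ≤ C1 * ((r ^ 4)⁻¹ * ∫ y in ball (0 : E) r, |T k y - c k|) :=
          (hnear (T k) (hTc k) (c k) r hr).1
      _ ≤ C1 * (S * δ * ‖c‖) := mul_le_mul_of_nonneg_left (hA k) hC1
      _ = (C1 * S) * (δ * ‖c‖) := by ring
      _ ≤ C * (δ * ‖c‖) := by
          apply mul_le_mul_of_nonneg_right _ (by positivity)
          linarith
      _ = C * δ * ‖c‖ := by ring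
  · intro k
    set c' := Kav phi (r / 4) (T k) 0 with hc'
    set G : E → ℝ := fun x => Kav phi (r / 4) (T k) x with hG
    have hGc : Continuous G := by
      have := (Kav_continuous kerOK_phi (hTc k)).comp (Continuous.prodMk continuous_const continuous_id :
        Continuous fun x : E => ((r / 4 : ℝ), x))
      exact this
    have hθr : 0 < θ * r := mul_pos hθ hr
    have hsub : ball (0 : E) (θ * r) ⊆ ball (0 : E) (r / 4) := ball_subset_ball (by nlinarith)
    -- decomposition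
    have hdec : ∫ x in ball (0 : E) (θ * r), (T k x - c') ^ 2 ≤
        2 * (∫ x in ball (0 : E) (θ * r), (T k x - G x) ^ 2) +
        2 * ∫ x in ball (0 : E) (θ * r), (G x - c') ^ 2 := by
      have i1 : IntegrableOn (fun x => 2 * (T k x - G x) ^ 2) (ball (0 : E) (θ * r)) :=
        iOn (continuous_const.mul (((hTc k).sub hGc).pow 2)) _
      have i2 : IntegrableOn (fun x => 2 * (G x - c') ^ 2) (ball (0 : E) (θ * r)) :=
        iOn (continuous_const.mul ((hGc.sub continuous_const).pow 2)) _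
      have e1 : ∫ x in ball (0 : E) (θ * r), (2 * (T k x - G x) ^ 2 + 2 * (G x - c') ^ 2) =
          (∫ x in ball (0 : E) (θ * r), 2 * (T k x - G x) ^ 2) +
            ∫ x in ball (0 : E) (θ * r), 2 * (G x - c') ^ 2 := integral_add i1 i2
      rw [← integral_const_mul, ← integral_const_mul, ← e1]
      refine integral_mono (iOn (((hTc k).sub continuous_const).pow 2) _)
        (i1.add i2) fun x => ?_
      simp only
      nlinarith [sq_nonneg ((T k x - G x) - (G x - c'))]
    -- second part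
    have h2 : ∫ x in ball (0 : E) (θ * r), (G x - c') ^ 2 ≤
        (C1 * (θ * (S * δ * ‖c‖))) ^ 2 * (V0 * (θ * r) ^ 4) := by
      have : ∫ x in ball (0 : E) (θ * r), (G x - c') ^ 2 ≤
          ∫ x in ball (0 : E) (θ * r), (C1 * (θ * (S * δ * ‖c‖))) ^ 2 := by
        refine setIntegral_mono_on (iOn ((hGc.sub continuous_const).pow 2) _)
          (iOn continuous_const _) measurableSet_ball fun x hx => ?_
        rw [mem_ball, dist_zero_right] at hx
        have hx4 : ‖x‖ ≤ r / 4 := by nlinarith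
        have h3 := (hnear (T k) (hTc k) (c k) r hr).2 x hx4
        have h4 : |G x - c'| ≤ C1 * (θ * (S * δ * ‖c‖)) := by
          calc |G x - c'| ≤ C1 * (‖x‖ / r) * ((r ^ 4)⁻¹ * ∫ y in ball (0 : E) r, |T k y - c k|) := h3
            _ ≤ C1 * θ * (S * δ * ‖c‖) := by
                have h5 : ‖x‖ / r ≤ θ := by rw [div_le_iff₀ hr]; exact hx.le
                exact mul_le_mul (mul_le_mul_of_nonneg_left h5 hC1) (hA k) (hA0 k) (by positivity)
            _ = C1 * (θ * (S * δ * ‖c‖)) := by ring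
        rw [← sq_abs]
        exact pow_le_pow_left₀ (abs_nonneg _) h4 2
      refine this.trans ?_
      rw [setIntegral_const, vol_ball hθr, smul_eq_mul]
      linarith
    -- first part
    have h1 : ∫ x in ball (0 : E) (θ * r), (T k x - G x) ^ 2 ≤
        C2 * (nM * (κ ^ 2 * (nK * (2 * ((δ * ‖c‖) ^ 2 * r ^ 4) + 2 * (‖c‖ ^ 2 * (V0 * r ^ 4)))))) := by
      calc ∫ x in ball (0 : E) (θ * r), (T k x - G x) ^ 2
          ≤ ∫ x in ball (0 : E) (r / 4), (T k x - G x) ^ 2 :=
            setIntegral_mono_set (iOn (((hTc k).sub hGc).pow 2) _)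
              (Filter.Eventually.of_forall fun x => sq_nonneg _) hsub.eventuallyLE
        _ ≤ C2 * ∑ m, ∫ x in ball (0 : E) r, (B m x) ^ 2 := hl2 T B hs r hr k
        _ ≤ C2 * (nM * (κ ^ 2 * (nK * (2 * ((δ * ‖c‖) ^ 2 * r ^ 4) +
              2 * (‖c‖ ^ 2 * (V0 * r ^ 4)))))) := by
            apply mul_le_mul_of_nonneg_left _ hC2
            have hTT : ∀ j, ∫ x in ball (0 : E) r, (T j x) ^ 2 ≤
                2 * ((δ * ‖c‖) ^ 2 * r ^ 4) + 2 * (‖c‖ ^ 2 * (V0 * r ^ 4)) := by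
              intro j
              calc ∫ x in ball (0 : E) r, (T j x) ^ 2
                  ≤ ∫ x in ball (0 : E) r, (2 * (T j x - c j) ^ 2 + 2 * ‖c‖ ^ 2) := by
                    refine integral_mono (iOn ((hTc j).pow 2) _) (iOn ((continuous_const.mul
                      (((hTc j).sub continuous_const).pow 2)).add continuous_const) _) fun x => ?_
                    have h5 : c j ^ 2 ≤ ‖c‖ ^ 2 := by
                      rw [← sq_abs]
                      exact pow_le_pow_left₀ (abs_nonneg _) (norm_le_pi_norm c j) 2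
                    simp only
                    nlinarith [sq_nonneg (T j x - 2 * c j)]
                _ = 2 * (∫ x in ball (0 : E) r, (T j x - c j) ^ 2) + 2 * ‖c‖ ^ 2 * (V0 * r ^ 4) := by
                    have i1 : IntegrableOn (fun x => 2 * (T j x - c j) ^ 2) (ball (0 : E) r) :=
                      iOn (continuous_const.mul (((hTc j).sub continuous_const).pow 2)) _
                    have i2 : IntegrableOn (fun _ : E => 2 * ‖c‖ ^ 2) (ball (0 : E) r) :=
                      iOn continuous_const _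
                    have e1 : ∫ x in ball (0 : E) r, (2 * (T j x - c j) ^ 2 + 2 * ‖c‖ ^ 2) =
                        (∫ x in ball (0 : E) r, 2 * (T j x - c j) ^ 2) +
                          ∫ _x in ball (0 : E) r, 2 * ‖c‖ ^ 2 := integral_add i1 i2
                    rw [e1, integral_const_mul, setIntegral_const, vol_ball hr, smul_eq_mul]
                    ring
                _ ≤ 2 * ((δ * ‖c‖) ^ 2 * r ^ 4) + 2 * (‖c‖ ^ 2 * (V0 * r ^ 4)) := by
                    have := hL j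
                    linarith
            have hBm : ∀ m, ∫ x in ball (0 : E) r, (B m x) ^ 2 ≤
                κ ^ 2 * (nK * (2 * ((δ * ‖c‖) ^ 2 * r ^ 4) + 2 * (‖c‖ ^ 2 * (V0 * r ^ 4)))) := by
              intro m
              calc ∫ x in ball (0 : E) r, (B m x) ^ 2
                  ≤ ∫ x in ball (0 : E) r, κ ^ 2 * ∑ j, (T j x) ^ 2 := by
                    refine setIntegral_mono_on (iOn ((hBc m).pow 2) _)
                      (iOn (continuous_const.mul (continuous_finsetSum _ fun j _ => (hTc j).pow 2)) _)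
                      measurableSet_ball fun x hx => ?_
                    rw [mem_ball, dist_zero_right] at hx
                    have h5 := hpin m x hx
                    have h6 : ‖fun j => T j x‖ ^ 2 ≤ ∑ j, (T j x) ^ 2 := by
                      have h7 : ‖fun j => T j x‖ ≤ Real.sqrt (∑ j, (T j x) ^ 2) := by
                        rw [pi_norm_le_iff_of_nonneg (Real.sqrt_nonneg _)]
                        intro j
                        rw [Real.norm_eq_abs]
                        apply Real.le_sqrt_of_sq_le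
                        rw [sq_abs]
                        exact Finset.single_le_sum (f := fun j => (T j x) ^ 2)
                          (fun i _ => sq_nonneg _) (Finset.mem_univ j)
                      calc ‖fun j => T j x‖ ^ 2 ≤ Real.sqrt (∑ j, (T j x) ^ 2) ^ 2 :=
                            pow_le_pow_left₀ (norm_nonneg _) h7 2
                        _ = _ := Real.sq_sqrt (Finset.sum_nonneg fun i _ => sq_nonneg _)
                    calc (B m x) ^ 2 = |B m x| ^ 2 := (sq_abs _).symm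
                      _ ≤ (κ * ‖fun j => T j x‖) ^ 2 := pow_le_pow_left₀ (abs_nonneg _) h5 2
                      _ = κ ^ 2 * ‖fun j => T j x‖ ^ 2 := by ring
                      _ ≤ κ ^ 2 * ∑ j, (T j x) ^ 2 := by gcongr
                _ = κ ^ 2 * ∑ j, ∫ x in ball (0 : E) r, (T j x) ^ 2 := by
                    have e1 : ∫ x in ball (0 : E) r, (∑ j, (T j x) ^ 2) =
                        ∑ j, ∫ x in ball (0 : E) r, (T j x) ^ 2 :=
                      integral_finsetSum _ fun j _ => iOn ((hTc j).pow 2) _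
                    rw [integral_const_mul, e1]
                _ ≤ κ ^ 2 * ∑ _j : K, (2 * ((δ * ‖c‖) ^ 2 * r ^ 4) + 2 * (‖c‖ ^ 2 * (V0 * r ^ 4))) := by
                    gcongr with j hj
                    exact hTT j
                _ = _ := by
                    rw [Finset.sum_const, Finset.card_univ, nsmul_eq_mul]
            calc ∑ m, ∫ x in ball (0 : E) r, (B m x) ^ 2
                ≤ ∑ _m : M, κ ^ 2 * (nK * (2 * ((δ * ‖c‖) ^ 2 * r ^ 4) +
                  2 * (‖c‖ ^ 2 * (V0 * r ^ 4)))) := Finset.sum_le_sum fun m _ => hBm m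
              _ = _ := by rw [Finset.sum_const, Finset.card_univ, nsmul_eq_mul]
    -- conclusion
    set a := θ * δ with ha
    set b := κ / θ ^ 2 with hb
    have ha0 : 0 ≤ a := by positivity
    have hb0 : 0 ≤ b := by positivity
    set X := ‖c‖ ^ 2 * (θ * r) ^ 4 with hX
    have hX0 : 0 ≤ X := by positivity
    have hfirst : C2 * (nM * (κ ^ 2 * (nK * (2 * ((δ * ‖c‖) ^ 2 * r ^ 4) + 2 * (‖c‖ ^ 2 * (V0 * r ^ 4)))))) ≤
        P / 2 * (b ^ 2 * X) := by
      have h5 : b ^ 2 * X = κ ^ 2 * ‖c‖ ^ 2 * r ^ 4 := by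
        rw [hb, hX]
        field_simp
      rw [h5]
      have h6 : (δ * ‖c‖) ^ 2 * r ^ 4 ≤ ‖c‖ ^ 2 * r ^ 4 := by
        have : δ ^ 2 ≤ 1 := by nlinarith
        have : (δ * ‖c‖) ^ 2 ≤ ‖c‖ ^ 2 := by
          rw [mul_pow]
          nlinarith [sq_nonneg ‖c‖]
        gcongr
      calc C2 * (nM * (κ ^ 2 * (nK * (2 * ((δ * ‖c‖) ^ 2 * r ^ 4) + 2 * (‖c‖ ^ 2 * (V0 * r ^ 4))))))
          ≤ C2 * (nM * (κ ^ 2 * (nK * (2 * (‖c‖ ^ 2 * r ^ 4) + 2 * (‖c‖ ^ 2 * (V0 * r ^ 4)))))) := by
            gcongr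
        _ = P / 2 * (κ ^ 2 * ‖c‖ ^ 2 * r ^ 4) := by rw [hP]; ring
    have hsecond : (C1 * (θ * (S * δ * ‖c‖))) ^ 2 * (V0 * (θ * r) ^ 4) = (C1 * V0) ^ 2 * (a ^ 2 * X) := by
      have : (C1 * (θ * (S * δ * ‖c‖))) ^ 2 * (V0 * (θ * r) ^ 4) =
          C1 ^ 2 * S ^ 2 * V0 * (a ^ 2 * X) := by rw [ha, hX]; ring
      rw [this, hSS]; ring
    have hCP : P ≤ C ^ 2 := by nlinarith
    have hCQ : 2 * (C1 * V0) ^ 2 ≤ C ^ 2 := by nlinarith
    calc ∫ x in ball (0 : E) (θ * r), (T k x - c') ^ 2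
        ≤ 2 * (P / 2 * (b ^ 2 * X)) + 2 * ((C1 * V0) ^ 2 * (a ^ 2 * X)) := by
          have := h1.trans hfirst
          have := h2.trans_eq hsecond
          linarith
      _ = P * (b ^ 2 * X) + (2 * (C1 * V0) ^ 2) * (a ^ 2 * X) := by ring
      _ ≤ C ^ 2 * (b ^ 2 * X) + C ^ 2 * (a ^ 2 * X) := by gcongr
      _ ≤ C ^ 2 * ((a + b) ^ 2 * X) := by
          have : b ^ 2 * X + a ^ 2 * X ≤ (a + b) ^ 2 * X := by
            have := mul_nonneg (mul_nonneg ha0 hb0) hX0
            nlinarith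
          nlinarith [sq_nonneg C]
      _ = (C * (a + b) * ‖c‖) ^ 2 * (θ * r) ^ 4 := by rw [hX]; ring

end Pool.Agent.Lib.Psd
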